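import Pool.Agent.Lib.H56.Gen.Ring

/-!
# Cusp data, principal congruence subgroups and the translation lattice
-/

namespace Pool.Agent.Lib.H56.Gen

open Matrix hiding J
open MeasureTheory Topology
open Pool.Agent.Lib.H56.Picard
open scoped ENNReal

noncomputable section

/-- Cusp data at level `π`: the lattice of Heisenberg translations congruent to `1` mod `π`. -/
structure Cusp (q : QD) where
  /-- generator of the level -/
  p : ℂ
  /-- basis of the lattice of horizontal translations -/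
  e1 : ℂ
  /-- basis of the lattice of horizontal translations -/
  e2 : ℂ
  /-- vertical part of the first translation -/
  w1 : ℂ
  /-- vertical part of the second translation -/
  w2 : ℂ
  /-- vertical period -/
  P : ℝ
  hp : p ∈ OO q
  hp0 : p ≠ 0
  he1 : ∃ x ∈ OO q, e1 = p * x
  he2 : ∃ x ∈ OO q, e2 = p * x
  hs1 : ∃ x ∈ OO q, star e1 = p * x
  hs2 : ∃ x ∈ OO q, star e2 = p * x
  hw1 : ∃ x ∈ OO q, w1 = p * x
  hw2 : ∃ x ∈ OO q, w2 = p * x
  hw0 : ∃ x ∈ OO q, (⟨0, P / 2⟩ : ℂ) = p * x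
  r1 : 2 * w1.re = -Complex.normSq e1
  r2 : 2 * w2.re = -Complex.normSq e2
  hP : 0 < P
  cov : 0 < e1.re * e2.im - e1.im * e2.re
  cen : ∀ x ∈ OO q, (p * x).re = 0 → ∃ k : ℤ, (p * x).im = k * (P / 2)

/-- Horospherical coordinates. -/
def PsiE (e1 e2 : ℂ) (s t v u : ℝ) : ℂ × ℂ :=
  (⟨(-Complex.normSq (s * e1 + t * e2) - u) / 2, v / 2⟩, s * e1 + t * e2)

/-- The full arithmetic group. -/
abbrev Gam (q : QD) : Subgroup SU21 := arith (OO q) star_mem

/-- The ideal generated by `p`. -/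
def PO (q : QD) (p : ℂ) : AddSubgroup ℂ where
  carrier := {z | ∃ x ∈ OO q, z = p * x}
  add_mem' := by
    rintro _ _ ⟨x, hx, rfl⟩ ⟨y, hy, rfl⟩
    exact ⟨x + y, (OO q).add_mem hx hy, by ring⟩
  zero_mem' := ⟨0, (OO q).zero_mem, by ring⟩
  neg_mem' := by
    rintro _ ⟨x, hx, rfl⟩
    exact ⟨-x, (OO q).neg_mem hx, by ring⟩

variable {q : QD} {p : ℂ}

lemma mem_PO {z : ℂ} : z ∈ PO q p ↔ ∃ x ∈ OO q, z = p * x := Iff.rfl

lemma PO_mul_left {a z : ℂ} (ha : a ∈ OO q) (hz : z ∈ PO q p) : a * z ∈ PO q p := by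
  obtain ⟨x, hx, rfl⟩ := hz
  exact ⟨a * x, (OO q).mul_mem ha hx, by ring⟩

lemma PO_mul_right {a z : ℂ} (ha : a ∈ OO q) (hz : z ∈ PO q p) : z * a ∈ PO q p := by
  rw [mul_comm]
  exact PO_mul_left ha hz

lemma PO_le (hp : p ∈ OO q) {z : ℂ} (hz : z ∈ PO q p) : z ∈ OO q := by
  obtain ⟨x, hx, rfl⟩ := hz
  exact (OO q).mul_mem hp hx

/-- a difference of group elements divisible by `p` gives a quotient congruent to one -/
lemma mul_sub_one_mem {a b : SU21} (ha : a ∈ Gam q)
    (h : ∀ i j, mat b i j - mat a⁻¹ i j ∈ PO q p) (i j : Fin 3) :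
    mat (a * b) i j - (1 : Matrix (Fin 3) (Fin 3) ℂ) i j ∈ PO q p := by
  have e1 : mat a * mat a⁻¹ = 1 := by rw [← mat_mul, mul_inv_cancel, mat_one]
  have e2 : mat (a * b) i j - (1 : Matrix (Fin 3) (Fin 3) ℂ) i j =
      ∑ k, mat a i k * (mat b k j - mat a⁻¹ k j) := by
    rw [mat_mul, ← e1, Matrix.mul_apply, Matrix.mul_apply, ← Finset.sum_sub_distrib]
    exact Finset.sum_congr rfl fun k _ => by ring
  rw [e2]
  exact (PO q p).sum_mem fun k _ => PO_mul_left (ha i k) (h k j)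

/-- The principal congruence subgroup of level `p`. -/
def GamN (q : QD) (p : ℂ) : Subgroup (Gam q) where
  carrier := {γ | ∀ i j, ∃ x ∈ OO q, mat γ.1 i j - (1 : Matrix (Fin 3) (Fin 3) ℂ) i j = p * x}
  mul_mem' := by
    intro a b ha hb i j
    have e2 : mat (a * b).1 i j - (1 : Matrix (Fin 3) (Fin 3) ℂ) i j =
        (∑ k, mat a.1 i k * (mat b.1 k j - (1 : Matrix (Fin 3) (Fin 3) ℂ) k j)) +
          (mat a.1 i j - (1 : Matrix (Fin 3) (Fin 3) ℂ) i j) := by
      have e3 : ∑ k, mat a.1 i k * (1 : Matrix (Fin 3) (Fin 3) ℂ) k j = mat a.1 i j := by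
        rw [← Matrix.mul_apply, Matrix.mul_one]
      simp only [mul_sub, Finset.sum_sub_distrib, e3]
      have e4 : mat (a * b).1 i j = ∑ k, mat a.1 i k * mat b.1 k j := by
        rw [← Matrix.mul_apply]
        rfl
      rw [e4]
      ring
    have h1 : mat (a * b).1 i j - (1 : Matrix (Fin 3) (Fin 3) ℂ) i j ∈ PO q p := by
      rw [e2]
      exact (PO q p).add_mem ((PO q p).sum_mem fun k _ => PO_mul_left (a.2 i k) (hb k j)) (ha i j)
    exact h1
  one_mem' := by
    intro i j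
    have : mat ((1 : Gam q)).1 i j - (1 : Matrix (Fin 3) (Fin 3) ℂ) i j = 0 := by
      have h1 : mat ((1 : Gam q)).1 = 1 := mat_one
      rw [h1, sub_self]
    rw [this]
    exact (PO q p).zero_mem
  inv_mem' := by
    intro a ha i j
    have h1 := mul_sub_one_mem (q := q) (p := p) (a := (a⁻¹).1) (b := 1) (a⁻¹).2 (fun i j => by
      have h2 : ((a⁻¹).1 : SU21)⁻¹ = a.1 := inv_inv a.1
      rw [h2, mat_one]
      have h3 := (PO q p).neg_mem (ha i j)
      rwa [neg_sub] at h3) i j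
    rwa [mul_one] at h1

lemma mem_GamN {γ : Gam q} : γ ∈ GamN q p ↔
    ∀ i j, mat γ.1 i j - (1 : Matrix (Fin 3) (Fin 3) ℂ) i j ∈ PO q p := Iff.rfl

instance GamN_normal : (GamN q p).Normal where
  conj_mem := by
    intro n hn g
    rw [mem_GamN] at hn ⊢
    have h0 : ∀ i j, mat (n * g⁻¹).1 i j - mat (g⁻¹).1 i j ∈ PO q p := by
      intro i j
      have e1 : mat (n * g⁻¹).1 i j - mat (g⁻¹).1 i j =
          ∑ k, (mat n.1 i k - (1 : Matrix (Fin 3) (Fin 3) ℂ) i k) * mat (g⁻¹).1 k j := by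
        have e3 : ∑ k, (1 : Matrix (Fin 3) (Fin 3) ℂ) i k * mat (g⁻¹).1 k j =
            mat (g⁻¹).1 i j := by
          rw [← Matrix.mul_apply, Matrix.one_mul]
        simp only [sub_mul, Finset.sum_sub_distrib, e3]
        have e4 : mat (n * g⁻¹).1 i j = ∑ k, mat n.1 i k * mat (g⁻¹).1 k j := by
          rw [← Matrix.mul_apply]
          rfl
        rw [e4]
      rw [e1]
      exact (PO q p).sum_mem fun k _ => PO_mul_right ((g⁻¹).2 k j) (hn i k)
    intro i j
    have h1 := mul_sub_one_mem (q := q) (p := p) (a := g.1) (b := (n * g⁻¹).1) g.2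
      (fun i j => h0 i j) i j
    have h2 : (g * n * g⁻¹ : Gam q).1 = g.1 * (n * g⁻¹).1 := by
      rw [mul_assoc]
      rfl
    rw [h2]
    exact h1

lemma GamN_finiteIndex (hp : p ∈ OO q) (hp0 : p ≠ 0) : (GamN q p).FiniteIndex := by
  obtain ⟨N, hN0, hN⟩ := normSq_mem hp
  have hNpos : 0 < N := by
    rcases hN0.lt_or_eq with h | h
    · exact h
    · exfalso
      apply hp0
      rw [← Complex.normSq_eq_zero, hN, ← h]
      simp
  lift N to ℕ using hN0
  have : NeZero N := ⟨by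
    rintro rfl
    simp at hNpos⟩
  have hcoord : ∀ (g : Gam q) (i j : Fin 3), ∃ a b : ℤ, mat g.1 i j = el q a b := fun g i j =>
    g.2 i j
  choose a b hab using hcoord
  -- the residue map
  let ρ : Gam q → (Fin 3 → Fin 3 → ZMod N × ZMod N) := fun g i j => ((a g i j : ZMod N), (b g i j : ZMod N))
  have key : ∀ g h : Gam q, ρ g = ρ h → g⁻¹ * h ∈ GamN q p := by
    intro g h hgh
    rw [mem_GamN]
    intro i j
    refine mul_sub_one_mem (q := q) (p := p) (a := (g⁻¹).1) (b := h.1) (g⁻¹).2 (fun i j => ?_) i j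
    have h2 : ((g⁻¹).1 : SU21)⁻¹ = g.1 := inv_inv g.1
    rw [h2, hab, hab, el_sub]
    have h3 := congrFun (congrFun hgh i) j
    have h4 : ((a g i j : ZMod N)) = (a h i j : ZMod N) := congrArg Prod.fst h3
    have h5 : ((b g i j : ZMod N)) = (b h i j : ZMod N) := congrArg Prod.snd h3
    rw [ZMod.intCast_eq_intCast_iff_dvd_sub] at h4 h5
    obtain ⟨c, hc⟩ := h4
    obtain ⟨d, hd⟩ := h5
    rw [hc, hd]
    refine ⟨star p * el q c d, (OO q).mul_mem (star_mem p hp) (el_mem c d), ?_⟩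
    have h6 : p * star p = ((N : ℤ) : ℂ) := by
      rw [Complex.star_def, Complex.mul_conj, hN]
      simp
    rw [← mul_assoc, h6]
    apply Complex.ext <;> simp [el] <;> ring
  have hfin : Finite (Gam q ⧸ GamN q p) := by
    apply Finite.of_injective (fun x : Gam q ⧸ GamN q p => ρ x.out)
    intro x y hxy
    have h1 := key _ _ hxy
    rw [← QuotientGroup.eq, QuotientGroup.out_eq', QuotientGroup.out_eq'] at h1
    exact h1
  exact Subgroup.finiteIndex_of_finite_quotient

/-! ### Translations -/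

lemma TM_mul (l w l' w' : ℂ) : TM l w * TM l' w' = TM (l + l') (w + w' - star l * l') := by
  ext i j
  fin_cases i <;> fin_cases j <;>
    simp [TM, Matrix.mul_apply, Fin.sum_univ_three] <;> ring

lemma TM_inv {l w : ℂ} (h : 2 * w.re = -Complex.normSq l) :
    Picard.J * (TM l w)ᴴ * Picard.J = TM (-l) (-(w + star l * l)) := by
  have h1 : star w + star l * l + w = 0 := by
    apply Complex.ext
    · rw [Complex.normSq_apply] at h
      simp; linarith
    · simp; ring
  have h2 : star w = -(w + star l * l) := by linear_combination h1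
  ext i j
  fin_cases i <;> fin_cases j <;>
    simp [TM, Picard.J, Matrix.mul_apply, Matrix.vecMul, dotProduct, Fin.sum_univ_three]
  simp only [Complex.star_def] at h2
  rw [h2]
  ring

lemma TM_inj {l w l' w' : ℂ} (h : TM l w = TM l' w') : l = l' ∧ w = w' := by
  constructor
  · exact congrFun (congrFun h 1) 2
  · exact congrFun (congrFun h 0) 2

namespace Cusp

variable (K : Cusp q)

/-- covolume of the lattice -/
def cv : ℝ := K.e1.re * K.e2.im - K.e1.im * K.e2.re

/-- coefficient of `S²` -/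
def A1 : ℝ := Complex.normSq K.e2 / (4 * K.cv ^ 2)
/-- coefficient of `SW` -/
def A2 : ℝ :=
  -(2 * (K.e1.re * K.e2.re + K.e1.im * K.e2.im)) / (4 * K.cv ^ 2)
/-- coefficient of `W²` -/
def A3 : ℝ := Complex.normSq K.e1 / (4 * K.cv ^ 2)

lemma cv_pos : 0 < K.cv := K.cov

/-- lattice vectors -/
def lv (m n : ℤ) : ℂ := m * K.e1 + n * K.e2

lemma lv_add (m n m' n' : ℤ) : K.lv m n + K.lv m' n' = K.lv (m + m') (n + n') := by
  simp only [lv]; push_cast; ring

lemma lv_neg (m n : ℤ) : -K.lv m n = K.lv (-m) (-n) := by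
  simp only [lv]; push_cast; ring

lemma lv_mem (m n : ℤ) : K.lv m n ∈ PO q K.p := by
  unfold lv
  refine (PO q K.p).add_mem ?_ ?_
  · rw [← zsmul_eq_mul]
    exact (PO q K.p).zsmul_mem K.he1 m
  · rw [← zsmul_eq_mul]
    exact (PO q K.p).zsmul_mem K.he2 n

/-- horizontal vectors that are parts of translations -/
def hor : AddSubgroup ℂ where
  carrier := {l | l ∈ PO q K.p ∧ ∃ w ∈ PO q K.p, 2 * w.re = -Complex.normSq l}
  add_mem' := by
    rintro l l' ⟨hl, w, hw, h⟩ ⟨hl', w', hw', h'⟩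
    refine ⟨(PO q K.p).add_mem hl hl', w + w' - star l * l', ?_, ?_⟩
    · exact (PO q K.p).sub_mem ((PO q K.p).add_mem hw hw')
        (PO_mul_left (star_mem l (PO_le K.hp hl)) hl')
    · rw [Complex.normSq_apply] at h h' ⊢
      simp
      linarith
  zero_mem' := ⟨(PO q K.p).zero_mem, 0, (PO q K.p).zero_mem, by simp⟩
  neg_mem' := by
    rintro l ⟨hl, w, hw, h⟩
    refine ⟨(PO q K.p).neg_mem hl, -(w + star l * l), ?_, ?_⟩
    · exact (PO q K.p).neg_mem ((PO q K.p).add_mem hw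
        (PO_mul_left (star_mem l (PO_le K.hp hl)) hl))
    · rw [Complex.normSq_neg]
      rw [Complex.normSq_apply] at h ⊢
      simp
      linarith

lemma exists_w (m n : ℤ) : ∃ w ∈ PO q K.p, 2 * w.re = -Complex.normSq (K.lv m n) := by
  have h1 : K.e1 ∈ K.hor := ⟨K.he1, K.w1, K.hw1, K.r1⟩
  have h2 : K.e2 ∈ K.hor := ⟨K.he2, K.w2, K.hw2, K.r2⟩
  have h3 : K.lv m n ∈ K.hor := by
    unfold lv
    refine K.hor.add_mem ?_ ?_
    · rw [← zsmul_eq_mul]
      exact K.hor.zsmul_mem h1 m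
    · rw [← zsmul_eq_mul]
      exact K.hor.zsmul_mem h2 n
  exact h3.2

/-- The group of translations of the cusp. -/
def B : Subgroup (Gam q) where
  carrier := {γ | ∃ (m n : ℤ) (w : ℂ), w ∈ PO q K.p ∧ 2 * w.re = -Complex.normSq (K.lv m n) ∧
    mat γ.1 = TM (K.lv m n) w}
  mul_mem' := by
    rintro a b ⟨m, n, w, hw, h, ha⟩ ⟨m', n', w', hw', h', hb⟩
    refine ⟨m + m', n + n', w + w' - star (K.lv m n) * K.lv m' n', ?_, ?_, ?_⟩
    · exact (PO q K.p).sub_mem ((PO q K.p).add_mem hw hw')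
        (PO_mul_left (star_mem _ (PO_le K.hp (K.lv_mem m n))) (K.lv_mem m' n'))
    · rw [← K.lv_add]
      rw [Complex.normSq_apply] at h h' ⊢
      simp
      linarith
    · rw [← K.lv_add, ← TM_mul, ← ha, ← hb]
      rfl
  one_mem' := by
    refine ⟨0, 0, 0, (PO q K.p).zero_mem, by simp [lv], ?_⟩
    have h1 : mat ((1 : Gam q)).1 = 1 := mat_one
    rw [h1]
    ext i j
    fin_cases i <;> fin_cases j <;> simp [TM, lv]
  inv_mem' := by
    rintro a ⟨m, n, w, hw, h, ha⟩
    refine ⟨-m, -n, -(w + star (K.lv m n) * K.lv m n), ?_, ?_, ?_⟩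
    · exact (PO q K.p).neg_mem ((PO q K.p).add_mem hw
        (PO_mul_left (star_mem _ (PO_le K.hp (K.lv_mem m n))) (K.lv_mem m n)))
    · rw [← K.lv_neg, Complex.normSq_neg]
      rw [Complex.normSq_apply] at h ⊢
      simp
      linarith
    · rw [← K.lv_neg, ← TM_inv h, ← ha]
      exact mat_inv a.1

lemma mem_B {γ : Gam q} : γ ∈ K.B ↔ ∃ (m n : ℤ) (w : ℂ), w ∈ PO q K.p ∧
    2 * w.re = -Complex.normSq (K.lv m n) ∧ mat γ.1 = TM (K.lv m n) w := Iff.rfl

/-! ### Coordinates -/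

/-- first horizontal coordinate -/
def sc (z : ℂ × ℂ) : ℝ := (z.2.re * K.e2.im - z.2.im * K.e2.re) / K.cv
/-- second horizontal coordinate -/
def tc (z : ℂ × ℂ) : ℝ := (K.e1.re * z.2.im - K.e1.im * z.2.re) / K.cv
/-- vertical coordinate -/
def vc (z : ℂ × ℂ) : ℝ := 2 * z.1.im

lemma sc_add (z1 z2 : ℂ) (m n : ℤ) : K.sc (z1, z2 + K.lv m n) = K.sc (0, z2) + m := by
  have h := K.cv_pos.ne'
  simp only [sc, lv]
  field_simp
  simp [cv]
  ring

lemma tc_add (z1 z2 : ℂ) (m n : ℤ) : K.tc (z1, z2 + K.lv m n) = K.tc (0, z2) + n := by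
  have h := K.cv_pos.ne'
  simp only [tc, lv]
  field_simp
  simp [cv]
  ring

/-- the box -/
def Box : Set (ℂ × ℂ) := {z | 0 < height z ∧ K.sc z ∈ Set.Ico (0 : ℝ) 1 ∧
  K.tc z ∈ Set.Ico (0 : ℝ) 1 ∧ vc z ∈ Set.Ico (0 : ℝ) K.P}

lemma int_eq_zero_of_Ico {x y : ℝ} {k : ℤ} {P : ℝ} (hP : 0 < P) (hx : x ∈ Set.Ico 0 P)
    (hy : y ∈ Set.Ico 0 P) (h : y = x + k * P) : k = 0 := by
  have h1 : (k : ℝ) * P < P := by
    have := hx.1; have := hy.2; linarith
  have h2 : -P < (k : ℝ) * P := by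
    have := hx.2; have := hy.1; linarith
  have h3 : (k : ℝ) < 1 := by
    by_contra hc
    push Not at hc
    nlinarith
  have h4 : (-1 : ℝ) < k := by
    by_contra hc
    push Not at hc
    nlinarith
  have h5 : k < 1 := by exact_mod_cast h3
  have h6 : -1 < k := by exact_mod_cast h4
  omega

/-- Every point has exactly one translate in the box. -/
lemma exists_unique_B {z : ℂ × ℂ} (hz : 0 < height z) :
    ∃! b : K.B, act (mat b.1.1) z ∈ K.Box := by
  set m : ℤ := -⌊K.sc z⌋ with hm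
  set n : ℤ := -⌊K.tc z⌋ with hn
  obtain ⟨w0, hw0, hr0⟩ := K.exists_w m n
  set v0 : ℝ := 2 * (z.1 - star (K.lv m n) * z.2 + w0).im with hv0
  set k : ℤ := -⌊v0 / K.P⌋ with hk
  have hP := K.hP
  have hk1 : v0 + k * K.P ∈ Set.Ico (0 : ℝ) K.P := by
    have h3 := Int.floor_le (v0 / K.P)
    have h4 := Int.lt_floor_add_one (v0 / K.P)
    rw [le_div_iff₀ hP] at h3
    rw [div_lt_iff₀ hP] at h4
    rw [hk]
    push_cast
    constructor
    · linarith
    · linarith
  set w : ℂ := w0 + k * ⟨0, K.P / 2⟩ with hw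
  have hwm : w ∈ PO q K.p := by
    refine (PO q K.p).add_mem hw0 ?_
    rw [← zsmul_eq_mul]
    exact (PO q K.p).zsmul_mem K.hw0 k
  have hwr : 2 * w.re = -Complex.normSq (K.lv m n) := by
    rw [← hr0, hw]
    simp
  have hTm : T (K.lv m n) w hwr ∈ Gam q :=
    T_mem hwr (PO_le K.hp (K.lv_mem m n)) (PO_le K.hp hwm)
  have hB : (⟨T (K.lv m n) w hwr, hTm⟩ : Gam q) ∈ K.B := ⟨m, n, w, hwm, hwr, mat_T hwr⟩
  refine ⟨⟨⟨T (K.lv m n) w hwr, hTm⟩, hB⟩, ?_, ?_⟩
  · show act (mat (T (K.lv m n) w hwr)) z ∈ K.Box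
    have h0 := height_act_pos (mat_unitary (T (K.lv m n) w hwr)) hz
    rw [mat_T, act_TM] at h0 ⊢
    refine ⟨h0, ?_, ?_, ?_⟩
    · rw [sc_add]
      have e : K.sc (0, z.2) = K.sc z := rfl
      rw [e, hm]
      push_cast
      have h3 := Int.floor_le (K.sc z)
      have h4 := Int.lt_floor_add_one (K.sc z)
      constructor <;> linarith
    · rw [tc_add]
      have e : K.tc (0, z.2) = K.tc z := rfl
      rw [e, hn]
      push_cast
      have h3 := Int.floor_le (K.tc z)
      have h4 := Int.lt_floor_add_one (K.tc z)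
      constructor <;> linarith
    · have e : vc (z.1 - star (K.lv m n) * z.2 + w, z.2 + K.lv m n) = v0 + k * K.P := by
        simp only [vc, hv0, hw]
        simp
        ring
      rw [e]
      exact hk1
  · rintro ⟨⟨γ, hγ⟩, m', n', w', hw', hr', hT'⟩ hbox
    have hT'' : mat γ = TM (K.lv m' n') w' := hT'
    have hbox' : act (mat γ) z ∈ K.Box := hbox
    rw [hT'', act_TM] at hbox'
    obtain ⟨-, b1, b2, b3⟩ := hbox'
    rw [sc_add] at b1
    rw [tc_add] at b2
    have em : m' = m := by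
      have e : K.sc (0, z.2) = K.sc z := rfl
      rw [e] at b1
      have h1 : ⌊K.sc z⌋ = -m' := by
        rw [Int.floor_eq_iff]
        push_cast
        constructor
        · linarith [b1.1]
        · linarith [b1.2]
      rw [hm, h1]; ring
    have en : n' = n := by
      have e : K.tc (0, z.2) = K.tc z := rfl
      rw [e] at b2
      have h1 : ⌊K.tc z⌋ = -n' := by
        rw [Int.floor_eq_iff]
        push_cast
        constructor
        · linarith [b2.1]
        · linarith [b2.2]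
      rw [hn, h1]; ring
    subst em en
    -- vertical part
    have h1 : w' - w ∈ PO q K.p := (PO q K.p).sub_mem hw' hwm
    obtain ⟨x, hx, hxe⟩ := h1
    have h2 : (K.p * x).re = 0 := by
      rw [← hxe, Complex.sub_re]
      linarith
    obtain ⟨k', hk'⟩ := K.cen x hx h2
    rw [← hxe, Complex.sub_im] at hk'
    have h3 : vc (z.1 - star (K.lv m n) * z.2 + w', z.2 + K.lv m n) =
        (v0 + k * K.P) + k' * K.P := by
      have e : vc (z.1 - star (K.lv m n) * z.2 + w, z.2 + K.lv m n) = v0 + k * K.P := by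
        simp only [vc, hv0, hw]
        simp
        ring
      rw [← e]
      simp only [vc, Complex.add_im]
      linarith
    have h4 : k' = 0 := int_eq_zero_of_Ico hP hk1 b3 h3
    have h5 : w' = w := by
      rw [h4] at hk'
      apply Complex.ext
      · linarith
      · have : w'.im - w.im = 0 := by rw [hk']; simp
        linarith
    subst h5
    apply Subtype.ext
    apply Subtype.ext
    apply mat_injective
    exact hT''

end Cusp

end

end Pool.Agent.Lib.H56.Gen
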