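import Pool.Agent.Lib.H56.Gen.CuspWU

/-!
# The weighted cusp inequality (chunk A, statement by helper56, proof by helper92)
-/

open MeasureTheory Set Real intervalIntegral Function
open scoped ENNReal

namespace Pool.Agent.Lib.H56.Gen

open Picard

/-- iterated integral over the box `s, t ∈ [0,1]`, `v ∈ [0,P]`, `u > h` -/
noncomputable def BW (h P : ℝ) (φ : ℝ → ℝ → ℝ → ℝ → ℝ) : ℝ≥0∞ :=
  ∫⁻ u in Ioi h, ∫⁻ s in Icc (0:ℝ) 1, ∫⁻ t in Icc (0:ℝ) 1, ∫⁻ v in Icc (0:ℝ) P,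
    ENNReal.ofReal (u⁻¹ ^ 3 * φ s t v u)

section Tonelli

variable {φ φ0 φ1 φ2 : ℝ → ℝ → ℝ → ℝ≥0∞} {h : ℝ}

/-- iterated integral over `u > h`, `s, t ∈ [0,1]` -/
noncomputable def B3W (h : ℝ) (φ : ℝ → ℝ → ℝ → ℝ≥0∞) : ℝ≥0∞ :=
  ∫⁻ u in Ioi h, ∫⁻ s in Icc (0:ℝ) 1, ∫⁻ t in Icc (0:ℝ) 1, φ s t u

lemma B3W_add (h1 : Meas3 φ1) :
    B3W h (fun s t u => φ1 s t u + φ2 s t u) = B3W h φ1 + B3W h φ2 := by
  unfold B3W
  rw [← lintegral_add_left h1.u]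
  refine lintegral_congr fun u => ?_
  rw [← lintegral_add_left (h1.st u)]
  refine lintegral_congr fun s => ?_
  rw [← lintegral_add_left (h1.t s u)]

lemma B3W_swap (h1 : Meas3 φ) :
    B3W h φ = ∫⁻ s in Icc (0:ℝ) 1, ∫⁻ t in Icc (0:ℝ) 1, ∫⁻ u in Ioi h, φ s t u := by
  unfold B3W
  rw [lintegral_lintegral_swap (f := fun u s => ∫⁻ t in Icc (0:ℝ) 1, φ s t u)
    h1.us.aemeasurable]
  refine lintegral_congr fun s => ?_
  rw [lintegral_lintegral_swap (f := fun u t => φ s t u)]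
  have : Measurable fun p : ℝ × ℝ => φ s p.2 p.1 :=
    h1.comp (measurable_const.prodMk (measurable_snd.prodMk measurable_fst))
  exact this.aemeasurable

lemma B3W_mono (hφ : ∀ s t u, h < u → φ1 s t u ≤ φ2 s t u) : B3W h φ1 ≤ B3W h φ2 := by
  unfold B3W
  refine setLIntegral_mono' measurableSet_Ioi fun u hu => ?_
  exact lintegral_mono fun s => lintegral_mono fun t => hφ s t u hu

/-- pointwise in `(s,t)` inequality for the inner `u` integral -/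
lemma B3W_inner (h0 : Meas3 φ0) (h1 : Meas3 φ1) (h2 : Meas3 φ2) (hfin : B3W h φ0 < ∞)
    (hφ : ∀ s t, ∫⁻ u in Ioi h, φ0 s t u < ∞ →
      ∫⁻ u in Ioi h, φ1 s t u ≤ ∫⁻ u in Ioi h, φ2 s t u) :
    B3W h φ1 ≤ B3W h φ2 := by
  rw [B3W_swap h0] at hfin
  rw [B3W_swap h1, B3W_swap h2]
  have m1 : Measurable fun q : ℝ × ℝ => ∫⁻ u in Ioi h, φ0 q.1 q.2 u := by
    have : Measurable fun p : (ℝ × ℝ) × ℝ => φ0 p.1.1 p.1.2 p.2 :=
      h0.comp (measurable_fst.fst.prodMk (measurable_fst.snd.prodMk measurable_snd))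
    exact this.lintegral_prod_right'
  have m2 : Measurable fun s => ∫⁻ t in Icc (0:ℝ) 1, ∫⁻ u in Ioi h, φ0 s t u :=
    m1.lintegral_prod_right'
  have m3 : ∀ s, Measurable fun t => ∫⁻ u in Ioi h, φ0 s t u := fun s =>
    m1.comp measurable_prodMk_left
  refine lintegral_mono_ae ?_
  filter_upwards [ae_lt_top m2 hfin.ne] with s hs
  refine lintegral_mono_ae ?_
  filter_upwards [ae_lt_top (m3 s) hs.ne] with t ht
  exact hφ s t ht

variable {ψ0 ψ1 ψ2 : ℝ → ℝ → ℝ → ℝ → ℝ≥0∞}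

/-- pointwise in `(s,t,v)` inequality for the inner `u` integral -/
lemma B4W_inner {P : ℝ} (h0 : Meas4 ψ0) (h1 : Meas4 ψ1) (h2 : Meas4 ψ2)
    (hfin : B3W h (fun s t u => ∫⁻ v in Icc (0:ℝ) P, ψ0 s t v u) < ∞)
    (hψ : ∀ s t v, ∫⁻ u in Ioi h, ψ0 s t v u < ∞ →
      ∫⁻ u in Ioi h, ψ1 s t v u ≤ ∫⁻ u in Ioi h, ψ2 s t v u) :
    B3W h (fun s t u => ∫⁻ v in Icc (0:ℝ) P, ψ1 s t v u) ≤
      B3W h (fun s t u => ∫⁻ v in Icc (0:ℝ) P, ψ2 s t v u) := by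
  refine B3W_inner (h0.meas3 P) (h1.meas3 P) (h2.meas3 P) hfin (fun s t hst => ?_)
  have sw : ∀ {ψ : ℝ → ℝ → ℝ → ℝ → ℝ≥0∞}, Meas4 ψ →
      ∫⁻ u in Ioi h, ∫⁻ v in Icc (0:ℝ) P, ψ s t v u =
      ∫⁻ v in Icc (0:ℝ) P, ∫⁻ u in Ioi h, ψ s t v u := by
    intro ψ hψ
    rw [lintegral_lintegral_swap (f := fun u v => ψ s t v u)]
    have : Measurable fun p : ℝ × ℝ => ψ s t p.2 p.1 :=
      hψ.comp (measurable_const.prodMk (measurable_const.prodMk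
        (measurable_snd.prodMk measurable_fst)))
    exact this.aemeasurable
  rw [sw h0] at hst
  rw [sw h1, sw h2]
  have m3 : Measurable fun v => ∫⁻ u in Ioi h, ψ0 s t v u := by
    have : Measurable fun p : ℝ × ℝ => ψ0 s t p.1 p.2 :=
      h0.comp (measurable_const.prodMk (measurable_const.prodMk
        (measurable_fst.prodMk measurable_snd)))
    exact this.lintegral_prod_right'
  refine lintegral_mono_ae ?_
  filter_upwards [ae_lt_top m3 hst.ne] with v hv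
  exact hψ s t v hv

end Tonelli

lemma meas_v3 {V : ℝ → ℝ} (mV : Measurable V) {G : ℝ → ℝ → ℝ → ℝ} (h : Cont3 G) :
    Meas3 fun s t u => ENNReal.ofReal (u⁻¹ ^ 3 * (V u * G s t u)) := by
  have h1 : Measurable fun p : ℝ × ℝ × ℝ => G p.1 p.2.1 p.2.2 := h.meas
  have h2 : Measurable fun p : ℝ × ℝ × ℝ => (p.2.2)⁻¹ ^ 3 :=
    (measurable_snd.snd.inv).pow_const 3
  have h3 : Measurable fun p : ℝ × ℝ × ℝ => V p.2.2 := mV.comp measurable_snd.snd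
  exact (h2.mul (h3.mul h1)).ennreal_ofReal

lemma meas_v4 {V : ℝ → ℝ} (mV : Measurable V) {G : ℝ → ℝ → ℝ → ℝ → ℝ} (h : Cont4 G) :
    Meas4 fun s t v u => ENNReal.ofReal (u⁻¹ ^ 3 * (V u * G s t v u)) := by
  have h1 : Measurable fun p : ℝ × ℝ × ℝ × ℝ => G p.1 p.2.1 p.2.2.1 p.2.2.2 := h.meas
  have h2 : Measurable fun p : ℝ × ℝ × ℝ × ℝ => (p.2.2.2)⁻¹ ^ 3 :=
    (measurable_snd.snd.snd.inv).pow_const 3
  have h3 : Measurable fun p : ℝ × ℝ × ℝ × ℝ => V p.2.2.2 := mV.comp measurable_snd.snd.snd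
  exact (h2.mul (h3.mul h1)).ennreal_ofReal

/-- weighted cusp inequality for globally continuous functions -/
theorem cuspW_core {h P a A1 A2 A3 k0 L : ℝ} (hh : 0 < h) (hP : 0 < P)
    (hA1 : 0 < A1) (hA : A2 ^ 2 < 4 * A1 * A3)
    (hk0 : 0 ≤ k0) (hk : ∀ i j : ℤ, (i ≠ 0 ∨ j ≠ 0) → k0 ≤ A1 * i ^ 2 + A2 * i * j + A3 * j ^ 2)
    (hL0 : 0 ≤ L) (hL : L ^ 2 ≤ a ^ 2 * (4 * A1 * A3 - A2 ^ 2))
    {w V B1 B2 B1' B2' : ℝ → ℝ}
    (cw : Continuous w) (hw : ∀ u, h ≤ u → 0 < w u)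
    (mV : Measurable V) (hV0 : ∀ u, h < u → 0 ≤ V u)
    (hB1 : ∀ u, h < u → HasDerivAt B1 (B1' u) u) (hB2 : ∀ u, h < u → HasDerivAt B2 (B2' u) u)
    (cB1 : ContinuousOn B1 (Ici h)) (cB2 : ContinuousOn B2 (Ici h))
    (cB1' : ContinuousOn B1' (Ici h)) (cB2' : ContinuousOn B2' (Ici h))
    (hB1h : B1 h ≤ 0) (hB2h : B2 h ≤ 0)
    {M : ℝ} (hM1 : ∀ u, h ≤ u → |B1 u| ≤ M * u⁻¹ ^ 2) (hM2 : ∀ u, h ≤ u → |B2 u| ≤ M * u⁻¹ ^ 2)
    (hV1 : ∀ u, h < u → u⁻¹ ^ 3 * V u ≤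
      u⁻¹ ^ 3 * (w u * (u ^ 2 * (2 * π / P) ^ 2 + u * L * (2 * π / P))) - B1' u -
        B1 u ^ 2 * (u / w u))
    (hV2 : ∀ u, h < u → u⁻¹ ^ 3 * V u ≤
      u⁻¹ ^ 3 * (w u * (u * (4 * π ^ 2 * k0))) - B2' u - B2 u ^ 2 * (u / w u))
    {F Fs Ft Fv Fu Fst : ℝ → ℝ → ℝ → ℝ → ℝ}
    (hs : ∀ s t v u, HasDerivAt (fun s => F s t v u) (Fs s t v u) s)
    (ht : ∀ s t v u, HasDerivAt (fun t => F s t v u) (Ft s t v u) t)
    (hv : ∀ s t v u, HasDerivAt (fun v => F s t v u) (Fv s t v u) v)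
    (hu : ∀ s t v u, h < u → HasDerivAt (fun u => F s t v u) (Fu s t v u) u)
    (hst : ∀ s t v u, HasDerivAt (fun t => Fs s t v u) (Fst s t v u) t)
    (hts : ∀ s t v u, HasDerivAt (fun s => Ft s t v u) (Fst s t v u) s)
    (cF : Cont4 F) (cFs : Cont4 Fs) (cFt : Cont4 Ft) (cFv : Cont4 Fv) (cFu : Cont4 Fu)
    (cFst : Cont4 Fst)
    (pv : ∀ s t v u, F s t (v + P) u = F s t v u)
    {α0 γ0 : ℝ} (ps : ∀ s t v u, F (s + 1) t (v + (α0 - a * t)) u = F s t v u)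
    (pt : ∀ s t v u, F s (t + 1) (v + (γ0 + a * s)) u = F s t v u)
    (h0 : ∀ u, h < u → ∫ s in (0:ℝ)..1, ∫ t in (0:ℝ)..1, ∫ v in (0:ℝ)..P, F s t v u = 0)
    (hfin : BW h P (fun s t v u => F s t v u ^ 2) < ∞) :
    BW h P (fun s t v u => V u * F s t v u ^ 2) ≤
      BW h P (fun s t v u => w u * (u ^ 2 * (Fu s t v u ^ 2 + Fv s t v u ^ 2) +
        u * (A1 * (Fs s t v u + a * t * Fv s t v u) ^ 2 +
          A2 * (Fs s t v u + a * t * Fv s t v u) * (Ft s t v u - a * s * Fv s t v u) +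
          A3 * (Ft s t v u - a * s * Fv s t v u) ^ 2))) := by
  set m := vmean P F with hm
  set mu := vmean P Fu with hmu
  have cm : Cont3 m := cF.vmean P
  have cmu : Cont3 mu := cFu.vmean P
  have cg : Cont4 fun s t v u => F s t v u - m s t u := cF.sub_vmean P
  have cgu : Cont4 fun s t v u => Fu s t v u - mu s t u := cFu.sub_vmean P
  have dmu : ∀ s t u, h < u → HasDerivAt (fun u => m s t u) (mu s t u) u := fun s t u h1 =>
    (hasDerivAt_int isOpen_Ioi (f := fun u v => F s t v u) (f' := fun u v => Fu s t v u)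
      (fun x hx v => hu s t v x hx) (cF.uv s t) (cFu.uv s t) (mem_Ioi.2 h1)).const_mul P⁻¹
  -- coefficients
  set c1 : ℝ → ℝ := fun u => u ^ 2 * (2 * π / P) ^ 2 + u * L * (2 * π / P) with hc1
  set c2 : ℝ → ℝ := fun u => u * (4 * π ^ 2 * k0) with hc2
  -- pieces
  set φ0 : ℝ → ℝ → ℝ → ℝ≥0∞ := fun s t u => ENNReal.ofReal (u⁻¹ ^ 3 * (P * m s t u ^ 2)) with hφ0
  set φV : ℝ → ℝ → ℝ → ℝ≥0∞ := fun s t u =>
    ENNReal.ofReal (u⁻¹ ^ 3 * (V u * (P * m s t u ^ 2))) with hφV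
  set φA : ℝ → ℝ → ℝ → ℝ≥0∞ := fun s t u => ENNReal.ofReal (u⁻¹ ^ 3 *
    (w u * (P * (u ^ 2 * mu s t u ^ 2 + u * (4 * π ^ 2 * k0) * m s t u ^ 2)))) with hφA
  set ψ0 : ℝ → ℝ → ℝ → ℝ → ℝ≥0∞ := fun s t v u => ENNReal.ofReal (u⁻¹ ^ 3 *
    (F s t v u - m s t u) ^ 2) with hψ0
  set ψV : ℝ → ℝ → ℝ → ℝ → ℝ≥0∞ := fun s t v u => ENNReal.ofReal (u⁻¹ ^ 3 *
    (V u * (F s t v u - m s t u) ^ 2)) with hψV
  set ψC : ℝ → ℝ → ℝ → ℝ → ℝ≥0∞ := fun s t v u => ENNReal.ofReal (u⁻¹ ^ 3 *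
    (w u * (u ^ 2 * (Fu s t v u - mu s t u) ^ 2 +
      (u ^ 2 * (2 * π / P) ^ 2 + u * L * (2 * π / P)) * (F s t v u - m s t u) ^ 2))) with hψC
  have cm' : Continuous fun p : ℝ × ℝ × ℝ => m p.1 p.2.1 p.2.2 := cm
  have cmu' : Continuous fun p : ℝ × ℝ × ℝ => mu p.1 p.2.1 p.2.2 := cmu
  have cg' : Continuous fun p : ℝ × ℝ × ℝ × ℝ => F p.1 p.2.1 p.2.2.1 p.2.2.2 - m p.1 p.2.1 p.2.2.2 :=
    cg
  have cgu' : Continuous fun p : ℝ × ℝ × ℝ × ℝ =>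
      Fu p.1 p.2.1 p.2.2.1 p.2.2.2 - mu p.1 p.2.1 p.2.2.2 := cgu
  have cw3 : Continuous fun p : ℝ × ℝ × ℝ => w p.2.2 := by fun_prop
  have cw4 : Continuous fun p : ℝ × ℝ × ℝ × ℝ => w p.2.2.2 := by fun_prop
  have m0' : Meas3 φ0 := meas_u3 (G := fun s t u => P * m s t u ^ 2) (by unfold Cont3; fun_prop)
  have mVm : Meas3 φV := meas_v3 mV (G := fun s t u => P * m s t u ^ 2)
    (by unfold Cont3; fun_prop)
  have mA : Meas3 φA := meas_u3 (G := fun s t u =>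
    w u * (P * (u ^ 2 * mu s t u ^ 2 + u * (4 * π ^ 2 * k0) * m s t u ^ 2)))
    (by unfold Cont3; fun_prop)
  have mG0 : Meas4 ψ0 := meas_u4 (G := fun s t v u => (F s t v u - m s t u) ^ 2)
    (by unfold Cont4; fun_prop)
  have mGV : Meas4 ψV := meas_v4 mV (G := fun s t v u => (F s t v u - m s t u) ^ 2)
    (by unfold Cont4; fun_prop)
  have mC : Meas4 ψC := meas_u4 (G := fun s t v u => w u * (u ^ 2 * (Fu s t v u - mu s t u) ^ 2 +
      (u ^ 2 * (2 * π / P) ^ 2 + u * L * (2 * π / P)) * (F s t v u - m s t u) ^ 2))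
    (by unfold Cont4; fun_prop)
  -- finiteness
  have e0 : BW h P (fun s t v u => F s t v u ^ 2) =
      B3W h φ0 + B3W h (fun s t u => ∫⁻ v in Icc (0:ℝ) P, ψ0 s t v u) := by
    rw [← B3W_add m0']
    have e : ∀ s t u, h < u → ∫⁻ v in Icc (0:ℝ) P, ENNReal.ofReal (u⁻¹ ^ 3 * F s t v u ^ 2) =
        φ0 s t u + ∫⁻ v in Icc (0:ℝ) P, ψ0 s t v u := fun s t u hu1 =>
      split_v hP (cF.v s t u) (by have := hh.trans hu1; positivity) rfl
    exact le_antisymm (B3W_mono fun s t u hu1 => (e s t u hu1).le)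
      (B3W_mono fun s t u hu1 => (e s t u hu1).ge)
  have eV : BW h P (fun s t v u => V u * F s t v u ^ 2) =
      B3W h φV + B3W h (fun s t u => ∫⁻ v in Icc (0:ℝ) P, ψV s t v u) := by
    rw [← B3W_add mVm]
    have e : ∀ s t u, h < u → ∫⁻ v in Icc (0:ℝ) P, ENNReal.ofReal (u⁻¹ ^ 3 * (V u * F s t v u ^ 2)) =
        φV s t u + ∫⁻ v in Icc (0:ℝ) P, ψV s t v u := fun s t u hu1 => by
      have hu0 := hh.trans hu1
      have hv0 := hV0 u hu1
      have := split_v hP (cF.v s t u) (m := m s t u) (w := u⁻¹ ^ 3 * V u) (by positivity) rfl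
      simp only [hφV, hψV, ← mul_assoc] at this ⊢
      exact this
    exact le_antisymm (B3W_mono fun s t u hu1 => (e s t u hu1).le)
      (B3W_mono fun s t u hu1 => (e s t u hu1).ge)
  rw [e0] at hfin
  rw [eV]
  have fM : B3W h φ0 < ∞ := lt_of_le_of_lt le_self_add hfin
  have fG : B3W h (fun s t u => ∫⁻ v in Icc (0:ℝ) P, ψ0 s t v u) < ∞ :=
    lt_of_le_of_lt le_add_self hfin
  refine le_trans ?_ (b := B3W h φA + B3W h (fun s t u => ∫⁻ v in Icc (0:ℝ) P, ψC s t v u)) ?_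
  swap
  · have h34 : ∀ {G : ℝ → ℝ → ℝ → ℝ → ℝ}, Cont4 G → ∀ u,
        Continuous fun p : (ℝ × ℝ) × ℝ => G p.1.1 p.1.2 p.2 u := fun hG u =>
      hG.comp (by fun_prop : Continuous fun p : (ℝ × ℝ) × ℝ => (p.1.1, p.1.2, p.2, u))
    unfold B3W BW
    rw [← lintegral_add_left mA.u]
    refine setLIntegral_mono' measurableSet_Ioi fun u hu1 => ?_
    have hu1' : h < u := hu1
    have hu0 : 0 < u := hh.trans hu1'
    exact fiber_u (e := u⁻¹ ^ 3) (wt := w u) (u := u) (α0 := α0) (γ0 := γ0) hP hA1 hA hk0 hk hL0 hL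
      (by positivity) (hw u hu1'.le).le hu0.le
      (fun s t v => hs s t v u) (fun s t v => ht s t v u) (fun s t v => hv s t v u)
      (fun s t v => hst s t v u) (fun s t v => hts s t v u)
      (h34 cF u) (h34 cFs u) (h34 cFt u) (h34 cFv u) (h34 cFu u) (h34 cFst u)
      (fun s t v => pv s t v u) (fun s t v => ps s t v u) (fun s t v => pt s t v u) (h0 u hu1')
      (m := fun s t => m s t u) (mu := fun s t => mu s t u) (fun s t => rfl) (fun s t => rfl)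
  have cc1 : Continuous c1 := by simp only [hc1]; fun_prop
  have cc2 : Continuous c2 := by simp only [hc2]; fun_prop
  refine add_le_add ?_ ?_
  · -- mean part
    refine B3W_inner m0' mVm mA fM fun s t hst => ?_
    have hP2 : √P ^ 2 = P := Real.sq_sqrt hP.le
    have h1 := radialW (h := h) (M := M) hh (g := fun u => √P * m s t u)
      (g' := fun u => √P * mu s t u) (w := w) (c := c2) (V := V) (B := B2) (B' := B2')
      (fun u hu1 => (dmu s t u hu1).const_mul _) (continuous_const.mul (cm.u s t))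
      (continuous_const.mul (cmu.u s t)) cw.continuousOn hw cc2.continuousOn
      (fun u hu1 => by
        have hu0 : 0 < u := hh.trans_le hu1
        simp only [hc2]; positivity)
      hV0 hB2 cB2 cB2' hB2h hM2 hV2
    have e1 : ∀ u, u⁻¹ ^ 3 * (√P * m s t u) ^ 2 = u⁻¹ ^ 3 * (P * m s t u ^ 2) := fun u => by
      rw [mul_pow, hP2]
    have e2 : ∀ u, u⁻¹ ^ 3 * (V u * (√P * m s t u) ^ 2) =
        u⁻¹ ^ 3 * (V u * (P * m s t u ^ 2)) := fun u => by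
      rw [mul_pow, hP2]
    have e3 : ∀ u, u⁻¹ ^ 3 * (w u * (u ^ 2 * (√P * mu s t u) ^ 2 + c2 u * (√P * m s t u) ^ 2)) =
        u⁻¹ ^ 3 * (w u * (P * (u ^ 2 * mu s t u ^ 2 + u * (4 * π ^ 2 * k0) * m s t u ^ 2))) :=
      fun u => by rw [mul_pow, mul_pow, hP2]; simp only [hc2]; ring
    simp only [e1, e2, e3] at h1
    exact h1 hst
  · -- oscillating part
    refine B4W_inner mG0 mGV mC fG fun s t v hst => ?_
    exact radialW (h := h) (M := M) hh (g := fun u => F s t v u - m s t u)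
      (g' := fun u => Fu s t v u - mu s t u) (w := w) (c := c1) (V := V) (B := B1) (B' := B1')
      (fun u hu1 => (hu s t v u hu1).sub (dmu s t u hu1)) (cg.u s t v) (cgu.u s t v)
      cw.continuousOn hw cc1.continuousOn
      (fun u hu1 => by
        have hu0 : 0 < u := hh.trans_le hu1
        simp only [hc1]; positivity)
      hV0 hB1 cB1 cB1' hB1h hM1 hV1 hst

/-- Weighted cusp inequality in coordinates. `w` is the weight of the energy, `V` the weight of the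
`L²` norm, `k0` a lower bound for the quadratic form `A1 a² + A2 a b + A3 b²` on nonzero integer
vectors, `L` the Landau constant, `p1, p2` the logarithmic derivatives of comparison functions in
the variable `log u`, given with the derivatives `q1, q2` of `w p1, w p2` with respect to `u`. -/
theorem cusp_weighted {h P a A1 A2 A3 k0 L : ℝ} (hh : 0 < h) (hP : 0 < P)
    (hA1 : 0 < A1) (hA3 : 0 < A3) (hA : A2 ^ 2 < 4 * A1 * A3)
    (hk0 : 0 ≤ k0) (hk : ∀ i j : ℤ, (i ≠ 0 ∨ j ≠ 0) → k0 ≤ A1 * i ^ 2 + A2 * i * j + A3 * j ^ 2)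
    (hL0 : 0 ≤ L) (hL : L ^ 2 ≤ a ^ 2 * (4 * A1 * A3 - A2 ^ 2))
    {w V B1 B2 B1' B2' : ℝ → ℝ}
    (cw : ContinuousOn w (Ici h)) (hw : ∀ u, h ≤ u → 0 < w u)
    (mV : Measurable V) (hV0 : ∀ u, h < u → 0 ≤ V u)
    (hB1 : ∀ u, h < u → HasDerivAt B1 (B1' u) u) (hB2 : ∀ u, h < u → HasDerivAt B2 (B2' u) u)
    (cB1 : ContinuousOn B1 (Ici h)) (cB2 : ContinuousOn B2 (Ici h))
    (cB1' : ContinuousOn B1' (Ici h)) (cB2' : ContinuousOn B2' (Ici h))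
    (hB1h : B1 h ≤ 0) (hB2h : B2 h ≤ 0)
    {M : ℝ} (hM1 : ∀ u, h ≤ u → |B1 u| ≤ M * u⁻¹ ^ 2) (hM2 : ∀ u, h ≤ u → |B2 u| ≤ M * u⁻¹ ^ 2)
    (hV1 : ∀ u, h < u → u⁻¹ ^ 3 * V u ≤
      u⁻¹ ^ 3 * (w u * (u ^ 2 * (2 * π / P) ^ 2 + u * L * (2 * π / P))) - B1' u -
        B1 u ^ 2 * (u / w u))
    (hV2 : ∀ u, h < u → u⁻¹ ^ 3 * V u ≤
      u⁻¹ ^ 3 * (w u * (u * (4 * π ^ 2 * k0))) - B2' u - B2 u ^ 2 * (u / w u))
    {F Fs Ft Fv Fu Fst : ℝ → ℝ → ℝ → ℝ → ℝ}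
    (hs : ∀ s t v u, 0 < u → HasDerivAt (fun s => F s t v u) (Fs s t v u) s)
    (ht : ∀ s t v u, 0 < u → HasDerivAt (fun t => F s t v u) (Ft s t v u) t)
    (hv : ∀ s t v u, 0 < u → HasDerivAt (fun v => F s t v u) (Fv s t v u) v)
    (hu : ∀ s t v u, 0 < u → HasDerivAt (fun u => F s t v u) (Fu s t v u) u)
    (hst : ∀ s t v u, 0 < u → HasDerivAt (fun t => Fs s t v u) (Fst s t v u) t)
    (hts : ∀ s t v u, 0 < u → HasDerivAt (fun s => Ft s t v u) (Fst s t v u) s)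
    (cF : ContinuousOn (fun p : ℝ × ℝ × ℝ × ℝ => F p.1 p.2.1 p.2.2.1 p.2.2.2) {p | 0 < p.2.2.2})
    (cFs : ContinuousOn (fun p : ℝ × ℝ × ℝ × ℝ => Fs p.1 p.2.1 p.2.2.1 p.2.2.2) {p | 0 < p.2.2.2})
    (cFt : ContinuousOn (fun p : ℝ × ℝ × ℝ × ℝ => Ft p.1 p.2.1 p.2.2.1 p.2.2.2) {p | 0 < p.2.2.2})
    (cFv : ContinuousOn (fun p : ℝ × ℝ × ℝ × ℝ => Fv p.1 p.2.1 p.2.2.1 p.2.2.2) {p | 0 < p.2.2.2})
    (cFu : ContinuousOn (fun p : ℝ × ℝ × ℝ × ℝ => Fu p.1 p.2.1 p.2.2.1 p.2.2.2) {p | 0 < p.2.2.2})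
    (cFst : ContinuousOn (fun p : ℝ × ℝ × ℝ × ℝ => Fst p.1 p.2.1 p.2.2.1 p.2.2.2)
      {p | 0 < p.2.2.2})
    (pv : ∀ s t v u, 0 < u → F s t (v + P) u = F s t v u)
    {α0 γ0 : ℝ} (ps : ∀ s t v u, 0 < u → F (s + 1) t (v + (α0 - a * t)) u = F s t v u)
    (pt : ∀ s t v u, 0 < u → F s (t + 1) (v + (γ0 + a * s)) u = F s t v u)
    (h0 : ∀ u, h < u → ∫ s in (0:ℝ)..1, ∫ t in (0:ℝ)..1, ∫ v in (0:ℝ)..P, F s t v u = 0)
    (hfin : BW h P (fun s t v u => F s t v u ^ 2) < ∞) :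
    BW h P (fun s t v u => V u * F s t v u ^ 2) ≤
      BW h P (fun s t v u => w u * (u ^ 2 * (Fu s t v u ^ 2 + Fv s t v u ^ 2) +
        u * (A1 * (Fs s t v u + a * t * Fv s t v u) ^ 2 +
          A2 * (Fs s t v u + a * t * Fv s t v u) * (Ft s t v u - a * s * Fv s t v u) +
          A3 * (Ft s t v u - a * s * Fv s t v u) ^ 2))) := by
  have hpos : ∀ u : ℝ, 0 < max u h := fun u => lt_max_of_lt_right hh
  have hat : ∀ {G : ℝ → ℝ → ℝ → ℝ → ℝ},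
      ContinuousOn (fun p : ℝ × ℝ × ℝ × ℝ => G p.1 p.2.1 p.2.2.1 p.2.2.2) {p | 0 < p.2.2.2} →
      Cont4 fun s t v u => G s t v (max u h) := by
    intro G hG
    have h1 : Continuous fun p : ℝ × ℝ × ℝ × ℝ => (p.1, p.2.1, p.2.2.1, max p.2.2.2 h) := by
      fun_prop
    exact hG.comp_continuous h1 fun p => hpos _
  have heq : ∀ {φ ψ : ℝ → ℝ → ℝ → ℝ → ℝ}, (∀ s t v u, h < u → φ s t v u = ψ s t v u) →
      BW h P φ = BW h P ψ := by
    intro φ ψ hφ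
    refine setLIntegral_congr_fun measurableSet_Ioi fun u hu1 => ?_
    have hu1' : h < u := hu1
    simp only [hφ _ _ _ u hu1']
  have hmax : ∀ u : ℝ, h < u → max u h = u := fun u h1 => max_eq_left h1.le
  have cw' : Continuous fun u => w (max u h) :=
    cw.comp_continuous (by fun_prop) fun u => mem_Ici.2 (le_max_right _ _)
  have key := cuspW_core (a := a) (α0 := α0) (γ0 := γ0) (k0 := k0) (L := L)
    (w := fun u => w (max u h)) (V := V)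
    (F := fun s t v u => F s t v (max u h))
    (Fs := fun s t v u => Fs s t v (max u h)) (Ft := fun s t v u => Ft s t v (max u h))
    (Fv := fun s t v u => Fv s t v (max u h)) (Fu := fun s t v u => Fu s t v (max u h))
    (Fst := fun s t v u => Fst s t v (max u h))
    hh hP hA1 hA hk0 hk hL0 hL cw' (fun u hu1 => hw _ (le_max_right _ _)) mV hV0 hB1 hB2 cB1 cB2
    cB1' cB2' hB1h hB2h hM1 hM2
    (fun u hu1 => by simp only [hmax u hu1]; exact hV1 u hu1)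
    (fun u hu1 => by simp only [hmax u hu1]; exact hV2 u hu1)
    (fun s t v u => hs s t v _ (hpos u)) (fun s t v u => ht s t v _ (hpos u))
    (fun s t v u => hv s t v _ (hpos u))
    (fun s t v u hu1 => by
      have h1 := hu s t v u (hh.trans hu1)
      rw [hmax u hu1]
      refine h1.congr_of_eventuallyEq ?_
      filter_upwards [isOpen_Ioi.mem_nhds (show u ∈ Ioi h from hu1)] with x hx
      rw [hmax x hx])
    (fun s t v u => hst s t v _ (hpos u)) (fun s t v u => hts s t v _ (hpos u))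
    (hat cF) (hat cFs) (hat cFt) (hat cFv) (hat cFu) (hat cFst)
    (fun s t v u => pv s t v _ (hpos u)) (fun s t v u => ps s t v _ (hpos u))
    (fun s t v u => pt s t v _ (hpos u))
    (fun u hu1 => by simpa only [hmax u hu1] using h0 u hu1)
    (by rw [heq (ψ := fun s t v u => F s t v u ^ 2)
          (fun s t v u h => by simp only [hmax u h])]; exact hfin)
  rw [heq (φ := fun s t v u => V u * F s t v (max u h) ^ 2)
    (ψ := fun s t v u => V u * F s t v u ^ 2)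
    (fun s t v u h => by simp only [hmax u h])] at key
  refine key.trans (le_of_eq (heq fun s t v u h => ?_))
  simp only [hmax u h]

end Pool.Agent.Lib.H56.Gen
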