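import Pool.Agent.Lib.H56.Gen.LevelGroup
import Pool.Agent.Lib.H56.Gen.CuspW
import Pool.Agent.Lib.H56.Picard.Transl

/-!
# Integration over the box in horospherical coordinates
-/

namespace Pool.Agent.Lib.H56.Gen

open Matrix hiding J
open MeasureTheory Topology
open Pool.Agent.Lib.H56.Picard (SU21 mat height X mu continuous_height lintegral_affine
  lintegral_complex lintegral_mu measurableSet_siegel measurable_dens act energy normL dv du
  hasDerivAt_mk)
open scoped ENNReal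

noncomputable section

variable {q : QD}

lemma ht_PsiE (e1 e2 : ℂ) (s t v u : ℝ) : height (PsiE e1 e2 s t v u) = u := by
  simp only [height, PsiE]
  ring

lemma vc_PsiE (e1 e2 : ℂ) (s t v u : ℝ) : Cusp.vc (PsiE e1 e2 s t v u) = v := by
  simp only [Cusp.vc, PsiE]
  ring

lemma sc_PsiE (K : Cusp q) (s t v u : ℝ) : K.sc (PsiE K.e1 K.e2 s t v u) = s := by
  have h := K.cv_pos.ne'
  simp only [Cusp.sc, PsiE]
  rw [div_eq_iff h]
  simp [Cusp.cv]
  ring

lemma tc_PsiE (K : Cusp q) (s t v u : ℝ) : K.tc (PsiE K.e1 K.e2 s t v u) = t := by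
  have h := K.cv_pos.ne'
  simp only [Cusp.tc, PsiE]
  rw [div_eq_iff h]
  simp [Cusp.cv]
  ring

lemma coords_snd (K : Cusp q) (z : ℂ × ℂ) : (K.sc z : ℂ) * K.e1 + (K.tc z : ℂ) * K.e2 = z.2 := by
  have h := K.cv_pos.ne'
  apply Complex.ext
  · have : K.sc z * K.e1.re + K.tc z * K.e2.re = z.2.re := by
      simp only [Cusp.sc, Cusp.tc]
      field_simp
      simp only [Cusp.cv]
      ring
    simpa using this
  · have : K.sc z * K.e1.im + K.tc z * K.e2.im = z.2.im := by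
      simp only [Cusp.sc, Cusp.tc]
      field_simp
      simp only [Cusp.cv]
      ring
    simpa using this

lemma PsiE_coords (K : Cusp q) (z : ℂ × ℂ) :
    PsiE K.e1 K.e2 (K.sc z) (K.tc z) (Cusp.vc z) (height z) = z := by
  unfold PsiE
  rw [coords_snd]
  refine Prod.ext (Complex.ext ?_ ?_) rfl
  · simp only [height]; ring
  · simp only [Cusp.vc]; ring

lemma PsiE_eq (e1 e2 : ℂ) (s t v u : ℝ) : PsiE e1 e2 s t v u =
    ((((-Complex.normSq (s * e1 + t * e2) - u) / 2 : ℝ) : ℂ) + ((v / 2 : ℝ) : ℂ) * Complex.I,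
      s * e1 + t * e2) := by
  refine Prod.ext (Complex.ext ?_ ?_) rfl <;>
    simp only [PsiE, Complex.add_re, Complex.add_im, Complex.ofReal_re, Complex.mul_re,
      Complex.mul_im, Complex.I_re, Complex.I_im, Complex.ofReal_im] <;> ring

lemma continuous_PsiE4 (e1 e2 : ℂ) :
    Continuous fun p : ℝ × ℝ × ℝ × ℝ => PsiE e1 e2 p.1 p.2.1 p.2.2.1 p.2.2.2 := by
  have e : (fun p : ℝ × ℝ × ℝ × ℝ => PsiE e1 e2 p.1 p.2.1 p.2.2.1 p.2.2.2) = fun p =>
      ((((-Complex.normSq (p.1 * e1 + p.2.1 * e2) - p.2.2.2) / 2 : ℝ) : ℂ) +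
        ((p.2.2.1 / 2 : ℝ) : ℂ) * Complex.I, (p.1 * e1 + p.2.1 * e2 : ℂ)) := by
    funext p
    exact PsiE_eq _ _ _ _ _ _
  rw [e]
  have h1 : Continuous fun p : ℝ × ℝ × ℝ × ℝ => (p.1 * e1 + p.2.1 * e2 : ℂ) := by fun_prop
  have h2 := Complex.continuous_normSq.comp h1
  simp only [Function.comp_def] at h2
  fun_prop

/-! ### Linear change of variables -/

/-- real linear map with given images of `1` and `i` -/
def lin2 (e1 e2 : ℂ) : ℂ →ₗ[ℝ] ℂ where
  toFun x := x.re * e1 + x.im * e2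
  map_add' x y := by simp; ring
  map_smul' c x := by simp; ring

lemma det_lin2 (e1 e2 : ℂ) : LinearMap.det (lin2 e1 e2) = e1.re * e2.im - e1.im * e2.re := by
  rw [← LinearMap.det_toMatrix Complex.basisOneI, Matrix.det_fin_two]
  simp [LinearMap.toMatrix_apply, lin2]
  ring

lemma lintegral_lin2 {e1 e2 : ℂ} (hc : 0 < e1.re * e2.im - e1.im * e2.re) {g : ℂ → ℝ≥0∞}
    (hg : Measurable g) : ∫⁻ z, g z = ENNReal.ofReal (e1.re * e2.im - e1.im * e2.re) *
      ∫⁻ s : ℝ, ∫⁻ t : ℝ, g (s * e1 + t * e2) := by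
  have hd : LinearMap.det (lin2 e1 e2) ≠ 0 := by rw [det_lin2]; exact hc.ne'
  have h1 := Measure.map_linearMap_addHaar_eq_smul_addHaar (volume : Measure ℂ) hd
  have hm : Measurable (lin2 e1 e2) := (lin2 e1 e2).continuous_of_finiteDimensional.measurable
  have h2 : ∫⁻ x, g (lin2 e1 e2 x) = ENNReal.ofReal |(LinearMap.det (lin2 e1 e2))⁻¹| *
      ∫⁻ z, g z := by
    rw [← lintegral_map hg hm, h1, lintegral_smul_measure, smul_eq_mul]
  have h3 : ∫⁻ x, g (lin2 e1 e2 x) = ∫⁻ s : ℝ, ∫⁻ t : ℝ, g (s * e1 + t * e2) :=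
    lintegral_complex _ (hg.comp hm)
  rw [← h3, h2, det_lin2, ← mul_assoc, ← ENNReal.ofReal_mul hc.le, abs_inv, abs_of_pos hc,
    mul_inv_cancel₀ hc.ne', ENNReal.ofReal_one, one_mul]

lemma inner_PsiE (G : ℂ × ℂ → ℝ≥0∞) (hG : Measurable G) (z2 : ℂ) :
    ∫⁻ z1, G (z1, z2) =
      ENNReal.ofReal (1 / 4) * ∫⁻ u : ℝ, ∫⁻ v : ℝ,
        G (⟨(-Complex.normSq z2 - u) / 2, v / 2⟩, z2) := by
  rw [lintegral_complex (fun z1 => G (z1, z2)) (hG.comp (measurable_id.prodMk measurable_const))]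
  rw [lintegral_affine (-(1 / 2)) (-Complex.normSq z2 / 2) (by norm_num)]
  have h4 : ENNReal.ofReal (1 / 4) =
      ENNReal.ofReal |-(1 / 2 : ℝ)| * ENNReal.ofReal |(1 / 2 : ℝ)| := by
    rw [← ENNReal.ofReal_mul (abs_nonneg _)]; norm_num
  rw [h4, mul_assoc]
  congr 1
  rw [← lintegral_const_mul' _ _ ENNReal.ofReal_ne_top]
  apply lintegral_congr; intro u
  rw [lintegral_affine (1 / 2) 0 (by norm_num)]
  congr 1
  apply lintegral_congr; intro v
  congr 1
  refine Prod.ext (Complex.ext ?_ ?_) rfl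
  · show -(1 / 2) * u + -Complex.normSq z2 / 2 = (-Complex.normSq z2 - u) / 2
    ring
  · show 1 / 2 * v + 0 = v / 2
    ring

/-- Tonelli for three variables -/
lemma tonelli3' (K : ℝ → ℝ → ℝ → ℝ≥0∞) (hK : Measurable fun p : ℝ × ℝ × ℝ => K p.1 p.2.1 p.2.2) :
    ∫⁻ s : ℝ, ∫⁻ t : ℝ, ∫⁻ u : ℝ, K s t u = ∫⁻ u : ℝ, ∫⁻ s : ℝ, ∫⁻ t : ℝ, K s t u := by
  have sw1 : ∀ s : ℝ, (∫⁻ t : ℝ, ∫⁻ u : ℝ, K s t u) = ∫⁻ u : ℝ, ∫⁻ t : ℝ, K s t u := by
    intro s
    apply lintegral_lintegral_swap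
    exact (hK.comp (measurable_const.prodMk (measurable_fst.prodMk measurable_snd))).aemeasurable
  simp only [sw1]
  have h2 : Measurable fun q : (ℝ × ℝ) × ℝ => K q.1.1 q.2 q.1.2 :=
    hK.comp ((measurable_fst.fst).prodMk (measurable_snd.prodMk measurable_fst.snd))
  have h3 : Measurable fun q : ℝ × ℝ => ∫⁻ t : ℝ, K q.1 t q.2 :=
    Measurable.lintegral_prod_right' h2
  exact lintegral_lintegral_swap (f := fun s u : ℝ => ∫⁻ t : ℝ, K s t u) h3.aemeasurable

/-- Change of variables on `ℂ × ℂ`. -/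
lemma lintegral_PsiE {e1 e2 : ℂ} (hc : 0 < e1.re * e2.im - e1.im * e2.re) (G : ℂ × ℂ → ℝ≥0∞)
    (hG : Measurable G) :
    ∫⁻ z, G z = ENNReal.ofReal ((e1.re * e2.im - e1.im * e2.re) / 4) *
      ∫⁻ u : ℝ, ∫⁻ s : ℝ, ∫⁻ t : ℝ, ∫⁻ v : ℝ, G (PsiE e1 e2 s t v u) := by
  have hm4 : Measurable fun p : (ℂ × ℝ) × ℝ =>
      G (⟨(-Complex.normSq p.1.1 - p.1.2) / 2, p.2 / 2⟩, p.1.1) := by
    apply hG.comp
    have e : (fun p : (ℂ × ℝ) × ℝ =>
        ((⟨(-Complex.normSq p.1.1 - p.1.2) / 2, p.2 / 2⟩, p.1.1) : ℂ × ℂ)) = fun p =>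
        ((((-Complex.normSq p.1.1 - p.1.2) / 2 : ℝ) : ℂ) + ((p.2 / 2 : ℝ) : ℂ) * Complex.I,
          p.1.1) := by
      funext p
      refine Prod.ext (Complex.ext ?_ ?_) rfl <;> simp
    rw [e]
    have h1 : Continuous fun p : (ℂ × ℝ) × ℝ => Complex.normSq p.1.1 :=
      Complex.continuous_normSq.comp (by fun_prop)
    have h2 : Continuous fun p : (ℂ × ℝ) × ℝ =>
        (((((-Complex.normSq p.1.1 - p.1.2) / 2 : ℝ) : ℂ) + ((p.2 / 2 : ℝ) : ℂ) * Complex.I,
          p.1.1) : ℂ × ℂ) := by fun_prop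
    exact h2.measurable
  have hm3 : Measurable fun p : ℂ × ℝ => ∫⁻ v : ℝ,
      G (⟨(-Complex.normSq p.1 - p.2) / 2, v / 2⟩, p.1) :=
    Measurable.lintegral_prod_right' hm4
  have hm2 : Measurable fun z2 : ℂ => ∫⁻ u : ℝ, ∫⁻ v : ℝ,
      G (⟨(-Complex.normSq z2 - u) / 2, v / 2⟩, z2) :=
    Measurable.lintegral_prod_right' hm3
  rw [Measure.volume_eq_prod, lintegral_prod_symm _ hG.aemeasurable]
  simp only [inner_PsiE G hG]
  rw [lintegral_const_mul' _ _ ENNReal.ofReal_ne_top, lintegral_lin2 hc hm2, ← mul_assoc,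
    ← ENNReal.ofReal_mul (by norm_num)]
  have hcc : 1 / 4 * (e1.re * e2.im - e1.im * e2.re) = (e1.re * e2.im - e1.im * e2.re) / 4 := by
    ring
  rw [hcc]
  congr 1
  have m5 : Measurable fun p : (ℝ × ℝ × ℝ) × ℝ => G (PsiE e1 e2 p.1.1 p.1.2.1 p.2 p.1.2.2) := by
    have h : Continuous fun p : (ℝ × ℝ × ℝ) × ℝ => (p.1.1, p.1.2.1, p.2, p.1.2.2) := by fun_prop
    have h1 := hG.comp ((continuous_PsiE4 e1 e2).comp h).measurable
    simp only [Function.comp_def] at h1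
    exact h1
  have m6 : Measurable fun p : ℝ × ℝ × ℝ => ∫⁻ v : ℝ, G (PsiE e1 e2 p.1 p.2.1 v p.2.2) :=
    Measurable.lintegral_prod_right' m5
  exact tonelli3' (fun s t u => ∫⁻ v : ℝ, G (PsiE e1 e2 s t v u)) m6

lemma measurable_sc (K : Cusp q) : Measurable K.sc := by
  have : Continuous K.sc := by unfold Cusp.sc; fun_prop
  exact this.measurable

lemma measurable_tc (K : Cusp q) : Measurable K.tc := by
  have : Continuous K.tc := by unfold Cusp.tc; fun_prop
  exact this.measurable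

lemma measurable_vc : Measurable Cusp.vc := by
  have : Continuous Cusp.vc := by unfold Cusp.vc; fun_prop
  exact this.measurable

lemma measurableSet_Box (K : Cusp q) : MeasurableSet K.Box :=
  (continuous_height.measurable measurableSet_Ioi).inter
    ((measurable_sc K measurableSet_Ico).inter
      ((measurable_tc K measurableSet_Ico).inter (measurable_vc measurableSet_Ico)))

/-- Integration over the box. -/
theorem lintegral_Box (K : Cusp q) (φ : ℂ × ℂ → ℝ≥0∞) (hφ : Measurable φ) :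
    ∫⁻ z in {z : X | z.1 ∈ K.Box}, φ z.1 ∂mu = ENNReal.ofReal (K.cv / 4) *
      ∫⁻ u in Set.Ioi (0 : ℝ), ∫⁻ s in Set.Icc (0 : ℝ) 1, ∫⁻ t in Set.Icc (0 : ℝ) 1,
        ∫⁻ v in Set.Icc (0 : ℝ) K.P, ENNReal.ofReal (u⁻¹ ^ 3) * φ (PsiE K.e1 K.e2 s t v u) := by
  have hSm := measurableSet_Box K
  have e1 : ∫⁻ z in {z : X | z.1 ∈ K.Box}, φ z.1 ∂mu = ∫⁻ z, (K.Box.indicator φ) z.1 ∂mu := by
    have hs : MeasurableSet {z : X | z.1 ∈ K.Box} := hSm.preimage measurable_subtype_coe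
    rw [← lintegral_indicator hs]
    rfl
  rw [e1, lintegral_mu _ (hφ.indicator hSm), ← lintegral_indicator measurableSet_siegel]
  have hm : Measurable ({z : ℂ × ℂ | 0 < height z}.indicator fun z =>
      ENNReal.ofReal ((height z)⁻¹ ^ 3) * K.Box.indicator φ z) :=
    (measurable_dens.mul (hφ.indicator hSm)).indicator measurableSet_siegel
  have hz0 : ∀ z, z ∉ K.Box → ({z : ℂ × ℂ | 0 < height z}.indicator fun z =>
      ENNReal.ofReal ((height z)⁻¹ ^ 3) * K.Box.indicator φ z) z = 0 := by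
    intro z hz
    by_cases h : z ∈ {z : ℂ × ℂ | 0 < height z}
    · rw [Set.indicator_of_mem h, Set.indicator_of_notMem hz, mul_zero]
    · exact Set.indicator_of_notMem h _
  rw [lintegral_PsiE K.cov _ hm]
  congr 1
  rw [← lintegral_indicator measurableSet_Ioi]
  apply lintegral_congr; intro u
  by_cases hu : 0 < u
  · rw [Set.indicator_of_mem (show u ∈ Set.Ioi 0 from hu), setLIntegral_congr Ico_ae_eq_Icc.symm,
      ← lintegral_indicator measurableSet_Ico]
    apply lintegral_congr; intro s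
    by_cases hs : s ∈ Set.Ico (0 : ℝ) 1
    · rw [Set.indicator_of_mem hs, setLIntegral_congr Ico_ae_eq_Icc.symm,
        ← lintegral_indicator measurableSet_Ico]
      apply lintegral_congr; intro t
      by_cases ht : t ∈ Set.Ico (0 : ℝ) 1
      · rw [Set.indicator_of_mem ht, setLIntegral_congr Ico_ae_eq_Icc.symm,
          ← lintegral_indicator measurableSet_Ico]
        apply lintegral_congr; intro v
        have hu0 : PsiE K.e1 K.e2 s t v u ∈ {z : ℂ × ℂ | 0 < height z} := by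
          show 0 < height (PsiE K.e1 K.e2 s t v u)
          rw [ht_PsiE]; exact hu
        rw [Set.indicator_of_mem hu0, ht_PsiE]
        by_cases hv : v ∈ Set.Ico (0 : ℝ) K.P
        · rw [Set.indicator_of_mem hv, Set.indicator_of_mem]
          exact ⟨by rw [ht_PsiE]; exact hu, by rw [sc_PsiE]; exact hs,
            by rw [tc_PsiE]; exact ht, by rw [vc_PsiE]; exact hv⟩
        · rw [Set.indicator_of_notMem hv, Set.indicator_of_notMem, mul_zero]
          rintro ⟨-, -, -, h⟩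
          rw [vc_PsiE] at h; exact hv h
      · rw [Set.indicator_of_notMem ht]
        rw [lintegral_eq_zero_of_ae_eq_zero]
        apply Filter.Eventually.of_forall; intro v
        have : PsiE K.e1 K.e2 s t v u ∉ K.Box := by
          rintro ⟨-, -, h, -⟩; rw [tc_PsiE] at h; exact ht h
        exact hz0 _ this
    · rw [Set.indicator_of_notMem hs]
      rw [lintegral_eq_zero_of_ae_eq_zero]
      apply Filter.Eventually.of_forall; intro t
      simp only [Pi.zero_apply]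
      rw [lintegral_eq_zero_of_ae_eq_zero]
      apply Filter.Eventually.of_forall; intro v
      have : PsiE K.e1 K.e2 s t v u ∉ K.Box := by
        rintro ⟨-, h, -, -⟩; rw [sc_PsiE] at h; exact hs h
      exact hz0 _ this
  · rw [Set.indicator_of_notMem (show u ∉ Set.Ioi 0 from hu)]
    rw [lintegral_eq_zero_of_ae_eq_zero]
    apply Filter.Eventually.of_forall; intro s
    simp only [Pi.zero_apply]
    rw [lintegral_eq_zero_of_ae_eq_zero]
    apply Filter.Eventually.of_forall; intro t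
    simp only [Pi.zero_apply]
    rw [lintegral_eq_zero_of_ae_eq_zero]
    apply Filter.Eventually.of_forall; intro v
    have : PsiE K.e1 K.e2 s t v u ∉ {z : ℂ × ℂ | 0 < height z} := by
      intro h
      have h' : 0 < height (PsiE K.e1 K.e2 s t v u) := h
      rw [ht_PsiE] at h'; exact hu h'
    simp only [Set.indicator_of_notMem this, Pi.zero_apply]

/-- Integration over the box of functions given on `X` only. -/
theorem lintegral_Box' (K : Cusp q) (φ : ℂ × ℂ → ℝ≥0∞) (hφ : Measurable fun z : X => φ z.1) :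
    ∫⁻ z in {z : X | z.1 ∈ K.Box}, φ z.1 ∂mu = ENNReal.ofReal (K.cv / 4) *
      ∫⁻ u in Set.Ioi (0 : ℝ), ∫⁻ s in Set.Icc (0 : ℝ) 1, ∫⁻ t in Set.Icc (0 : ℝ) 1,
        ∫⁻ v in Set.Icc (0 : ℝ) K.P, ENNReal.ofReal (u⁻¹ ^ 3) * φ (PsiE K.e1 K.e2 s t v u) := by
  set g : X → ℝ≥0∞ := fun z => φ z.1 with hg
  set ψ : ℂ × ℂ → ℝ≥0∞ := Function.extend Subtype.val g (fun _ => 0) with hψ
  have hψm : Measurable ψ :=
    (MeasurableEmbedding.subtype_coe measurableSet_siegel).measurable_extend hφ measurable_const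
  have hψX : ∀ z : X, ψ z.1 = φ z.1 := fun z => Subtype.val_injective.extend_apply _ _ _
  have h1 : ∫⁻ z in {z : X | z.1 ∈ K.Box}, φ z.1 ∂mu = ∫⁻ z in {z : X | z.1 ∈ K.Box}, ψ z.1 ∂mu := by
    simp only [hψX]
  rw [h1, lintegral_Box K ψ hψm]
  congr 1
  apply setLIntegral_congr_fun measurableSet_Ioi
  intro u hu
  have hu0 : 0 < u := hu
  have h2 : ∀ s t v, ψ (PsiE K.e1 K.e2 s t v u) = φ (PsiE K.e1 K.e2 s t v u) := fun s t v =>
    hψX ⟨PsiE K.e1 K.e2 s t v u, by rw [ht_PsiE]; exact hu0⟩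
  simp only [h2]

/-- Weighted integrals over the box. -/
theorem lintegral_Box_weight (K : Cusp q) {h : ℝ} (hh : 0 < h) {wE : ℝ → ℝ≥0∞} {w : ℝ → ℝ}
    (mwE : Measurable wE) (hw : ∀ u, h < u → 0 ≤ w u)
    (hwE : ∀ u, h < u → wE u = ENNReal.ofReal (w u)) (hwE0 : ∀ u ≤ h, wE u = 0)
    (ψ : ℂ × ℂ → ℝ) (hψ : Measurable fun z : X => ψ z.1) :
    ∫⁻ z in {z : X | z.1 ∈ K.Box}, wE (height z.1) * ENNReal.ofReal (ψ z.1) ∂mu =
      ENNReal.ofReal (K.cv / 4) * BW h K.P (fun s t v u => w u * ψ (PsiE K.e1 K.e2 s t v u)) := by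
  have mh : Measurable fun z : X => height z.1 :=
    continuous_height.measurable.comp measurable_subtype_coe
  rw [lintegral_Box' K (fun z => wE (height z) * ENNReal.ofReal (ψ z))
    ((mwE.comp mh).mul (ENNReal.measurable_ofReal.comp hψ))]
  congr 1
  unfold BW
  rw [← lintegral_indicator measurableSet_Ioi, ← lintegral_indicator measurableSet_Ioi]
  apply lintegral_congr; intro u
  by_cases hu : h < u
  · have hu0 : 0 < u := hh.trans hu
    rw [Set.indicator_of_mem (show u ∈ Set.Ioi 0 from hu0),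
      Set.indicator_of_mem (show u ∈ Set.Ioi h from hu)]
    apply lintegral_congr; intro s
    apply lintegral_congr; intro t
    apply lintegral_congr; intro v
    rw [ht_PsiE, hwE u hu, ← ENNReal.ofReal_mul (hw u hu), ← ENNReal.ofReal_mul (by positivity)]
  · rw [Set.indicator_of_notMem (show u ∉ Set.Ioi h from hu)]
    by_cases hu0 : 0 < u
    · rw [Set.indicator_of_mem (show u ∈ Set.Ioi 0 from hu0)]
      have h1 : ∀ s t v, ENNReal.ofReal (u⁻¹ ^ 3) * (wE (height (PsiE K.e1 K.e2 s t v u)) *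
          ENNReal.ofReal (ψ (PsiE K.e1 K.e2 s t v u))) = 0 := by
        intro s t v
        rw [ht_PsiE, hwE0 u (not_lt.mp hu), zero_mul, mul_zero]
      simp only [h1, lintegral_zero]
    · rw [Set.indicator_of_notMem (show u ∉ Set.Ioi 0 from hu0)]

/-- Compactness of the part of the box of bounded height. -/
lemma Box_compact (K : Cusp q) (r R : ℝ) (hr : 0 < r) : ∃ S : Set (ℂ × ℂ), IsCompact S ∧
    S ⊆ {z | 0 < height z} ∧ ∀ z ∈ K.Box, r ≤ height z → height z ≤ R → z ∈ S := by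
  refine ⟨(fun p : ℝ × ℝ × ℝ × ℝ => PsiE K.e1 K.e2 p.1 p.2.1 p.2.2.1 p.2.2.2) ''
    (Set.Icc 0 1 ×ˢ Set.Icc 0 1 ×ˢ Set.Icc 0 K.P ×ˢ Set.Icc r R), ?_, ?_, ?_⟩
  · exact (isCompact_Icc.prod (isCompact_Icc.prod (isCompact_Icc.prod isCompact_Icc))).image
      (continuous_PsiE4 _ _)
  · rintro _ ⟨p, hp, rfl⟩
    show 0 < height (PsiE _ _ _ _ _ _)
    rw [ht_PsiE]
    have := hp.2.2.2.1
    linarith
  · rintro z ⟨-, h1, h2, h3⟩ h4 h5
    exact ⟨(K.sc z, K.tc z, Cusp.vc z, height z), ⟨⟨h1.1, h1.2.le⟩, ⟨h2.1, h2.2.le⟩,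
      ⟨h3.1, h3.2.le⟩, h4, h5⟩, PsiE_coords K z⟩

end

end Pool.Agent.Lib.H56.Gen
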