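import Pool.Agent.Lib.H56.Gen.LevelConj

/-!
# The spectral gap at a given level, from a weighted count of cusps (chunk C4)
-/

namespace Pool.Agent.Lib.H56.Gen

open Matrix hiding J
open MeasureTheory Topology
open Pool.Agent.Lib.H56.Picard
open scoped ENNReal

noncomputable section

lemma B_le_stab {q : QD} (K : Cusp q) : K.B ≤ stab (OO q) star_mem := by
  rintro γ ⟨m, n, w, -, -, h⟩
  show mat γ.1 2 0 = 0
  rw [h]
  simp [TM]

theorem main_level {q : QD} (K : Cusp q)
    {h k0 L : ℝ} (hh : 0 < h) (hk0 : 0 ≤ k0)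
    (hk : ∀ i j : ℤ, (i ≠ 0 ∨ j ≠ 0) → k0 ≤ K.A1 * i ^ 2 + K.A2 * i * j + K.A3 * j ^ 2)
    (hL0 : 0 ≤ L) (hL : L ≤ 1)
    {w V B1 B2 B1' B2' : ℝ → ℝ}
    (cw : ContinuousOn w (Set.Ici h)) (hw : ∀ u, h ≤ u → 0 < w u)
    (mV : Measurable V) (hV0 : ∀ u, h < u → 0 ≤ V u)
    (hB1 : ∀ u, h < u → HasDerivAt B1 (B1' u) u) (hB2 : ∀ u, h < u → HasDerivAt B2 (B2' u) u)
    (cB1 : ContinuousOn B1 (Set.Ici h)) (cB2 : ContinuousOn B2 (Set.Ici h))
    (cB1' : ContinuousOn B1' (Set.Ici h)) (cB2' : ContinuousOn B2' (Set.Ici h))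
    (hB1h : B1 h ≤ 0) (hB2h : B2 h ≤ 0)
    {M : ℝ} (hM1 : ∀ u, h ≤ u → |B1 u| ≤ M * u⁻¹ ^ 2) (hM2 : ∀ u, h ≤ u → |B2 u| ≤ M * u⁻¹ ^ 2)
    (hV1 : ∀ u, h < u → u⁻¹ ^ 3 * V u ≤
      u⁻¹ ^ 3 * (w u * (u ^ 2 * (2 * Real.pi / K.P) ^ 2 + u * L * (2 * Real.pi / K.P))) - B1' u -
        B1 u ^ 2 * (u / w u))
    (hV2 : ∀ u, h < u → u⁻¹ ^ 3 * V u ≤
      u⁻¹ ^ 3 * (w u * (u * (4 * Real.pi ^ 2 * k0))) - B2' u - B2 u ^ 2 * (u / w u))
    {wE vE : ℝ → ℝ≥0∞} (hwE : ∀ u, h < u → wE u = ENNReal.ofReal (w u))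
    (hwE0 : ∀ u ≤ h, wE u = 0) (hvE : ∀ u, h < u → vE u = ENNReal.ofReal (V u))
    (hvE0 : ∀ u ≤ h, vE u = 0)
    {C c : ℝ≥0∞} (hCt : C ≠ ⊤) (hc0 : c ≠ 0)
    (hC : ∀ z : X, cuspSum (OO q) star_mem wE z ≤ C)
    (hc : ∀ z : X, c ≤ cuspSum (OO q) star_mem vE z)
    {f : ℂ × ℂ → ℂ} (hf : ContDiffOn ℝ 2 f U)
    (hinv : ∀ γ : Gam q, γ ∈ GamN q K.p → ∀ z ∈ U, f (act (mat γ.1) z) = f z) {lam : ℂ}
    (heig : ∀ z ∈ U, laplacian f z = -(lam * f z)) (hne : ∃ z ∈ U, f z ≠ 0)
    (hcus : ∀ γ : Gam q, ∀ u : ℝ, 0 < u → ∫ s in (0:ℝ)..1, ∫ t in (0:ℝ)..1, ∫ v in (0:ℝ)..K.P,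
      f (act (mat γ.1) (PsiE K.e1 K.e2 s t v u)) = 0)
    (hL2 : ∀ γ : Gam q, ∫⁻ u in Set.Ioi (1:ℝ), ∫⁻ s in Set.Icc (0:ℝ) 1, ∫⁻ t in Set.Icc (0:ℝ) 1,
      ∫⁻ v in Set.Icc (0:ℝ) K.P, ENNReal.ofReal (u⁻¹ ^ 3 *
        Complex.normSq (f (act (mat γ.1) (PsiE K.e1 K.e2 s t v u)))) ≠ ⊤) :
    lam.im = 0 ∧ c ≤ C * ENNReal.ofReal lam.re := by
  have hdec := (inferInstance : (GamN q K.p).Normal)
  have mwE : Measurable wE := by
    have e : wE = (Set.Ioi h).indicator (fun u => ENNReal.ofReal (w (max u h))) := by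
      funext u
      by_cases hu : h < u
      · rw [Set.indicator_of_mem (show u ∈ Set.Ioi h from hu), max_eq_left hu.le]
        exact hwE u hu
      · rw [Set.indicator_of_notMem (show u ∉ Set.Ioi h from hu)]
        exact hwE0 u (not_lt.mp hu)
    rw [e]
    have c1 : Continuous fun u => w (max u h) :=
      cw.comp_continuous (by fun_prop) fun u => Set.mem_Ici.2 (le_max_right _ _)
    exact (ENNReal.measurable_ofReal.comp c1.measurable).indicator measurableSet_Ioi
  have mvE : Measurable vE := by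
    have e : vE = (Set.Ioi h).indicator (fun u => ENNReal.ofReal (V u)) := by
      funext u
      by_cases hu : h < u
      · rw [Set.indicator_of_mem (show u ∈ Set.Ioi h from hu)]
        exact hvE u hu
      · rw [Set.indicator_of_notMem (show u ∉ Set.Ioi h from hu)]
        exact hvE0 u (not_lt.mp hu)
    rw [e]
    exact (ENNReal.measurable_ofReal.comp mV).indicator measurableSet_Ioi
  have hvt : ∀ u, vE u ≠ ⊤ := by
    intro u
    by_cases hu : h < u
    · rw [hvE u hu]
      exact ENNReal.ofReal_ne_top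
    · rw [hvE0 u (not_lt.mp hu)]
      exact ENNReal.zero_ne_top
  -- finiteness for conjugates
  have hfinC : ∀ x : Gam q ⧸ GamN q K.p, BW h K.P (fun s t v u =>
      Complex.normSq (conj (GamN q K.p) f x (PsiE K.e1 K.e2 s t v u))) < ∞ := by
    intro x
    refine BW_lt_top K hh (φ := fun z => Complex.normSq (conj (GamN q K.p) f x z))
      (Complex.continuous_normSq.comp_continuousOn (contDiffOn_conj2 hf x).continuousOn) ?_
    exact (hL2 (x.out : Gam q)⁻¹).lt_top
  have hcn : ∀ (x : Gam q ⧸ GamN q K.p) (R : ℂ →L[ℝ] ℝ),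
      Measurable fun z : X => R (conj (GamN q K.p) f x z.1) ^ 2 := by
    intro x R
    have h1 := (cuspFun_re K hf hinv x R).smooth.continuousOn
    exact ((continuous_restrict h1).pow 2).measurable
  have hce : ∀ (x : Gam q ⧸ GamN q K.p) (R : ℂ →L[ℝ] ℝ),
      Measurable fun z : X => energy (fun z => R (conj (GamN q K.p) f x z)) z.1 := by
    intro x R
    have h1 := (cuspFun_re K hf hinv x R).smooth.of_le (m := 1) (by norm_num)
    exact (continuous_restrict (φ := fun z => normL z
      (fderiv ℝ (fun z => R (conj (GamN q K.p) f x z)) z)) (continuousOn_normL h1)).measurable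
  -- the inequality for real and imaginary parts
  have hpart : ∀ (x : Gam q ⧸ GamN q K.p) (R : ℂ →L[ℝ] ℝ), (∀ c : ℂ, R c ^ 2 ≤ Complex.normSq c) →
      ∫⁻ z in {z : X | z.1 ∈ K.Box}, vE (height z.1) *
        ENNReal.ofReal (R (conj (GamN q K.p) f x z.1) ^ 2) ∂mu ≤
      ∫⁻ z in {z : X | z.1 ∈ K.Box}, wE (height z.1) *
        ENNReal.ofReal (energy (fun z => R (conj (GamN q K.p) f x z)) z.1) ∂mu := by
    intro x R hR
    have hgC := cuspFun_re K hf hinv x R
    rw [lintegral_Box_weight K hh mvE hV0 hvE hvE0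
        (fun z => R (conj (GamN q K.p) f x z) ^ 2) (hcn x R),
      lintegral_Box_weight K hh mwE (fun u hu => (hw u hu.le).le) hwE hwE0
        (fun z => energy (fun z => R (conj (GamN q K.p) f x z)) z) (hce x R)]
    refine mul_le_mul' le_rfl ?_
    refine cusp_real K hh hk0 hk hL0 hL cw hw mV hV0 hB1 hB2 cB1 cB2 cB1' cB2' hB1h hB2h hM1 hM2
      hV1 hV2 hgC (fun u hu => ?_) ?_
    · have hu0 : 0 < u := hh.trans hu
      have h1 := triple_comm R (G := fun s t v =>
        conj (GamN q K.p) f x (PsiE K.e1 K.e2 s t v u))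
        (cont_fixedE K.e1 K.e2 (contDiffOn_conj2 hf x).continuousOn hu0) K.P
      rw [h1]
      have h2 := hcus (x.out : Gam q)⁻¹ u hu0
      have h3 : ∫ s in (0:ℝ)..1, ∫ t in (0:ℝ)..1, ∫ v in (0:ℝ)..K.P,
          conj (GamN q K.p) f x (PsiE K.e1 K.e2 s t v u) = 0 := h2
      rw [h3, map_zero]
    · refine lt_of_le_of_lt ?_ (hfinC x)
      unfold BW
      refine setLIntegral_mono' measurableSet_Ioi fun u hu => ?_
      have hu0 : 0 < u := hh.trans hu
      refine lintegral_mono fun s => lintegral_mono fun t => lintegral_mono fun v => ?_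
      apply ENNReal.ofReal_le_ofReal
      exact mul_le_mul_of_nonneg_left (hR _) (by positivity)
  refine main_abstract (O := OO q) (hO := star_mem) finite_ball one_le_norm
    (GamN_finiteIndex K.hp K.hp0) (measurableSet_Box K) (B_le_stab K)
    (fun z hz => K.exists_unique_B hz) (fun r R hr => Box_compact K r R hr) hh mwE mvE hwE0 hvE0
    hvt hCt hc0 hC hc hf hinv heig hne (fun x => ?_) (fun x => ?_)
  · -- square integrability
    have hs1 : MeasurableSet {z : X | z.1 ∈ K.Box} :=
      (measurableSet_Box K).preimage measurable_subtype_coe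
    have hs2 : MeasurableSet {z : X | z.1 ∈ K.Box ∧ h < height z.1} :=
      hs1.inter (measurableSet_lt measurable_const measurable_height)
    have e1 : ∫⁻ z in {z : X | z.1 ∈ K.Box ∧ h < height z.1},
        ENNReal.ofReal (Complex.normSq (conj (GamN q K.p) f x z.1)) ∂mu =
        ∫⁻ z in {z : X | z.1 ∈ K.Box}, above h (height z.1) *
          ENNReal.ofReal (Complex.normSq (conj (GamN q K.p) f x z.1)) ∂mu := by
      rw [← lintegral_indicator hs1, ← lintegral_indicator hs2]
      refine lintegral_congr fun z => ?_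
      by_cases hz : z ∈ {z : X | z.1 ∈ K.Box}
      · by_cases hz2 : h < height z.1
        · rw [Set.indicator_of_mem (show z ∈ {z : X | z.1 ∈ K.Box ∧ h < height z.1} from
            ⟨hz, hz2⟩), Set.indicator_of_mem hz]
          unfold above
          rw [Set.indicator_of_mem (show height z.1 ∈ Set.Ioi h from hz2), one_mul]
        · rw [Set.indicator_of_notMem (show z ∉ {z : X | z.1 ∈ K.Box ∧ h < height z.1} from
            fun hcon => hz2 hcon.2), Set.indicator_of_mem hz]
          unfold above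
          rw [Set.indicator_of_notMem (show height z.1 ∉ Set.Ioi h from hz2), zero_mul]
      · rw [Set.indicator_of_notMem (show z ∉ {z : X | z.1 ∈ K.Box ∧ h < height z.1} from
            fun hcon => hz hcon.1), Set.indicator_of_notMem hz]
    rw [e1]
    have mn : Measurable fun z : X => Complex.normSq (conj (GamN q K.p) f x z.1) :=
      (continuous_restrict (φ := fun z => Complex.normSq (conj (GamN q K.p) f x z))
        (Complex.continuous_normSq.comp_continuousOn
          (contDiffOn_conj2 hf x).continuousOn)).measurable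
    have e2 := lintegral_Box_weight K hh (wE := above h) (w := fun _ => 1) (measurable_above h)
      (fun u _ => zero_le_one)
      (fun u hu => by
        unfold above
        rw [Set.indicator_of_mem (show u ∈ Set.Ioi h from hu), ENNReal.ofReal_one])
      (fun u hu => by
        unfold above
        exact Set.indicator_of_notMem (show u ∉ Set.Ioi h from not_lt.mpr hu) _)
      (fun z => Complex.normSq (conj (GamN q K.p) f x z)) mn
    rw [e2]
    simp only [one_mul]
    exact (ENNReal.mul_lt_top ENNReal.ofReal_lt_top (hfinC x)).ne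
  · -- the cusp inequality
    have h1 := hpart x Complex.reCLM (fun c => by
      rw [Complex.normSq_apply, Complex.reCLM_apply]
      nlinarith [sq_nonneg c.im])
    have h2 := hpart x Complex.imCLM (fun c => by
      rw [Complex.normSq_apply, Complex.imCLM_apply]
      nlinarith [sq_nonneg c.re])
    have mh : Measurable fun z : X => height z.1 := measurable_height
    have a1 : ∫⁻ z in {z : X | z.1 ∈ K.Box}, vE (height z.1) *
        ENNReal.ofReal (Complex.normSq (conj (GamN q K.p) f x z.1)) ∂mu =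
        ∫⁻ z in {z : X | z.1 ∈ K.Box}, vE (height z.1) *
          ENNReal.ofReal (Complex.reCLM (conj (GamN q K.p) f x z.1) ^ 2) ∂mu +
        ∫⁻ z in {z : X | z.1 ∈ K.Box}, vE (height z.1) *
          ENNReal.ofReal (Complex.imCLM (conj (GamN q K.p) f x z.1) ^ 2) ∂mu := by
      have m1 : Measurable fun z : X => vE (height z.1) *
          ENNReal.ofReal (Complex.reCLM (conj (GamN q K.p) f x z.1) ^ 2) :=
        (mvE.comp mh).mul (ENNReal.measurable_ofReal.comp (hcn x Complex.reCLM))
      rw [← lintegral_add_left m1]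
      refine lintegral_congr fun z => ?_
      rw [← mul_add, ← ENNReal.ofReal_add (by positivity) (by positivity), Complex.normSq_apply,
        Complex.reCLM_apply, Complex.imCLM_apply]
      congr 2
      ring
    have a2 : ∫⁻ z in {z : X | z.1 ∈ K.Box}, wE (height z.1) *
        ENNReal.ofReal (energy (fun z => (conj (GamN q K.p) f x z).re) z.1 +
          energy (fun z => (conj (GamN q K.p) f x z).im) z.1) ∂mu =
        ∫⁻ z in {z : X | z.1 ∈ K.Box}, wE (height z.1) *
          ENNReal.ofReal (energy (fun z => Complex.reCLM (conj (GamN q K.p) f x z)) z.1) ∂mu +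
        ∫⁻ z in {z : X | z.1 ∈ K.Box}, wE (height z.1) *
          ENNReal.ofReal (energy (fun z => Complex.imCLM (conj (GamN q K.p) f x z)) z.1) ∂mu := by
      have m1 : Measurable fun z : X => wE (height z.1) *
          ENNReal.ofReal (energy (fun z => Complex.reCLM (conj (GamN q K.p) f x z)) z.1) :=
        (mwE.comp mh).mul (ENNReal.measurable_ofReal.comp (hce x Complex.reCLM))
      rw [← lintegral_add_left m1]
      refine lintegral_congr fun z => ?_
      have n1 : 0 ≤ energy (fun z => (conj (GamN q K.p) f x z).re) z.1 := normL_nonneg z.2.le _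
      have n2 : 0 ≤ energy (fun z => (conj (GamN q K.p) f x z).im) z.1 := normL_nonneg z.2.le _
      rw [ENNReal.ofReal_add n1 n2, mul_add]
      rfl
    rw [a1, a2]
    exact add_le_add h1 h2

end

end Pool.Agent.Lib.H56.Gen
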