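import Pool.Agent.Lib.H56.Gen.Check
import Mathlib

/-!
# Soundness of the certificate checks (chunk D1, statement by helper56, proof by helper92)
-/

namespace Pool.Agent.Lib.H56.Gen

noncomputable section

/-- the function `R` of a cusp -/
def Rr (p : Par) (c : Cos) (s t : ℝ) : ℝ :=
  c.n * (p.al * s ^ 2 + p.be * s * t + p.ga * t ^ 2) -
    (((p.KB : ℝ) - c.a1) * s + ((p.KB : ℝ) - c.a2) * t) + c.nd

/-- the function `T` of a cusp -/
def Tt (p : Par) (c : Cos) (s t v : ℝ) : ℝ :=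
  c.n * v + ((c.b1 : ℝ) - p.KB) * s + ((c.b2 : ℝ) - p.KB) * t + ((c.r : ℝ) - p.KB)

/-- height of a point with respect to a cusp -/
def Ht (p : Par) (c : Cos) (s t v u : ℝ) : ℝ :=
  4 * c.n * u / ((c.n * u + Rr p c s t) ^ 2 + p.D * Tt p c s t v ^ 2)

/-- table index of a height -/
def ix (p : Par) (H : ℝ) : ℕ := ⌊(p.K * p.hn : ℝ) / (p.hd * H)⌋₊

/-- points of a cell -/
structure InCell (p : Par) (S hx T hy V hv U0 U1 : ℕ) (s t v u : ℝ) : Prop where
  s0 : 0 ≤ s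
  t0 : 0 ≤ t
  v0 : 0 ≤ v
  hs : |p.M * s - S| ≤ hx
  ht : |p.M * t - T| ≤ hy
  hv : |p.M * v - V| ≤ hv
  hu0 : (U0 : ℝ) ≤ p.M ^ 2 * u
  hu1 : p.M ^ 2 * u ≤ U1

/-- admissible cusp data -/
structure Good (p : Par) (c : Cos) : Prop where
  n0 : 0 < c.n
  B1 : (c.B1 : ℝ) = |(c.b1 : ℝ) - p.KB|
  B2 : (c.B2 : ℝ) = |(c.b2 : ℝ) - p.KB|
  R0 : ∀ s t : ℝ, 0 ≤ Rr p c s t

/-- admissible parameters -/
structure OK (p : Par) : Prop where
  M0 : 0 < p.M
  K0 : 0 < p.K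
  hn0 : 0 < p.hn
  hd0 : 0 < p.hd
  antiw : ∀ i, tab p.tw (i + 1) ≤ tab p.tw i
  antiv : ∀ i, tab p.tv (i + 1) ≤ tab p.tv i
  zw : ∀ i, p.K ≤ i → tab p.tw i = 0
  zv : ∀ i, p.K ≤ i → tab p.tv i = 0

/-! ### elementary facts about the primitive functions -/

lemma dist_cast (x y : ℕ) : ((dist x y : ℕ) : ℝ) = |(x : ℝ) - y| := by
  show (((x - y) + (y - x) : ℕ) : ℝ) = _
  rcases le_total x y with h | h
  · rw [Nat.sub_eq_zero_of_le h, zero_add, Nat.cast_sub h, abs_of_nonpos]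
    · ring
    · have : (x : ℝ) ≤ y := by exact_mod_cast h
      linarith
  · rw [Nat.sub_eq_zero_of_le h, add_zero, Nat.cast_sub h, abs_of_nonneg]
    have : (y : ℝ) ≤ x := by exact_mod_cast h
    linarith

lemma mx_eq (x y : ℕ) : mx x y = max x y := by
  unfold mx
  cases h : Nat.ble x y with
  | true =>
    have := Nat.le_of_ble_eq_true h
    show y = _
    rw [max_eq_right this]
  | false =>
    have h1 : ¬ x ≤ y := fun h2 => by
      rw [Nat.ble_eq_true_of_le h2] at h; exact absurd h (by simp)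
    show x = _
    rw [max_eq_left (not_le.1 h1).le]

lemma sub_le_real {x y : ℕ} {z : ℝ} (hz : 0 ≤ z) (h : (x : ℝ) - y ≤ z) :
    ((x - y : ℕ) : ℝ) ≤ z := by
  rcases le_total x y with h1 | h1
  · rw [Nat.sub_eq_zero_of_le h1]; simpa using hz
  · rw [Nat.cast_sub h1]; exact h

/-! ### bounds of `R` and `T` over a cell -/

section Bounds

variable {p : Par} {c : Cos} {S hx T hy V hv : ℕ} {s t v : ℝ}

lemma q_nonneg (hc : Good p c) (x y : ℝ) :
    0 ≤ (p.al : ℝ) * x ^ 2 + p.be * x * y + p.ga * y ^ 2 := by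
  by_contra hneg
  push Not at hneg
  set q := (p.al : ℝ) * x ^ 2 + p.be * x * y + p.ga * y ^ 2 with hq
  have hn : (0:ℝ) < c.n := by exact_mod_cast hc.n0
  set l := ((p.KB : ℝ) - c.a1) * x + ((p.KB : ℝ) - c.a2) * y with hl
  -- R (r x, r y) = n q r^2 - l r + nd
  have h1 : ∀ r : ℝ, 0 ≤ c.n * q * r ^ 2 - l * r + c.nd := by
    intro r
    have := hc.R0 (r * x) (r * y)
    have e : Rr p c (r * x) (r * y) = c.n * q * r ^ 2 - l * r + c.nd := by
      simp only [Rr, hq, hl]; ring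
    rwa [e] at this
  have hnq : c.n * q < 0 := mul_neg_of_pos_of_neg hn hneg
  set a := -(c.n * q) with ha
  have ha0 : 0 < a := by rw [ha]; linarith
  have h2 := h1 ((|l| + c.nd + 1) / a + 1)
  have h3 : 0 ≤ |l| := abs_nonneg l
  have h4 : (0:ℝ) ≤ c.nd := Nat.cast_nonneg _
  set r := (|l| + c.nd + 1) / a + 1 with hr
  have hr1 : 1 ≤ r := by rw [hr]; have : 0 ≤ (|l| + c.nd + 1) / a := by positivity
                         linarith
  have h5 : a * r = |l| + c.nd + 1 + a := by rw [hr]; field_simp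
  have h6 : -(l * r) ≤ |l| * r := by
    have : -l ≤ |l| := neg_le_abs l
    nlinarith
  have h7 : c.n * q * r ^ 2 = -(a * r) * r := by rw [ha]; ring
  rw [h7, h5] at h2
  nlinarith

lemma Rc_cast (hM : 0 < p.M) (hc : Good p c) :
    ((fRc (sq p.M) (Nat.add (Nat.mul p.al (sq S)) (Nat.add (Nat.mul p.be (Nat.mul S T))
      (Nat.mul p.ga (sq T)))) (Nat.mul S p.M) (Nat.mul T p.M)
      (Nat.mul p.KB (Nat.mul p.M (Nat.add S T))) c.n c.nd c.a1 c.a2 : ℕ) : ℝ) =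
      c.n * (p.al * S ^ 2 + p.be * S * T + p.ga * T ^ 2) + c.nd * p.M ^ 2 -
        p.M * (((p.KB : ℝ) - c.a1) * S + ((p.KB : ℝ) - c.a2) * T) := by
  have hM' : (0:ℝ) < p.M := by exact_mod_cast hM
  have h0 := hc.R0 (S / p.M) (T / p.M)
  have e0 : p.M ^ 2 * Rr p c (S / p.M) (T / p.M) =
      c.n * (p.al * S ^ 2 + p.be * S * T + p.ga * T ^ 2) + c.nd * p.M ^ 2 -
        p.M * (((p.KB : ℝ) - c.a1) * S + ((p.KB : ℝ) - c.a2) * T) := by
    simp only [Rr]; field_simp; ring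
  have h1 : 0 ≤ c.n * (p.al * S ^ 2 + p.be * S * T + p.ga * T ^ 2) + c.nd * p.M ^ 2 -
        (p.M:ℝ) * (((p.KB : ℝ) - c.a1) * S + ((p.KB : ℝ) - c.a2) * T) := by
    rw [← e0]; positivity
  show (((c.n * (p.al * (S * S) + (p.be * (S * T) + p.ga * (T * T))) + c.nd * (p.M * p.M)) +
    ((S * p.M) * c.a1 + (T * p.M) * c.a2) - p.KB * (p.M * (S + T)) : ℕ) : ℝ) = _
  rw [Nat.cast_sub]
  · push_cast; ring
  · have : ((p.KB * (p.M * (S + T)) : ℕ) : ℝ) ≤ ((c.n * (p.al * (S * S) + (p.be * (S * T) +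
      p.ga * (T * T))) + c.nd * (p.M * p.M)) + ((S * p.M) * c.a1 + (T * p.M) * c.a2) : ℕ) := by
      push_cast; linarith
    exact_mod_cast this

lemma fL_cast : ((fL p.M (Nat.mul p.M p.KB)
      (Nat.add (Nat.mul 2 (Nat.mul p.al S)) (Nat.mul p.be T))
      (Nat.add (Nat.mul 2 (Nat.mul p.ga T)) (Nat.mul p.be S)) hx hy c.n c.a1 c.a2 : ℕ) : ℝ) =
      |c.n * (2 * p.al * S + p.be * T) - p.M * ((p.KB : ℝ) - c.a1)| * hx +
      |c.n * (2 * p.ga * T + p.be * S) - p.M * ((p.KB : ℝ) - c.a2)| * hy := by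
  show ((dist (c.n * (2 * (p.al * S) + p.be * T) + p.M * c.a1) (p.M * p.KB) * hx +
    dist (c.n * (2 * (p.ga * T) + p.be * S) + p.M * c.a2) (p.M * p.KB) * hy : ℕ) : ℝ) = _
  push_cast
  rw [dist_cast, dist_cast]
  push_cast
  have e1 : (c.n * (2 * (p.al * S) + p.be * T) + p.M * c.a1 - p.M * p.KB : ℝ) =
      c.n * (2 * p.al * S + p.be * T) - p.M * ((p.KB : ℝ) - c.a1) := by ring
  have e2 : (c.n * (2 * (p.ga * T) + p.be * S) + p.M * c.a2 - p.M * p.KB : ℝ) =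
      c.n * (2 * p.ga * T + p.be * S) - p.M * ((p.KB : ℝ) - c.a2) := by ring
  rw [e1, e2]

lemma R_expand : (p.M : ℝ) ^ 2 * Rr p c s t =
      (c.n * (p.al * S ^ 2 + p.be * S * T + p.ga * T ^ 2) + c.nd * p.M ^ 2 -
        p.M * (((p.KB : ℝ) - c.a1) * S + ((p.KB : ℝ) - c.a2) * T)) +
      ((c.n * (2 * p.al * S + p.be * T) - p.M * ((p.KB : ℝ) - c.a1)) * (p.M * s - S) +
      (c.n * (2 * p.ga * T + p.be * S) - p.M * ((p.KB : ℝ) - c.a2)) * (p.M * t - T)) +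
      c.n * (p.al * (p.M * s - S) ^ 2 + p.be * (p.M * s - S) * (p.M * t - T) +
        p.ga * (p.M * t - T) ^ 2) := by
  simp only [Rr]; ring

lemma lin_bound {G1 G2 x y a b : ℝ} (hx : |x| ≤ a) (hy : |y| ≤ b) :
    |G1 * x + G2 * y| ≤ |G1| * a + |G2| * b := by
  calc |G1 * x + G2 * y| ≤ |G1 * x| + |G2 * y| := abs_add_le _ _
    _ = |G1| * |x| + |G2| * |y| := by rw [abs_mul, abs_mul]
    _ ≤ _ := add_le_add (mul_le_mul_of_nonneg_left hx (abs_nonneg _))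
        (mul_le_mul_of_nonneg_left hy (abs_nonneg _))

end Bounds

/-! ### the cell data -/

/-- centre value of `R` -/
def cR (p : Par) (c : Cos) (S T : ℕ) : ℕ :=
  fRc (sq p.M) (Nat.add (Nat.mul p.al (sq S)) (Nat.add (Nat.mul p.be (Nat.mul S T))
      (Nat.mul p.ga (sq T)))) (Nat.mul S p.M) (Nat.mul T p.M)
      (Nat.mul p.KB (Nat.mul p.M (Nat.add S T))) c.n c.nd c.a1 c.a2

/-- linear variation of `R` -/
def cL (p : Par) (c : Cos) (S hx T hy : ℕ) : ℕ :=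
  fL p.M (Nat.mul p.M p.KB)
      (Nat.add (Nat.mul 2 (Nat.mul p.al S)) (Nat.mul p.be T))
      (Nat.add (Nat.mul 2 (Nat.mul p.ga T)) (Nat.mul p.be S)) hx hy c.n c.a1 c.a2

/-- quadratic variation -/
def cq (p : Par) (hx hy : ℕ) : ℕ :=
  Nat.add (Nat.mul p.al (sq hx)) (Nat.add (Nat.mul p.be (Nat.mul hx hy)) (Nat.mul p.ga (sq hy)))

/-- centre value of `T` -/
def cT (p : Par) (c : Cos) (S T V : ℕ) : ℕ :=
  fT p.M S T V (Nat.mul p.KB (Nat.add (Nat.add S T) p.M)) c.n c.b1 c.b2 c.r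

/-- variation of `T` -/
def cH (c : Cos) (hx hy hv : ℕ) : ℕ := fH hx hy hv c.n c.B1 c.B2

lemma kupC_eq (p : Par) (c : Cos) (S hx T hy V hv U0 U1 : ℕ) :
    kupC (mkNd p S hx T hy V hv U0 U1) c =
      kup (p.K * p.hn) (4 * (p.hd * (p.M * p.M))) (c.n * U0) (c.n * U1)
        (cR p c S T - cL p c S hx T hy)
        ((p.D * (p.M * p.M)) * sq (cT p c S T V - cH c hx hy hv)) := rfl

lemma kloC_eq (p : Par) (c : Cos) (S hx T hy V hv U0 U1 : ℕ) :
    kloC (mkNd p S hx T hy V hv U0 U1) c =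
      klo p.K (p.K * p.hn) (4 * (p.hd * (p.M * p.M))) (c.n * U0) (c.n * U1)
        (cR p c S T + cL p c S hx T hy + c.n * cq p hx hy)
        ((p.D * (p.M * p.M)) * sq (cT p c S T V + cH c hx hy hv)) := rfl

lemma skipC_eq (p : Par) (c : Cos) (S hx T hy V hv U0 U1 : ℕ) :
    skipC (mkNd p S hx T hy V hv U0 U1) c =
      Nat.ble ((sq (c.n * U1 + (cR p c S T + cL p c S hx T hy + c.n * cq p hx hy)) +
        (p.D * (p.M * p.M)) * sq (cT p c S T V + cH c hx hy hv)) + 1)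
        ((4 * (sq (sq p.M))) * c.n) := rfl

lemma leafW_eq (p : Par) (x : Nd) (U1 : ℕ) (l : List Cos) :
    leafW p x U1 l = Nat.ble (sumL (fun c => tab p.tw (mx ((p.K * p.hn) * (p.M * p.M) / (p.hd * U1))
      (kupC x c))) (tab p.tw ((p.K * p.hn) * (p.M * p.M) / (p.hd * U1))) l) p.C := rfl

lemma leafV_eq (p : Par) (x : Nd) (U0 : ℕ) (l : List Cos) :
    leafV p x U0 l = Nat.ble p.c (sumL (fun c => tab p.tv (kloC x c))
      (Bool.rec (tab p.tv ((p.K * p.hn) * (p.M * p.M) / (p.hd * U0))) 0 (Nat.beq U0 0)) l) := rfl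

lemma dropW_eq (p : Par) (c : Cos) (S hx T hy V hv U0 U1 : ℕ) :
    dropW (mkNd p S hx T hy V hv U0 U1) c =
      Nat.ble p.K (kupC (mkNd p S hx T hy V hv U0 U1) c) := rfl

section Cell

variable {p : Par} {c : Cos} {S hx T hy V hv U0 U1 : ℕ} {s t v u : ℝ}

lemma R_low (hM : 0 < p.M) (hc : Good p c) (hs : |p.M * s - S| ≤ hx) (ht : |p.M * t - T| ≤ hy) :
    ((cR p c S T - cL p c S hx T hy : ℕ) : ℝ) ≤ p.M ^ 2 * Rr p c s t := by
  have hM' : (0:ℝ) < p.M := by exact_mod_cast hM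
  refine sub_le_real (mul_nonneg (by positivity) (hc.R0 s t)) ?_
  unfold cR cL
  rw [Rc_cast hM hc, fL_cast, R_expand (S := S) (T := T)]
  have h1 := (abs_le.1 (lin_bound (G1 := c.n * (2 * p.al * S + p.be * T) -
    p.M * ((p.KB : ℝ) - c.a1)) (G2 := c.n * (2 * p.ga * T + p.be * S) -
    p.M * ((p.KB : ℝ) - c.a2)) hs ht)).1
  have h2 := q_nonneg hc (p.M * s - S) (p.M * t - T)
  have h3 : (0:ℝ) ≤ c.n := Nat.cast_nonneg _
  have h4 := mul_nonneg h3 h2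
  linarith

lemma R_high (hM : 0 < p.M) (hc : Good p c) (hs : |p.M * s - S| ≤ hx) (ht : |p.M * t - T| ≤ hy) :
    (p.M : ℝ) ^ 2 * Rr p c s t ≤
      ((cR p c S T + cL p c S hx T hy + c.n * cq p hx hy : ℕ) : ℝ) := by
  push_cast
  have hq : ((cq p hx hy : ℕ) : ℝ) = p.al * hx ^ 2 + p.be * (hx * hy) + p.ga * hy ^ 2 := by
    show ((p.al * (hx * hx) + (p.be * (hx * hy) + p.ga * (hy * hy)) : ℕ) : ℝ) = _
    push_cast; ring
  rw [hq]
  unfold cR cL
  rw [Rc_cast hM hc, fL_cast, R_expand (S := S) (T := T)]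
  have h1 := (abs_le.1 (lin_bound (G1 := c.n * (2 * p.al * S + p.be * T) -
    p.M * ((p.KB : ℝ) - c.a1)) (G2 := c.n * (2 * p.ga * T + p.be * S) -
    p.M * ((p.KB : ℝ) - c.a2)) hs ht)).2
  have h3 : (0:ℝ) ≤ c.n := Nat.cast_nonneg _
  have ha : (0:ℝ) ≤ p.al := Nat.cast_nonneg _
  have hb : (0:ℝ) ≤ p.be := Nat.cast_nonneg _
  have hg : (0:ℝ) ≤ p.ga := Nat.cast_nonneg _
  set x := (p.M : ℝ) * s - S with hxd
  set y := (p.M : ℝ) * t - T with hyd
  have e1 : x ^ 2 ≤ (hx : ℝ) ^ 2 := sq_le_sq' (by linarith [(abs_le.1 hs).1]) (abs_le.1 hs).2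
  have e2 : y ^ 2 ≤ (hy : ℝ) ^ 2 := sq_le_sq' (by linarith [(abs_le.1 ht).1]) (abs_le.1 ht).2
  have e3 : x * y ≤ (hx : ℝ) * hy := by
    calc x * y ≤ |x * y| := le_abs_self _
      _ = |x| * |y| := abs_mul _ _
      _ ≤ _ := mul_le_mul hs ht (abs_nonneg _) (Nat.cast_nonneg _)
  have e4 : p.al * x ^ 2 + p.be * x * y + p.ga * y ^ 2 ≤
      p.al * (hx:ℝ) ^ 2 + p.be * ((hx:ℝ) * hy) + p.ga * (hy:ℝ) ^ 2 := by
    have f1 := mul_le_mul_of_nonneg_left e1 ha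
    have f2 := mul_le_mul_of_nonneg_left e2 hg
    have f3 := mul_le_mul_of_nonneg_left e3 hb
    linarith
  have h4 := mul_le_mul_of_nonneg_left e4 h3
  linarith

lemma T_dev (hc : Good p c) (hs : |p.M * s - S| ≤ hx) (ht : |p.M * t - T| ≤ hy)
    (hvv : |p.M * v - V| ≤ hv) :
    |(p.M : ℝ) * |Tt p c s t v| - cT p c S T V| ≤ cH c hx hy hv := by
  have e1 : ((cT p c S T V : ℕ) : ℝ) = |(c.n : ℝ) * V + c.r * p.M + (c.b1 * S + c.b2 * T) -
      p.KB * (S + T + p.M)| := by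
    show ((dist (c.n * V + c.r * p.M + (c.b1 * S + c.b2 * T)) (p.KB * (S + T + p.M)) : ℕ) : ℝ) = _
    rw [dist_cast]
    push_cast
    rfl
  have e2 : ((cH c hx hy hv : ℕ) : ℝ) = c.n * hv + (|(c.b1 : ℝ) - p.KB| * hx +
      |(c.b2 : ℝ) - p.KB| * hy) := by
    show ((c.n * hv + (c.B1 * hx + c.B2 * hy) : ℕ) : ℝ) = _
    push_cast
    rw [hc.B1, hc.B2]
  have hM0 : (0:ℝ) ≤ p.M := Nat.cast_nonneg _
  have hn0 : (0:ℝ) ≤ c.n := Nat.cast_nonneg _
  have e3 : (p.M : ℝ) * |Tt p c s t v| = |p.M * Tt p c s t v| := by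
    rw [abs_mul, abs_of_nonneg hM0]
  rw [e1, e2, e3]
  refine (abs_abs_sub_abs_le_abs_sub _ _).trans ?_
  have e4 : p.M * Tt p c s t v - (c.n * V + c.r * p.M + (c.b1 * S + c.b2 * T) -
      p.KB * (S + T + p.M)) = c.n * (p.M * v - V) +
      (((c.b1 : ℝ) - p.KB) * (p.M * s - S) + ((c.b2 : ℝ) - p.KB) * (p.M * t - T)) := by
    simp only [Tt]; ring
  rw [e4]
  refine (abs_add_le _ _).trans (add_le_add ?_ (lin_bound hs ht))
  rw [abs_mul, abs_of_nonneg hn0]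
  exact mul_le_mul_of_nonneg_left hvv hn0

lemma T_low (hc : Good p c) (hs : |p.M * s - S| ≤ hx) (ht : |p.M * t - T| ≤ hy)
    (hvv : |p.M * v - V| ≤ hv) :
    ((cT p c S T V - cH c hx hy hv : ℕ) : ℝ) ≤ p.M * |Tt p c s t v| := by
  refine sub_le_real (by positivity) ?_
  have := (abs_le.1 (T_dev hc hs ht hvv)).1
  linarith

lemma T_high (hc : Good p c) (hs : |p.M * s - S| ≤ hx) (ht : |p.M * t - T| ≤ hy)
    (hvv : |p.M * v - V| ≤ hv) :
    (p.M : ℝ) * |Tt p c s t v| ≤ ((cT p c S T V + cH c hx hy hv : ℕ) : ℝ) := by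
  have := (abs_le.1 (T_dev hc hs ht hvv)).2
  push_cast
  linarith

/-- the index quantity in integer scale -/
lemma E_eq (hM : 0 < p.M) (hd : 0 < p.hd) (hn : 0 < c.n) (hu : 0 < u) :
    (p.K * p.hn : ℝ) / (p.hd * Ht p c s t v u) =
      (p.K * p.hn) * ((p.M ^ 2 * (c.n * u) + p.M ^ 2 * Rr p c s t) ^ 2 +
        p.D * p.M ^ 2 * (p.M * |Tt p c s t v|) ^ 2) / (4 * (p.hd * p.M ^ 2) *
          (p.M ^ 2 * (c.n * u))) := by
  have hM' : (0:ℝ) < p.M := by exact_mod_cast hM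
  have hd' : (0:ℝ) < p.hd := by exact_mod_cast hd
  have hn' : (0:ℝ) < c.n := by exact_mod_cast hn
  have e : (p.M ^ 2 * (c.n * u) + p.M ^ 2 * Rr p c s t) ^ 2 +
        p.D * p.M ^ 2 * (p.M * |Tt p c s t v|) ^ 2 =
      (p.M : ℝ) ^ 4 * ((c.n * u + Rr p c s t) ^ 2 + p.D * Tt p c s t v ^ 2) := by
    rw [mul_pow, sq_abs]; ring
  rw [e, Ht]
  by_cases h0 : (c.n * u + Rr p c s t) ^ 2 + p.D * Tt p c s t v ^ 2 = 0
  · rw [h0]; simp
  · field_simp

lemma frac_low {X0 X1 X R0 R θ0 θ : ℝ} (h0 : 0 ≤ X0) (h1 : X0 ≤ X) (h2 : X ≤ X1) (h3 : 0 < X)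
    (h4 : 0 ≤ R0) (h5 : R0 ≤ R) (h6 : 0 ≤ θ0) (h7 : θ0 ≤ θ) {Y Z : ℝ}
    (hY : (X1 ^ 2 ≤ R0 ^ 2 + θ0 ∧ Y = X1) ∨ (¬ X1 ^ 2 ≤ R0 ^ 2 + θ0 ∧ Y = X0))
    (hZ : (R0 ^ 2 + θ0 ≤ X0 ^ 2 ∧ Z = X0) ∨ (¬ R0 ^ 2 + θ0 ≤ X0 ^ 2 ∧ Z = X1)) :
    ((Y + R0) ^ 2 + θ0) / Z ≤ ((X + R) ^ 2 + θ) / X := by
  have m1 : ((X + R0) ^ 2 + θ0) / X ≤ ((X + R) ^ 2 + θ) / X := by
    have : (X + R0) ^ 2 ≤ (X + R) ^ 2 := by nlinarith
    exact div_le_div_of_nonneg_right (by linarith) h3.le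
  have hX1 : 0 < X1 := h3.trans_le h2
  rcases hZ with ⟨hz, rfl⟩ | ⟨hz, rfl⟩
  · -- minimum at X0
    have hYX : Y = Z := by
      rcases hY with ⟨hy, rfl⟩ | ⟨hy, rfl⟩
      · have : Y ^ 2 ≤ Z ^ 2 := hy.trans hz
        have h8 : Y ≤ Z := le_of_sq_le_sq this h0
        exact le_antisymm h8 (h1.trans h2)
      · rfl
    rw [hYX]
    rcases h0.eq_or_lt with h | h
    · rw [← h, div_zero]
      exact div_nonneg (add_nonneg (sq_nonneg _) (h6.trans h7)) h3.le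
    · refine le_trans ?_ m1
      rw [div_le_div_iff₀ h h3]
      nlinarith [mul_nonneg (sub_nonneg.2 h1) (sub_nonneg.2 (hz.trans (by nlinarith : Z ^ 2 ≤ Z * X)))]
  · rcases hY with ⟨hy, rfl⟩ | ⟨hy, rfl⟩
    · refine le_trans ?_ m1
      rw [div_le_div_iff₀ hX1 h3]
      nlinarith [mul_nonneg (sub_nonneg.2 h2) (sub_nonneg.2 ((by nlinarith : X * Y ≤ Y ^ 2).trans hy))]
    · -- crude bound
      refine le_trans ?_ m1
      rw [div_le_div_iff₀ hX1 h3]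
      have e1 : (Y + R0) ^ 2 + θ0 ≤ (X + R0) ^ 2 + θ0 := by nlinarith
      have e2 : 0 ≤ (Y + R0) ^ 2 + θ0 := by positivity
      calc ((Y + R0) ^ 2 + θ0) * X ≤ ((X + R0) ^ 2 + θ0) * X := mul_le_mul_of_nonneg_right e1 h3.le
        _ ≤ _ := mul_le_mul_of_nonneg_left h2 (by positivity)

lemma frac_high {X0 X1 X R1 R θ1 θ : ℝ} (h0 : 0 < X0) (h1 : X0 ≤ X) (h2 : X ≤ X1)
    (h4 : 0 ≤ R) (h5 : R ≤ R1) (h7 : θ ≤ θ1) :
    ((X + R) ^ 2 + θ) / X ≤ ((X0 + R1) ^ 2 + θ1) / X0 ∨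
      ((X + R) ^ 2 + θ) / X ≤ ((X1 + R1) ^ 2 + θ1) / X1 := by
  have h3 : 0 < X := h0.trans_le h1
  have hX1 : 0 < X1 := h3.trans_le h2
  have m1 : ((X + R) ^ 2 + θ) / X ≤ ((X + R1) ^ 2 + θ1) / X := by
    have : (X + R) ^ 2 ≤ (X + R1) ^ 2 := by nlinarith
    exact div_le_div_of_nonneg_right (by linarith) h3.le
  rcases le_total (R1 ^ 2 + θ1) (X * X1) with h | h
  · right
    refine m1.trans ?_
    rw [div_le_div_iff₀ h3 hX1]
    nlinarith [mul_nonneg (sub_nonneg.2 h2) (sub_nonneg.2 h)]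
  · left
    refine m1.trans ?_
    rw [div_le_div_iff₀ h3 h0]
    have h' : X * X0 ≤ R1 ^ 2 + θ1 := (by nlinarith : X * X0 ≤ X * X1).trans h
    nlinarith [mul_nonneg (sub_nonneg.2 h1) (sub_nonneg.2 h')]

lemma ble_cases (a b : ℕ) : (Nat.ble a b = true ∧ a ≤ b) ∨ (Nat.ble a b = false ∧ ¬ a ≤ b) := by
  by_cases h : a ≤ b
  · exact Or.inl ⟨Nat.ble_eq_true_of_le h, h⟩
  · right
    refine ⟨?_, h⟩
    cases h1 : Nat.ble a b with
    | true => exact absurd (Nat.le_of_ble_eq_true h1) h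
    | false => rfl

lemma kup_le (hM : 0 < p.M) (hd : 0 < p.hd) (hc : Good p c) (hu : 0 < u)
    (hin : InCell p S hx T hy V hv U0 U1 s t v u) :
    kupC (mkNd p S hx T hy V hv U0 U1) c ≤ ix p (Ht p c s t v u) := by
  have hM' : (0:ℝ) < p.M := by exact_mod_cast hM
  have hd' : (0:ℝ) < p.hd := by exact_mod_cast hd
  have hn' : (0:ℝ) < c.n := by exact_mod_cast hc.n0
  rw [kupC_eq]
  set R0 := cR p c S T - cL p c S hx T hy with hR0
  set θ0 := (p.D * (p.M * p.M)) * sq (cT p c S T V - cH c hx hy hv) with hθ0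
  have bR : (R0 : ℝ) ≤ p.M ^ 2 * Rr p c s t := R_low hM hc hin.hs hin.ht
  have bT := T_low hc hin.hs hin.ht hin.hv
  have bθ : (θ0 : ℝ) ≤ p.D * p.M ^ 2 * (p.M * |Tt p c s t v|) ^ 2 := by
    have e : (θ0 : ℝ) = p.D * p.M ^ 2 * ((cT p c S T V - cH c hx hy hv : ℕ) : ℝ) ^ 2 := by
      rw [hθ0]
      show (((p.D * (p.M * p.M)) * ((cT p c S T V - cH c hx hy hv) *
        (cT p c S T V - cH c hx hy hv)) : ℕ) : ℝ) = _
      push_cast; ring
    rw [e]
    have : ((cT p c S T V - cH c hx hy hv : ℕ) : ℝ) ^ 2 ≤ (p.M * |Tt p c s t v|) ^ 2 :=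
      pow_le_pow_left₀ (Nat.cast_nonneg _) bT 2
    exact mul_le_mul_of_nonneg_left this (by positivity)
  have X0 : ((c.n * U0 : ℕ) : ℝ) ≤ p.M ^ 2 * (c.n * u) := by
    push_cast
    have := mul_le_mul_of_nonneg_left hin.hu0 hn'.le
    linarith
  have X1 : p.M ^ 2 * (c.n * u) ≤ ((c.n * U1 : ℕ) : ℝ) := by
    push_cast
    have := mul_le_mul_of_nonneg_left hin.hu1 hn'.le
    linarith
  have hX : 0 < (p.M : ℝ) ^ 2 * (c.n * u) := by positivity
  unfold ix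
  rw [E_eq hM hd hc.n0 hu]
  -- the two choices
  obtain ⟨Y, hYe, hY⟩ : ∃ Y : ℕ, (Bool.rec (c.n * U0) (c.n * U1)
      (Nat.ble (sq (c.n * U1)) (Nat.add (sq R0) θ0)) : ℕ) = Y ∧
      ((((c.n * U1 : ℕ) : ℝ) ^ 2 ≤ (R0 : ℝ) ^ 2 + θ0 ∧ (Y : ℝ) = ((c.n * U1 : ℕ) : ℝ)) ∨
        (¬ ((c.n * U1 : ℕ) : ℝ) ^ 2 ≤ (R0 : ℝ) ^ 2 + θ0 ∧ (Y : ℝ) = ((c.n * U0 : ℕ) : ℝ))) := by
    have e : (sq (c.n * U1) ≤ Nat.add (sq R0) θ0) ↔
        ((c.n * U1 : ℕ) : ℝ) ^ 2 ≤ (R0 : ℝ) ^ 2 + θ0 := by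
      show ((c.n * U1) * (c.n * U1) ≤ R0 * R0 + θ0) ↔ _
      rw [← Nat.cast_le (α := ℝ)]
      push_cast
      rw [← pow_two, ← pow_two]
    rcases ble_cases (sq (c.n * U1)) (Nat.add (sq R0) θ0) with ⟨h1, h2⟩ | ⟨h1, h2⟩
    · exact ⟨c.n * U1, by rw [h1], Or.inl ⟨e.1 h2, rfl⟩⟩
    · exact ⟨c.n * U0, by rw [h1], Or.inr ⟨fun h => h2 (e.2 h), rfl⟩⟩
  obtain ⟨Z, hZe, hZ⟩ : ∃ Z : ℕ, (Bool.rec (c.n * U1) (c.n * U0)
      (Nat.ble (Nat.add (sq R0) θ0) (sq (c.n * U0))) : ℕ) = Z ∧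
      (((R0 : ℝ) ^ 2 + θ0 ≤ ((c.n * U0 : ℕ) : ℝ) ^ 2 ∧ (Z : ℝ) = ((c.n * U0 : ℕ) : ℝ)) ∨
        (¬ (R0 : ℝ) ^ 2 + θ0 ≤ ((c.n * U0 : ℕ) : ℝ) ^ 2 ∧ (Z : ℝ) = ((c.n * U1 : ℕ) : ℝ))) := by
    have e : (Nat.add (sq R0) θ0 ≤ sq (c.n * U0)) ↔
        (R0 : ℝ) ^ 2 + θ0 ≤ ((c.n * U0 : ℕ) : ℝ) ^ 2 := by
      show (R0 * R0 + θ0 ≤ (c.n * U0) * (c.n * U0)) ↔ _
      rw [← Nat.cast_le (α := ℝ)]
      push_cast
      rw [← pow_two, ← pow_two]
    rcases ble_cases (Nat.add (sq R0) θ0) (sq (c.n * U0)) with ⟨h1, h2⟩ | ⟨h1, h2⟩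
    · exact ⟨c.n * U0, by rw [h1], Or.inl ⟨e.1 h2, rfl⟩⟩
    · exact ⟨c.n * U1, by rw [h1], Or.inr ⟨fun h => h2 (e.2 h), rfl⟩⟩
  have key := frac_low (Nat.cast_nonneg _) X0 X1 hX (Nat.cast_nonneg R0) bR (Nat.cast_nonneg θ0) bθ
    hY hZ
  have ek : kup (p.K * p.hn) (4 * (p.hd * (p.M * p.M))) (c.n * U0) (c.n * U1) R0 θ0 =
      ((p.K * p.hn) * ((Y + R0) * (Y + R0) + θ0)) / ((4 * (p.hd * (p.M * p.M))) * Z) := by
    rw [← hYe, ← hZe]; rfl
  rw [ek, ← Nat.floor_div_eq_div (K := ℝ)]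
  refine Nat.floor_le_floor ?_
  push_cast
  have e5 : ((p.K : ℝ) * p.hn * ((Y + R0) * (Y + R0) + θ0)) / (4 * (p.hd * (p.M * p.M)) * Z) =
      (p.K * p.hn) / (4 * (p.hd * p.M ^ 2)) * (((Y + R0) ^ 2 + θ0) / Z) := by
    rw [div_mul_div_comm]; ring
  have e6 : (p.K * p.hn : ℝ) * ((p.M ^ 2 * (c.n * u) + p.M ^ 2 * Rr p c s t) ^ 2 +
        p.D * p.M ^ 2 * (p.M * |Tt p c s t v|) ^ 2) / (4 * (p.hd * p.M ^ 2) *
          (p.M ^ 2 * (c.n * u))) = (p.K * p.hn) / (4 * (p.hd * p.M ^ 2)) *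
      (((p.M ^ 2 * (c.n * u) + p.M ^ 2 * Rr p c s t) ^ 2 +
        p.D * p.M ^ 2 * (p.M * |Tt p c s t v|) ^ 2) / (p.M ^ 2 * (c.n * u))) := by
    rw [div_mul_div_comm]
  rw [e5, e6]
  exact mul_le_mul_of_nonneg_left key (by positivity)

lemma le_klo (hM : 0 < p.M) (hd : 0 < p.hd) (hc : Good p c) (hu : 0 < u)
    (hin : InCell p S hx T hy V hv U0 U1 s t v u) :
    ix p (Ht p c s t v u) ≤ kloC (mkNd p S hx T hy V hv U0 U1) c ∨
      p.K ≤ kloC (mkNd p S hx T hy V hv U0 U1) c := by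
  have hM' : (0:ℝ) < p.M := by exact_mod_cast hM
  have hd' : (0:ℝ) < p.hd := by exact_mod_cast hd
  have hn' : (0:ℝ) < c.n := by exact_mod_cast hc.n0
  rw [kloC_eq]
  set R1 := cR p c S T + cL p c S hx T hy + c.n * cq p hx hy with hR1
  set θ1 := (p.D * (p.M * p.M)) * sq (cT p c S T V + cH c hx hy hv) with hθ1
  have bR : p.M ^ 2 * Rr p c s t ≤ (R1 : ℝ) := R_high hM hc hin.hs hin.ht
  have bT := T_high hc hin.hs hin.ht hin.hv
  have bθ : p.D * p.M ^ 2 * (p.M * |Tt p c s t v|) ^ 2 ≤ (θ1 : ℝ) := by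
    have e : (θ1 : ℝ) = p.D * p.M ^ 2 * ((cT p c S T V + cH c hx hy hv : ℕ) : ℝ) ^ 2 := by
      rw [hθ1]
      show (((p.D * (p.M * p.M)) * ((cT p c S T V + cH c hx hy hv) *
        (cT p c S T V + cH c hx hy hv)) : ℕ) : ℝ) = _
      push_cast; ring
    rw [e]
    have : (p.M * |Tt p c s t v|) ^ 2 ≤ ((cT p c S T V + cH c hx hy hv : ℕ) : ℝ) ^ 2 :=
      pow_le_pow_left₀ (by positivity) bT 2
    exact mul_le_mul_of_nonneg_left this (by positivity)
  have X0 : ((c.n * U0 : ℕ) : ℝ) ≤ p.M ^ 2 * (c.n * u) := by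
    push_cast
    have := mul_le_mul_of_nonneg_left hin.hu0 hn'.le
    linarith
  have X1 : p.M ^ 2 * (c.n * u) ≤ ((c.n * U1 : ℕ) : ℝ) := by
    push_cast
    have := mul_le_mul_of_nonneg_left hin.hu1 hn'.le
    linarith
  rcases Nat.eq_zero_or_pos (c.n * U0) with h0 | h0
  · right
    have e : klo p.K (p.K * p.hn) (4 * (p.hd * (p.M * p.M))) (c.n * U0) (c.n * U1) R1 θ1 = p.K := by
      rw [h0]; rfl
    rw [e]
  · left
    have h0' : (0:ℝ) < ((c.n * U0 : ℕ) : ℝ) := by exact_mod_cast h0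
    have hb : Nat.beq (c.n * U0) 0 = false := by
      cases h : Nat.beq (c.n * U0) 0 with
      | true => exact absurd (Nat.eq_of_beq_eq_true h) h0.ne'
      | false => rfl
    have e : klo p.K (p.K * p.hn) (4 * (p.hd * (p.M * p.M))) (c.n * U0) (c.n * U1) R1 θ1 =
        max (((p.K * p.hn) * (((c.n * U0) + R1) * ((c.n * U0) + R1) + θ1)) /
            ((4 * (p.hd * (p.M * p.M))) * (c.n * U0)))
          (((p.K * p.hn) * (((c.n * U1) + R1) * ((c.n * U1) + R1) + θ1)) /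
            ((4 * (p.hd * (p.M * p.M))) * (c.n * U1))) := by
      rw [← mx_eq]
      unfold klo
      rw [hb]
      rfl
    rw [e]
    have key := frac_high h0' X0 X1 (mul_nonneg (by positivity) (hc.R0 s t)) bR bθ
    unfold ix
    rw [E_eq hM hd hc.n0 hu, ← Nat.floor_div_eq_div (K := ℝ), ← Nat.floor_div_eq_div (K := ℝ)]
    have e5 : ∀ Y : ℕ, ((((p.K * p.hn) * ((Y + R1) * (Y + R1) + θ1) : ℕ) : ℝ)) /
        (((4 * (p.hd * (p.M * p.M))) * Y : ℕ) : ℝ) =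
        (p.K * p.hn) / (4 * (p.hd * p.M ^ 2)) * ((((Y : ℝ) + R1) ^ 2 + θ1) / Y) := by
      intro Y
      push_cast
      rw [div_mul_div_comm]; ring
    have e6 : (p.K * p.hn : ℝ) * ((p.M ^ 2 * (c.n * u) + p.M ^ 2 * Rr p c s t) ^ 2 +
        p.D * p.M ^ 2 * (p.M * |Tt p c s t v|) ^ 2) / (4 * (p.hd * p.M ^ 2) *
          (p.M ^ 2 * (c.n * u))) = (p.K * p.hn) / (4 * (p.hd * p.M ^ 2)) *
      (((p.M ^ 2 * (c.n * u) + p.M ^ 2 * Rr p c s t) ^ 2 +
        p.D * p.M ^ 2 * (p.M * |Tt p c s t v|) ^ 2) / (p.M ^ 2 * (c.n * u))) := by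
      rw [div_mul_div_comm]
    rw [e5, e5, e6]
    have hk : (0:ℝ) ≤ (p.K * p.hn) / (4 * (p.hd * p.M ^ 2)) := by positivity
    rcases key with key | key
    · exact (Nat.floor_le_floor (mul_le_mul_of_nonneg_left key hk)).trans (le_max_left _ _)
    · exact (Nat.floor_le_floor (mul_le_mul_of_nonneg_left key hk)).trans (le_max_right _ _)

lemma den_pos (hc : Good p c) (hu : 0 < u) :
    0 < (c.n * u + Rr p c s t) ^ 2 + p.D * Tt p c s t v ^ 2 := by
  have hn' : (0:ℝ) < c.n := by exact_mod_cast hc.n0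
  have h1 := hc.R0 s t
  have h2 : 0 < c.n * u + Rr p c s t := by positivity
  positivity

lemma Ht_pos (hc : Good p c) (hu : 0 < u) : 0 < Ht p c s t v u := by
  have hn' : (0:ℝ) < c.n := by exact_mod_cast hc.n0
  exact div_pos (by positivity) (den_pos hc hu)

lemma skip_sound (hM : 0 < p.M) (hc : Good p c) (hu : 0 < u)
    (hin : InCell p S hx T hy V hv U0 U1 s t v u)
    (h : skipC (mkNd p S hx T hy V hv U0 U1) c = true) : u < Ht p c s t v u := by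
  have hM' : (0:ℝ) < p.M := by exact_mod_cast hM
  have hn' : (0:ℝ) < c.n := by exact_mod_cast hc.n0
  rw [skipC_eq] at h
  have h1 := Nat.le_of_ble_eq_true h
  set R1 := cR p c S T + cL p c S hx T hy + c.n * cq p hx hy with hR1
  have bR : p.M ^ 2 * Rr p c s t ≤ (R1 : ℝ) := R_high hM hc hin.hs hin.ht
  have bT := T_high hc hin.hs hin.ht hin.hv
  have X1 : p.M ^ 2 * (c.n * u) ≤ ((c.n * U1 : ℕ) : ℝ) := by
    push_cast
    have := mul_le_mul_of_nonneg_left hin.hu1 hn'.le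
    linarith
  have h2 : (((c.n * U1 + R1) * (c.n * U1 + R1) + (p.D * (p.M * p.M)) *
      ((cT p c S T V + cH c hx hy hv) * (cT p c S T V + cH c hx hy hv)) + 1 : ℕ) : ℝ) ≤
      (((4 * ((p.M * p.M) * (p.M * p.M))) * c.n : ℕ) : ℝ) := by
    exact_mod_cast h1
  push_cast at h2 X1 bT
  set θ : ℝ := (cT p c S T V : ℝ) + cH c hx hy hv with hθ
  have hR := hc.R0 s t
  have b1 : (p.M ^ 2 * (c.n * u) + p.M ^ 2 * Rr p c s t) ^ 2 ≤ (c.n * U1 + (R1:ℝ)) ^ 2 :=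
    pow_le_pow_left₀ (by positivity) (add_le_add X1 bR) 2
  have b2 : (p.M * |Tt p c s t v|) ^ 2 ≤ θ ^ 2 := pow_le_pow_left₀ (by positivity) bT 2
  have b3 : p.D * p.M ^ 2 * (p.M * |Tt p c s t v|) ^ 2 ≤ p.D * p.M ^ 2 * θ ^ 2 :=
    mul_le_mul_of_nonneg_left b2 (by positivity)
  have e : (p.M ^ 2 * (c.n * u) + p.M ^ 2 * Rr p c s t) ^ 2 +
        p.D * p.M ^ 2 * (p.M * |Tt p c s t v|) ^ 2 =
      (p.M : ℝ) ^ 4 * ((c.n * u + Rr p c s t) ^ 2 + p.D * Tt p c s t v ^ 2) := by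
    rw [mul_pow _ |Tt p c s t v|, sq_abs]; ring
  have b4 : (p.M : ℝ) ^ 4 * ((c.n * u + Rr p c s t) ^ 2 + p.D * Tt p c s t v ^ 2) <
      (p.M : ℝ) ^ 4 * (4 * c.n) := by
    rw [← e]; nlinarith
  have b5 := lt_of_mul_lt_mul_left b4 (by positivity)
  rw [Ht, lt_div_iff₀ (den_pos hc hu)]
  nlinarith

end Cell

/-! ### combinatorics of the lists -/

lemma sumL_eq (f : Cos → ℕ) (z : ℕ) (l : List Cos) : sumL f z l = (l.map f).sum + z := by
  induction l with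
  | nil => show z = 0 + z; omega
  | cons c l ih =>
    show f c + sumL f z l = _
    rw [ih, List.map_cons, List.sum_cons]; omega

lemma nthB_sound (f : Cos → Bool) (l : List Cos) :
    ∀ i : ℕ, nthB f l i = true → ∃ c ∈ l, f c = true := by
  induction l with
  | nil => intro i h; exact absurd h (by simp [nthB])
  | cons c l ih =>
    intro i h
    cases i with
    | zero => exact ⟨c, List.mem_cons_self, h⟩
    | succ j =>
      obtain ⟨c', h1, h2⟩ := ih j h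
      exact ⟨c', List.mem_cons_of_mem _ h1, h2⟩

lemma filt_sound (f : Cos → Bool) (l : List Cos) :
    ∀ (m : ℕ) (acc : List Cos) (k : List Cos → Bool), filt f l m acc k = true →
      ∃ N, k N = true ∧ (∀ c ∈ N, c ∈ l ∨ c ∈ acc) ∧
        (∀ g : Cos → ℕ, (∀ c ∈ l, f c = true → g c = 0) →
          (l.map g).sum + (acc.map g).sum = (N.map g).sum) ∧
        (∀ g : Cos → ℕ, (N.map g).sum ≤ (l.map g).sum + (acc.map g).sum) := by
  induction l with
  | nil =>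
    intro m acc k h
    exact ⟨acc, h, fun c hc => Or.inr hc, fun g _ => by simp, fun g => by simp⟩
  | cons c l ih =>
    intro m acc k h
    have h' : (Bool.rec (filt f l (m / 2) (c :: acc) k) (Bool.and (f c) (filt f l (m / 2) acc k))
      (Nat.beq (m % 2) 1) : Bool) = true := h
    cases hb : Nat.beq (m % 2) 1 with
    | true =>
      rw [hb] at h'
      have h2 : (f c && filt f l (m / 2) acc k) = true := h'
      rw [Bool.and_eq_true] at h2
      obtain ⟨N, h3, h4, h5, h6⟩ := ih _ _ _ h2.2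
      refine ⟨N, h3, fun c' hc' => ?_, fun g hg => ?_, fun g => ?_⟩
      · rcases h4 c' hc' with h | h
        · exact Or.inl (List.mem_cons_of_mem _ h)
        · exact Or.inr h
      · rw [← h5 g fun c' hc' => hg c' (List.mem_cons_of_mem _ hc'), List.map_cons, List.sum_cons,
          hg c List.mem_cons_self h2.1]; omega
      · have := h6 g
        rw [List.map_cons, List.sum_cons]; omega
    | false =>
      rw [hb] at h'
      have h2 : filt f l (m / 2) (c :: acc) k = true := h'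
      obtain ⟨N, h3, h4, h5, h6⟩ := ih _ _ _ h2
      refine ⟨N, h3, fun c' hc' => ?_, fun g hg => ?_, fun g => ?_⟩
      · rcases h4 c' hc' with h | h
        · exact Or.inl (List.mem_cons_of_mem _ h)
        · rcases List.mem_cons.1 h with h | h
          · exact Or.inl (by rw [h]; exact List.mem_cons_self)
          · exact Or.inr h
      · rw [← h5 g fun c' hc' => hg c' (List.mem_cons_of_mem _ hc'), List.map_cons, List.map_cons,
          List.sum_cons, List.sum_cons]; omega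
      · have := h6 g
        rw [List.map_cons, List.sum_cons] at this ⊢; omega

lemma sum_le_sum_of {f g : Cos → ℕ} {l : List Cos} (h : ∀ c ∈ l, f c ≤ g c) :
    (l.map f).sum ≤ (l.map g).sum := by
  induction l with
  | nil => simp
  | cons c l ih =>
    rw [List.map_cons, List.map_cons, List.sum_cons, List.sum_cons]
    exact add_le_add (h c List.mem_cons_self) (ih fun c' hc' => h c' (List.mem_cons_of_mem _ hc'))

/-! ### subdivision of cells -/

lemma hf2_ge (x : ℕ) : (x : ℝ) ≤ 2 * hf2 x := by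
  have : x ≤ 2 * hf2 x := by
    show x ≤ 2 * ((x + 1) / 2); omega
  exact_mod_cast this

lemma split_center {M s : ℝ} (hM : 0 ≤ M) (hs0 : 0 ≤ s) {S hx : ℕ} (h : |M * s - S| ≤ hx) :
    |M * s - ((S - hf2 hx : ℕ) : ℝ)| ≤ hf2 hx ∨ |M * s - ((S + hf2 hx : ℕ) : ℝ)| ≤ hf2 hx := by
  have h1 := hf2_ge hx
  have h2 := abs_le.1 h
  have h0 : 0 ≤ M * s := mul_nonneg hM hs0
  rcases le_total (M * s) S with h3 | h3
  · left
    rcases le_total S (hf2 hx) with h4 | h4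
    · rw [Nat.sub_eq_zero_of_le h4]
      have : (S : ℝ) ≤ hf2 hx := by exact_mod_cast h4
      rw [abs_le]; push_cast; constructor <;> linarith
    · rw [Nat.cast_sub h4, abs_le]; constructor <;> linarith
  · right
    push_cast
    rw [abs_le]; constructor <;> linarith

section Main

variable {p : Par} {s t v u : ℝ}

lemma antitone_w (hp : OK p) : Antitone (tab p.tw) := antitone_nat_of_succ_le hp.antiw
lemma antitone_v (hp : OK p) : Antitone (tab p.tv) := antitone_nat_of_succ_le hp.antiv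

lemma leafW_sound (hp : OK p) {l : List Cos} {S hx T hy V hv U0 U1 : ℕ}
    (h : leafW p (mkNd p S hx T hy V hv U0 U1) U1 l = true)
    (hin : InCell p S hx T hy V hv U0 U1 s t v u) (hu : 0 < u)
    (hl : ∀ c ∈ l, Good p c) (htop : ∀ c ∈ l, Ht p c s t v u ≤ u) :
    tab p.tw (ix p u) + (l.map fun c => tab p.tw (ix p (Ht p c s t v u))).sum ≤ p.C := by
  have hM' : (0:ℝ) < p.M := by exact_mod_cast hp.M0
  have hd' : (0:ℝ) < p.hd := by exact_mod_cast hp.hd0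
  rw [leafW_eq] at h
  have h1 := Nat.le_of_ble_eq_true h
  set kw := (p.K * p.hn) * (p.M * p.M) / (p.hd * U1) with hkw
  rw [sumL_eq] at h1
  have hk : kw ≤ ix p u := by
    rw [hkw, ← Nat.floor_div_eq_div (K := ℝ)]
    refine Nat.floor_le_floor ?_
    push_cast
    have hU1 : 0 < (U1 : ℝ) := lt_of_lt_of_le (by positivity) hin.hu1
    rw [div_le_div_iff₀ (by positivity) (by positivity)]
    have h2 := mul_le_mul_of_nonneg_left hin.hu1 (by positivity : (0:ℝ) ≤ p.K * p.hn * p.hd)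
    nlinarith
  have hix : ∀ c ∈ l, ix p u ≤ ix p (Ht p c s t v u) := by
    intro c hc
    have h3 := Ht_pos (s := s) (t := t) (v := v) (hl c hc) hu
    refine Nat.floor_le_floor ?_
    exact div_le_div_of_nonneg_left (by positivity) (by positivity)
      (mul_le_mul_of_nonneg_left (htop c hc) hd'.le)
  have h2 : (l.map fun c => tab p.tw (ix p (Ht p c s t v u))).sum ≤
      (l.map fun c => tab p.tw (mx kw (kupC (mkNd p S hx T hy V hv U0 U1) c))).sum := by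
    refine sum_le_sum_of fun c hc => antitone_w hp ?_
    rw [mx_eq]
    exact max_le (hk.trans (hix c hc)) (kup_le hp.M0 hp.hd0 (hl c hc) hu hin)
  have h3 : tab p.tw (ix p u) ≤ tab p.tw kw := antitone_w hp hk
  omega

lemma leafV_sound (hp : OK p) {l : List Cos} {S hx T hy V hv U0 U1 : ℕ}
    (h : leafV p (mkNd p S hx T hy V hv U0 U1) U0 l = true)
    (hin : InCell p S hx T hy V hv U0 U1 s t v u) (hu : 0 < u)
    (hl : ∀ c ∈ l, Good p c) :
    p.c ≤ tab p.tv (ix p u) + (l.map fun c => tab p.tv (ix p (Ht p c s t v u))).sum := by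
  have hM' : (0:ℝ) < p.M := by exact_mod_cast hp.M0
  have hd' : (0:ℝ) < p.hd := by exact_mod_cast hp.hd0
  rw [leafV_eq] at h
  have h1 := Nat.le_of_ble_eq_true h
  rw [sumL_eq] at h1
  have h2 : (l.map fun c => tab p.tv (kloC (mkNd p S hx T hy V hv U0 U1) c)).sum ≤
      (l.map fun c => tab p.tv (ix p (Ht p c s t v u))).sum := by
    refine sum_le_sum_of fun c hc => ?_
    rcases le_klo hp.M0 hp.hd0 (hl c hc) hu hin with h3 | h3
    · exact antitone_v hp h3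
    · rw [hp.zv _ h3]; exact Nat.zero_le _
  have h3 : (Bool.rec (tab p.tv ((p.K * p.hn) * (p.M * p.M) / (p.hd * U0))) 0 (Nat.beq U0 0) : ℕ) ≤
      tab p.tv (ix p u) := by
    cases hb : Nat.beq U0 0 with
    | true => exact Nat.zero_le _
    | false =>
      show tab p.tv ((p.K * p.hn) * (p.M * p.M) / (p.hd * U0)) ≤ _
      refine antitone_v hp ?_
      have hU0 : U0 ≠ 0 := by
        intro h0; rw [h0] at hb; exact absurd hb (by simp)
      have hU0' : (0:ℝ) < U0 := by exact_mod_cast Nat.pos_of_ne_zero hU0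
      rw [← Nat.floor_div_eq_div (K := ℝ)]
      refine Nat.floor_le_floor ?_
      push_cast
      rw [div_le_div_iff₀ (by positivity) (by positivity)]
      have h2 := mul_le_mul_of_nonneg_left hin.hu0 (by positivity : (0:ℝ) ≤ p.K * p.hn * p.hd)
      nlinarith
  omega

/-- the general induction -/
lemma chk_sound (hp : OK p) (lf : Nd → ℕ → ℕ → List Cos → Bool) (df : Nd → Cos → Bool)
    (Q : List Cos → Prop)
    (hu : 0 < u)
    (hlf : ∀ {l : List Cos} {S hx T hy V hv U0 U1 : ℕ},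
      lf (mkNd p S hx T hy V hv U0 U1) U0 U1 l = true →
      InCell p S hx T hy V hv U0 U1 s t v u → (∀ c ∈ l, Good p c) →
      (∀ c ∈ l, Ht p c s t v u ≤ u) → Q l)
    (hdf : ∀ {l : List Cos} {S hx T hy V hv U0 U1 : ℕ} {N : List Cos},
      InCell p S hx T hy V hv U0 U1 s t v u → (∀ c ∈ l, Good p c) →
      (∀ g : Cos → ℕ, (∀ c ∈ l, df (mkNd p S hx T hy V hv U0 U1) c = true → g c = 0) →
          (l.map g).sum = (N.map g).sum) →
      (∀ g : Cos → ℕ, (N.map g).sum ≤ (l.map g).sum) → Q N → Q l) (tr : Tr) :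
    ∀ {S hx T hy V hv U0 U1 : ℕ} {l : List Cos},
      chk p lf df tr S hx T hy V hv U0 U1 l = true →
      InCell p S hx T hy V hv U0 U1 s t v u → (∀ c ∈ l, Good p c) →
      (∀ c ∈ l, Ht p c s t v u ≤ u) → Q l := by
  have hM' : (0:ℝ) ≤ p.M := Nat.cast_nonneg _
  induction tr with
  | L =>
    intro S hx T hy V hv U0 U1 l h hin hl htop
    exact hlf h hin hl htop
  | K i =>
    intro S hx T hy V hv U0 U1 l h hin hl htop
    obtain ⟨c, hc, hsk⟩ := nthB_sound _ _ _ h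
    exact absurd (htop c hc) (not_le.2 (skip_sound hp.M0 (hl c hc) hu hin hsk))
  | S a b iha ihb =>
    intro S hx T hy V hv U0 U1 l h hin hl htop
    have h' : (chk p lf df a (S - hf2 hx) (hf2 hx) T hy V hv U0 U1 l &&
      chk p lf df b (S + hf2 hx) (hf2 hx) T hy V hv U0 U1 l) = true := h
    rw [Bool.and_eq_true] at h'
    rcases split_center hM' hin.s0 hin.hs with h1 | h1
    · exact iha h'.1 { hin with hs := h1 } hl htop
    · exact ihb h'.2 { hin with hs := h1 } hl htop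
  | T a b iha ihb =>
    intro S hx T hy V hv U0 U1 l h hin hl htop
    have h' : (chk p lf df a S hx (T - hf2 hy) (hf2 hy) V hv U0 U1 l &&
      chk p lf df b S hx (T + hf2 hy) (hf2 hy) V hv U0 U1 l) = true := h
    rw [Bool.and_eq_true] at h'
    rcases split_center hM' hin.t0 hin.ht with h1 | h1
    · exact iha h'.1 { hin with ht := h1 } hl htop
    · exact ihb h'.2 { hin with ht := h1 } hl htop
  | V a b iha ihb =>
    intro S hx T hy V hv U0 U1 l h hin hl htop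
    have h' : (chk p lf df a S hx T hy (V - hf2 hv) (hf2 hv) U0 U1 l &&
      chk p lf df b S hx T hy (V + hf2 hv) (hf2 hv) U0 U1 l) = true := h
    rw [Bool.and_eq_true] at h'
    rcases split_center hM' hin.v0 hin.hv with h1 | h1
    · exact iha h'.1 { hin with hv := h1 } hl htop
    · exact ihb h'.2 { hin with hv := h1 } hl htop
  | U a b iha ihb =>
    intro S hx T hy V hv U0 U1 l h hin hl htop
    have h' : (chk p lf df a S hx T hy V hv U0 ((U0 + U1) / 2) l &&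
      chk p lf df b S hx T hy V hv ((U0 + U1) / 2) U1 l) = true := h
    rw [Bool.and_eq_true] at h'
    rcases le_total (p.M ^ 2 * u) (((U0 + U1) / 2 : ℕ) : ℝ) with h1 | h1
    · exact iha h'.1 { hin with hu1 := h1 } hl htop
    · exact ihb h'.2 { hin with hu0 := h1 } hl htop
  | F m a iha =>
    intro S hx T hy V hv U0 U1 l h hin hl htop
    have h' : filt (df (mkNd p S hx T hy V hv U0 U1)) l m []
        (fun N => chk p lf df a S hx T hy V hv U0 U1 N) = true := h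
    obtain ⟨N, h1, h2, h3, h4⟩ := filt_sound _ _ _ _ _ h'
    have hN : ∀ c ∈ N, c ∈ l := fun c hc => by
      rcases h2 c hc with h | h
      · exact h
      · exact absurd h (by simp)
    have hQ : Q N := iha h1 hin (fun c hc => hl c (hN c hc)) (fun c hc => htop c (hN c hc))
    exact hdf hin hl (fun g hg => by simpa using h3 g hg) (fun g => by simpa using h4 g) hQ

end Main

theorem chkW_sound {p : Par} (hp : OK p) {tr : Tr} {l : List Cos}
    {S hx T hy V hv U0 U1 : ℕ} (h : chkW p tr S hx T hy V hv U0 U1 l = true)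
    {s t v u : ℝ} (hin : InCell p S hx T hy V hv U0 U1 s t v u) (hu : 0 < u)
    (hl : ∀ c ∈ l, Good p c) (htop : ∀ c ∈ l, Ht p c s t v u ≤ u) :
    tab p.tw (ix p u) + (l.map fun c => tab p.tw (ix p (Ht p c s t v u))).sum ≤ p.C := by
  refine chk_sound (s := s) (t := t) (v := v) (u := u) hp (fun x _ U1 l => leafW p x U1 l) dropW
    (fun l => tab p.tw (ix p u) + (l.map fun c => tab p.tw (ix p (Ht p c s t v u))).sum ≤ p.C)
    hu ?_ ?_ tr h hin hl htop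
  · intro l S hx T hy V hv U0 U1 h hin hl htop
    exact leafW_sound hp h hin hu hl htop
  · intro l S hx T hy V hv U0 U1 N hin hl h1 _ hQ
    have h2 := h1 (fun c => tab p.tw (ix p (Ht p c s t v u))) (fun c hc hd => by
      rw [dropW_eq] at hd
      have h3 := Nat.le_of_ble_eq_true hd
      exact hp.zw _ (h3.trans (kup_le hp.M0 hp.hd0 (hl c hc) hu hin)))
    show tab p.tw (ix p u) + (l.map fun c => tab p.tw (ix p (Ht p c s t v u))).sum ≤ p.C
    rw [h2]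
    exact hQ

theorem chkV_sound {p : Par} (hp : OK p) {tr : Tr} {l : List Cos}
    {S hx T hy V hv U0 U1 : ℕ} (h : chkV p tr S hx T hy V hv U0 U1 l = true)
    {s t v u : ℝ} (hin : InCell p S hx T hy V hv U0 U1 s t v u) (hu : 0 < u)
    (hl : ∀ c ∈ l, Good p c) (htop : ∀ c ∈ l, Ht p c s t v u ≤ u) :
    p.c ≤ tab p.tv (ix p u) + (l.map fun c => tab p.tv (ix p (Ht p c s t v u))).sum := by
  refine chk_sound (s := s) (t := t) (v := v) (u := u) hp (fun x U0 _ l => leafV p x U0 l)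
    (fun _ _ => true)
    (fun l => p.c ≤ tab p.tv (ix p u) + (l.map fun c => tab p.tv (ix p (Ht p c s t v u))).sum)
    hu ?_ ?_ tr h hin hl htop
  · intro l S hx T hy V hv U0 U1 h hin hl htop
    exact leafV_sound hp h hin hu hl
  · intro l S hx T hy V hv U0 U1 N hin hl _ h1 hQ
    have h2 := h1 (fun c => tab p.tv (ix p (Ht p c s t v u)))
    show p.c ≤ tab p.tv (ix p u) + (l.map fun c => tab p.tv (ix p (Ht p c s t v u))).sum
    have h3 : p.c ≤ tab p.tv (ix p u) + (N.map fun c => tab p.tv (ix p (Ht p c s t v u))).sum := hQ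
    omega

end

end Pool.Agent.Lib.H56.Gen
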