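import Pool.Agent.Lib.H56.Gen.Top
import Pool.Agent.Lib.H56.Gen.CheckSound

/-!
# Bounds for the cusp sums from the certificates
-/

namespace Pool.Agent.Lib.H56.Gen

open Matrix hiding J
open MeasureTheory Topology
open Pool.Agent.Lib.H56.Picard hiding O Gam mem_Gam star_mem_O T_mem sg_mem
open scoped ENNReal

noncomputable section

/-- the natural number data of a row -/
def cosOf (KB : Int) (E : EP) (r : Row) : Cos :=
  (fun z1 z2 r0 : Int => fun b1 b2 : Int =>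
    Cos.mk (Int.toNat (nfE E (r.c1, r.c2))) (Int.toNat (nfE E (r.d1, r.d2)))
      (Int.toNat (Int.sub KB z1)) (Int.toNat (Int.sub KB z2)) (Int.toNat (Int.add KB b1))
      (Int.toNat (Int.add KB b2)) (Int.toNat (Int.add KB r0)) (Int.natAbs b1) (Int.natAbs b2))
    (trE E (mulE E (mulE E (conjE E (r.c1, r.c2)) (r.d1, r.d2)) (E.x1, E.y1)))
    (trE E (mulE E (mulE E (conjE E (r.c1, r.c2)) (r.d1, r.d2)) (E.x2, E.y2)))
    (mulE E (conjE E (r.c1, r.c2)) (r.x, r.y)).2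
    (mulE E (mulE E (conjE E (r.c1, r.c2)) (r.d1, r.d2)) (E.x1, E.y1)).2
    (mulE E (mulE E (conjE E (r.c1, r.c2)) (r.d1, r.d2)) (E.x2, E.y2)).2

/-- the entries of a row are small compared with the bias -/
def smallR (KB : Int) (E : EP) (r : Row) : Bool :=
  Bool.and (leI (absI (trE E (mulE E (mulE E (conjE E (r.c1, r.c2)) (r.d1, r.d2)) (E.x1, E.y1)))) KB)
    (Bool.and
      (leI (absI (trE E (mulE E (mulE E (conjE E (r.c1, r.c2)) (r.d1, r.d2)) (E.x2, E.y2)))) KB)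
      (Bool.and (leI (absI (mulE E (conjE E (r.c1, r.c2)) (r.x, r.y)).2) KB)
        (Bool.and
          (leI (absI (mulE E (mulE E (conjE E (r.c1, r.c2)) (r.d1, r.d2)) (E.x1, E.y1)).2) KB)
          (leI (absI (mulE E (mulE E (conjE E (r.c1, r.c2)) (r.d1, r.d2)) (E.x2, E.y2)).2) KB))))

/-- compatibility of the certificate parameters with the enumeration parameters -/
structure ParOK (E : EP) (p : Par) : Prop where
  D : (p.D : ℤ) = DE E
  al : (p.al : ℤ) = alE E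
  be : (p.be : ℤ) = beE E
  ga : (p.ga : ℤ) = gaE E
  hn : (p.hn : ℤ) = E.hn
  hd : (p.hd : ℤ) = E.hd

variable {E : EP} {q : QD} {p : Par}

lemma absI_eq (a : ℤ) : absI a = |a| := by
  show ((Int.natAbs a : ℕ) : ℤ) = |a|
  exact Int.natCast_natAbs a

lemma smallR_iff {KB : ℤ} {r : Row} : smallR KB E r = true ↔
    |trE E (Z1 E r.c r.d)| ≤ KB ∧ |trE E (Z2 E r.c r.d)| ≤ KB ∧
    |(mulE E (conjE E r.c) r.e).2| ≤ KB ∧ |(Z1 E r.c r.d).2| ≤ KB ∧ |(Z2 E r.c r.d).2| ≤ KB := by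
  unfold smallR
  simp only [Bool.and_eq_true, leI_iff, absI_eq]
  rfl

lemma toNat_cast {a : ℤ} (h : 0 ≤ a) : ((a.toNat : ℕ) : ℝ) = (a : ℝ) := by
  have := Int.toNat_of_nonneg h
  exact_mod_cast congrArg (Int.cast (R := ℝ)) this

section cosOf

variable {r : Row}

lemma cosOf_n (hn : 0 ≤ nfE E r.c) : ((cosOf p.KB E r).n : ℝ) = nfE E r.c := toNat_cast hn

lemma cosOf_nd (hn : 0 ≤ nfE E r.d) : ((cosOf p.KB E r).nd : ℝ) = nfE E r.d := toNat_cast hn

lemma cosOf_a1 (h : smallR p.KB E r = true) :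
    (p.KB : ℝ) - (cosOf p.KB E r).a1 = trE E (Z1 E r.c r.d) := by
  have h1 := (smallR_iff.mp h).1
  rw [abs_le] at h1
  have h2 : (0 : ℤ) ≤ (p.KB : ℤ) - trE E (Z1 E r.c r.d) := by omega
  have e : ((cosOf p.KB E r).a1 : ℝ) = (((p.KB : ℤ) - trE E (Z1 E r.c r.d) : ℤ) : ℝ) :=
    toNat_cast h2
  rw [e]; push_cast; ring

lemma cosOf_a2 (h : smallR p.KB E r = true) :
    (p.KB : ℝ) - (cosOf p.KB E r).a2 = trE E (Z2 E r.c r.d) := by
  have h1 := (smallR_iff.mp h).2.1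
  rw [abs_le] at h1
  have h2 : (0 : ℤ) ≤ (p.KB : ℤ) - trE E (Z2 E r.c r.d) := by omega
  have e : ((cosOf p.KB E r).a2 : ℝ) = (((p.KB : ℤ) - trE E (Z2 E r.c r.d) : ℤ) : ℝ) :=
    toNat_cast h2
  rw [e]; push_cast; ring

lemma cosOf_b1 (h : smallR p.KB E r = true) :
    ((cosOf p.KB E r).b1 : ℝ) - p.KB = (Z1 E r.c r.d).2 := by
  have h1 := (smallR_iff.mp h).2.2.2.1
  rw [abs_le] at h1
  have h2 : (0 : ℤ) ≤ (p.KB : ℤ) + (Z1 E r.c r.d).2 := by omega
  have e : ((cosOf p.KB E r).b1 : ℝ) = (((p.KB : ℤ) + (Z1 E r.c r.d).2 : ℤ) : ℝ) :=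
    toNat_cast h2
  rw [e]; push_cast; ring

lemma cosOf_b2 (h : smallR p.KB E r = true) :
    ((cosOf p.KB E r).b2 : ℝ) - p.KB = (Z2 E r.c r.d).2 := by
  have h1 := (smallR_iff.mp h).2.2.2.2
  rw [abs_le] at h1
  have h2 : (0 : ℤ) ≤ (p.KB : ℤ) + (Z2 E r.c r.d).2 := by omega
  have e : ((cosOf p.KB E r).b2 : ℝ) = (((p.KB : ℤ) + (Z2 E r.c r.d).2 : ℤ) : ℝ) :=
    toNat_cast h2
  rw [e]; push_cast; ring

lemma cosOf_r (h : smallR p.KB E r = true) :
    ((cosOf p.KB E r).r : ℝ) - p.KB = (mulE E (conjE E r.c) r.e).2 := by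
  have h1 := (smallR_iff.mp h).2.2.1
  rw [abs_le] at h1
  have h2 : (0 : ℤ) ≤ (p.KB : ℤ) + (mulE E (conjE E r.c) r.e).2 := by omega
  have e : ((cosOf p.KB E r).r : ℝ) = (((p.KB : ℤ) + (mulE E (conjE E r.c) r.e).2 : ℤ) : ℝ) :=
    toNat_cast h2
  rw [e]; push_cast; ring

lemma cosOf_B1 (h : smallR p.KB E r = true) :
    ((cosOf p.KB E r).B1 : ℝ) = |((cosOf p.KB E r).b1 : ℝ) - p.KB| := by
  rw [cosOf_b1 h]
  show ((Int.natAbs (Z1 E r.c r.d).2 : ℕ) : ℝ) = _
  rw [Nat.cast_natAbs]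
  push_cast; rfl

lemma cosOf_B2 (h : smallR p.KB E r = true) :
    ((cosOf p.KB E r).B2 : ℝ) = |((cosOf p.KB E r).b2 : ℝ) - p.KB| := by
  rw [cosOf_b2 h]
  show ((Int.natAbs (Z2 E r.c r.d).2 : ℕ) : ℝ) = _
  rw [Nat.cast_natAbs]
  push_cast; rfl

end cosOf

lemma nfE_nonneg (h : Comp E q) (a : ℤ × ℤ) : 0 ≤ nfE E a := by
  have h1 := Complex.normSq_nonneg (elp q a)
  rw [normSq_elp h] at h1
  exact_mod_cast h1

lemma Rr_eq (h : Comp E q) (hp : ParOK E p) {r : Row} (hr : smallR p.KB E r = true) (s t : ℝ) :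
    Rr p (cosOf p.KB E r) s t = RE E r.c r.d s t := by
  have e1 : (p.al : ℝ) = alE E := by exact_mod_cast hp.al
  have e2 : (p.be : ℝ) = beE E := by exact_mod_cast hp.be
  have e3 : (p.ga : ℝ) = gaE E := by exact_mod_cast hp.ga
  rw [Rr, RE, cosOf_n (nfE_nonneg h _), cosOf_nd (nfE_nonneg h _), cosOf_a1 hr, cosOf_a2 hr, e1, e2,
    e3]

lemma Tt_eq (h : Comp E q) {r : Row} (hr : smallR p.KB E r = true) (s t v : ℝ) :
    Tt p (cosOf p.KB E r) s t v = TE E r.c r.d r.e s t v := by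
  rw [Tt, TE, cosOf_n (nfE_nonneg h _), cosOf_b1 hr, cosOf_b2 hr, cosOf_r hr]

lemma Ht_eq (h : Comp E q) (hp : ParOK E p) {r : Row} (hr : smallR p.KB E r = true)
    (s t v u : ℝ) : Ht p (cosOf p.KB E r) s t v u = HtE E r s t v u := by
  have e1 : (p.D : ℝ) = DE E := by exact_mod_cast hp.D
  rw [Ht, HtE, Rr_eq h hp hr, Tt_eq h hr, cosOf_n (nfE_nonneg h _), e1]

lemma good_cosOf (h : Comp E q) (hp : ParOK E p) {r : Row} (hr : smallR p.KB E r = true)
    (hc : elp q r.c ≠ 0) : Good p (cosOf p.KB E r) where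
  n0 := by
    have h1 : 0 < nfE E r.c := nfE_pos h hc
    show 0 < (nfE E r.c).toNat
    omega
  B1 := cosOf_B1 hr
  B2 := cosOf_B2 hr
  R0 := fun s t => by rw [Rr_eq h hp hr]; exact RE_nonneg h _ _ _ _

/-- All hypotheses on the certificates. -/
structure CertOK (E : EP) (q : QD) (p : Par) (w1 w2 : ℤ × ℤ) (L : List Ent) (Lc : List Cos)
    (tw tv : Tr) (M4 Pm U1 kf : ℕ) : Prop where
  comp : Comp E q
  ep : EPok E
  epw : EPw E w1 w2
  Ms : ∀ m ∈ E.Ms, 2 ≤ nfE E m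
  hgen : gen E = L.map Ent.r
  ent : ∀ x ∈ L, entOK E x = true
  nodup : (L.map Ent.r).Nodup
  par : ParOK E p
  ok : OK p
  small : ∀ x ∈ L, smallR p.KB E x.r = true
  cos : Lc = L.map (fun x => cosOf p.KB E x.r)
  hM4 : p.M = 4 * M4
  hPm : (2 * Pm : ℤ) = E.Pp * p.M
  hU1 : 4 * p.hd * p.M ^ 2 ≤ p.hn * U1
  far : p.K * p.hn * p.M ^ 2 < (kf + 1) * (p.hd * U1)
  farV : p.c ≤ tab p.tv kf
  farW : tab p.tw 0 ≤ p.C
  W : chkW p tw M4 M4 (2 * M4) (2 * M4) Pm Pm 0 U1 Lc = true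
  V : chkV p tv M4 M4 (2 * M4) (2 * M4) Pm Pm 0 U1 Lc = true

lemma tab_anti {T : ℕ} (h : ∀ i, tab T (i + 1) ≤ tab T i) {i j : ℕ} (hij : i ≤ j) :
    tab T j ≤ tab T i := antitone_nat_of_succ_le h hij

/-- **Bounds at a highest point.** -/
theorem bounds_top {w1 w2 : ℤ × ℤ} {L : List Ent} {Lc : List Cos} {tw tv : Tr} {M4 Pm U1 kf : ℕ}
    (hC : CertOK E q p w1 w2 L Lc tw tv M4 Pm U1 kf)
    {s t v u : ℝ} (hs : 0 ≤ s) (hs' : s ≤ 1 / 2) (ht : 0 ≤ t) (ht' : t ≤ 1) (hv : 0 ≤ v)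
    (hv' : v ≤ E.Pp) (hu : 0 < u) {y : X}
    (hy : y.1 = PsiE (ee1 E q) (ee2 E q) s t (sd q * v) u)
    (htop : ∀ γ : Gam q, height (γ • y : X).1 ≤ u) :
    tab p.tw (ix p u) + (L.map fun x => tab p.tw (ix p (HtE E x.r s t v u))).sum ≤ p.C ∧
    p.c ≤ tab p.tv (ix p u) + (L.map fun x => tab p.tv (ix p (HtE E x.r s t v u))).sum := by
  have hcne : ∀ x ∈ L, elp q x.r.c ≠ 0 := fun x hx =>
    can_ne_zero hC.ep hC.comp (entOK_iff.mp (hC.ent x hx)).1
  have hHt : ∀ x ∈ L, HtE E x.r s t v u ≤ u := by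
    intro x hx
    obtain ⟨g0, g1, g2⟩ := gam_spec hC.comp (hC.ent x hx)
    have h1 := (height_row hC.comp (gam q x) g0 g1 g2 (hcne x hx) hy).2.2
    have h2 := htop (gam q x)
    rw [h1] at h2
    exact h2
  have hM : (0 : ℝ) < p.M := by exact_mod_cast hC.ok.M0
  have hhn : (0 : ℝ) < p.hn := by exact_mod_cast hC.ok.hn0
  have hhd : (0 : ℝ) < p.hd := by exact_mod_cast hC.ok.hd0
  have hK : (0 : ℝ) < p.K := by exact_mod_cast hC.ok.K0
  by_cases hU : (p.M : ℝ) ^ 2 * u ≤ U1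
  · have hcell : InCell p M4 M4 (2 * M4) (2 * M4) Pm Pm 0 U1 s t v u := by
      have hM4 : (p.M : ℝ) = 4 * M4 := by exact_mod_cast hC.hM4
      have hPm : (2 * Pm : ℝ) = E.Pp * p.M := by exact_mod_cast hC.hPm
      refine ⟨hs, ht, hv, ?_, ?_, ?_, ?_, hU⟩
      · rw [hM4, abs_le]
        rw [hM4] at hM
        constructor <;> nlinarith
      · rw [hM4, abs_le]
        rw [hM4] at hM
        push_cast
        constructor <;> nlinarith
      · rw [abs_le]
        constructor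
        · nlinarith
        · nlinarith
      · push_cast; positivity
    have hgood : ∀ c ∈ Lc, Good p c := by
      intro c hc
      rw [hC.cos, List.mem_map] at hc
      obtain ⟨x, hx, rfl⟩ := hc
      exact good_cosOf hC.comp hC.par (hC.small x hx) (hcne x hx)
    have htopc : ∀ c ∈ Lc, Ht p c s t v u ≤ u := by
      intro c hc
      rw [hC.cos, List.mem_map] at hc
      obtain ⟨x, hx, rfl⟩ := hc
      rw [Ht_eq hC.comp hC.par (hC.small x hx)]
      exact hHt x hx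
    have hW := chkW_sound hC.ok hC.W hcell hu hgood htopc
    have hV := chkV_sound hC.ok hC.V hcell hu hgood htopc
    rw [hC.cos, List.map_map] at hW hV
    have e : ∀ T : ℕ, (L.map ((fun c => tab T (ix p (Ht p c s t v u))) ∘
        fun x => cosOf p.KB E x.r)) = L.map fun x => tab T (ix p (HtE E x.r s t v u)) := by
      intro T
      apply List.map_congr_left
      intro x hx
      show tab T (ix p (Ht p (cosOf p.KB E x.r) s t v u)) = _
      rw [Ht_eq hC.comp hC.par (hC.small x hx)]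
    rw [e] at hW hV
    exact ⟨hW, hV⟩
  · push Not at hU
    -- far up in the cusp
    have hU1r : 4 * (p.hd : ℝ) * p.M ^ 2 ≤ p.hn * U1 := by exact_mod_cast hC.hU1
    have h4 : 4 * (p.hd : ℝ) < p.hn * u := by
      have h1 : p.hn * (U1 : ℝ) < p.hn * ((p.M : ℝ) ^ 2 * u) := by gcongr
      have h2 : 4 * (p.hd : ℝ) * p.M ^ 2 < p.hn * u * p.M ^ 2 := by nlinarith
      exact lt_of_mul_lt_mul_right h2 (by positivity)
    have hix : ∀ x ∈ L, p.K ≤ ix p (HtE E x.r s t v u) := by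
      intro x hx
      have hnpos : 0 < nfE E x.r.c := nfE_pos hC.comp (hcne x hx)
      have hn : (1 : ℝ) ≤ nfE E x.r.c := by exact_mod_cast hnpos
      have hn0 : (0 : ℝ) < nfE E x.r.c := by linarith
      have hR := RE_nonneg hC.comp x.r.c x.r.d s t
      have hD : (0 : ℝ) ≤ DE E := by
        rw [DE_eq hC.comp]; exact (dd_pos' q).le
      have hden : (nfE E x.r.c * u) ^ 2 ≤ (nfE E x.r.c * u + RE E x.r.c x.r.d s t) ^ 2 +
          DE E * TE E x.r.c x.r.d x.r.e s t v ^ 2 := by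
        have h1 : 0 < nfE E x.r.c * u := by positivity
        have h2 : 0 ≤ (DE E : ℝ) * TE E x.r.c x.r.d x.r.e s t v ^ 2 := by positivity
        nlinarith
      have hpos : 0 < (nfE E x.r.c * u + RE E x.r.c x.r.d s t) ^ 2 +
          DE E * TE E x.r.c x.r.d x.r.e s t v ^ 2 := lt_of_lt_of_le (by positivity) hden
      have hHpos : 0 < HtE E x.r s t v u := by
        unfold HtE
        positivity
      have hHle : HtE E x.r s t v u * p.hd ≤ p.hn := by
        unfold HtE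
        rw [div_mul_eq_mul_div, div_le_iff₀ hpos]
        have h1 : 4 * nfE E x.r.c * u * p.hd ≤ p.hn * (nfE E x.r.c * u) ^ 2 := by
          have h2 : 4 * (p.hd : ℝ) ≤ p.hn * (nfE E x.r.c * u) := by
            have : p.hn * u * 1 ≤ p.hn * u * nfE E x.r.c := by gcongr
            nlinarith
          have h3 : 0 < nfE E x.r.c * u := by positivity
          nlinarith
        calc 4 * nfE E x.r.c * u * p.hd ≤ p.hn * (nfE E x.r.c * u) ^ 2 := h1
          _ ≤ _ := by gcongr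
      unfold ix
      apply Nat.le_floor
      rw [le_div_iff₀ (by positivity)]
      have : (p.K : ℝ) * (p.hd * HtE E x.r s t v u) = p.K * (HtE E x.r s t v u * p.hd) := by ring
      rw [this]
      gcongr
    have hzero : ∀ T : ℕ, (∀ i, p.K ≤ i → tab T i = 0) →
        (L.map fun x => tab T (ix p (HtE E x.r s t v u))).sum = 0 := by
      intro T hT
      rw [List.sum_eq_zero_iff]
      intro m hm
      rw [List.mem_map] at hm
      obtain ⟨x, hx, rfl⟩ := hm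
      exact hT _ (hix x hx)
    rw [hzero _ hC.ok.zw, hzero _ hC.ok.zv, add_zero, add_zero]
    constructor
    · exact (tab_anti hC.ok.antiw (Nat.zero_le _)).trans hC.farW
    · refine hC.farV.trans (tab_anti hC.ok.antiv ?_)
      unfold ix
      have hfar : (p.K : ℝ) * p.hn * p.M ^ 2 < (kf + 1) * (p.hd * U1) := by exact_mod_cast hC.far
      have : (p.K * p.hn : ℝ) / (p.hd * u) < (kf + 1 : ℕ) := by
        rw [div_lt_iff₀ (by positivity)]
        have h1 : ((kf : ℝ) + 1) * (p.hd * U1) ≤ (kf + 1) * (p.hd * (p.M ^ 2 * u)) := by gcongr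
        have h2 : (p.K : ℝ) * p.hn * p.M ^ 2 < ((kf + 1 : ℕ) * (p.hd * u)) * p.M ^ 2 := by
          push_cast
          nlinarith
        exact lt_of_mul_lt_mul_right h2 (by positivity)
      have h3 := Nat.floor_lt' (n := kf + 1) (by omega) |>.mpr this
      omega

/-- **Bounds for the cusp sums.** -/
theorem bounds {w1 w2 : ℤ × ℤ} {L : List Ent} {Lc : List Cos} {tw tv : Tr} {M4 Pm U1 kf : ℕ}
    (hC : CertOK E q p w1 w2 L Lc tw tv M4 Pm U1 kf) {WS VS : ℕ} (hWS : 0 < WS) (hVS : 0 < VS)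
    {w V : ℝ → ℝ} {wE vE : ℝ → ℝ≥0∞}
    (hwE : ∀ u, (p.hn : ℝ) / p.hd < u → wE u = ENNReal.ofReal (w u))
    (hwE0 : ∀ u ≤ (p.hn : ℝ) / p.hd, wE u = 0)
    (hvE : ∀ u, (p.hn : ℝ) / p.hd < u → vE u = ENNReal.ofReal (V u))
    (hvE0 : ∀ u ≤ (p.hn : ℝ) / p.hd, vE u = 0)
    (hw : ∀ u, (p.hn : ℝ) / p.hd < u → WS * w u ≤ tab p.tw (ix p u))
    (hV : ∀ u, (p.hn : ℝ) / p.hd < u → VS * V u = tab p.tv (ix p u)) :
    (∀ z : X, cuspSum (OO q) star_mem wE z ≤ (p.C : ℝ≥0∞) / WS) ∧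
    (∀ z : X, (p.c : ℝ≥0∞) / VS ≤ cuspSum (OO q) star_mem vE z) := by
  have hhn : (0 : ℝ) < p.hn := by exact_mod_cast hC.ok.hn0
  have hhd : (0 : ℝ) < p.hd := by exact_mod_cast hC.ok.hd0
  have hK : (0 : ℝ) < p.K := by exact_mod_cast hC.ok.K0
  have eh : (E.hn : ℝ) / E.hd = (p.hn : ℝ) / p.hd := by
    have e1 : (p.hn : ℝ) = E.hn := by exact_mod_cast hC.par.hn
    have e2 : (p.hd : ℝ) = E.hd := by exact_mod_cast hC.par.hd
    rw [e1, e2]
  have hWS' : (0 : ℝ) < WS := by exact_mod_cast hWS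
  have hVS' : (0 : ℝ) < VS := by exact_mod_cast hVS
  have hWSe : (WS : ℝ≥0∞) ≠ 0 := by exact_mod_cast hWS.ne'
  have hVSe : (VS : ℝ≥0∞) ≠ 0 := by exact_mod_cast hVS.ne'
  have hwle : ∀ H, wE H ≤ (tab p.tw (ix p H) : ℝ≥0∞) / WS := by
    intro H
    by_cases hH : H ≤ (p.hn : ℝ) / p.hd
    · rw [hwE0 H hH]; exact bot_le
    · push Not at hH
      rw [hwE H hH, ENNReal.le_div_iff_mul_le (Or.inl hWSe) (Or.inl (ENNReal.natCast_ne_top _))]
      have h1 := hw H hH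
      rw [← ENNReal.ofReal_natCast WS, ← ENNReal.ofReal_mul' hWS'.le]
      rw [← ENNReal.ofReal_natCast (tab p.tw (ix p H))]
      apply ENNReal.ofReal_le_ofReal
      linarith
  have hvge : ∀ H, 0 < H → (tab p.tv (ix p H) : ℝ≥0∞) / VS ≤ vE H := by
    intro H hH0
    by_cases hH : H ≤ (p.hn : ℝ) / p.hd
    · have : p.K ≤ ix p H := by
        unfold ix
        apply Nat.le_floor
        rw [le_div_iff₀ (by positivity)]
        rw [le_div_iff₀ hhd] at hH
        nlinarith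
      rw [hC.ok.zv _ this]
      simp
    · push Not at hH
      rw [hvE H hH]
      apply ENNReal.div_le_of_le_mul
      have h1 := hV H hH
      rw [← ENNReal.ofReal_natCast VS, ← ENNReal.ofReal_natCast (tab p.tv (ix p H)),
        ← ENNReal.ofReal_mul' hVS'.le]
      apply ENNReal.ofReal_le_ofReal
      linarith
  have hsum : ∀ (l : List Ent) (f : Ent → ℕ) (S : ℕ),
      (l.map fun x => (f x : ℝ≥0∞) / S).sum = (((l.map f).sum : ℕ) : ℝ≥0∞) / S := by
    intro l f S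
    induction l with
    | nil => simp
    | cons a l ih =>
      rw [List.map_cons, List.sum_cons, ih, List.map_cons, List.sum_cons]
      push_cast
      rw [ENNReal.add_div]
  constructor
  · intro z
    obtain ⟨y, hcs, s, t, v, u, hs, hs', ht, ht', hv, hv', hu, hy, htop⟩ :=
      exists_top hC.comp hC.ep.Pp hC.epw z
    rw [hcs, cuspSum_eq hC.ep hC.comp hC.Ms hC.hgen hC.ent hC.nodup
      (fun x hx => hwE0 x (by rw [← eh]; exact hx)) hs hs' ht ht' hv hv' hu hy htop]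
    have hb := (bounds_top hC hs hs' ht ht' hv hv' hu hy htop).1
    calc wE u + (L.map fun x => wE (HtE E x.r s t v u)).sum
        ≤ (tab p.tw (ix p u) : ℝ≥0∞) / WS +
          (L.map fun x => (tab p.tw (ix p (HtE E x.r s t v u)) : ℝ≥0∞) / WS).sum := by
          refine add_le_add (hwle u) (List.sum_le_sum fun x _ => hwle _)
      _ = ((tab p.tw (ix p u) + (L.map fun x => tab p.tw (ix p (HtE E x.r s t v u))).sum : ℕ) :
          ℝ≥0∞) / WS := by
          rw [hsum L (fun x => tab p.tw (ix p (HtE E x.r s t v u))), ← ENNReal.add_div]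
          push_cast; rfl
      _ ≤ (p.C : ℝ≥0∞) / WS := by
          gcongr
  · intro z
    obtain ⟨y, hcs, s, t, v, u, hs, hs', ht, ht', hv, hv', hu, hy, htop⟩ :=
      exists_top hC.comp hC.ep.Pp hC.epw z
    rw [hcs, cuspSum_eq hC.ep hC.comp hC.Ms hC.hgen hC.ent hC.nodup
      (fun x hx => hvE0 x (by rw [← eh]; exact hx)) hs hs' ht ht' hv hv' hu hy htop]
    have hb := (bounds_top hC hs hs' ht ht' hv hv' hu hy htop).2
    have hHpos : ∀ x ∈ L, 0 < HtE E x.r s t v u := by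
      intro x hx
      have hne := can_ne_zero hC.ep hC.comp (entOK_iff.mp (hC.ent x hx)).1
      obtain ⟨g0, g1, g2⟩ := gam_spec hC.comp (hC.ent x hx)
      have h1 := (height_row hC.comp (gam q x) g0 g1 g2 hne hy).2.2
      have h2 : 0 < height (gam q x • y : X).1 := (gam q x • y : X).2
      rw [h1] at h2
      exact h2
    calc (p.c : ℝ≥0∞) / VS
        ≤ ((tab p.tv (ix p u) + (L.map fun x => tab p.tv (ix p (HtE E x.r s t v u))).sum : ℕ) :
          ℝ≥0∞) / VS := by gcongr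
      _ = (tab p.tv (ix p u) : ℝ≥0∞) / VS +
          (L.map fun x => (tab p.tv (ix p (HtE E x.r s t v u)) : ℝ≥0∞) / VS).sum := by
          rw [hsum L (fun x => tab p.tv (ix p (HtE E x.r s t v u))), ← ENNReal.add_div]
          push_cast; rfl
      _ ≤ vE u + (L.map fun x => vE (HtE E x.r s t v u)).sum := by
          refine add_le_add (hvge u hu) (List.sum_le_sum fun x hx => hvge _ (hHpos x hx))

end

end Pool.Agent.Lib.H56.Gen
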