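/-!
# Kernel checkable certificates: definitions

Everything is written with the accelerated `Nat` functions of the kernel and with recursors.
-/

namespace Pool.Agent.Lib.H56.Gen

noncomputable section

/-- Integer data of a cusp: `n = |c|²`, `nd = |d|²`, and the (biased) coefficients of the two
functions `R` and `T`. The true values are `KB - a1`, `KB - a2`, `b1 - KB`, `b2 - KB`, `r - KB`;
`B1 = |b1 - KB|`, `B2 = |b2 - KB|`. -/
structure Cos where
  /-- constructor -/
  mk ::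
  (n nd a1 a2 b1 b2 r B1 B2 : Nat)

/-- Parameters of a certificate. -/
structure Par where
  /-- constructor -/
  mk ::
  (M KB K hn hd D al be ga tw tv C c : Nat)

/-- Certificate trees: leaf, skip, splits in `s, t, v, u`, filter. -/
inductive Tr where
  | L : Tr
  | K : Nat → Tr
  | S : Tr → Tr → Tr
  | T : Tr → Tr → Tr
  | V : Tr → Tr → Tr
  | U : Tr → Tr → Tr
  | F : Nat → Tr → Tr

/-- absolute difference -/
def dist (x y : Nat) : Nat := Nat.add (Nat.sub x y) (Nat.sub y x)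

/-- square -/
def sq (x : Nat) : Nat := Nat.mul x x

/-- maximum -/
def mx (x y : Nat) : Nat := Bool.rec x y (Nat.ble x y)

/-- half, rounded up -/
def hf2 (x : Nat) : Nat := Nat.div (Nat.succ x) 2

/-- table entry -/
def tab (T k : Nat) : Nat := Nat.land (Nat.shiftRight T (Nat.mul 16 k)) 65535

/-- centre value of `R`, scale `M²` -/
def fRc (M2 Q SM TM offR n nd a1 a2 : Nat) : Nat :=
  Nat.sub (Nat.add (Nat.add (Nat.mul n Q) (Nat.mul nd M2)) (Nat.add (Nat.mul SM a1) (Nat.mul TM a2)))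
    offR

/-- linear variation of `R`, scale `M²` -/
def fL (M MK g1 g2 hx hy n a1 a2 : Nat) : Nat :=
  Nat.add (Nat.mul (dist (Nat.add (Nat.mul n g1) (Nat.mul M a1)) MK) hx)
    (Nat.mul (dist (Nat.add (Nat.mul n g2) (Nat.mul M a2)) MK) hy)

/-- absolute value of `T` at the centre, scale `M` -/
def fT (M S T V offT n b1 b2 r : Nat) : Nat :=
  dist (Nat.add (Nat.add (Nat.mul n V) (Nat.mul r M)) (Nat.add (Nat.mul b1 S) (Nat.mul b2 T))) offT

/-- variation of `T`, scale `M` -/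
def fH (hx hy hv n B1 B2 : Nat) : Nat :=
  Nat.add (Nat.mul n hv) (Nat.add (Nat.mul B1 hx) (Nat.mul B2 hy))

/-- lower bound for `K h / height`, rounded down -/
def kup (Kh H4 nU0 nU1 R0 DT0 : Nat) : Nat :=
  (fun crit => Nat.div
    (Nat.mul Kh (Nat.add (sq (Nat.add (Bool.rec nU0 nU1 (Nat.ble (sq nU1) crit)) R0)) DT0))
    (Nat.mul H4 (Bool.rec nU1 nU0 (Nat.ble crit (sq nU0)))))
  (Nat.add (sq R0) DT0)

/-- upper bound for `K h / height`, rounded down -/
def klo (K Kh H4 nU0 nU1 R1 DT1 : Nat) : Nat :=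
  Bool.rec
    (mx (Nat.div (Nat.mul Kh (Nat.add (sq (Nat.add nU0 R1)) DT1)) (Nat.mul H4 nU0))
      (Nat.div (Nat.mul Kh (Nat.add (sq (Nat.add nU1 R1)) DT1)) (Nat.mul H4 nU1)))
    K (Nat.beq nU0 0)

/-- Parameters of a cell that are used for all cusps. -/
structure Nd where
  /-- constructor -/
  mk ::
  (M M2 MK K Kh H4 M4q DM2 S T V hx hy hv U0 U1 Q g1 g2 q2 SM TM offR offT : Nat)

/-- the cell parameters -/
def mkNd (p : Par) (S hx T hy V hv U0 U1 : Nat) : Nd :=
  Par.rec (fun M KB K hn hd D al be ga _ _ _ _ =>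
    Nd.mk M (sq M) (Nat.mul M KB) K (Nat.mul K hn) (Nat.mul 4 (Nat.mul hd (sq M)))
      (Nat.mul 4 (sq (sq M))) (Nat.mul D (sq M)) S T V hx hy hv U0 U1
      (Nat.add (Nat.mul al (sq S)) (Nat.add (Nat.mul be (Nat.mul S T)) (Nat.mul ga (sq T))))
      (Nat.add (Nat.mul 2 (Nat.mul al S)) (Nat.mul be T))
      (Nat.add (Nat.mul 2 (Nat.mul ga T)) (Nat.mul be S))
      (Nat.add (Nat.mul al (sq hx)) (Nat.add (Nat.mul be (Nat.mul hx hy)) (Nat.mul ga (sq hy))))
      (Nat.mul S M) (Nat.mul T M) (Nat.mul KB (Nat.mul M (Nat.add S T)))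
      (Nat.mul KB (Nat.add (Nat.add S T) M))) p

/-- lower bound for `K h / height` of a cusp over a cell -/
def kupC (x : Nd) (c : Cos) : Nat :=
  Nd.rec (fun M M2 MK _ Kh H4 _ DM2 S T V hx hy hv U0 U1 Q g1 g2 _ SM TM offR offT =>
    Cos.rec (fun n nd a1 a2 b1 b2 r B1 B2 =>
      kup Kh H4 (Nat.mul n U0) (Nat.mul n U1)
        (Nat.sub (fRc M2 Q SM TM offR n nd a1 a2) (fL M MK g1 g2 hx hy n a1 a2))
        (Nat.mul DM2 (sq (Nat.sub (fT M S T V offT n b1 b2 r) (fH hx hy hv n B1 B2))))) c) x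

/-- upper bound for `K h / height` of a cusp over a cell -/
def kloC (x : Nd) (c : Cos) : Nat :=
  Nd.rec (fun M M2 MK K Kh H4 _ DM2 S T V hx hy hv U0 U1 Q g1 g2 q2 SM TM offR offT =>
    Cos.rec (fun n nd a1 a2 b1 b2 r B1 B2 =>
      klo K Kh H4 (Nat.mul n U0) (Nat.mul n U1)
        (Nat.add (Nat.add (fRc M2 Q SM TM offR n nd a1 a2) (fL M MK g1 g2 hx hy n a1 a2))
          (Nat.mul n q2))
        (Nat.mul DM2 (sq (Nat.add (fT M S T V offT n b1 b2 r) (fH hx hy hv n B1 B2))))) c) x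

/-- the cusp is higher than the point on the whole cell -/
def skipC (x : Nd) (c : Cos) : Bool :=
  Nd.rec (fun M M2 MK _ _ _ M4q DM2 S T V hx hy hv _ U1 Q g1 g2 q2 SM TM offR offT =>
    Cos.rec (fun n nd a1 a2 b1 b2 r B1 B2 =>
      Nat.ble (Nat.succ (Nat.add
        (sq (Nat.add (Nat.mul n U1) (Nat.add (Nat.add (fRc M2 Q SM TM offR n nd a1 a2)
          (fL M MK g1 g2 hx hy n a1 a2)) (Nat.mul n q2))))
        (Nat.mul DM2 (sq (Nat.add (fT M S T V offT n b1 b2 r) (fH hx hy hv n B1 B2))))))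
        (Nat.mul M4q n)) c) x

/-- the `i`-th element of the list satisfies the test -/
def nthB (f : Cos → Bool) (l : List Cos) : Nat → Bool :=
  List.rec (fun _ => false) (fun c _ ih i => Nat.rec (f c) (fun j _ => ih j) i) l

/-- remove the elements marked in the mask, provided they pass the test -/
def filt (f : Cos → Bool) (l : List Cos) : Nat → List Cos → (List Cos → Bool) → Bool :=
  List.rec (fun _ acc k => k acc)
    (fun c _ ih m acc k => Bool.rec (ih (Nat.div m 2) (List.cons c acc) k)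
      (Bool.and (f c) (ih (Nat.div m 2) acc k)) (Nat.beq (Nat.mod m 2) 1)) l

/-- sum of the values -/
def sumL (f : Cos → Nat) (z : Nat) (l : List Cos) : Nat :=
  List.rec z (fun c _ ih => Nat.add (f c) ih) l

/-- leaf test for `W` -/
def leafW (p : Par) (x : Nd) (U1 : Nat) (l : List Cos) : Bool :=
  Par.rec (fun M _ K hn hd _ _ _ _ tw _ C _ =>
    (fun kw => Nat.ble (sumL (fun c => tab tw (mx kw (kupC x c))) (tab tw kw) l) C)
      (Nat.div (Nat.mul (Nat.mul K hn) (sq M)) (Nat.mul hd U1))) p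

/-- leaf test for `V` -/
def leafV (p : Par) (x : Nd) (U0 : Nat) (l : List Cos) : Bool :=
  Par.rec (fun M _ K hn hd _ _ _ _ _ tv _ c =>
    Nat.ble c (sumL (fun c => tab tv (kloC x c))
      (Bool.rec (tab tv (Nat.div (Nat.mul (Nat.mul K hn) (sq M)) (Nat.mul hd U0))) 0 (Nat.beq U0 0))
      l)) p

/-- drop test for `W` -/
def dropW (x : Nd) (c : Cos) : Bool :=
  Nat.ble (Nd.rec (fun _ _ _ K _ _ _ _ _ _ _ _ _ _ _ _ _ _ _ _ _ _ _ _ => K) x) (kupC x c)

/-- certificate check; `lf` is the leaf test, `df` the drop test -/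
def chk (p : Par) (lf : Nd → Nat → Nat → List Cos → Bool) (df : Nd → Cos → Bool) (t : Tr) :
    Nat → Nat → Nat → Nat → Nat → Nat → Nat → Nat → List Cos → Bool :=
  Tr.rec
    (fun S hx T hy V hv U0 U1 l => lf (mkNd p S hx T hy V hv U0 U1) U0 U1 l)
    (fun i S hx T hy V hv U0 U1 l => nthB (skipC (mkNd p S hx T hy V hv U0 U1)) l i)
    (fun _ _ a b S hx T hy V hv U0 U1 l =>
      Bool.and (a (Nat.sub S (hf2 hx)) (hf2 hx) T hy V hv U0 U1 l)
        (b (Nat.add S (hf2 hx)) (hf2 hx) T hy V hv U0 U1 l))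
    (fun _ _ a b S hx T hy V hv U0 U1 l =>
      Bool.and (a S hx (Nat.sub T (hf2 hy)) (hf2 hy) V hv U0 U1 l)
        (b S hx (Nat.add T (hf2 hy)) (hf2 hy) V hv U0 U1 l))
    (fun _ _ a b S hx T hy V hv U0 U1 l =>
      Bool.and (a S hx T hy (Nat.sub V (hf2 hv)) (hf2 hv) U0 U1 l)
        (b S hx T hy (Nat.add V (hf2 hv)) (hf2 hv) U0 U1 l))
    (fun _ _ a b S hx T hy V hv U0 U1 l =>
      Bool.and (a S hx T hy V hv U0 (Nat.div (Nat.add U0 U1) 2) l)
        (b S hx T hy V hv (Nat.div (Nat.add U0 U1) 2) U1 l))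
    (fun m _ a S hx T hy V hv U0 U1 l =>
      filt (df (mkNd p S hx T hy V hv U0 U1)) l m List.nil
        (fun N => a S hx T hy V hv U0 U1 N)) t

/-- certificate check for the upper bound -/
def chkW (p : Par) (t : Tr) : Nat → Nat → Nat → Nat → Nat → Nat → Nat → Nat → List Cos → Bool :=
  chk p (fun x _ U1 l => leafW p x U1 l) dropW t

/-- certificate check for the lower bound -/
def chkV (p : Par) (t : Tr) : Nat → Nat → Nat → Nat → Nat → Nat → Nat → Nat → List Cos → Bool :=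
  chk p (fun x U0 _ l => leafV p x U0 l) (fun _ _ => true) t

end

end Pool.Agent.Lib.H56.Gen
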