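import Pool.Agent.Lib.H56.Gen.Main

/-!
# Classes of cusps, invariance of the cusp sum, existence of a highest translate
-/

namespace Pool.Agent.Lib.H56.Gen

open Matrix hiding J
open MeasureTheory Topology
open Pool.Agent.Lib.H56.Picard
open scoped ENNReal

noncomputable section

variable {O : Subring ℂ} {hO : ∀ x ∈ O, star x ∈ O}

/-- the class of a group element modulo the stabiliser on the left -/
def cl (γ : arith O hO) : arith O hO ⧸ stab O hO := ((γ⁻¹ : arith O hO) : arith O hO ⧸ stab O hO)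

lemma cl_eq_iff {γ δ : arith O hO} : cl γ = cl δ ↔ γ * δ⁻¹ ∈ stab O hO := by
  unfold cl
  rw [QuotientGroup.eq, inv_inv]

lemma cl_out (q : arith O hO ⧸ stab O hO) : cl ((q.out : arith O hO)⁻¹) = q := by
  unfold cl
  rw [inv_inv, QuotientGroup.out_eq']

lemma height_cl (hO1 : ∀ x ∈ O, x ≠ 0 → 1 ≤ ‖x‖) {γ δ : arith O hO} (h : cl γ = cl δ) (y : X) :
    height (γ • y : X).1 = height (δ • y : X).1 := by
  have h1 := cl_eq_iff.mp h
  have h2 := height_stab hO1 ⟨_, h1⟩ (δ • y)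
  rw [← h2]
  have e : ((⟨γ * δ⁻¹, h1⟩ : stab O hO) • (δ • y) : X) = γ • y := by
    show (γ * δ⁻¹) • δ • y = γ • y
    rw [← mul_smul]
    simp
  rw [e]

lemma height_out (hO1 : ∀ x ∈ O, x ≠ 0 → 1 ≤ ‖x‖) (γ : arith O hO) (y : X) :
    height (((cl γ).out : arith O hO)⁻¹ • y : X).1 = height (γ • y : X).1 :=
  height_cl hO1 (cl_out (cl γ)) y

/-- invariance of the cusp sum -/
lemma cuspSum_smul (hO1 : ∀ x ∈ O, x ≠ 0 → 1 ≤ ‖x‖) (φ : ℝ → ℝ≥0∞) (γ : arith O hO) (z : X) :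
    cuspSum O hO φ (γ • z) = cuspSum O hO φ z := by
  unfold cuspSum
  rw [← (MulAction.toPerm γ : Equiv.Perm (arith O hO ⧸ stab O hO)).tsum_eq]
  refine tsum_congr fun q => ?_
  have h1 : act (mat ((((MulAction.toPerm γ : Equiv.Perm (arith O hO ⧸ stab O hO)) q).out :
      arith O hO)⁻¹).1) (γ • z : X).1 =
      ((((MulAction.toPerm γ : Equiv.Perm (arith O hO ⧸ stab O hO)) q).out : arith O hO)⁻¹ •
        (γ • z) : X).1 := rfl
  have h2 : act (mat ((q.out : arith O hO)⁻¹).1) z.1 = ((q.out : arith O hO)⁻¹ • z : X).1 := rfl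
  rw [h1, h2]
  set q1 := (MulAction.toPerm γ : Equiv.Perm (arith O hO ⧸ stab O hO)) q with hq1
  rw [← mul_smul]
  congr 1
  apply height_cl hO1
  rw [cl_eq_iff]
  have h3 : q1 = ((γ * q.out : arith O hO) : arith O hO ⧸ stab O hO) := by
    rw [hq1]
    show γ • q = _
    conv_lhs => rw [← QuotientGroup.out_eq' q]
    rfl
  have h4 : (q1.out : arith O hO)⁻¹ * (γ * q.out) ∈ stab O hO := by
    rw [← QuotientGroup.eq, QuotientGroup.out_eq', h3]
  have h5 : (q1.out : arith O hO)⁻¹ * γ * ((q.out : arith O hO)⁻¹)⁻¹ =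
      (q1.out : arith O hO)⁻¹ * (γ * q.out) := by group
  rw [h5]
  exact h4

lemma height_smul_eq (γ : arith O hO) (z : X) :
    height (γ • z : X).1 = height z.1 / Complex.normSq (jf (mat γ.1) z.1) :=
  height_act (mat_unitary γ.1) z.2

/-- There is a highest translate. -/
lemma exists_highest (hOd : ∀ B : ℝ, {x : ℂ | x ∈ O ∧ ‖x‖ ≤ B}.Finite) (z : X) :
    ∃ γ : arith O hO, ∀ δ : arith O hO, height (δ • z : X).1 ≤ height (γ • z : X).1 := by
  have hz : 0 < height z.1 := z.2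
  -- finitely many values of the automorphy factor are at most one
  have hfin : {x : ℝ | ∃ γ : arith O hO, Complex.normSq (jf (mat γ.1) z.1) = x ∧ x ≤ 1}.Finite := by
    set u := height z.1 with hu
    set C1 := 2 / u with hC1
    set C2 := C1 * ‖z.1.2‖ + (1 + 2 / u) with hC2
    set C3 := 1 + C1 * ‖z.1.1‖ + C2 * ‖z.1.2‖ with hC3
    have hC10 : 0 < C1 := by positivity
    have hS := ((hOd C1).prod ((hOd C2).prod (hOd C3))).image
      (fun r : ℂ × ℂ × ℂ => Complex.normSq (r.1 * z.1.1 + r.2.1 * z.1.2 + r.2.2))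
    refine hS.subset ?_
    rintro x ⟨γ, hx, hx1⟩
    have hj : jf (mat γ.1) z.1 = mat γ.1 2 0 * z.1.1 + mat γ.1 2 1 * z.1.2 + mat γ.1 2 2 :=
      jf_apply _ _
    have hb := row_two_bound γ.1 (z := z.1) z.2
    rw [hx, ← hu] at hb
    have hb' : 2 / u * x ≤ 2 / u := by
      have : 0 < 2 / u := by positivity
      nlinarith
    have n0 := Complex.normSq_nonneg (mat γ.1 2 0)
    have n1 := Complex.normSq_nonneg (mat γ.1 2 1 - mat γ.1 2 0 * star z.1.2)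
    have b0 : ‖mat γ.1 2 0‖ ≤ C1 := by
      have h1 : u / 2 * Complex.normSq (mat γ.1 2 0) ≤ 2 / u := by linarith
      rw [Complex.normSq_eq_norm_sq] at h1
      have h2 : (‖mat γ.1 2 0‖) ^ 2 ≤ C1 ^ 2 := by
        rw [hC1]
        have h3 : u / 2 * (‖mat γ.1 2 0‖) ^ 2 * (2 / u) ≤ 2 / u * (2 / u) := by
          gcongr
        have h4 : u / 2 * (‖mat γ.1 2 0‖) ^ 2 * (2 / u) = (‖mat γ.1 2 0‖) ^ 2 := by
          field_simp
        rw [h4] at h3
        linarith [sq (2 / u)]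
      exact (sq_le_sq₀ (norm_nonneg _) hC10.le).mp h2
    have b1 : ‖mat γ.1 2 1‖ ≤ C2 := by
      have h1 : Complex.normSq (mat γ.1 2 1 - mat γ.1 2 0 * star z.1.2) ≤ 2 / u := by
        have : 0 ≤ u / 2 * Complex.normSq (mat γ.1 2 0) := by positivity
        linarith
      rw [Complex.normSq_eq_norm_sq] at h1
      have h2 : ‖mat γ.1 2 1 - mat γ.1 2 0 * star z.1.2‖ ≤ 1 + 2 / u := by
        nlinarith [norm_nonneg (mat γ.1 2 1 - mat γ.1 2 0 * star z.1.2)]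
      calc ‖mat γ.1 2 1‖ = ‖mat γ.1 2 0 * star z.1.2 +
            (mat γ.1 2 1 - mat γ.1 2 0 * star z.1.2)‖ := by congr 1; ring
        _ ≤ ‖mat γ.1 2 0 * star z.1.2‖ + ‖mat γ.1 2 1 - mat γ.1 2 0 * star z.1.2‖ := norm_add_le _ _
        _ ≤ C1 * ‖z.1.2‖ + (1 + 2 / u) := by
          rw [norm_mul, norm_star]
          gcongr
    have b2 : ‖mat γ.1 2 2‖ ≤ C3 := by
      have h1 : ‖jf (mat γ.1) z.1‖ ≤ 1 := by
        have : ‖jf (mat γ.1) z.1‖ ^ 2 ≤ 1 := by rw [← Complex.normSq_eq_norm_sq, hx]; exact hx1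
        nlinarith [norm_nonneg (jf (mat γ.1) z.1)]
      calc ‖mat γ.1 2 2‖ = ‖jf (mat γ.1) z.1 - mat γ.1 2 0 * z.1.1 - mat γ.1 2 1 * z.1.2‖ := by
            rw [hj]; congr 1; ring
        _ ≤ ‖jf (mat γ.1) z.1‖ + ‖mat γ.1 2 0 * z.1.1‖ + ‖mat γ.1 2 1 * z.1.2‖ :=
            (norm_sub_le _ _).trans (by gcongr; exact norm_sub_le _ _)
        _ ≤ 1 + C1 * ‖z.1.1‖ + C2 * ‖z.1.2‖ := by
            rw [norm_mul, norm_mul]
            gcongr
    exact ⟨(mat γ.1 2 0, mat γ.1 2 1, mat γ.1 2 2),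
      ⟨⟨γ.2 2 0, b0⟩, ⟨γ.2 2 1, b1⟩, ⟨γ.2 2 2, b2⟩⟩, by rw [← hx, hj]⟩
  have hne : {x : ℝ | ∃ γ : arith O hO, Complex.normSq (jf (mat γ.1) z.1) = x ∧ x ≤ 1}.Nonempty := by
    refine ⟨1, 1, ?_, le_rfl⟩
    have : jf (mat (1 : arith O hO).1) z.1 = 1 := by
      rw [jf_apply]
      show (1 : Matrix (Fin 3) (Fin 3) ℂ) 2 0 * z.1.1 + (1 : Matrix (Fin 3) (Fin 3) ℂ) 2 1 * z.1.2 +
        (1 : Matrix (Fin 3) (Fin 3) ℂ) 2 2 = 1
      simp
    rw [this]; simp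
  obtain ⟨x, ⟨γ, hγ, hx1⟩, hmin⟩ := hfin.exists_minimal hne
  refine ⟨γ, fun δ => ?_⟩
  rw [height_smul_eq, height_smul_eq]
  have hjγ : 0 < Complex.normSq (jf (mat γ.1) z.1) :=
    Complex.normSq_pos.mpr (jf_ne_zero (mat_unitary γ.1) z.2)
  apply div_le_div_of_nonneg_left hz.le hjγ
  rw [hγ]
  by_cases hδ : Complex.normSq (jf (mat δ.1) z.1) ≤ 1
  · have h := hmin (y := Complex.normSq (jf (mat δ.1) z.1)) ⟨δ, rfl, hδ⟩
    by_contra hcon
    push Not at hcon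
    exact absurd (h hcon.le) (not_le.mpr hcon)
  · push Not at hδ
    linarith

end

end Pool.Agent.Lib.H56.Gen
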