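import Pool.Agent.Lib.H56.Gen.Ring

/-!
# Completion of an isotropic row to an element of the group
-/

namespace Pool.Agent.Lib.H56.Gen

open Matrix hiding J
open MeasureTheory
open Pool.Agent.Lib.H56.Picard (SU21 mat mat_mul mat_one mat_unitary mat_inv mkSU mat_mkSU
  unitary_right J J_mul_J arith mem_arith)

noncomputable section

/-- the completed matrix -/
def cmat (f0 f1 f2 c d e : ℂ) : Matrix (Fin 3) (Fin 3) ℂ :=
  !![f0, f1, f2; -star (f0 * d - f1 * c), -star (f2 * c - f0 * e), -star (f1 * e - f2 * d); c, d, e]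

lemma cmat_right {f0 f1 f2 c d e : ℂ}
    (hff : f0 * star f2 + f1 * star f1 + f2 * star f0 = 0)
    (hrr : c * star e + d * star d + e * star c = 0)
    (hfr : f0 * star e + f1 * star d + f2 * star c = 1) :
    cmat f0 f1 f2 c d e * J * (cmat f0 f1 f2 c d e)ᴴ = J := by
  have hrf : star f0 * e + star f1 * d + star f2 * c = 1 := by
    have := congrArg star hfr
    simpa [star_add, star_mul', mul_comm] using this
  simp only [Complex.star_def] at *
  ext i j
  fin_cases i <;> fin_cases j <;>
    simp [cmat, J, Matrix.mul_apply, Fin.sum_univ_three, Complex.star_def]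
  · linear_combination hff
  · ring
  · linear_combination hfr
  · ring
  · linear_combination
      (f0 * (starRingEnd ℂ) e + f1 * (starRingEnd ℂ) d + f2 * (starRingEnd ℂ) c) * hrf + hfr -
      (c * (starRingEnd ℂ) e + d * (starRingEnd ℂ) d + e * (starRingEnd ℂ) c) * hff
  · ring
  · linear_combination hrf
  · ring
  · linear_combination hrr

lemma cmat_det {f0 f1 f2 c d e : ℂ}
    (hff : f0 * star f2 + f1 * star f1 + f2 * star f0 = 0)
    (hfr : f0 * star e + f1 * star d + f2 * star c = 1) :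
    (cmat f0 f1 f2 c d e).det = 1 := by
  have hrf : star f0 * e + star f1 * d + star f2 * c = 1 := by
    have := congrArg star hfr
    simpa [star_add, star_mul', mul_comm] using this
  simp only [Complex.star_def] at *
  simp [cmat, Matrix.det_fin_three, Complex.star_def]
  linear_combination
      (f0 * (starRingEnd ℂ) e + f1 * (starRingEnd ℂ) d + f2 * (starRingEnd ℂ) c) * hrf + hfr -
      (c * (starRingEnd ℂ) e + d * (starRingEnd ℂ) d + e * (starRingEnd ℂ) c) * hff

/-- Realization of a row. -/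
theorem realize {q : QD} {f0 f1 f2 c d e : ℂ} (m0 : f0 ∈ OO q) (m1 : f1 ∈ OO q) (m2 : f2 ∈ OO q)
    (mc : c ∈ OO q) (md : d ∈ OO q) (me : e ∈ OO q)
    (hff : f0 * star f2 + f1 * star f1 + f2 * star f0 = 0)
    (hrr : c * star e + d * star d + e * star c = 0)
    (hfr : f0 * star e + f1 * star d + f2 * star c = 1) :
    ∃ γ : arith (OO q) star_mem, mat γ.1 2 0 = c ∧ mat γ.1 2 1 = d ∧ mat γ.1 2 2 = e := by
  have h1 := cmat_right hff hrr hfr
  have h2 : (cmat f0 f1 f2 c d e)ᴴ * J * cmat f0 f1 f2 c d e = J := by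
    set M := cmat f0 f1 f2 c d e with hM
    have h3 : M * (J * Mᴴ * J) = 1 := by
      rw [← Matrix.mul_assoc, ← Matrix.mul_assoc, h1, J_mul_J]
    have h4 : (J * Mᴴ * J) * M = 1 := mul_eq_one_comm.mp h3
    calc Mᴴ * J * M = J * (J * Mᴴ * J * M) := by
          simp only [← Matrix.mul_assoc]
          rw [J_mul_J, Matrix.one_mul]
      _ = J := by rw [h4, Matrix.mul_one]
  have hmem : mkSU (cmat f0 f1 f2 c d e) h2 (cmat_det hff hfr) ∈ arith (OO q) star_mem := by
    intro i j
    rw [mat_mkSU, cmat]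
    have s : ∀ x ∈ OO q, -star x ∈ OO q := fun x hx => (OO q).neg_mem (star_mem x hx)
    have k : ∀ x y z w : ℂ, x ∈ OO q → y ∈ OO q → z ∈ OO q → w ∈ OO q → x * y - z * w ∈ OO q :=
      fun x y z w hx hy hz hw => (OO q).sub_mem ((OO q).mul_mem hx hy) ((OO q).mul_mem hz hw)
    fin_cases i <;> fin_cases j
    · exact m0
    · exact m1
    · exact m2
    · exact s _ (k _ _ _ _ m0 md m1 mc)
    · exact s _ (k _ _ _ _ m2 mc m0 me)
    · exact s _ (k _ _ _ _ m1 me m2 md)
    · exact mc
    · exact md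
    · exact me
  exact ⟨⟨_, hmem⟩, rfl, rfl, rfl⟩

end

end Pool.Agent.Lib.H56.Gen
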