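import Pool.Agent.Lib.H56.Gen.RowComplete
import Pool.Agent.Lib.H56.Gen.Level

/-!
# Interpretation of rows, heights in coordinates
-/

namespace Pool.Agent.Lib.H56.Gen

open Matrix hiding J
open MeasureTheory Topology
open Pool.Agent.Lib.H56.Picard
open scoped ENNReal

noncomputable section

/-- the element with given coordinates -/
def elp (q : QD) (a : ℤ × ℤ) : ℂ := el q a.1 a.2

/-- compatibility of the parameters -/
structure Comp (E : EP) (q : QD) : Prop where
  t : E.t = q.t
  n : E.n = q.n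

variable {E : EP} {q : QD}

lemma elp_mul (h : Comp E q) (a b : ℤ × ℤ) : elp q (mulE E a b) = elp q a * elp q b := by
  unfold elp
  rw [el_mul, el_inj]
  constructor
  · show a.1 * b.1 - E.n * (a.2 * b.2) = _
    rw [h.n]
  · show a.1 * b.2 + a.2 * b.1 + E.t * (a.2 * b.2) = _
    rw [h.t]

lemma elp_conj (h : Comp E q) (a : ℤ × ℤ) : elp q (conjE E a) = star (elp q a) := by
  unfold elp
  rw [star_el, el_inj]
  constructor
  · show a.1 + E.t * a.2 = _
    rw [h.t]
  · show -a.2 = _
    rfl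

lemma nfE_eq (E : EP) (a : ℤ × ℤ) : nfE E a = a.1 * a.1 + E.t * (a.1 * a.2) + E.n * (a.2 * a.2) := rfl

lemma trE_eq (E : EP) (a : ℤ × ℤ) : trE E a = 2 * a.1 + E.t * a.2 := rfl

lemma DE_eq (h : Comp E q) : DE E = dd q := by
  show 4 * E.n - E.t * E.t = 4 * q.n - q.t ^ 2
  rw [h.n, h.t]; ring

lemma normSq_elp (h : Comp E q) (a : ℤ × ℤ) : Complex.normSq (elp q a) = nfE E a := by
  unfold elp
  rw [normSq_el, nf, nfE_eq, h.t, h.n]
  push_cast; ring

lemma re_elp (h : Comp E q) (a : ℤ × ℤ) : 2 * (elp q a).re = trE E a := by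
  unfold elp
  rw [el_re, trE_eq, h.t]
  push_cast; ring

lemma im_elp (a : ℤ × ℤ) : 2 * (elp q a).im = a.2 * sd q := by
  unfold elp
  rw [el_im]; ring

lemma elp_mem (a : ℤ × ℤ) : elp q a ∈ OO q := el_mem _ _

/-- basis vector -/
def ee1 (E : EP) (q : QD) : ℂ := elp q (E.x1, E.y1)
/-- basis vector -/
def ee2 (E : EP) (q : QD) : ℂ := elp q (E.x2, E.y2)

lemma RE_eq (h : Comp E q) (c d : ℤ × ℤ) (s t : ℝ) : RE E c d s t =
    Complex.normSq (elp q d - elp q c * star (s * ee1 E q + t * ee2 E q)) := by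
  have h1 : ((trE E (Z1 E c d) : ℤ) : ℝ) = 2 * (star (elp q c) * elp q d * ee1 E q).re := by
    rw [← re_elp h, Z1, elp_mul h, elp_mul h, elp_conj h]; rfl
  have h2 : ((trE E (Z2 E c d) : ℤ) : ℝ) = 2 * (star (elp q c) * elp q d * ee2 E q).re := by
    rw [← re_elp h, Z2, elp_mul h, elp_mul h, elp_conj h]; rfl
  have h3 : ((alE E : ℤ) : ℝ) = Complex.normSq (ee1 E q) := (normSq_elp h _).symm
  have h4 : ((gaE E : ℤ) : ℝ) = Complex.normSq (ee2 E q) := (normSq_elp h _).symm
  have h5 : ((beE E : ℤ) : ℝ) = 2 * (ee1 E q * star (ee2 E q)).re := by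
    rw [beE, ← re_elp h, elp_mul h, elp_conj h]; rfl
  rw [RE, h1, h2, h3, h4, h5, ← normSq_elp h c, ← normSq_elp h d]
  simp only [Complex.normSq_apply, Complex.star_def, Complex.mul_re, Complex.mul_im,
    Complex.conj_re, Complex.conj_im, Complex.sub_re, Complex.sub_im, Complex.add_re,
    Complex.add_im, Complex.ofReal_re, Complex.ofReal_im]
  ring

lemma RE_nonneg (h : Comp E q) (c d : ℤ × ℤ) (s t : ℝ) : 0 ≤ RE E c d s t := by
  rw [RE_eq h]
  exact Complex.normSq_nonneg _

/-- The key identity. -/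
lemma key_row (h : Comp E q) {c d e : ℤ × ℤ}
    (hiso : trE E (mulE E (conjE E c) e) = -nfE E d) (s t v u : ℝ) :
    4 * (nfE E c : ℝ) * Complex.normSq (elp q c * (PsiE (ee1 E q) (ee2 E q) s t (sd q * v) u).1 +
      elp q d * (PsiE (ee1 E q) (ee2 E q) s t (sd q * v) u).2 + elp q e) =
    (nfE E c * u + RE E c d s t) ^ 2 + DE E * TE E c d e s t v ^ 2 := by
  have h1 : ((Z1 E c d).2 : ℝ) * sd q = 2 * (star (elp q c) * elp q d * ee1 E q).im := by
    have := im_elp (q := q) (Z1 E c d)
    rw [← this, Z1, elp_mul h, elp_mul h, elp_conj h]; rfl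
  have h2 : ((Z2 E c d).2 : ℝ) * sd q = 2 * (star (elp q c) * elp q d * ee2 E q).im := by
    have := im_elp (q := q) (Z2 E c d)
    rw [← this, Z2, elp_mul h, elp_mul h, elp_conj h]; rfl
  have h3 : ((mulE E (conjE E c) e).2 : ℝ) * sd q = 2 * (star (elp q c) * elp q e).im := by
    have := im_elp (q := q) (mulE E (conjE E c) e)
    rw [← this, elp_mul h, elp_conj h]
  have h4 : 2 * (star (elp q c) * elp q e).re = -Complex.normSq (elp q d) := by
    rw [normSq_elp h, ← elp_conj h, ← elp_mul h, re_elp h, hiso]; push_cast; ring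
  have hD : (DE E : ℝ) = sd q * sd q := by rw [DE_eq h, sd_sq]
  set C := elp q c with hC
  set D := elp q d with hDd
  set F := elp q e with hF
  set z2 : ℂ := s * ee1 E q + t * ee2 E q with hz2
  have hj : ∀ z1 : ℂ, 4 * Complex.normSq C * Complex.normSq (C * z1 + D * z2 + F) =
      (2 * (star C * (C * z1 + D * z2 + F)).re) ^ 2 +
      (2 * (star C * (C * z1 + D * z2 + F)).im) ^ 2 := by
    intro z1
    have h5 : Complex.normSq (star C * (C * z1 + D * z2 + F)) =
        Complex.normSq C * Complex.normSq (C * z1 + D * z2 + F) := by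
      rw [map_mul, Complex.star_def, Complex.normSq_conj]
    rw [mul_assoc, ← h5, Complex.normSq_apply]; ring
  have e1 : (PsiE (ee1 E q) (ee2 E q) s t (sd q * v) u).1 =
      ⟨(-Complex.normSq z2 - u) / 2, sd q * v / 2⟩ := rfl
  have e2 : (PsiE (ee1 E q) (ee2 E q) s t (sd q * v) u).2 = z2 := rfl
  rw [e1, e2, ← normSq_elp h c, hj]
  have hRe : 2 * (star C * (C * ⟨(-Complex.normSq z2 - u) / 2, sd q * v / 2⟩ + D * z2 + F)).re =
      -(nfE E c * u + RE E c d s t) := by
    rw [RE_eq h, ← normSq_elp h c, ← hC, ← hz2]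
    simp only [Complex.normSq_apply, Complex.star_def, Complex.mul_re, Complex.mul_im,
      Complex.conj_re, Complex.conj_im, Complex.sub_re, Complex.sub_im, Complex.add_re,
      Complex.add_im] at h4 ⊢
    linear_combination h4
  have hIm : 2 * (star C * (C * ⟨(-Complex.normSq z2 - u) / 2, sd q * v / 2⟩ + D * z2 + F)).im =
      sd q * TE E c d e s t v := by
    have h6 : sd q * TE E c d e s t v = nfE E c * (sd q * v) + (Z1 E c d).2 * sd q * s +
        (Z2 E c d).2 * sd q * t + (mulE E (conjE E c) e).2 * sd q := by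
      rw [TE]; ring
    rw [h6, h1, h2, h3, ← normSq_elp h c, hz2]
    simp only [Complex.normSq_apply, Complex.star_def, Complex.mul_re, Complex.mul_im,
      Complex.conj_re, Complex.conj_im, Complex.add_re,
      Complex.add_im, Complex.ofReal_re, Complex.ofReal_im]
    ring
  rw [hRe, hIm, hD, normSq_elp h c]
  ring

lemma height_PsiE (e1 e2 : ℂ) (s t v u : ℝ) : height (PsiE e1 e2 s t v u) = u := by
  simp only [height, PsiE]
  ring

end

end Pool.Agent.Lib.H56.Gen
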