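import Pool.Agent.Lib.H56.Gen.RowComplete

/-!
# Units and canonical representatives
-/

namespace Pool.Agent.Lib.H56.Gen

lemma leI_iff {a b : ℤ} : leI a b = true ↔ a ≤ b := by
  have e : leI a b = Nat.beq (a - b).toNat 0 := rfl
  rw [e]
  constructor
  · intro h
    have := Nat.eq_of_beq_eq_true h
    omega
  · intro h
    have : (a - b).toNat = 0 := by omega
    rw [this]; rfl

lemma can_iff_small {E : EP} (h : E.n ≤ 1) {c : ℤ × ℤ} : can E c = true ↔ 1 ≤ c.1 ∧ 0 ≤ c.2 := by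
  have h1 : leI E.n 1 = true := leI_iff.mpr h
  have e : can E c = Bool.and (leI 1 c.1) (leI 0 c.2) := by
    unfold can
    rw [h1]
  rw [e]
  show ((leI 1 c.1) && (leI 0 c.2)) = true ↔ _
  rw [Bool.and_eq_true, leI_iff, leI_iff]

lemma can_iff_big {E : EP} (h : ¬ E.n ≤ 1) {c : ℤ × ℤ} :
    can E c = true ↔ 1 ≤ c.1 ∨ (c.1 = 0 ∧ 1 ≤ c.2) := by
  have h1 : leI E.n 1 = false := by
    rw [← Bool.not_eq_true, leI_iff]; exact h
  have e : can E c = Bool.or (leI 1 c.1) (Bool.and (Nat.beq (Int.natAbs c.1) 0) (leI 1 c.2)) := by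
    unfold can
    rw [h1]
  rw [e]
  show ((leI 1 c.1) || ((Nat.beq (Int.natAbs c.1) 0) && (leI 1 c.2))) = true ↔ _
  rw [Bool.or_eq_true, Bool.and_eq_true, leI_iff, leI_iff]
  have : Nat.beq (Int.natAbs c.1) 0 = true ↔ c.1 = 0 := by
    rw [Nat.beq_eq]; exact Int.natAbs_eq_zero
  rw [this]

lemma nfE_val (E : EP) (a : ℤ × ℤ) :
    nfE E a = a.1 * a.1 + E.t * (a.1 * a.2) + E.n * (a.2 * a.2) := rfl

lemma mulE_fst (E : EP) (a b : ℤ × ℤ) : (mulE E a b).1 = a.1 * b.1 - E.n * (a.2 * b.2) := rfl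

lemma mulE_snd (E : EP) (a b : ℤ × ℤ) :
    (mulE E a b).2 = a.1 * b.2 + a.2 * b.1 + E.t * (a.2 * b.2) := rfl

/-- every nonzero element has a canonical associate -/
lemma exists_can {E : EP} (ht : E.t = 0 ∨ E.t = 1) (hn : 1 ≤ E.n) {c : ℤ × ℤ} (hc : c ≠ 0) :
    ∃ ε : ℤ × ℤ, nfE E ε = 1 ∧ can E (mulE E ε c) = true := by
  obtain ⟨a, b⟩ := c
  have hab : a ≠ 0 ∨ b ≠ 0 := by
    by_contra h
    push Not at h
    exact hc (by rw [h.1, h.2]; rfl)
  by_cases h1 : E.n ≤ 1
  · have hn1 : E.n = 1 := le_antisymm h1 hn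
    simp only [can_iff_small h1, nfE_val, mulE_fst, mulE_snd, hn1]
    rcases ht with ht | ht <;> rw [ht]
    · -- Gaussian
      by_cases ha : 1 ≤ a ∧ 0 ≤ b
      · exact ⟨(1, 0), by norm_num, by constructor <;> simp <;> omega⟩
      by_cases hb : 1 ≤ b ∧ a ≤ 0
      · exact ⟨(0, -1), by norm_num, by constructor <;> simp <;> omega⟩
      by_cases hc : a ≤ -1 ∧ b ≤ 0
      · exact ⟨(-1, 0), by norm_num, by constructor <;> simp <;> omega⟩
      · exact ⟨(0, 1), by norm_num, by constructor <;> simp <;> omega⟩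
    · by_cases h1 : 1 ≤ a ∧ 0 ≤ b
      · exact ⟨(1, 0), by norm_num, by constructor <;> simp <;> omega⟩
      by_cases h2 : a ≤ -1 ∧ b ≤ 0
      · exact ⟨(-1, 0), by norm_num, by constructor <;> simp <;> omega⟩
      by_cases h3 : a ≤ 0 ∧ 1 ≤ a + b
      · -- multiply by ω⁻¹ = 1 - ω
        exact ⟨(1, -1), by norm_num, by constructor <;> simp <;> omega⟩
      by_cases h4 : 0 ≤ a ∧ a + b ≤ -1
      · exact ⟨(-1, 1), by norm_num, by constructor <;> simp <;> omega⟩
      by_cases h5 : 1 ≤ b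
      · -- ω⁻²= -ω
        exact ⟨(0, -1), by norm_num, by constructor <;> simp <;> omega⟩
      · exact ⟨(0, 1), by norm_num, by constructor <;> simp <;> omega⟩
  · simp only [can_iff_big h1, nfE_val, mulE_fst, mulE_snd]
    by_cases h2 : 1 ≤ a ∨ (a = 0 ∧ 1 ≤ b)
    · exact ⟨(1, 0), by ring, by simpa using h2⟩
    · exact ⟨(-1, 0), by ring, by simp; omega⟩

/-- the canonical associate is unique -/
lemma can_unique {E : EP} (ht : E.t = 0 ∨ E.t = 1) (hn : 1 ≤ E.n) {c ε : ℤ × ℤ}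
    (hε : nfE E ε = 1) (h1 : can E c = true) (h2 : can E (mulE E ε c) = true) : ε = (1, 0) := by
  obtain ⟨a, b⟩ := c
  obtain ⟨x, y⟩ := ε
  rw [nfE_val] at hε
  simp only at hε
  by_cases hs : E.n ≤ 1
  · have hn1 : E.n = 1 := le_antisymm hs hn
    rw [can_iff_small hs] at h1 h2
    rw [mulE_fst, mulE_snd] at h2
    simp only at h1 h2
    rw [hn1] at hε h2
    have hy : y ≤ 1 ∧ -1 ≤ y := by
      rcases ht with ht | ht <;> rw [ht] at hε <;> constructor <;> nlinarith [sq_nonneg (2 * x + y), sq_nonneg x]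
    have hx : x ≤ 1 ∧ -1 ≤ x := by
      rcases ht with ht | ht <;> rw [ht] at hε <;> constructor <;> nlinarith [sq_nonneg (2 * y + x), sq_nonneg y]
    obtain ⟨hy1, hy2⟩ := hy
    obtain ⟨hx1, hx2⟩ := hx
    rcases ht with ht | ht <;> rw [ht] at hε h2 <;> interval_cases x <;> interval_cases y <;>
      simp at hε h2 ⊢ <;> omega
  · rw [can_iff_big hs] at h1 h2
    rw [mulE_fst, mulE_snd] at h2
    simp only at h1 h2
    have hn2 : 2 ≤ E.n := by omega
    have hy : y = 0 := by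
      by_contra hy
      have hy2 : 1 ≤ y * y := by
        rcases lt_or_gt_of_ne hy with h | h <;> nlinarith
      rcases ht with ht | ht <;> rw [ht] at hε <;> nlinarith [sq_nonneg (2 * x + y), sq_nonneg x]
    subst hy
    have hx : x = 1 ∨ x = -1 := by
      have : x * x = 1 := by linarith
      rcases mul_self_eq_one_iff.mp this with h | h
      · exact Or.inl h
      · exact Or.inr h
    rcases hx with rfl | rfl
    · rfl
    · exfalso
      simp at h2
      omega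

end Pool.Agent.Lib.H56.Gen
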