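import Pool.Agent.Lib.H56.Gen.CuspClass
import Pool.Agent.Lib.H56.Gen.Units
import Pool.Agent.Lib.H56.Gen.RowMath
import Pool.Agent.Lib.H56.Gen.Realize

/-!
# The cusp sum at a highest point of the half box
-/

namespace Pool.Agent.Lib.H56.Gen

open Matrix hiding J
open MeasureTheory Topology
open Pool.Agent.Lib.H56.Picard hiding O Gam mem_Gam star_mem_O T_mem
open scoped ENNReal

noncomputable section

/-- a row together with a completing first row -/
structure Ent where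
  /-- constructor -/
  mk ::
  (r : Row) (f0 f1 f2 : Int × Int)

/-- test for zero -/
def isz (a : Int) : Bool := Nat.beq (Int.natAbs a) 0

lemma isz_iff {a : ℤ} : isz a = true ↔ a = 0 := by
  unfold isz
  rw [Nat.beq_eq]
  exact Int.natAbs_eq_zero

/-- sum of pairs -/
def addP (a b : Int × Int) : Int × Int := (Int.add a.1 b.1, Int.add a.2 b.2)

/-- the entry is canonical, isotropic, and completed by an isotropic row -/
def entOK (E : EP) (x : Ent) : Bool :=
  Bool.and (can E (x.r.c1, x.r.c2))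
    (Bool.and (isz (Int.add (trE E (mulE E (conjE E (x.r.c1, x.r.c2)) (x.r.x, x.r.y)))
        (nfE E (x.r.d1, x.r.d2))))
      (Bool.and (isz (Int.add (trE E (mulE E (conjE E x.f0) x.f2)) (nfE E x.f1)))
        ((fun w : Int × Int => Bool.and (isz (Int.sub w.1 1)) (isz w.2))
          (addP (mulE E x.f0 (conjE E (x.r.x, x.r.y)))
            (addP (mulE E x.f1 (conjE E (x.r.d1, x.r.d2)))
              (mulE E x.f2 (conjE E (x.r.c1, x.r.c2))))))))

variable {E : EP} {q : QD}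

lemma entOK_iff {x : Ent} : entOK E x = true ↔
    can E x.r.c = true ∧ trE E (mulE E (conjE E x.r.c) x.r.e) = -nfE E x.r.d ∧
    trE E (mulE E (conjE E x.f0) x.f2) = -nfE E x.f1 ∧
    addP (mulE E x.f0 (conjE E x.r.e)) (addP (mulE E x.f1 (conjE E x.r.d))
      (mulE E x.f2 (conjE E x.r.c))) = (1, 0) := by
  unfold entOK
  simp only [Bool.and_eq_true, isz_iff]
  have e1 : ∀ a b : ℤ, Int.add a b = 0 ↔ a = -b := by
    intro a b
    show a + b = 0 ↔ _
    omega
  have e2 : ∀ a : ℤ, Int.sub a 1 = 0 ↔ a = 1 := by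
    intro a
    show a - 1 = 0 ↔ _
    omega
  rw [e1, e1, e2, Prod.ext_iff]
  rfl

lemma elp_addP (a b : ℤ × ℤ) : elp q (addP a b) = elp q a + elp q b := by
  unfold elp
  rw [el_add]; rfl

lemma elp_one : elp q (1, 0) = 1 := el_one

lemma iso_of (h : Comp E q) {a b c : ℤ × ℤ}
    (hiso : trE E (mulE E (conjE E a) c) = -nfE E b) :
    elp q a * star (elp q c) + elp q b * star (elp q b) + elp q c * star (elp q a) = 0 := by
  have h4 : 2 * (star (elp q a) * elp q c).re = -Complex.normSq (elp q b) := by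
    rw [normSq_elp h, ← elp_conj h, ← elp_mul h, re_elp h, hiso]; push_cast; ring
  rw [Complex.normSq_apply] at h4
  apply Complex.ext
  · simp only [Complex.star_def, Complex.add_re, Complex.mul_re, Complex.conj_re, Complex.conj_im,
      Complex.zero_re] at h4 ⊢
    linear_combination h4
  · simp only [Complex.star_def, Complex.add_im, Complex.mul_im, Complex.conj_re, Complex.conj_im,
      Complex.zero_im]
    ring

lemma of_iso (h : Comp E q) {a b c : ℤ × ℤ}
    (h0 : elp q a * star (elp q c) + elp q b * star (elp q b) + elp q c * star (elp q a) = 0) :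
    trE E (mulE E (conjE E a) c) = -nfE E b := by
  have h4 : 2 * (star (elp q a) * elp q c).re = -Complex.normSq (elp q b) := by
    have := congrArg Complex.re h0
    rw [Complex.normSq_apply]
    simp only [Complex.star_def, Complex.add_re, Complex.mul_re, Complex.conj_re, Complex.conj_im,
      Complex.zero_re] at this ⊢
    linear_combination this
  rw [normSq_elp h, ← elp_conj h, ← elp_mul h, re_elp h] at h4
  exact_mod_cast h4

/-- a group element with the given bottom row -/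
lemma exists_gam (h : Comp E q) {x : Ent} (hx : entOK E x = true) :
    ∃ γ : Gam q, mat γ.1 2 0 = elp q x.r.c ∧ mat γ.1 2 1 = elp q x.r.d ∧
      mat γ.1 2 2 = elp q x.r.e := by
  obtain ⟨-, h1, h2, h3⟩ := entOK_iff.mp hx
  apply realize (f0 := elp q x.f0) (f1 := elp q x.f1) (f2 := elp q x.f2)
    (elp_mem _) (elp_mem _) (elp_mem _) (elp_mem _) (elp_mem _) (elp_mem _)
    (iso_of h h2) (iso_of h h1)
  have := congrArg (elp q) h3
  rw [elp_addP, elp_addP, elp_mul h, elp_mul h, elp_mul h, elp_conj h, elp_conj h, elp_conj h,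
    elp_one] at this
  rw [← this]; ring

/-- integer coordinates of the bottom row -/
lemma exists_row (γ : Gam q) : ∃ c d e : ℤ × ℤ, mat γ.1 2 0 = elp q c ∧ mat γ.1 2 1 = elp q d ∧
    mat γ.1 2 2 = elp q e := by
  obtain ⟨a1, b1, h1⟩ := γ.2 2 0
  obtain ⟨a2, b2, h2⟩ := γ.2 2 1
  obtain ⟨a3, b3, h3⟩ := γ.2 2 2
  exact ⟨(a1, b1), (a2, b2), (a3, b3), h1, h2, h3⟩

/-- primitivity of the bottom row -/
lemma row_primitive (h : Comp E q) (γ : Gam q) {c d e : ℤ × ℤ} (hc : mat γ.1 2 0 = elp q c)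
    (hd : mat γ.1 2 1 = elp q d) (he : mat γ.1 2 2 = elp q e) {m : ℤ × ℤ} (hm : 2 ≤ nfE E m) :
    ¬ (nfE E m ∣ (mulE E c (conjE E m)).1 ∧ nfE E m ∣ (mulE E c (conjE E m)).2 ∧
      nfE E m ∣ (mulE E d (conjE E m)).1 ∧ nfE E m ∣ (mulE E d (conjE E m)).2 ∧
      nfE E m ∣ (mulE E e (conjE E m)).1 ∧ nfE E m ∣ (mulE E e (conjE E m)).2) := by
  rintro ⟨⟨c1, h1⟩, ⟨c2, h2⟩, ⟨d1, h3⟩, ⟨d2, h4⟩, ⟨e1, h5⟩, ⟨e2, h6⟩⟩
  have hm0 : elp q m ≠ 0 := by
    intro h0
    have := normSq_elp h m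
    rw [h0, map_zero] at this
    have h7 : (2 : ℝ) ≤ nfE E m := by exact_mod_cast hm
    linarith
  have hms : star (elp q m) ≠ 0 := by rwa [star_ne_zero]
  have key : ∀ x : ℤ × ℤ, ∀ a b : ℤ, (mulE E x (conjE E m)).1 = nfE E m * a →
      (mulE E x (conjE E m)).2 = nfE E m * b → elp q x = elp q m * elp q (a, b) := by
    intro x a b ha hb
    have h7 : elp q (mulE E x (conjE E m)) = (nfE E m : ℂ) * elp q (a, b) := by
      have e0 : mulE E x (conjE E m) = (nfE E m * a, nfE E m * b) := Prod.ext ha hb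
      rw [e0]
      unfold elp el
      apply Complex.ext <;> simp <;> ring
    rw [elp_mul h, elp_conj h] at h7
    have h8 : (nfE E m : ℂ) = elp q m * star (elp q m) := by
      rw [Complex.star_def, Complex.mul_conj, normSq_elp h]
      norm_cast
    rw [h8] at h7
    apply mul_right_cancel₀ hms
    rw [h7]; ring
  have k1 := key c c1 c2 h1 h2
  have k2 := key d d1 d2 h3 h4
  have k3 := key e e1 e2 h5 h6
  have hinv : mat γ.1 * mat (γ⁻¹).1 = 1 := by
    have : mat (γ.1 * (γ⁻¹).1) = 1 := by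
      have e0 : γ.1 * (γ⁻¹).1 = 1 := by
        have := congrArg Subtype.val (mul_inv_cancel γ)
        exact this
      rw [e0]; rfl
    rw [← this, mat_mul]
  have h22 := congrFun (congrFun hinv 2) 2
  rw [Matrix.mul_apply, Fin.sum_univ_three, hc, hd, he, k1, k2, k3] at h22
  simp only [Matrix.one_apply_eq] at h22
  obtain ⟨x0, y0, hx0⟩ := (γ⁻¹).2 0 2
  obtain ⟨x1, y1, hx1⟩ := (γ⁻¹).2 1 2
  obtain ⟨x2, y2, hx2⟩ := (γ⁻¹).2 2 2
  have hmem : elp q (c1, c2) * mat (γ⁻¹).1 0 2 + elp q (d1, d2) * mat (γ⁻¹).1 1 2 +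
      elp q (e1, e2) * mat (γ⁻¹).1 2 2 ∈ OO q :=
    (OO q).add_mem ((OO q).add_mem ((OO q).mul_mem (elp_mem _) ((γ⁻¹).2 0 2))
      ((OO q).mul_mem (elp_mem _) ((γ⁻¹).2 1 2))) ((OO q).mul_mem (elp_mem _) ((γ⁻¹).2 2 2))
  set s := elp q (c1, c2) * mat (γ⁻¹).1 0 2 + elp q (d1, d2) * mat (γ⁻¹).1 1 2 +
      elp q (e1, e2) * mat (γ⁻¹).1 2 2 with hs
  have h9 : elp q m * s = 1 := by rw [← h22, hs]; ring
  have hs0 : s ≠ 0 := by intro h0; rw [h0] at h9; simp at h9
  have h10 := one_le_normSq hmem hs0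
  have h11 := congrArg Complex.normSq h9
  rw [map_mul, map_one, normSq_elp h] at h11
  have h12 : (2 : ℝ) ≤ nfE E m := by exact_mod_cast hm
  nlinarith

/-- proportional rows give the same class -/
lemma cl_eq_of_row {γ δ : Gam q} {ε : ℂ} (h0 : mat δ.1 2 0 = ε * mat γ.1 2 0)
    (h1 : mat δ.1 2 1 = ε * mat γ.1 2 1) (h2 : mat δ.1 2 2 = ε * mat γ.1 2 2) :
    cl γ = cl δ := by
  rw [eq_comm, cl_eq_iff]
  show mat (δ * γ⁻¹).1 2 0 = 0
  have e0 : mat (δ * γ⁻¹).1 = mat δ.1 * mat (γ⁻¹).1 := rfl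
  have hinv : mat γ.1 * mat (γ⁻¹).1 = 1 := by
    have e0 : γ.1 * (γ⁻¹).1 = 1 := congrArg Subtype.val (mul_inv_cancel γ)
    have : mat (γ.1 * (γ⁻¹).1) = 1 := by rw [e0]; rfl
    rw [← this, mat_mul]
  have h20 := congrFun (congrFun hinv 2) 0
  rw [Matrix.mul_apply, Fin.sum_univ_three] at h20
  rw [e0, Matrix.mul_apply, Fin.sum_univ_three, h0, h1, h2]
  have h21 : (1 : Matrix (Fin 3) (Fin 3) ℂ) 2 0 = 0 := by simp
  rw [h21] at h20
  linear_combination ε * h20

/-- equal classes have proportional rows -/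
lemma row_of_cl {γ δ : Gam q} (h : cl γ = cl δ) :
    ∃ ε ∈ OO q, Complex.normSq ε = 1 ∧ mat δ.1 2 0 = ε * mat γ.1 2 0 ∧
      mat δ.1 2 1 = ε * mat γ.1 2 1 ∧ mat δ.1 2 2 = ε * mat γ.1 2 2 := by
  have h1 := cl_eq_iff.mp h.symm
  set a := δ * γ⁻¹ with ha
  have ha0 : mat a.1 2 0 = 0 := h1
  have ha1 := row_two_one_of_zero a.1 ha0
  have hδ : mat δ.1 = mat a.1 * mat γ.1 := by
    have : δ = a * γ := by rw [ha]; group
    rw [this]; rfl
  have hn : Complex.normSq (mat a.1 2 2) = 1 := by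
    have h2 := height_stab (O := OO q) (hO := star_mem) one_le_norm ⟨a, h1⟩
      (⟨(-1, 0), by show (0:ℝ) < -(2 * (-1 : ℂ).re) - Complex.normSq 0; simp⟩ : X)
    have h3 : ((⟨a, h1⟩ : stab (OO q) star_mem) •
      (⟨(-1, 0), by show (0:ℝ) < -(2 * (-1 : ℂ).re) - Complex.normSq 0; simp⟩ : X) : X) = a •
      (⟨(-1, 0), by show (0:ℝ) < -(2 * (-1 : ℂ).re) - Complex.normSq 0; simp⟩ : X) := rfl
    rw [h3, height_smul_eq] at h2
    have h4 : jf (mat a.1) ((-1, 0) : ℂ × ℂ) = mat a.1 2 2 := by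
      rw [jf_apply, ha0, ha1]; ring
    simp only [h4] at h2
    have h5 : height ((-1, 0) : ℂ × ℂ) = 2 := by simp [height]
    rw [h5] at h2
    have h6 : Complex.normSq (mat a.1 2 2) ≠ 0 := by
      intro h0; rw [h0] at h2; norm_num at h2
    field_simp at h2
    linarith
  refine ⟨mat a.1 2 2, a.2 2 2, hn, ?_, ?_, ?_⟩ <;>
    rw [hδ, Matrix.mul_apply, Fin.sum_univ_three, ha0, ha1] <;> ring

end

end Pool.Agent.Lib.H56.Gen
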