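import Pool.Agent.Lib.H56.Gen.CuspCount

/-!
# The cusp sum at a highest point of the half box, as a finite sum
-/

namespace Pool.Agent.Lib.H56.Gen

open Matrix hiding J
open MeasureTheory Topology
open Pool.Agent.Lib.H56.Picard hiding O Gam mem_Gam star_mem_O T_mem
open scoped ENNReal

noncomputable section

variable {E : EP} {q : QD}

/-- height of a point with respect to a row -/
def HtE (E : EP) (r : Row) (s t v u : ℝ) : ℝ :=
  4 * nfE E r.c * u / ((nfE E r.c * u + RE E r.c r.d s t) ^ 2 + DE E * TE E r.c r.d r.e s t v ^ 2)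

lemma nfE_pos (h : Comp E q) {c : ℤ × ℤ} (hc : elp q c ≠ 0) : 0 < nfE E c := by
  have h1 := Complex.normSq_pos.mpr hc
  rw [normSq_elp h] at h1
  exact_mod_cast h1

/-- The height in terms of the integer data. -/
lemma height_row (h : Comp E q) (γ : Gam q) {c d e : ℤ × ℤ} (hc : mat γ.1 2 0 = elp q c)
    (hd : mat γ.1 2 1 = elp q d) (he : mat γ.1 2 2 = elp q e) (hc0 : elp q c ≠ 0)
    {y : X} {s t v u : ℝ} (hy : y.1 = PsiE (ee1 E q) (ee2 E q) s t (sd q * v) u) :
    trE E (mulE E (conjE E c) e) = -nfE E d ∧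
    4 * (nfE E c : ℝ) * Complex.normSq (jf (mat γ.1) y.1) =
      (nfE E c * u + RE E c d s t) ^ 2 + DE E * TE E c d e s t v ^ 2 ∧
    height (γ • y : X).1 = 4 * nfE E c * u /
      ((nfE E c * u + RE E c d s t) ^ 2 + DE E * TE E c d e s t v ^ 2) := by
  have hiso : trE E (mulE E (conjE E c) e) = -nfE E d := by
    apply of_iso h
    have := row_null γ.1
    rw [hc, hd, he] at this
    linear_combination this
  have hk := key_row h hiso s t v u
  rw [← hy] at hk
  have hj : jf (mat γ.1) y.1 = elp q c * y.1.1 + elp q d * y.1.2 + elp q e := by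
    rw [jf_apply, hc, hd, he]
  have hu : height y.1 = u := by rw [hy, height_PsiE]
  have hn : (0 : ℝ) < nfE E c := by exact_mod_cast nfE_pos h hc0
  refine ⟨hiso, by rw [hj, hk], ?_⟩
  rw [height_smul_eq, hu, hj, ← hk]
  have hj0 : Complex.normSq (elp q c * y.1.1 + elp q d * y.1.2 + elp q e) ≠ 0 := by
    rw [← hj]
    exact (Complex.normSq_pos.mpr (jf_ne_zero (mat_unitary γ.1) y.2)).ne'
  field_simp

lemma can_ne_zero (hE : EPok E) (h : Comp E q) {c : ℤ × ℤ} (hc : can E c = true) : elp q c ≠ 0 := by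
  intro h0
  have h1 : c = (0, 0) := by
    have : elp q c = elp q (0, 0) := by rw [h0]; exact el_zero.symm
    unfold elp at this
    rw [el_inj] at this
    exact Prod.ext this.1 this.2
  by_cases hn : E.n ≤ 1
  · rw [can_iff_small hn, h1] at hc
    simp at hc
  · rw [can_iff_big hn, h1] at hc
    simp at hc

open Classical in
/-- a chosen group element for an entry -/
def gam (q : QD) (x : Ent) : Gam q :=
  if h : ∃ γ : Gam q, mat γ.1 2 0 = elp q x.r.c ∧ mat γ.1 2 1 = elp q x.r.d ∧
      mat γ.1 2 2 = elp q x.r.e then h.choose else 1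

lemma gam_spec (h : Comp E q) {x : Ent} (hx : entOK E x = true) :
    mat (gam q x).1 2 0 = elp q x.r.c ∧ mat (gam q x).1 2 1 = elp q x.r.d ∧
      mat (gam q x).1 2 2 = elp q x.r.e := by
  have h1 := exists_gam h hx
  unfold gam
  rw [dif_pos h1]
  exact h1.choose_spec

lemma elp_inj {a b : ℤ × ℤ} (h : elp q a = elp q b) : a = b := by
  unfold elp at h
  rw [el_inj] at h
  exact Prod.ext h.1 h.2

/-- classes of canonical rows are different -/
lemma row_eq_of_cl (hE : EPok E) (h : Comp E q) {γ δ : Gam q} {c d e c' d' e' : ℤ × ℤ}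
    (hc : mat γ.1 2 0 = elp q c) (hd : mat γ.1 2 1 = elp q d) (he : mat γ.1 2 2 = elp q e)
    (hc' : mat δ.1 2 0 = elp q c') (hd' : mat δ.1 2 1 = elp q d') (he' : mat δ.1 2 2 = elp q e')
    (hcan : can E c = true) (hcan' : can E c' = true) (hcl : cl γ = cl δ) :
    c = c' ∧ d = d' ∧ e = e' := by
  obtain ⟨ε, ⟨a, b, hε⟩, hn, h0, h1, h2⟩ := row_of_cl hcl
  have hε' : ε = elp q (a, b) := hε
  rw [hc, hc', hε', ← elp_mul h] at h0
  rw [hd, hd', hε', ← elp_mul h] at h1
  rw [he, he', hε', ← elp_mul h] at h2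
  have e0 := elp_inj h0
  have e1 := elp_inj h1
  have e2 := elp_inj h2
  have hn1 : nfE E (a, b) = 1 := by
    rw [hε', normSq_elp h] at hn
    exact_mod_cast hn
  have hone := can_unique hE.t01 hE.n1 hn1 hcan (by rw [← e0]; exact hcan')
  rw [hone] at e0 e1 e2
  have key : ∀ x : ℤ × ℤ, mulE E (1, 0) x = x := by
    intro x
    refine Prod.ext ?_ ?_
    · rw [mulE_fst]; simp
    · rw [mulE_snd]; simp
  rw [key] at e0 e1 e2
  exact ⟨e0.symm, e1.symm, e2.symm⟩

/-- **The cusp sum at a highest point.** -/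
theorem cuspSum_eq (hE : EPok E) (h : Comp E q) (hMs : ∀ m ∈ E.Ms, 2 ≤ nfE E m) {L : List Ent}
    (hL : gen E = L.map Ent.r) (hLok : ∀ x ∈ L, entOK E x = true) (hnd : (L.map Ent.r).Nodup)
    {φ : ℝ → ℝ≥0∞} (hφ : ∀ x, x ≤ (E.hn : ℝ) / E.hd → φ x = 0)
    {s t v u : ℝ} (hs : 0 ≤ s) (hs' : s ≤ 1 / 2) (ht : 0 ≤ t) (ht' : t ≤ 1) (hv : 0 ≤ v)
    (hv' : v ≤ E.Pp) (hu : 0 < u) {y : X}
    (hy : y.1 = PsiE (ee1 E q) (ee2 E q) s t (sd q * v) u)
    (htop : ∀ γ : Gam q, height (γ • y : X).1 ≤ u) :
    cuspSum (OO q) star_mem φ y = φ u + (L.map fun x => φ (HtE E x.r s t v u)).sum := by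
  have hhn : (0 : ℝ) < E.hn := by exact_mod_cast hE.hn
  have hhd : (0 : ℝ) < E.hd := by exact_mod_cast hE.hd
  set F : Gam q ⧸ stab (OO q) star_mem → ℝ≥0∞ := fun c =>
    φ (height ((c.out : Gam q)⁻¹ • y : X).1) with hF
  have hcs : cuspSum (OO q) star_mem φ y = ∑' c, F c := rfl
  have hFcl : ∀ γ : Gam q, F (cl γ) = φ (height (γ • y : X).1) := by
    intro γ
    show φ _ = φ _
    rw [height_out one_le_norm γ y]
  set lst : List (Gam q ⧸ stab (OO q) star_mem) := cl 1 :: L.map (fun x => cl (gam q x)) with hlst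
  have hcne : ∀ x ∈ L, elp q x.r.c ≠ 0 := fun x hx =>
    can_ne_zero hE h (entOK_iff.mp (hLok x hx)).1
  -- classes are distinct
  have hnodup : lst.Nodup := by
    rw [hlst, List.nodup_cons]
    constructor
    · intro hmem
      rw [List.mem_map] at hmem
      obtain ⟨x, hx, hx1⟩ := hmem
      have h1 := cl_eq_iff.mp hx1
      have h2 : mat (gam q x * (1 : Gam q)⁻¹).1 2 0 = 0 := h1
      rw [inv_one, mul_one, (gam_spec h (hLok x hx)).1] at h2
      exact hcne x hx h2
    · have hinj : ∀ x ∈ L, ∀ x' ∈ L, cl (gam q x) = cl (gam q x') → x.r = x'.r := by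
        intro x hx x' hx' hcl
        obtain ⟨g0, g1, g2⟩ := gam_spec h (hLok x hx)
        obtain ⟨g0', g1', g2'⟩ := gam_spec h (hLok x' hx')
        obtain ⟨e0, e1, e2⟩ := row_eq_of_cl hE h g0 g1 g2 g0' g1' g2'
          (entOK_iff.mp (hLok x hx)).1 (entOK_iff.mp (hLok x' hx')).1 hcl
        cases hr : x.r with
        | mk c1 c2 d1 d2 x1 y1 =>
        cases hr' : x'.r with
        | mk c1' c2' d1' d2' x1' y1' =>
        rw [hr, hr'] at e0 e1 e2
        simp only [Row.c, Row.d, Row.e, Prod.mk.injEq] at e0 e1 e2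
        rw [e0.1, e0.2, e1.1, e1.2, e2.1, e2.2]
      rw [List.nodup_map_iff_inj_on (List.Nodup.of_map _ hnd)]
      intro x hx x' hx' hcl
      exact (List.nodup_map_iff_inj_on (List.Nodup.of_map _ hnd)).mp hnd x hx x' hx'
        (hinj x hx x' hx' hcl)
  have hsum : ∑' c, F c = (lst.map F).sum := by
    classical
    rw [← List.sum_toFinset F hnodup]
    apply tsum_eq_sum
    intro c hc
    rw [List.mem_toFinset] at hc
    obtain ⟨γ, rfl⟩ : ∃ γ, cl γ = c := ⟨_, cl_out c⟩
    rw [hFcl]
    by_contra hne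
    have hh : (E.hn : ℝ) / E.hd < height (γ • y : X).1 := by
      by_contra hcon
      exact hne (hφ _ (not_lt.mp hcon))
    apply hc
    obtain ⟨c0, d0, e0, hc0, hd0, he0⟩ := exists_row γ
    by_cases hz : c0 = 0
    · -- the cusp at infinity
      have h0 : mat γ.1 2 0 = 0 := by rw [hc0, hz]; exact el_zero
      have : cl γ = cl 1 := by
        rw [cl_eq_iff, inv_one, mul_one]
        exact h0
      rw [this, hlst]
      exact List.mem_cons_self
    · obtain ⟨ε, hε, hcan⟩ := exists_can hE.t01 hE.n1 hz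
      -- multiply the row by a unit: another group element is not needed, only the row
      set c := mulE E ε c0 with hcd
      set d := mulE E ε d0 with hdd
      set e := mulE E ε e0 with hed
      have hεn : Complex.normSq (elp q ε) = 1 := by rw [normSq_elp h, hε]; norm_num
      have hn0 : elp q c0 ≠ 0 := by
        intro h1
        exact hz (elp_inj (q := q) (by rw [h1]; exact el_zero.symm))
      have hcc : elp q c ≠ 0 := can_ne_zero hE h hcan
      obtain ⟨hiso0, hk0, hH0⟩ := height_row h γ hc0 hd0 he0 hn0 hy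
      have hcm : elp q c = elp q ε * elp q c0 := elp_mul h _ _
      have hdm : elp q d = elp q ε * elp q d0 := elp_mul h _ _
      have hem : elp q e = elp q ε * elp q e0 := elp_mul h _ _
      have hiso : trE E (mulE E (conjE E c) e) = -nfE E d := by
        apply of_iso h
        have := iso_of h hiso0
        rw [hcm, hdm, hem]
        simp only [star_mul']
        linear_combination (elp q ε * star (elp q ε)) * this
      have hk := key_row h hiso s t v u
      rw [← hy] at hk
      have hj : Complex.normSq (elp q c * y.1.1 + elp q d * y.1.2 + elp q e) =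
          Complex.normSq (jf (mat γ.1) y.1) := by
        have : elp q c * y.1.1 + elp q d * y.1.2 + elp q e = elp q ε * jf (mat γ.1) y.1 := by
          rw [jf_apply, hc0, hd0, he0, hcm, hdm, hem]; ring
        rw [this, map_mul, hεn, one_mul]
      rw [hj] at hk
      have hN : nfE E c = nfE E c0 := by
        have h1 := normSq_elp h c
        rw [hcm, map_mul, hεn, one_mul, normSq_elp h] at h1
        exact_mod_cast h1.symm
      have hnpos : 0 < nfE E c := nfE_pos h hcc
      have hnR : (0 : ℝ) < nfE E c := by exact_mod_cast hnpos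
      have hju := htop γ
      have hjp : 0 < Complex.normSq (jf (mat γ.1) y.1) :=
        Complex.normSq_pos.mpr (jf_ne_zero (mat_unitary γ.1) y.2)
      have huy : height y.1 = u := by rw [hy, height_PsiE]
      rw [height_smul_eq, huy] at hju hh
      have hj1 : 1 ≤ Complex.normSq (jf (mat γ.1) y.1) := by
        rw [div_le_iff₀ hjp] at hju
        by_contra hcon
        push Not at hcon
        nlinarith
      have hmem := mem_gen hE hcan hnpos hiso (c := c) (d := d) (e := e) ?_ hs hs' ht ht' hv hv' hu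
        (fun s t => RE_nonneg h c d s t) (by rw [← hk]; nlinarith) ?_
      · rw [hL, List.mem_map] at hmem
        obtain ⟨x, hx, hxr⟩ := hmem
        have hxc : x.r.c = c := by rw [hxr]; rfl
        have hxd : x.r.d = d := by rw [hxr]; rfl
        have hxe : x.r.e = e := by rw [hxr]; rfl
        obtain ⟨g0, g1, g2⟩ := gam_spec h (hLok x hx)
        have : cl γ = cl (gam q x) := by
          apply cl_eq_of_row (ε := elp q ε)
          · rw [g0, hc0, hxc, hcm]
          · rw [g1, hd0, hxd, hdm]
          · rw [g2, he0, hxe, hem]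
        rw [this, hlst]
        exact List.mem_cons_of_mem _ (List.mem_map.mpr ⟨x, hx, rfl⟩)
      · -- primitivity
        intro m hm
        rintro ⟨p1, p2, p3, p4, p5, p6⟩
        -- the inverse unit
        have hst : ∀ z : ℤ × ℤ, elp q (mulE E (conjE E ε) (mulE E (mulE E ε z) (conjE E m))) =
            elp q (mulE E z (conjE E m)) := by
          intro z
          rw [elp_mul h, elp_mul h, elp_mul h, elp_mul h, elp_conj h]
          have : star (elp q ε) * elp q ε = 1 := by
            rw [Complex.star_def, ← Complex.normSq_eq_conj_mul_self, hεn]; simp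
          linear_combination (elp q z * elp q (conjE E m)) * this
        have hdiv : ∀ z : ℤ × ℤ, nfE E m ∣ (mulE E (mulE E ε z) (conjE E m)).1 →
            nfE E m ∣ (mulE E (mulE E ε z) (conjE E m)).2 →
            nfE E m ∣ (mulE E z (conjE E m)).1 ∧ nfE E m ∣ (mulE E z (conjE E m)).2 := by
          intro z ha hb
          rw [← elp_inj (hst z)]
          rw [mulE_fst, mulE_snd (E := E) (conjE E ε)]
          constructor
          · exact dvd_sub (Dvd.dvd.mul_left ha _) (Dvd.dvd.mul_left (Dvd.dvd.mul_left hb _) _)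
          · exact dvd_add (dvd_add (Dvd.dvd.mul_left hb _) (Dvd.dvd.mul_left ha _))
              (Dvd.dvd.mul_left (Dvd.dvd.mul_left hb _) _)
        obtain ⟨q1, q2⟩ := hdiv c0 p1 p2
        obtain ⟨q3, q4⟩ := hdiv d0 p3 p4
        obtain ⟨q5, q6⟩ := hdiv e0 p5 p6
        exact row_primitive h γ hc0 hd0 he0 (hMs m hm) ⟨q1, q2, q3, q4, q5, q6⟩
      · -- height above h
        rw [← hk]
        rw [div_lt_div_iff₀ hhd hjp] at hh
        nlinarith
  rw [hcs, hsum, hlst, List.map_cons, List.sum_cons, List.map_map]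
  congr 1
  · rw [hFcl, one_smul]
    rw [hy, height_PsiE]
  · congr 1
    apply List.map_congr_left
    intro x hx
    show F (cl (gam q x)) = _
    rw [hFcl]
    obtain ⟨g0, g1, g2⟩ := gam_spec h (hLok x hx)
    rw [(height_row h (gam q x) g0 g1 g2 (hcne x hx) hy).2.2]
    rfl

end

end Pool.Agent.Lib.H56.Gen
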