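import Pool.Agent.Lib.H56.Picard.AnalysisA

/-!
# The weighted cusp inequality (chunk A, by helper92): the radial part
-/

open MeasureTheory Set Real intervalIntegral Function
open scoped ENNReal

namespace Pool.Agent.Lib.H56.Gen

open Picard

lemma lint_Ioc' {a b : ℝ} (hab : a ≤ b) {φ : ℝ → ℝ} (hc : ContinuousOn φ (Icc a b))
    (h0 : ∀ x ∈ Ioc a b, 0 ≤ φ x) :
    ∫⁻ x in Ioc a b, ENNReal.ofReal (φ x) = ENNReal.ofReal (∫ x in a..b, φ x) := by
  rw [intervalIntegral.integral_of_le hab]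
  refine (ofReal_integral_eq_lintegral_ofReal ?_ ?_).symm
  · exact (hc.integrableOn_compact isCompact_Icc).mono_set Ioc_subset_Icc_self
  · exact (ae_restrict_iff' measurableSet_Ioc).2 (Filter.Eventually.of_forall fun x hx => h0 x hx)

/-- one dimensional weighted inequality on `(h,∞)` -/
lemma radialW {h M : ℝ} (hh : 0 < h) {g g' : ℝ → ℝ} (hg : ∀ u, h < u → HasDerivAt g (g' u) u)
    (cg : Continuous g) (cg' : Continuous g') {w c V B B' : ℝ → ℝ}
    (cw : ContinuousOn w (Ici h)) (hw : ∀ u, h ≤ u → 0 < w u)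
    (cc : ContinuousOn c (Ici h)) (hc0 : ∀ u, h ≤ u → 0 ≤ c u)
    (hV0 : ∀ u, h < u → 0 ≤ V u)
    (hB : ∀ u, h < u → HasDerivAt B (B' u) u) (cB : ContinuousOn B (Ici h))
    (cB' : ContinuousOn B' (Ici h)) (hBh : B h ≤ 0) (hM : ∀ u, h ≤ u → |B u| ≤ M * u⁻¹ ^ 2)
    (hV : ∀ u, h < u → u⁻¹ ^ 3 * V u ≤ u⁻¹ ^ 3 * (w u * c u) - B' u - B u ^ 2 * (u / w u))
    (hfin : ∫⁻ u in Ioi h, ENNReal.ofReal (u⁻¹ ^ 3 * g u ^ 2) < ∞) :
    ∫⁻ u in Ioi h, ENNReal.ofReal (u⁻¹ ^ 3 * (V u * g u ^ 2)) ≤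
      ∫⁻ u in Ioi h, ENNReal.ofReal (u⁻¹ ^ 3 * (w u * (u ^ 2 * g' u ^ 2 + c u * g u ^ 2))) := by
  have hinv : ContinuousOn (fun u : ℝ => u⁻¹) (Ici h) := fun u hu =>
    (continuousAt_inv₀ (hh.trans_le (show h ≤ u from hu)).ne').continuousWithinAt
  set ρ : ℝ → ℝ := fun u => u⁻¹ ^ 3 * (w u * c u) - B' u - B u ^ 2 * (u / w u) with hρ
  have cρ : ContinuousOn ρ (Ici h) :=
    (((hinv.pow 3).mul (cw.mul cc)).sub cB').sub
      ((cB.pow 2).mul (continuousOn_id.div cw fun u hu => (hw u hu).ne'))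
  have cρg : ContinuousOn (fun u => ρ u * g u ^ 2) (Ici h) := cρ.mul (cg.continuousOn.pow 2)
  have cR : ContinuousOn (fun u : ℝ => u⁻¹ ^ 3 * (w u * (u ^ 2 * g' u ^ 2 + c u * g u ^ 2)))
      (Ici h) :=
    (hinv.pow 3).mul (cw.mul (((continuousOn_id.pow 2).mul (cg'.continuousOn.pow 2)).add
      (cc.mul (cg.continuousOn.pow 2))))
  have cBg : ContinuousOn (fun u => B u * g u ^ 2) (Ici h) := cB.mul (cg.continuousOn.pow 2)
  have cBg' : ContinuousOn (fun u => B' u * g u ^ 2 + B u * (2 * g u * g' u)) (Ici h) :=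
    (cB'.mul (cg.continuousOn.pow 2)).add
      (cB.mul ((continuousOn_const.mul cg.continuousOn).mul cg'.continuousOn))
  have hρ0 : ∀ u, h < u → 0 ≤ ρ u * g u ^ 2 := fun u hu => by
    have h1 := hV u hu
    have h2 := hV0 u hu
    have hu0 : 0 < u := hh.trans hu
    have h3 : 0 ≤ u⁻¹ ^ 3 * V u := by positivity
    exact mul_nonneg (h3.trans h1) (sq_nonneg _)
  have hR0' : ∀ u, h < u → 0 ≤ u⁻¹ ^ 3 * (w u * (u ^ 2 * g' u ^ 2 + c u * g u ^ 2)) := fun u hu => by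
    have h2 := hw u hu.le
    have h3 := hc0 u hu.le
    have hu0 : 0 < u := hh.trans hu
    positivity
  have key : ∀ R, h ≤ R → ∫ u in h..R, ρ u * g u ^ 2 ≤
      (∫ u in h..R, u⁻¹ ^ 3 * (w u * (u ^ 2 * g' u ^ 2 + c u * g u ^ 2))) +
        |M| * (R⁻¹ ^ 2 * g R ^ 2) := by
    intro R hR
    have hsub : Icc h R ⊆ Ici h := Icc_subset_Ici_self
    have iI : ∀ {φ : ℝ → ℝ}, ContinuousOn φ (Ici h) → IntervalIntegrable φ volume h R :=
      fun hφ => ContinuousOn.intervalIntegrable (by rw [uIcc_of_le hR]; exact hφ.mono hsub)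
    have e1 : ∫ u in h..R, (B' u * g u ^ 2 + B u * (2 * g u * g' u)) =
        B R * g R ^ 2 - B h * g h ^ 2 := by
      refine intervalIntegral.integral_eq_sub_of_hasDerivAt_of_le hR (cBg.mono hsub)
        (fun u hu => ?_) (iI cBg')
      have d := (hB u hu.1).mul ((hg u hu.1).pow 2)
      refine HasDerivAt.congr_deriv d ?_
      simp
    have h1 : (∫ u in h..R, ρ u * g u ^ 2) +
        (∫ u in h..R, (B' u * g u ^ 2 + B u * (2 * g u * g' u))) ≤
        ∫ u in h..R, u⁻¹ ^ 3 * (w u * (u ^ 2 * g' u ^ 2 + c u * g u ^ 2)) := by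
      rw [← intervalIntegral.integral_add (iI cρg) (iI cBg')]
      refine intervalIntegral.integral_mono_on hR (iI (cρg.add cBg')) (iI cR) fun u hu => ?_
      have hu0 : 0 < u := hh.trans_le hu.1
      have hwu := hw u hu.1
      have e2 : u⁻¹ ^ 3 * (w u * (u ^ 2 * g' u ^ 2 + c u * g u ^ 2)) -
          (ρ u * g u ^ 2 + (B' u * g u ^ 2 + B u * (2 * g u * g' u))) =
          (w u / u) * (g' u - (B u * (u / w u)) * g u) ^ 2 := by
        simp only [hρ]
        field_simp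
        ring
      have h3 : 0 ≤ (w u / u) * (g' u - (B u * (u / w u)) * g u) ^ 2 := by positivity
      linarith
    rw [e1] at h1
    have h2 : 0 ≤ -(B h * g h ^ 2) := by nlinarith [sq_nonneg (g h)]
    have h3 : -(|M| * (R⁻¹ ^ 2 * g R ^ 2)) ≤ B R * g R ^ 2 := by
      have h4 := (abs_le.1 (hM R hR)).1
      have h5 : M * R⁻¹ ^ 2 ≤ |M| * R⁻¹ ^ 2 := mul_le_mul_of_nonneg_right (le_abs_self M) (by positivity)
      have h6 : -(|M| * R⁻¹ ^ 2) ≤ B R := by linarith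
      have h7 := mul_le_mul_of_nonneg_right h6 (sq_nonneg (g R))
      linarith
    linarith
  have small : ∀ ε : ℝ, 0 < ε → ∀ R0 : ℝ, h ≤ R0 → ∃ R, R0 ≤ R ∧ |M| * (R⁻¹ ^ 2 * g R ^ 2) ≤ ε := by
    intro ε hε R0 hR0
    by_contra hcon
    push Not at hcon
    have hMpos : 0 < |M| := by
      by_contra hneg
      have h0 : |M| = 0 := le_antisymm (not_lt.1 hneg) (abs_nonneg _)
      have := hcon R0 le_rfl
      rw [h0, zero_mul] at this
      linarith
    have hlow : ∀ u, R0 ≤ u → ε / |M| * u⁻¹ ≤ u⁻¹ ^ 3 * g u ^ 2 := by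
      intro u hu
      have hu1 : 0 < u := hh.trans_le (hR0.trans hu)
      have hw0 : 0 < u⁻¹ := by positivity
      have h1 := (hcon u hu).le
      have h2 : ε / |M| ≤ u⁻¹ ^ 2 * g u ^ 2 := by
        rw [div_le_iff₀ hMpos]; linarith
      calc ε / |M| * u⁻¹ ≤ (u⁻¹ ^ 2 * g u ^ 2) * u⁻¹ := mul_le_mul_of_nonneg_right h2 hw0.le
        _ = _ := by ring
    have hint : IntegrableOn (fun u : ℝ => ε / |M| * u⁻¹) (Ioi R0) := by
      refine ⟨(measurable_inv.const_mul _).aestronglyMeasurable, ?_⟩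
      rw [hasFiniteIntegral_iff_ofReal]
      · refine lt_of_le_of_lt ?_ hfin
        calc ∫⁻ u in Ioi R0, ENNReal.ofReal (ε / |M| * u⁻¹)
            ≤ ∫⁻ u in Ioi R0, ENNReal.ofReal (u⁻¹ ^ 3 * g u ^ 2) := by
              refine setLIntegral_mono' measurableSet_Ioi fun u hu => ?_
              exact ENNReal.ofReal_le_ofReal (hlow u (le_of_lt hu))
          _ ≤ _ := lintegral_mono_set (Ioi_subset_Ioi hR0)
      · refine (ae_restrict_iff' measurableSet_Ioi).2 (Filter.Eventually.of_forall fun u hu => ?_)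
        have : (0:ℝ) < u := by have : R0 < u := hu; linarith
        show 0 ≤ ε / |M| * u⁻¹
        positivity
    have hint2 : IntegrableOn (fun u : ℝ => u⁻¹) (Ioi R0) := by
      have := hint.const_mul (|M| / ε)
      refine IntegrableOn.congr_fun (f := fun u => |M| / ε * (ε / |M| * u⁻¹)) this
        (fun u _ => ?_) measurableSet_Ioi
      show |M| / ε * (ε / |M| * u⁻¹) = u⁻¹
      field_simp
    exact not_integrableOn_Ioi_inv hint2
  -- bound for finite intervals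
  have bd : ∀ N : ℕ, ∫⁻ u in Ioc h (h + N), ENNReal.ofReal (u⁻¹ ^ 3 * (V u * g u ^ 2)) ≤
      ∫⁻ u in Ioi h, ENNReal.ofReal (u⁻¹ ^ 3 * (w u * (u ^ 2 * g' u ^ 2 + c u * g u ^ 2))) := by
    intro N
    refine ENNReal.le_of_forall_pos_le_add fun ε hε _ => ?_
    have hN0 : (0:ℝ) ≤ N := Nat.cast_nonneg N
    obtain ⟨R, hR0, hR⟩ := small ε (by exact_mod_cast hε) (h + N) (by linarith)
    have hR1 : h ≤ R := by linarith
    calc ∫⁻ u in Ioc h (h + N), ENNReal.ofReal (u⁻¹ ^ 3 * (V u * g u ^ 2))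
        ≤ ∫⁻ u in Ioc h R, ENNReal.ofReal (u⁻¹ ^ 3 * (V u * g u ^ 2)) :=
          lintegral_mono_set (Ioc_subset_Ioc_right hR0)
      _ ≤ ∫⁻ u in Ioc h R, ENNReal.ofReal (ρ u * g u ^ 2) := by
          refine setLIntegral_mono' measurableSet_Ioc fun u hu => ENNReal.ofReal_le_ofReal ?_
          have := mul_le_mul_of_nonneg_right (hV u hu.1) (sq_nonneg (g u))
          rw [← mul_assoc]
          exact this
      _ = ENNReal.ofReal (∫ u in h..R, ρ u * g u ^ 2) :=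
          lint_Ioc' hR1 (cρg.mono Icc_subset_Ici_self) (fun u hu => hρ0 u hu.1)
      _ ≤ ENNReal.ofReal ((∫ u in h..R, u⁻¹ ^ 3 * (w u * (u ^ 2 * g' u ^ 2 + c u * g u ^ 2))) +
            |M| * (R⁻¹ ^ 2 * g R ^ 2)) :=
          ENNReal.ofReal_le_ofReal (key R hR1)
      _ ≤ ENNReal.ofReal (∫ u in h..R, u⁻¹ ^ 3 * (w u * (u ^ 2 * g' u ^ 2 + c u * g u ^ 2))) +
          ENNReal.ofReal (|M| * (R⁻¹ ^ 2 * g R ^ 2)) := ENNReal.ofReal_add_le
      _ ≤ (∫⁻ u in Ioi h, ENNReal.ofReal (u⁻¹ ^ 3 * (w u * (u ^ 2 * g' u ^ 2 + c u * g u ^ 2)))) +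
          ENNReal.ofReal ε := by
          gcongr
          rw [← lint_Ioc' hR1 (cR.mono Icc_subset_Ici_self) (fun u hu => hR0' u hu.1)]
          exact lintegral_mono_set Ioc_subset_Ioi_self
      _ = _ := by rw [ENNReal.ofReal_coe_nnreal]
  have hU : Ioi h = ⋃ N : ℕ, Ioc h (h + N) := by
    ext u
    simp only [mem_Ioi, mem_iUnion, mem_Ioc]
    constructor
    · intro hu
      obtain ⟨N, hN⟩ := exists_nat_ge (u - h)
      exact ⟨N, hu, by linarith⟩
    · rintro ⟨N, hN, _⟩; exact hN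
  have hdir : Directed (· ⊆ ·) fun N : ℕ => Ioc h (h + N) := by
    refine Monotone.directed_le fun N N' hNN => ?_
    refine Ioc_subset_Ioc_right ?_
    have : (N:ℝ) ≤ N' := by exact_mod_cast hNN
    linarith
  conv_lhs => rw [hU, setLIntegral_iUnion_of_directed _ hdir]
  exact iSup_le bd

end Pool.Agent.Lib.H56.Gen
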