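import Pool.Agent.Lib.H56.Picard.AnalysisA

/-!
# The weighted cusp inequality (chunk A, by helper92): Fourier parts
-/

open MeasureTheory Set Real intervalIntegral Function
open scoped ENNReal ComplexConjugate

namespace Pool.Agent.Lib.H56.Gen

open Picard

/-- the conjugate exponential -/
noncomputable def ec (P : ℝ) (k : ℤ) (x : ℝ) : ℂ :=
  Complex.exp (-((2 * π * k / P * x : ℝ) : ℂ) * Complex.I)

/-- Fourier coefficient on `[0,P]` -/
noncomputable def co (P : ℝ) (k : ℤ) (f : ℝ → ℂ) : ℂ :=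
  (P : ℂ)⁻¹ * ∫ x in (0:ℝ)..P, ec P k x * f x

lemma ec_zero (P : ℝ) (k : ℤ) : ec P k 0 = 1 := by simp [ec]

lemma ec_end {P : ℝ} (hP : 0 < P) (k : ℤ) : ec P k P = 1 := by
  unfold ec
  have : (2 * π * k / P * P : ℝ) = 2 * π * k := by field_simp
  rw [this]
  have h2 : -((2 * π * k : ℝ) : ℂ) * Complex.I = ((-k : ℤ) : ℂ) * (2 * π * Complex.I) := by
    push_cast; ring
  rw [h2, Complex.exp_int_mul_two_pi_mul_I]

lemma ec_norm (P : ℝ) (k : ℤ) (x : ℝ) : ‖ec P k x‖ = 1 := by
  unfold ec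
  rw [← Complex.ofReal_neg, Complex.norm_exp_ofReal_mul_I]

@[fun_prop]
lemma ec_cont (P : ℝ) (k : ℤ) : Continuous (ec P k) := by
  unfold ec; fun_prop

lemma ec_deriv (P : ℝ) (k : ℤ) (x : ℝ) :
    HasDerivAt (ec P k) (-((2 * π * k / P : ℝ) : ℂ) * Complex.I * ec P k x) x := by
  unfold ec
  have h1 : HasDerivAt (fun x : ℝ => -((2 * π * k / P * x : ℝ) : ℂ) * Complex.I)
      (-((2 * π * k / P : ℝ) : ℂ) * Complex.I) x := by
    have h2 : HasDerivAt (fun x : ℝ => 2 * π * k / P * x) (2 * π * k / P) x := by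
      simpa using (hasDerivAt_id x).const_mul (2 * π * k / P)
    exact (h2.ofReal_comp.neg).mul_const _
  refine HasDerivAt.congr_deriv h1.cexp ?_
  ring

lemma ec_add (P : ℝ) (k : ℤ) (x y : ℝ) : ec P k (x + y) = ec P k x * ec P k y := by
  unfold ec
  rw [← Complex.exp_add]
  congr 1
  push_cast; ring

lemma co_eq {P : ℝ} (hP : 0 < P) (f : ℝ → ℂ) (k : ℤ) : fourierCoeffOn hP f k = co P k f := by
  rw [fourierCoeffOn_eq_integral]
  unfold co
  have h1 : ∀ x : ℝ, (fourier (-k) (x : AddCircle (P - 0)) : ℂ) • f x = ec P k x * f x := by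
    intro x
    rw [fourier_coe_apply, smul_eq_mul]
    congr 1
    unfold ec
    congr 1
    push_cast
    ring
  simp only [h1, sub_zero]
  rw [Complex.real_smul]
  push_cast
  rw [one_div]

lemma co_parseval {P : ℝ} (hP : 0 < P) {f : ℝ → ℂ} (cf : Continuous f) :
    HasSum (fun k : ℤ => P * ‖co P k f‖ ^ 2) (∫ x in (0:ℝ)..P, ‖f x‖ ^ 2) := by
  have hL : MemLp f 2 (volume.restrict (Ioc 0 P)) := by
    obtain ⟨C, hC⟩ := (isCompact_Icc (a := (0:ℝ)) (b := P)).exists_bound_of_continuousOn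
      cf.continuousOn
    exact MemLp.of_bound cf.aestronglyMeasurable C
      ((ae_restrict_iff' measurableSet_Ioc).2
        (Filter.Eventually.of_forall fun x hx => hC x (Ioc_subset_Icc_self hx)))
  have h1 := (hasSum_sq_fourierCoeffOn hP hL).mul_left P
  simp only [sub_zero, smul_eq_mul, co_eq hP] at h1
  rwa [← mul_assoc, mul_inv_cancel₀ hP.ne', one_mul] at h1

lemma co_parseval' {P : ℝ} (hP : 0 < P) {f : ℝ → ℂ} (cf : Continuous f) :
    ENNReal.ofReal (∫ x in (0:ℝ)..P, ‖f x‖ ^ 2) =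
      ∑' k : ℤ, ENNReal.ofReal (P * ‖co P k f‖ ^ 2) := by
  have h := co_parseval hP cf
  rw [← h.tsum_eq]
  exact ENNReal.ofReal_tsum_of_nonneg (fun k => by positivity) h.summable

lemma co_add {P : ℝ} (k : ℤ) {f g : ℝ → ℂ} (cf : Continuous f) (cg : Continuous g) :
    co P k (fun x => f x + g x) = co P k f + co P k g := by
  unfold co
  rw [← mul_add, ← intervalIntegral.integral_add]
  · congr 2; ext x; ring
  · exact Continuous.intervalIntegrable (by fun_prop) _ _
  · exact Continuous.intervalIntegrable (by fun_prop) _ _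

lemma co_mul {P : ℝ} (k : ℤ) (f : ℝ → ℂ) (c : ℂ) :
    co P k (fun x => c * f x) = c * co P k f := by
  unfold co
  have h1 : ∀ x, ec P k x * (c * f x) = c * (ec P k x * f x) := fun x => by ring
  simp only [h1]
  rw [intervalIntegral.integral_const_mul]
  ring

lemma co_zero_idx {P : ℝ} (f : ℝ → ℂ) : co P 0 f = (P : ℂ)⁻¹ * ∫ x in (0:ℝ)..P, f x := by
  unfold co
  have : ∀ x, ec P 0 x = 1 := fun x => by simp [ec]
  simp [this]

/-- Fourier coefficients of the derivative -/
lemma co_deriv {P : ℝ} (hP : 0 < P) (k : ℤ) {f f' : ℝ → ℂ} (hf : ∀ x, HasDerivAt f (f' x) x)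
    (cf' : Continuous f') (per : f P = f 0) :
    co P k f' = ((2 * π * k / P : ℝ) : ℂ) * Complex.I * co P k f := by
  have cf : Continuous f := continuous_iff_continuousAt.2 fun x => (hf x).continuousAt
  have h1 : ∫ x in (0:ℝ)..P, (-((2 * π * k / P : ℝ) : ℂ) * Complex.I * ec P k x * f x +
      ec P k x * f' x) = 0 := by
    rw [intervalIntegral.integral_eq_sub_of_hasDerivAt (f := fun x => ec P k x * f x)
      (fun x _ => (ec_deriv P k x).mul (hf x))
      (Continuous.intervalIntegrable (by fun_prop) _ _), ec_end hP, ec_zero, per, sub_self]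
  rw [intervalIntegral.integral_add] at h1
  · unfold co
    have h2 : ∫ x in (0:ℝ)..P, -((2 * π * k / P : ℝ) : ℂ) * Complex.I * ec P k x * f x =
        -((2 * π * k / P : ℝ) : ℂ) * Complex.I * ∫ x in (0:ℝ)..P, ec P k x * f x := by
      rw [← intervalIntegral.integral_const_mul]
      congr 1; ext x; ring
    rw [h2] at h1
    have h3 : ∫ x in (0:ℝ)..P, ec P k x * f' x =
        ((2 * π * k / P : ℝ) : ℂ) * Complex.I * ∫ x in (0:ℝ)..P, ec P k x * f x := by
      linear_combination h1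
    rw [h3]; ring
  · exact Continuous.intervalIntegrable (by fun_prop) _ _
  · exact Continuous.intervalIntegrable (by fun_prop) _ _

lemma co_const {P : ℝ} (hP : 0 < P) {k : ℤ} (hk : k ≠ 0) (c : ℂ) :
    co P k (fun _ => c) = 0 := by
  have h := co_deriv hP k (f := fun _ => c) (f' := fun _ => 0) (fun x => hasDerivAt_const x c)
    continuous_const rfl
  have h0 : co P k (fun _ => (0:ℂ)) = 0 := by simp [co]
  rw [h0] at h
  have h1 : ((2 * π * k / P : ℝ) : ℂ) * Complex.I ≠ 0 := by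
    have : (2 * π * k / P : ℝ) ≠ 0 := by
      have : (k:ℝ) ≠ 0 := by exact_mod_cast hk
      positivity
    exact mul_ne_zero (by exact_mod_cast this) Complex.I_ne_zero
  exact (mul_eq_zero.1 h.symm).resolve_left h1

/-- continuity of coefficients in parameters -/
lemma co_continuous {X : Type*} [TopologicalSpace X] {P : ℝ} (k : ℤ) {f : X → ℝ → ℂ}
    (cf : Continuous (uncurry f)) : Continuous fun x => co P k (f x) := by
  unfold co
  refine continuous_const.mul
    (intervalIntegral.continuous_parametric_intervalIntegral_of_continuous'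
      (f := fun x v => ec P k v * f x v) ?_ 0 P)
  exact ((ec_cont P k).comp continuous_snd).mul cf

/-- derivative under the integral sign, continuous complex case -/
lemma hasDerivAt_intC {P : ℝ} {f f' : ℝ → ℝ → ℂ}
    (hf : ∀ x v, HasDerivAt (fun x => f x v) (f' x v) x)
    (cf : Continuous (uncurry f)) (cf' : Continuous (uncurry f')) (x0 : ℝ) :
    HasDerivAt (fun x => ∫ v in (0:ℝ)..P, f x v) (∫ v in (0:ℝ)..P, f' x0 v) x0 := by
  obtain ⟨C, hC⟩ := ((isCompact_closedBall x0 1).prod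
    (isCompact_uIcc (a := (0:ℝ)) (b := P))).exists_bound_of_continuousOn
      (f := uncurry f') cf'.continuousOn
  have hfx : ∀ x, Continuous (f x) := fun x => cf.comp (Continuous.prodMk_right x)
  have hfx' : ∀ x, Continuous (f' x) := fun x => cf'.comp (Continuous.prodMk_right x)
  refine (intervalIntegral.hasDerivAt_integral_of_dominated_loc_of_deriv_le
    (s := Metric.ball x0 1) (bound := fun _ => C) (Metric.ball_mem_nhds x0 one_pos)
    (Filter.Eventually.of_forall fun x => (hfx x).aestronglyMeasurable)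
    ((hfx x0).intervalIntegrable _ _) (hfx' x0).aestronglyMeasurable
    (Filter.Eventually.of_forall fun t ht x hxs => ?_)
    (continuous_const.intervalIntegrable _ _)
    (Filter.Eventually.of_forall fun t ht x hxs => hf x t)).2
  exact hC (x, t) ⟨Metric.ball_subset_closedBall hxs, uIoc_subset_uIcc ht⟩

lemma co_hasDerivAt {P : ℝ} (k : ℤ) {f f' : ℝ → ℝ → ℂ}
    (hf : ∀ x v, HasDerivAt (fun x => f x v) (f' x v) x)
    (cf : Continuous (uncurry f)) (cf' : Continuous (uncurry f')) (x0 : ℝ) :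
    HasDerivAt (fun x => co P k (f x)) (co P k (f' x0)) x0 := by
  unfold co
  refine (hasDerivAt_intC (P := P) (f := fun x v => ec P k v * f x v)
    (f' := fun x v => ec P k v * f' x v) (fun x v => (hf x v).const_mul _) ?_ ?_ x0).const_mul _
  · exact ((ec_cont P k).comp continuous_snd).mul cf
  · exact ((ec_cont P k).comp continuous_snd).mul cf'

/-- Parseval in one variable, `lintegral` form -/
lemma pars1 {P : ℝ} (hP : 0 < P) {f : ℝ → ℂ} (cf : Continuous f) :
    ∫⁻ x in Icc (0:ℝ) P, ENNReal.ofReal (‖f x‖ ^ 2) =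
      ∑' k : ℤ, ENNReal.ofReal (P * ‖co P k f‖ ^ 2) := by
  rw [lint_Icc hP.le (by fun_prop) (fun x _ => by positivity), co_parseval' hP cf]

/-- Parseval with one parameter -/
lemma pars2 {P : ℝ} (hP : 0 < P) {f : ℝ → ℝ → ℂ} (cf : Continuous (uncurry f)) :
    ∫⁻ s in Icc (0:ℝ) 1, ∫⁻ x in Icc (0:ℝ) P, ENNReal.ofReal (‖f s x‖ ^ 2) =
      ∑' k : ℤ, ∫⁻ s in Icc (0:ℝ) 1, ENNReal.ofReal (P * ‖co P k (f s)‖ ^ 2) := by
  rw [← lintegral_tsum]
  · refine lintegral_congr fun s => ?_
    exact pars1 hP (cf.comp (Continuous.prodMk_right s))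
  · intro k
    have h1 := co_continuous (P := P) k cf
    exact (by fun_prop : Continuous fun s => P * ‖co P k (f s)‖ ^ 2).measurable.ennreal_ofReal.aemeasurable

/-- Parseval with two parameters -/
lemma pars3 {P : ℝ} (hP : 0 < P) {f : ℝ → ℝ → ℝ → ℂ}
    (cf : Continuous fun p : (ℝ × ℝ) × ℝ => f p.1.1 p.1.2 p.2) :
    ∫⁻ s in Icc (0:ℝ) 1, ∫⁻ t in Icc (0:ℝ) 1, ∫⁻ x in Icc (0:ℝ) P,
      ENNReal.ofReal (‖f s t x‖ ^ 2) =
      ∑' k : ℤ, ∫⁻ s in Icc (0:ℝ) 1, ∫⁻ t in Icc (0:ℝ) 1,
        ENNReal.ofReal (P * ‖co P k (f s t)‖ ^ 2) := by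
  have h1 : ∀ k, Continuous fun p : ℝ × ℝ => co P k (f p.1 p.2) := fun k =>
    co_continuous (X := ℝ × ℝ) (P := P) k (f := fun p => f p.1 p.2) cf
  have h2 : ∀ k, Measurable fun p : ℝ × ℝ => ENNReal.ofReal (P * ‖co P k (f p.1 p.2)‖ ^ 2) :=
    fun k => by
      have := h1 k
      exact (by fun_prop : Continuous fun p : ℝ × ℝ =>
        P * ‖co P k (f p.1 p.2)‖ ^ 2).measurable.ennreal_ofReal
  rw [← lintegral_tsum]
  · refine lintegral_congr fun s => ?_
    rw [← lintegral_tsum]
    · refine lintegral_congr fun t => ?_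
      exact pars1 hP (cf.comp (by fun_prop : Continuous fun x : ℝ => ((s, t), x)))
    · intro k
      exact ((h2 k).comp measurable_prodMk_left).aemeasurable
  · intro k
    exact (h2 k).lintegral_prod_right'.aemeasurable

end Pool.Agent.Lib.H56.Gen
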