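import Pool.Agent.Lib.H56.Gen.CuspWM

/-!
# The weighted cusp inequality (chunk A, by helper92): the oscillating part (Landau levels)
-/

open MeasureTheory Set Real intervalIntegral Function
open scoped ENNReal ComplexConjugate

namespace Pool.Agent.Lib.H56.Gen

open Picard

lemma HasDerivAt.re' {f : ℝ → ℂ} {f' : ℂ} {x : ℝ} (h : HasDerivAt f f' x) :
    HasDerivAt (fun x => (f x).re) f'.re x :=
  (Complex.reCLM.hasFDerivAt (x := f x)).comp_hasDerivAt x h

lemma HasDerivAt.im' {f : ℝ → ℂ} {f' : ℂ} {x : ℝ} (h : HasDerivAt f f' x) :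
    HasDerivAt (fun x => (f x).im) f'.im x :=
  (Complex.imCLM.hasFDerivAt (x := f x)).comp_hasDerivAt x h

lemma swap2 {G : ℝ → ℝ → ℝ} (hG : Continuous (uncurry G)) :
    ∫ s in (0:ℝ)..1, ∫ t in (0:ℝ)..1, G s t = ∫ t in (0:ℝ)..1, ∫ s in (0:ℝ)..1, G s t := by
  refine intervalIntegral_intervalIntegral_swap ?_
  exact (hG.continuousOn.integrableOn_compact
    (isCompact_uIcc.prod isCompact_uIcc)).mono_set
      (prod_mono uIoc_subset_uIcc uIoc_subset_uIcc)

lemma cI2 {G : ℝ → ℝ → ℝ} (hG : Continuous (uncurry G)) :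
    Continuous (fun s => ∫ t in (0:ℝ)..1, G s t) :=
  intervalIntegral.continuous_parametric_intervalIntegral_of_continuous' hG 0 1

lemma int2_add {G H : ℝ → ℝ → ℝ} (hG : Continuous (uncurry G)) (hH : Continuous (uncurry H)) :
    ∫ s in (0:ℝ)..1, ∫ t in (0:ℝ)..1, (G s t + H s t) =
      (∫ s in (0:ℝ)..1, ∫ t in (0:ℝ)..1, G s t) + ∫ s in (0:ℝ)..1, ∫ t in (0:ℝ)..1, H s t := by
  rw [← intervalIntegral.integral_add ((cI2 hG).intervalIntegrable _ _)
    ((cI2 hH).intervalIntegrable _ _)]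
  congr 1; ext s
  exact intervalIntegral.integral_add
    ((hG.comp (Continuous.prodMk_right s)).intervalIntegrable _ _)
    ((hH.comp (Continuous.prodMk_right s)).intervalIntegrable _ _)

lemma int2_mul (c : ℝ) (G : ℝ → ℝ → ℝ) :
    ∫ s in (0:ℝ)..1, ∫ t in (0:ℝ)..1, c * G s t =
      c * ∫ s in (0:ℝ)..1, ∫ t in (0:ℝ)..1, G s t := by
  simp only [intervalIntegral.integral_const_mul]

lemma int2_mono {G H : ℝ → ℝ → ℝ} (hG : Continuous (uncurry G)) (hH : Continuous (uncurry H))
    (h : ∀ s t, G s t ≤ H s t) :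
    ∫ s in (0:ℝ)..1, ∫ t in (0:ℝ)..1, G s t ≤ ∫ s in (0:ℝ)..1, ∫ t in (0:ℝ)..1, H s t := by
  refine intervalIntegral.integral_mono_on zero_le_one ((cI2 hG).intervalIntegrable _ _)
    ((cI2 hH).intervalIntegrable _ _) fun s _ => ?_
  exact intervalIntegral.integral_mono_on zero_le_one
    ((hG.comp (Continuous.prodMk_right s)).intervalIntegrable _ _)
    ((hH.comp (Continuous.prodMk_right s)).intervalIntegrable _ _) fun t _ => h s t

/-- integration by parts identity behind the Landau levels -/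
lemma landau_id {b : ℝ} {g gs gt gst : ℝ → ℝ → ℂ}
    (hs : ∀ s t, HasDerivAt (fun s => g s t) (gs s t) s)
    (ht : ∀ s t, HasDerivAt (fun t => g s t) (gt s t) t)
    (hst : ∀ s t, HasDerivAt (fun t => gs s t) (gst s t) t)
    (hts : ∀ s t, HasDerivAt (fun s => gt s t) (gst s t) s)
    (cg : Continuous (uncurry g)) (cgs : Continuous (uncurry gs))
    (cgt : Continuous (uncurry gt)) (cgst : Continuous (uncurry gst))
    (bs : ∀ t, (g 1 t * conj (gt 1 t)).im + b * Complex.normSq (g 1 t) =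
      (g 0 t * conj (gt 0 t)).im)
    (bt : ∀ s, (g s 1 * conj (gs s 1)).im - b * Complex.normSq (g s 1) =
      (g s 0 * conj (gs s 0)).im) :
    ∫ s in (0:ℝ)..1, ∫ t in (0:ℝ)..1,
      ((gs s t + ((b * t : ℝ) : ℂ) * Complex.I * g s t) *
        conj (gt s t - ((b * s : ℝ) : ℂ) * Complex.I * g s t)).im =
      -b * ∫ s in (0:ℝ)..1, ∫ t in (0:ℝ)..1, ‖g s t‖ ^ 2 := by
  have cg' : Continuous fun p : ℝ × ℝ => g p.1 p.2 := cg
  have cgs' : Continuous fun p : ℝ × ℝ => gs p.1 p.2 := cgs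
  have cgt' : Continuous fun p : ℝ × ℝ => gt p.1 p.2 := cgt
  have cgst' : Continuous fun p : ℝ × ℝ => gst p.1 p.2 := cgst
  set K1 : ℝ → ℝ → ℝ := fun s t => (g s t).im * (gt s t).re - (g s t).re * (gt s t).im +
    b * s * ((g s t).re ^ 2 + (g s t).im ^ 2) with hK1
  set K2 : ℝ → ℝ → ℝ := fun s t => (g s t).im * (gs s t).re - (g s t).re * (gs s t).im -
    b * t * ((g s t).re ^ 2 + (g s t).im ^ 2) with hK2
  set D1 : ℝ → ℝ → ℝ := fun s t => (gs s t).im * (gt s t).re + (g s t).im * (gst s t).re -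
    ((gs s t).re * (gt s t).im + (g s t).re * (gst s t).im) +
    (b * ((g s t).re ^ 2 + (g s t).im ^ 2) +
      b * s * (2 * (g s t).re * (gs s t).re + 2 * (g s t).im * (gs s t).im)) with hD1
  set D2 : ℝ → ℝ → ℝ := fun s t => (gt s t).im * (gs s t).re + (g s t).im * (gst s t).re -
    ((gt s t).re * (gs s t).im + (g s t).re * (gst s t).im) -
    (b * ((g s t).re ^ 2 + (g s t).im ^ 2) +
      b * t * (2 * (g s t).re * (gt s t).re + 2 * (g s t).im * (gt s t).im)) with hD2
  have dK1 : ∀ s t, HasDerivAt (fun s => K1 s t) (D1 s t) s := by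
    intro s t
    have e1 := HasDerivAt.re' (hs s t)
    have e2 := HasDerivAt.im' (hs s t)
    have e3 := HasDerivAt.re' (hts s t)
    have e4 := HasDerivAt.im' (hts s t)
    have e5 : HasDerivAt (fun s : ℝ => b * s) b s := by
      simpa using (hasDerivAt_id s).const_mul b
    refine HasDerivAt.congr_deriv (((e2.mul e3).sub (e1.mul e4)).add
      (e5.mul ((e1.pow 2).add (e2.pow 2)))) ?_
    simp only [hD1]
    ring
  have dK2 : ∀ s t, HasDerivAt (fun t => K2 s t) (D2 s t) t := by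
    intro s t
    have e1 := HasDerivAt.re' (ht s t)
    have e2 := HasDerivAt.im' (ht s t)
    have e3 := HasDerivAt.re' (hst s t)
    have e4 := HasDerivAt.im' (hst s t)
    have e5 : HasDerivAt (fun t : ℝ => b * t) b t := by
      simpa using (hasDerivAt_id t).const_mul b
    refine HasDerivAt.congr_deriv (((e2.mul e3).sub (e1.mul e4)).sub
      (e5.mul ((e1.pow 2).add (e2.pow 2)))) ?_
    simp only [hD2]
    ring
  have cre : ∀ {G : ℝ → ℝ → ℂ}, Continuous (fun p : ℝ × ℝ => G p.1 p.2) →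
      Continuous (fun p : ℝ × ℝ => (G p.1 p.2).re) := fun h => Complex.continuous_re.comp h
  have cim : ∀ {G : ℝ → ℝ → ℂ}, Continuous (fun p : ℝ × ℝ => G p.1 p.2) →
      Continuous (fun p : ℝ × ℝ => (G p.1 p.2).im) := fun h => Complex.continuous_im.comp h
  have r1 := cre cg'
  have r2 := cre cgs'
  have r3 := cre cgt'
  have r4 := cre cgst'
  have i1 := cim cg'
  have i2 := cim cgs'
  have i3 := cim cgt'
  have i4 := cim cgst'
  have cD1 : Continuous (uncurry D1) := by
    simp only [hD1]; unfold uncurry; fun_prop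
  have cD2 : Continuous (uncurry D2) := by
    simp only [hD2]; unfold uncurry; fun_prop
  have cN : Continuous (uncurry fun s t => ‖g s t‖ ^ 2) := by unfold uncurry; fun_prop
  have I1 : ∫ s in (0:ℝ)..1, ∫ t in (0:ℝ)..1, D1 s t = 0 := by
    rw [swap2 cD1]
    have : ∀ t, ∫ s in (0:ℝ)..1, D1 s t = 0 := by
      intro t
      rw [intervalIntegral.integral_eq_sub_of_hasDerivAt (f := fun s => K1 s t)
        (fun s _ => dK1 s t)
        ((cD1.comp (Continuous.prodMk_left t)).intervalIntegrable _ _)]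
      have h := bs t
      simp only [Complex.normSq_apply, Complex.mul_im, Complex.conj_re, Complex.conj_im] at h
      simp only [hK1]
      linarith
    simp [this]
  have I2 : ∫ s in (0:ℝ)..1, ∫ t in (0:ℝ)..1, D2 s t = 0 := by
    have : ∀ s, ∫ t in (0:ℝ)..1, D2 s t = 0 := by
      intro s
      rw [intervalIntegral.integral_eq_sub_of_hasDerivAt (f := fun t => K2 s t)
        (fun t _ => dK2 s t)
        ((cD2.comp (Continuous.prodMk_right s)).intervalIntegrable _ _)]
      have h := bt s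
      simp only [Complex.normSq_apply, Complex.mul_im, Complex.conj_re, Complex.conj_im] at h
      simp only [hK2]
      linarith
    simp [this]
  have e : ∀ s t, ((gs s t + ((b * t : ℝ) : ℂ) * Complex.I * g s t) *
        conj (gt s t - ((b * s : ℝ) : ℂ) * Complex.I * g s t)).im =
      (2⁻¹ * D1 s t + (-2⁻¹) * D2 s t) + (-b) * ‖g s t‖ ^ 2 := by
    intro s t
    rw [← Complex.normSq_eq_norm_sq, Complex.normSq_apply]
    simp only [hD1, hD2, Complex.mul_im, Complex.mul_re, Complex.add_re, Complex.add_im,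
      Complex.sub_re, Complex.sub_im, Complex.conj_re, Complex.conj_im, Complex.ofReal_re,
      Complex.ofReal_im, Complex.I_re, Complex.I_im]
    ring
  simp only [e]
  have c1 : Continuous (uncurry fun s t => 2⁻¹ * D1 s t) := continuous_const.mul cD1
  have c2 : Continuous (uncurry fun s t => (-2⁻¹) * D2 s t) := continuous_const.mul cD2
  have c3 : Continuous (uncurry fun s t => (-b) * ‖g s t‖ ^ 2) := continuous_const.mul cN
  have c12 : Continuous (uncurry fun s t => 2⁻¹ * D1 s t + (-2⁻¹) * D2 s t) := c1.add c2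
  rw [int2_add c12 c3, int2_add c1 c2, int2_mul, int2_mul, int2_mul, I1, I2]
  ring

lemma landau_bound {κ a α0 γ0 A1 c' D : ℝ} (hA1 : 0 < A1) (hD0 : 0 ≤ D)
    (hD : D ^ 2 = 4 * A1 * c') (c : ℝ)
    {g gs gt gst : ℝ → ℝ → ℂ}
    (hs : ∀ s t, HasDerivAt (fun s => g s t) (gs s t) s)
    (ht : ∀ s t, HasDerivAt (fun t => g s t) (gt s t) t)
    (hst : ∀ s t, HasDerivAt (fun t => gs s t) (gst s t) t)
    (hts : ∀ s t, HasDerivAt (fun s => gt s t) (gst s t) s)
    (cg : Continuous (uncurry g)) (cgs : Continuous (uncurry gs))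
    (cgt : Continuous (uncurry gt)) (cgst : Continuous (uncurry gst))
    (ps : ∀ t, g 1 t = Complex.exp (-((κ * (α0 - a * t) : ℝ) : ℂ) * Complex.I) * g 0 t)
    (pt : ∀ s, g s 1 = Complex.exp (-((κ * (γ0 + a * s) : ℝ) : ℂ) * Complex.I) * g s 0) :
    D * |a * κ| * ∫ s in (0:ℝ)..1, ∫ t in (0:ℝ)..1, ‖g s t‖ ^ 2 ≤
      ∫ s in (0:ℝ)..1, ∫ t in (0:ℝ)..1,
        (A1 * ‖(gs s t + ((a * κ * t : ℝ) : ℂ) * Complex.I * g s t) +
          (c : ℂ) * (gt s t - ((a * κ * s : ℝ) : ℂ) * Complex.I * g s t)‖ ^ 2 +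
        c' * ‖gt s t - ((a * κ * s : ℝ) : ℂ) * Complex.I * g s t‖ ^ 2) := by
  have cg' : Continuous fun p : ℝ × ℝ => g p.1 p.2 := cg
  have cgs' : Continuous fun p : ℝ × ℝ => gs p.1 p.2 := cgs
  have cgt' : Continuous fun p : ℝ × ℝ => gt p.1 p.2 := cgt
  have en : ∀ x : ℝ, ‖Complex.exp (-((x : ℝ) : ℂ) * Complex.I)‖ = 1 := fun x => by
    rw [← Complex.ofReal_neg, Complex.norm_exp_ofReal_mul_I]
  have ecc : ∀ x : ℝ, Complex.exp (-((x : ℝ) : ℂ) * Complex.I) *
      conj (Complex.exp (-((x : ℝ) : ℂ) * Complex.I)) = 1 := fun x => by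
    rw [Complex.mul_conj, Complex.normSq_eq_norm_sq, en]; simp
  have id := landau_id (b := a * κ) hs ht hst hts cg cgs cgt cgst (fun t => by
      set E := Complex.exp (-((κ * (α0 - a * t) : ℝ) : ℂ) * Complex.I) with hE
      have dE : HasDerivAt (fun t : ℝ => Complex.exp (-((κ * (α0 - a * t) : ℝ) : ℂ) * Complex.I))
          (((a * κ : ℝ) : ℂ) * Complex.I * E) t := by
        have h1 : HasDerivAt (fun t : ℝ => κ * (α0 - a * t)) (-(a * κ)) t := by
          have := (((hasDerivAt_id t).const_mul a).const_sub α0).const_mul κ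
          refine HasDerivAt.congr_deriv this ?_
          ring
        have h2 : HasDerivAt (fun t : ℝ => -((κ * (α0 - a * t) : ℝ) : ℂ) * Complex.I)
            (-((-(a * κ) : ℝ) : ℂ) * Complex.I) t := h1.ofReal_comp.neg.mul_const Complex.I
        refine HasDerivAt.congr_deriv h2.cexp ?_
        rw [hE]; push_cast; ring
      have hgt : gt 1 t = ((a * κ : ℝ) : ℂ) * Complex.I * E * g 0 t + E * gt 0 t := by
        have h1 := ht 1 t
        have h2 := dE.mul (ht 0 t)
        have h3 : (fun t => g 1 t) = fun t =>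
            Complex.exp (-((κ * (α0 - a * t) : ℝ) : ℂ) * Complex.I) * g 0 t := by
          ext t; exact ps t
        rw [h3] at h1
        exact h1.unique h2
      have e1 : g 1 t * conj (gt 1 t) =
          (E * conj E) * (g 0 t * conj (gt 0 t) - ((a * κ : ℝ) : ℂ) * Complex.I *
            (g 0 t * conj (g 0 t))) := by
        rw [hgt, ps t, ← hE]
        simp only [map_add, map_mul, Complex.conj_I, Complex.conj_ofReal]
        ring
      have e2 : Complex.normSq (g 1 t) = Complex.normSq (g 0 t) := by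
        rw [ps t, Complex.normSq_mul, Complex.normSq_eq_norm_sq, en]; simp
      rw [e1, e2, hE, ecc, one_mul, Complex.mul_conj, Complex.sub_im]
      simp only [Complex.mul_im, Complex.mul_re, Complex.ofReal_re, Complex.ofReal_im,
        Complex.I_re, Complex.I_im]
      ring) (fun s => by
      set E := Complex.exp (-((κ * (γ0 + a * s) : ℝ) : ℂ) * Complex.I) with hE
      have dE : HasDerivAt (fun s : ℝ => Complex.exp (-((κ * (γ0 + a * s) : ℝ) : ℂ) * Complex.I))
          (-((a * κ : ℝ) : ℂ) * Complex.I * E) s := by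
        have h1 : HasDerivAt (fun s : ℝ => κ * (γ0 + a * s)) (a * κ) s := by
          have := (((hasDerivAt_id s).const_mul a).const_add γ0).const_mul κ
          refine HasDerivAt.congr_deriv this ?_
          ring
        have h2 : HasDerivAt (fun s : ℝ => -((κ * (γ0 + a * s) : ℝ) : ℂ) * Complex.I)
            (-((a * κ : ℝ) : ℂ) * Complex.I) s := h1.ofReal_comp.neg.mul_const Complex.I
        refine HasDerivAt.congr_deriv h2.cexp ?_
        rw [hE]; push_cast; ring
      have hgs : gs s 1 = -((a * κ : ℝ) : ℂ) * Complex.I * E * g s 0 + E * gs s 0 := by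
        have h1 := hs s 1
        have h2 := dE.mul (hs s 0)
        have h3 : (fun s => g s 1) = fun s =>
            Complex.exp (-((κ * (γ0 + a * s) : ℝ) : ℂ) * Complex.I) * g s 0 := by
          ext s; exact pt s
        rw [h3] at h1
        exact h1.unique h2
      have e1 : g s 1 * conj (gs s 1) =
          (E * conj E) * (g s 0 * conj (gs s 0) + ((a * κ : ℝ) : ℂ) * Complex.I *
            (g s 0 * conj (g s 0))) := by
        rw [hgs, pt s, ← hE]
        simp only [map_add, map_mul, map_neg, Complex.conj_I, Complex.conj_ofReal]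
        ring
      have e2 : Complex.normSq (g s 1) = Complex.normSq (g s 0) := by
        rw [pt s, Complex.normSq_mul, Complex.normSq_eq_norm_sq, en]; simp
      rw [e1, e2, hE, ecc, one_mul, Complex.mul_conj, Complex.add_im]
      simp only [Complex.mul_im, Complex.mul_re, Complex.ofReal_re, Complex.ofReal_im,
        Complex.I_re, Complex.I_im]
      ring)
  set X : ℝ → ℝ → ℂ := fun s t => gs s t + ((a * κ * t : ℝ) : ℂ) * Complex.I * g s t with hX
  set Y : ℝ → ℝ → ℂ := fun s t => gt s t - ((a * κ * s : ℝ) : ℂ) * Complex.I * g s t with hY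
  have cX : Continuous fun p : ℝ × ℝ => X p.1 p.2 := by simp only [hX]; fun_prop
  have cY : Continuous fun p : ℝ × ℝ => Y p.1 p.2 := by simp only [hY]; fun_prop
  -- pointwise bound
  have pw : ∀ (σ : ℝ), |σ| = 1 → ∀ s t, (σ * D) * (X s t * conj (Y s t)).im ≤
      A1 * ‖X s t + (c : ℂ) * Y s t‖ ^ 2 + c' * ‖Y s t‖ ^ 2 := by
    intro σ hσ s t
    set z := X s t + (c : ℂ) * Y s t with hz
    have h0 : ∀ x y : ℂ, (x * conj y).im = ((x + (c : ℂ) * y) * conj y).im := fun x y => by
      rw [add_mul, mul_assoc, Complex.mul_conj, Complex.add_im]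
      simp
    have h1 : (X s t * conj (Y s t)).im = (z * conj (Y s t)).im := h0 _ _
    rw [h1]
    have h2 : |(z * conj (Y s t)).im| ≤ ‖z‖ * ‖Y s t‖ := by
      refine (Complex.abs_im_le_norm _).trans ?_
      rw [norm_mul, RCLike.norm_conj]
    have h3 : (σ * D) * (z * conj (Y s t)).im ≤ D * (‖z‖ * ‖Y s t‖) := by
      calc (σ * D) * (z * conj (Y s t)).im ≤ |(σ * D) * (z * conj (Y s t)).im| := le_abs_self _
        _ = D * |(z * conj (Y s t)).im| := by
          rw [abs_mul, abs_mul, hσ, one_mul, abs_of_nonneg hD0]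
        _ ≤ _ := mul_le_mul_of_nonneg_left h2 hD0
    refine h3.trans ?_
    have hn1 := norm_nonneg z
    have hn2 := norm_nonneg (Y s t)
    -- A1 z² + c' y² ≥ D z y
    have h4 : 0 ≤ (2 * A1 * ‖z‖ - D * ‖Y s t‖) ^ 2 := sq_nonneg _
    have h5 : 4 * A1 * (A1 * ‖z‖ ^ 2 + c' * ‖Y s t‖ ^ 2 - D * (‖z‖ * ‖Y s t‖)) =
        (2 * A1 * ‖z‖ - D * ‖Y s t‖) ^ 2 := by
      have : (D * ‖Y s t‖) ^ 2 = 4 * A1 * c' * ‖Y s t‖ ^ 2 := by rw [mul_pow, hD]
      nlinarith [this]
    have h6 : 0 ≤ 4 * A1 * (A1 * ‖z‖ ^ 2 + c' * ‖Y s t‖ ^ 2 - D * (‖z‖ * ‖Y s t‖)) := by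
      rw [h5]; exact h4
    have h7 := nonneg_of_mul_nonneg_right h6 (by positivity)
    linarith
  have cQ : Continuous (uncurry fun s t => A1 * ‖X s t + (c : ℂ) * Y s t‖ ^ 2 +
      c' * ‖Y s t‖ ^ 2) := by unfold uncurry; fun_prop
  have cIm : ∀ r : ℝ, Continuous (uncurry fun s t => r * (X s t * conj (Y s t)).im) := by
    intro r
    have : Continuous fun p : ℝ × ℝ => (X p.1 p.2 * conj (Y p.1 p.2)).im :=
      Complex.continuous_im.comp (cX.mul (Complex.continuous_conj.comp cY))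
    exact continuous_const.mul this
  obtain ⟨σ, hσ, hσ2⟩ : ∃ σ : ℝ, |σ| = 1 ∧ σ * (-(a * κ)) = |a * κ| := by
    rcases le_total 0 (a * κ) with h | h
    · exact ⟨-1, by simp, by rw [abs_of_nonneg h]; ring⟩
    · exact ⟨1, by simp, by rw [abs_of_nonpos h]; ring⟩
  have h8 := int2_mono (cIm (σ * D)) cQ (pw σ hσ)
  rw [int2_mul, id] at h8
  refine le_trans (le_of_eq ?_) h8
  rw [← hσ2]; ring

end Pool.Agent.Lib.H56.Gen
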