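import Pool.Agent.Lib.H56.Gen.CuspWF

/-!
# The weighted cusp inequality (chunk A, by helper92): the mean part (double Parseval)
-/

open MeasureTheory Set Real intervalIntegral Function
open scoped ENNReal ComplexConjugate

namespace Pool.Agent.Lib.H56.Gen

open Picard

lemma quad_sq {A1 A2 A3 : ℝ} (hA1 : 0 < A1) (x y : ℝ) :
    A1 * x ^ 2 + A2 * x * y + A3 * y ^ 2 =
      A1 * (x + A2 / (2 * A1) * y) ^ 2 + (A3 - A2 ^ 2 / (4 * A1)) * y ^ 2 := by
  field_simp; ring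

lemma quad_pos {A1 A2 A3 : ℝ} (hA1 : 0 < A1) (hA : A2 ^ 2 < 4 * A1 * A3) :
    0 < A3 - A2 ^ 2 / (4 * A1) := by
  rw [sub_pos, div_lt_iff₀ (by positivity)]; linarith

/-- double Parseval -/
lemma dpars {φ : ℝ → ℝ → ℂ} (cφ : Continuous (uncurry φ)) :
    ∫⁻ s in Icc (0:ℝ) 1, ∫⁻ t in Icc (0:ℝ) 1, ENNReal.ofReal (‖φ s t‖ ^ 2) =
      ∑' j : ℤ, ∑' i : ℤ, ENNReal.ofReal (‖co 1 i (fun s => co 1 j (φ s))‖ ^ 2) := by
  rw [pars2 one_pos cφ]
  refine tsum_congr fun j => ?_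
  have h1 := pars1 one_pos (co_continuous (P := 1) j cφ)
  simp only [one_mul] at h1 ⊢
  exact h1

lemma mean_part {A1 A2 A3 k0 : ℝ} (hA1 : 0 < A1) (hA : A2 ^ 2 < 4 * A1 * A3) (hk0 : 0 ≤ k0)
    (hk : ∀ i j : ℤ, (i ≠ 0 ∨ j ≠ 0) → k0 ≤ A1 * i ^ 2 + A2 * i * j + A3 * j ^ 2)
    {m ms mt : ℝ → ℝ → ℝ}
    (hs : ∀ s t, HasDerivAt (fun s => m s t) (ms s t) s)
    (ht : ∀ s t, HasDerivAt (fun t => m s t) (mt s t) t)
    (cm : Continuous (uncurry m)) (cms : Continuous (uncurry ms)) (cmt : Continuous (uncurry mt))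
    (ps : ∀ s t, m (s + 1) t = m s t) (pt : ∀ s t, m s (t + 1) = m s t)
    (h0 : ∫ s in (0:ℝ)..1, ∫ t in (0:ℝ)..1, m s t = 0) :
    ∫⁻ s in Icc (0:ℝ) 1, ∫⁻ t in Icc (0:ℝ) 1, ENNReal.ofReal (4 * π ^ 2 * k0 * m s t ^ 2) ≤
      ∫⁻ s in Icc (0:ℝ) 1, ∫⁻ t in Icc (0:ℝ) 1,
        ENNReal.ofReal (A1 * ms s t ^ 2 + A2 * ms s t * mt s t + A3 * mt s t ^ 2) := by
  set c : ℝ := A2 / (2 * A1) with hc
  set c' : ℝ := A3 - A2 ^ 2 / (4 * A1) with hc'
  have hc'0 : 0 < c' := quad_pos hA1 hA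
  have cm' : Continuous fun p : ℝ × ℝ => m p.1 p.2 := cm
  have cms' : Continuous fun p : ℝ × ℝ => ms p.1 p.2 := cms
  have cmt' : Continuous fun p : ℝ × ℝ => mt p.1 p.2 := cmt
  -- complex versions
  have dM : Continuous (uncurry fun s t => (m s t : ℂ)) := by unfold uncurry; fun_prop
  have dMS : Continuous (uncurry fun s t => (ms s t : ℂ)) := by unfold uncurry; fun_prop
  have dMT : Continuous (uncurry fun s t => (mt s t : ℂ)) := by unfold uncurry; fun_prop
  have dZ : Continuous (uncurry fun s t => ((ms s t + c * mt s t : ℝ) : ℂ)) := by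
    unfold uncurry; fun_prop
  set M : ℤ → ℤ → ℂ := fun i j => co 1 i (fun s => co 1 j fun t => (m s t : ℂ)) with hM
  have eMT : ∀ i j, co 1 i (fun s => co 1 j fun t => (mt s t : ℂ)) =
      ((2 * π * j : ℝ) : ℂ) * Complex.I * M i j := by
    intro i j
    have h1 : ∀ s, (co 1 j fun t => (mt s t : ℂ)) =
        ((2 * π * j : ℝ) : ℂ) * Complex.I * co 1 j fun t => (m s t : ℂ) := by
      intro s
      have := co_deriv one_pos j (f := fun t => (m s t : ℂ)) (f' := fun t => (mt s t : ℂ))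
        (fun t => (ht s t).ofReal_comp) (dMT.comp (Continuous.prodMk_right s))
        (by have := pt s 0; simp only [zero_add] at this; simp [this])
      rw [this, div_one]
    simp only [h1]
    rw [co_mul]
  have eMS : ∀ i j, co 1 i (fun s => co 1 j fun t => (ms s t : ℂ)) =
      ((2 * π * i : ℝ) : ℂ) * Complex.I * M i j := by
    intro i j
    have h1 := co_deriv one_pos i (f := fun s => co 1 j fun t => (m s t : ℂ))
      (f' := fun s => co 1 j fun t => (ms s t : ℂ))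
      (fun s => co_hasDerivAt j (f := fun s t => (m s t : ℂ)) (f' := fun s t => (ms s t : ℂ))
        (fun s t => (hs s t).ofReal_comp) dM dMS s)
      (co_continuous j dMS)
      (by
        have : ∀ t, m 1 t = m 0 t := fun t => by simpa using ps 0 t
        simp only [this])
    rw [h1, div_one]
  have eZ : ∀ i j, co 1 i (fun s => co 1 j fun t => ((ms s t + c * mt s t : ℝ) : ℂ)) =
      ((2 * π * (i + c * j) : ℝ) : ℂ) * Complex.I * M i j := by
    intro i j
    have h1 : ∀ s, (co 1 j fun t => ((ms s t + c * mt s t : ℝ) : ℂ)) =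
        (co 1 j fun t => (ms s t : ℂ)) + (c : ℂ) * co 1 j fun t => (mt s t : ℂ) := by
      intro s
      rw [← co_mul, ← co_add]
      · congr 1; ext t; push_cast; ring
      · exact dMS.comp (Continuous.prodMk_right s)
      · exact continuous_const.mul (dMT.comp (Continuous.prodMk_right s))
    simp only [h1]
    rw [co_add (f := fun s => co 1 j fun t => (ms s t : ℂ))
      (g := fun s => (c : ℂ) * co 1 j fun t => (mt s t : ℂ)) i (co_continuous j dMS)
      (continuous_const.mul (co_continuous j dMT)), co_mul, eMS, eMT]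
    push_cast; ring
  -- the zero coefficient vanishes
  have M00 : M 0 0 = 0 := by
    simp only [hM, co_zero_idx, Complex.ofReal_one, inv_one, one_mul]
    simp only [intervalIntegral.integral_ofReal]
    rw [h0]; simp
  -- the three double series
  have pM := dpars dM
  have pZ := dpars dZ
  have pT := dpars dMT
  simp only [eZ] at pZ
  simp only [eMT] at pT
  have en : ∀ x : ℝ, ‖(x : ℂ)‖ ^ 2 = x ^ 2 := fun x => by
    rw [Complex.norm_real, Real.norm_eq_abs, sq_abs]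
  simp only [en] at pM pZ pT
  -- left side
  have L1 : ∫⁻ s in Icc (0:ℝ) 1, ∫⁻ t in Icc (0:ℝ) 1, ENNReal.ofReal (4 * π ^ 2 * k0 * m s t ^ 2) =
      ENNReal.ofReal (4 * π ^ 2 * k0) *
        ∫⁻ s in Icc (0:ℝ) 1, ∫⁻ t in Icc (0:ℝ) 1, ENNReal.ofReal (m s t ^ 2) := by
    rw [← lintegral_const_mul' _ _ ENNReal.ofReal_ne_top]
    refine lintegral_congr fun s => ?_
    rw [← lintegral_const_mul' _ _ ENNReal.ofReal_ne_top]
    refine lintegral_congr fun t => ?_
    rw [ENNReal.ofReal_mul (by positivity)]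
  have mZ : Measurable fun p : ℝ × ℝ => ENNReal.ofReal (A1 * (ms p.1 p.2 + c * mt p.1 p.2) ^ 2) := by
    exact (by fun_prop : Continuous fun p : ℝ × ℝ =>
      A1 * (ms p.1 p.2 + c * mt p.1 p.2) ^ 2).measurable.ennreal_ofReal
  have R1 : ∫⁻ s in Icc (0:ℝ) 1, ∫⁻ t in Icc (0:ℝ) 1,
        ENNReal.ofReal (A1 * ms s t ^ 2 + A2 * ms s t * mt s t + A3 * mt s t ^ 2) =
      ENNReal.ofReal A1 * (∫⁻ s in Icc (0:ℝ) 1, ∫⁻ t in Icc (0:ℝ) 1,
        ENNReal.ofReal ((ms s t + c * mt s t) ^ 2)) +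
      ENNReal.ofReal c' * ∫⁻ s in Icc (0:ℝ) 1, ∫⁻ t in Icc (0:ℝ) 1,
        ENNReal.ofReal (mt s t ^ 2) := by
    rw [← lintegral_const_mul' _ _ ENNReal.ofReal_ne_top,
      ← lintegral_const_mul' _ _ ENNReal.ofReal_ne_top, ← lintegral_add_left]
    · refine lintegral_congr fun s => ?_
      rw [← lintegral_const_mul' _ _ ENNReal.ofReal_ne_top,
        ← lintegral_const_mul' _ _ ENNReal.ofReal_ne_top, ← lintegral_add_left]
      · refine lintegral_congr fun t => ?_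
        rw [← ENNReal.ofReal_mul hA1.le, ← ENNReal.ofReal_mul hc'0.le,
          ← ENNReal.ofReal_add (by positivity) (by positivity), quad_sq hA1]
      · simp only [← ENNReal.ofReal_mul hA1.le]
        exact mZ.comp measurable_prodMk_left
    · have h1 : ∀ s, ENNReal.ofReal A1 * ∫⁻ t in Icc (0:ℝ) 1,
          ENNReal.ofReal ((ms s t + c * mt s t) ^ 2) =
          ∫⁻ t in Icc (0:ℝ) 1, ENNReal.ofReal (A1 * (ms s t + c * mt s t) ^ 2) := by
        intro s
        rw [← lintegral_const_mul' _ _ ENNReal.ofReal_ne_top]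
        simp only [← ENNReal.ofReal_mul hA1.le]
      simp only [h1]
      exact mZ.lintegral_prod_right'
  rw [L1, R1, pM, pZ, pT, ← ENNReal.tsum_mul_left, ← ENNReal.tsum_mul_left,
    ← ENNReal.tsum_mul_left, ← ENNReal.tsum_add]
  refine ENNReal.tsum_le_tsum fun j => ?_
  rw [← ENNReal.tsum_mul_left, ← ENNReal.tsum_mul_left, ← ENNReal.tsum_mul_left,
    ← ENNReal.tsum_add]
  refine ENNReal.tsum_le_tsum fun i => ?_
  rw [← ENNReal.ofReal_mul (by positivity), ← ENNReal.ofReal_mul hA1.le,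
    ← ENNReal.ofReal_mul hc'0.le, ← ENNReal.ofReal_add (by positivity) (by positivity)]
  refine ENNReal.ofReal_le_ofReal ?_
  rw [norm_mul, norm_mul, norm_mul, norm_mul, Complex.norm_I, mul_one, mul_one, mul_pow, mul_pow,
    en, en]
  have hgoal : k0 * ‖M i j‖ ^ 2 ≤ (A1 * i ^ 2 + A2 * i * j + A3 * j ^ 2) * ‖M i j‖ ^ 2 := by
    by_cases hij : i ≠ 0 ∨ j ≠ 0
    · exact mul_le_mul_of_nonneg_right (hk i j hij) (by positivity)
    · push Not at hij
      rw [hij.1, hij.2, M00]; simp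
  have e1 := quad_sq (A2 := A2) (A3 := A3) hA1 (i:ℝ) (j:ℝ)
  rw [← hc, ← hc'] at e1
  rw [e1] at hgoal
  have hpi : 0 < 4 * π ^ 2 := by positivity
  have h2 := mul_le_mul_of_nonneg_left hgoal hpi.le
  calc 4 * π ^ 2 * k0 * ‖M i j‖ ^ 2 = 4 * π ^ 2 * (k0 * ‖M i j‖ ^ 2) := by ring
    _ ≤ _ := h2
    _ = _ := by ring

end Pool.Agent.Lib.H56.Gen
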