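import Pool.Agent.Lib.H56.Gen.CuspWL
import Pool.Agent.Lib.H56.Picard.Analysis

/-!
# The weighted cusp inequality (chunk A, by helper92): the oscillating part, summed over modes
-/

open MeasureTheory Set Real intervalIntegral Function
open scoped ENNReal ComplexConjugate

namespace Pool.Agent.Lib.H56.Gen

open Picard

lemma co_shift {P : ℝ} (hP : 0 < P) (k : ℤ) {F : ℝ → ℂ} (per : ∀ v, F (v + P) = F v) (c : ℝ) :
    co P k (fun v => F (v + c)) = ec P k (-c) * co P k F := by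
  unfold co
  have h1 : ∀ v, ec P k v * F (v + c) = ec P k (-c) * (ec P k (v + c) * F (v + c)) := by
    intro v
    rw [← mul_assoc, ← ec_add]
    congr 2; ring
  simp only [h1]
  rw [intervalIntegral.integral_const_mul,
    intervalIntegral.integral_comp_add_right (fun v => ec P k v * F v)]
  have hper : Function.Periodic (fun v => ec P k v * F v) P := fun v => by
    show ec P k (v + P) * F (v + P) = ec P k v * F v
    rw [ec_add, ec_end hP, mul_one, per]
  have h2 : ∫ x in (0 + c)..(P + c), ec P k x * F x = ∫ x in (0:ℝ)..P, ec P k x * F x := by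
    have := hper.intervalIntegral_add_eq c 0
    rw [zero_add, add_comm P c]
    simpa using this
  rw [h2]
  ring

lemma co_qper {P : ℝ} (hP : 0 < P) (k : ℤ) {F G : ℝ → ℂ} (per : ∀ v, G (v + P) = G v) {c : ℝ}
    (h : ∀ v, G (v + c) = F v) : co P k G = ec P k c * co P k F := by
  have h1 := co_shift hP k per c
  simp only [h] at h1
  rw [h1, ← mul_assoc, ← ec_add, add_neg_cancel, ec_zero, one_mul]

lemma co_sub_const {P : ℝ} (hP : 0 < P) {k : ℤ} (hk : k ≠ 0) {f : ℝ → ℂ} (cf : Continuous f)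
    (c : ℂ) : co P k (fun x => f x - c) = co P k f := by
  have h := co_add (P := P) k (f := fun x => f x - c) (g := fun _ => c) (by fun_prop) (by fun_prop)
  rw [co_const hP hk, add_zero] at h
  rw [← h]
  congr 1; ext x; ring

lemma ofReal_mul_lint2 {c : ℝ} (hc : 0 ≤ c) {f : ℝ → ℝ → ℝ} (cf : Continuous (uncurry f))
    (h0 : ∀ s t, 0 ≤ f s t) :
    ENNReal.ofReal c * ∫⁻ s in Icc (0:ℝ) 1, ∫⁻ t in Icc (0:ℝ) 1, ENNReal.ofReal (f s t) =
      ENNReal.ofReal (c * ∫ s in (0:ℝ)..1, ∫ t in (0:ℝ)..1, f s t) := by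
  rw [lint2 cf h0, ENNReal.ofReal_mul hc]

/-- The oscillating part: summing the Landau bounds of all Fourier modes. -/
lemma osc_part {P a A1 A2 A3 L α0 γ0 : ℝ} (hP : 0 < P) (hA1 : 0 < A1)
    (hA : A2 ^ 2 < 4 * A1 * A3) (hL0 : 0 ≤ L) (hL : L ^ 2 ≤ a ^ 2 * (4 * A1 * A3 - A2 ^ 2))
    {f fs ft fv fst : ℝ → ℝ → ℝ → ℝ}
    (hs : ∀ s t v, HasDerivAt (fun s => f s t v) (fs s t v) s)
    (ht : ∀ s t v, HasDerivAt (fun t => f s t v) (ft s t v) t)
    (hv : ∀ s t v, HasDerivAt (fun v => f s t v) (fv s t v) v)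
    (hst : ∀ s t v, HasDerivAt (fun t => fs s t v) (fst s t v) t)
    (hts : ∀ s t v, HasDerivAt (fun s => ft s t v) (fst s t v) s)
    (cf : Continuous fun p : (ℝ × ℝ) × ℝ => f p.1.1 p.1.2 p.2)
    (cfs : Continuous fun p : (ℝ × ℝ) × ℝ => fs p.1.1 p.1.2 p.2)
    (cft : Continuous fun p : (ℝ × ℝ) × ℝ => ft p.1.1 p.1.2 p.2)
    (cfv : Continuous fun p : (ℝ × ℝ) × ℝ => fv p.1.1 p.1.2 p.2)
    (cfst : Continuous fun p : (ℝ × ℝ) × ℝ => fst p.1.1 p.1.2 p.2)
    (pv : ∀ s t v, f s t (v + P) = f s t v)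
    (ps : ∀ s t v, f (s + 1) t (v + (α0 - a * t)) = f s t v)
    (pt : ∀ s t v, f s (t + 1) (v + (γ0 + a * s)) = f s t v)
    {m mz mt : ℝ → ℝ → ℝ} (cm : Continuous (uncurry m)) (cmz : Continuous (uncurry mz))
    (cmt : Continuous (uncurry mt))
    (em : ∀ s t, m s t = P⁻¹ * ∫ v in (0:ℝ)..P, f s t v) :
    ENNReal.ofReal (L * (2 * π / P)) * ∫⁻ s in Icc (0:ℝ) 1, ∫⁻ t in Icc (0:ℝ) 1,
        ∫⁻ v in Icc (0:ℝ) P, ENNReal.ofReal ((f s t v - m s t) ^ 2) ≤
      ENNReal.ofReal A1 * (∫⁻ s in Icc (0:ℝ) 1, ∫⁻ t in Icc (0:ℝ) 1, ∫⁻ v in Icc (0:ℝ) P,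
        ENNReal.ofReal (((fs s t v + a * t * fv s t v) +
          A2 / (2 * A1) * (ft s t v - a * s * fv s t v) - mz s t) ^ 2)) +
      ENNReal.ofReal (A3 - A2 ^ 2 / (4 * A1)) * (∫⁻ s in Icc (0:ℝ) 1, ∫⁻ t in Icc (0:ℝ) 1,
        ∫⁻ v in Icc (0:ℝ) P,
        ENNReal.ofReal ((ft s t v - a * s * fv s t v - mt s t) ^ 2)) := by
  set c : ℝ := A2 / (2 * A1) with hc
  set c' : ℝ := A3 - A2 ^ 2 / (4 * A1) with hc'
  have hc'0 : 0 < c' := quad_pos hA1 hA
  have cm1 : Continuous fun p : ℝ × ℝ => m p.1 p.2 := cm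
  have cmz1 : Continuous fun p : ℝ × ℝ => mz p.1 p.2 := cmz
  have cmt1 : Continuous fun p : ℝ × ℝ => mt p.1 p.2 := cmt
  have cm' : Continuous fun p : (ℝ × ℝ) × ℝ => m p.1.1 p.1.2 := cm1.comp continuous_fst
  have cmz' : Continuous fun p : (ℝ × ℝ) × ℝ => mz p.1.1 p.1.2 := cmz1.comp continuous_fst
  have cmt' : Continuous fun p : (ℝ × ℝ) × ℝ => mt p.1.1 p.1.2 := cmt1.comp continuous_fst
  set φ0 : ℝ → ℝ → ℝ → ℂ := fun s t v => ((f s t v - m s t : ℝ) : ℂ) with hφ0
  set φZ : ℝ → ℝ → ℝ → ℂ := fun s t v => (((fs s t v + a * t * fv s t v) +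
          c * (ft s t v - a * s * fv s t v) - mz s t : ℝ) : ℂ) with hφZ
  set φT : ℝ → ℝ → ℝ → ℂ := fun s t v => ((ft s t v - a * s * fv s t v - mt s t : ℝ) : ℂ) with hφT
  have cs1 : Continuous fun p : (ℝ × ℝ) × ℝ => p.1.1 := by fun_prop
  have ct1 : Continuous fun p : (ℝ × ℝ) × ℝ => p.1.2 := by fun_prop
  have c0 : Continuous fun p : (ℝ × ℝ) × ℝ => φ0 p.1.1 p.1.2 p.2 :=
    Complex.continuous_ofReal.comp (cf.sub cm')
  have cT0 : Continuous fun p : (ℝ × ℝ) × ℝ =>
      ft p.1.1 p.1.2 p.2 - a * p.1.1 * fv p.1.1 p.1.2 p.2 :=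
    cft.sub ((continuous_const.mul cs1).mul cfv)
  have cZ : Continuous fun p : (ℝ × ℝ) × ℝ => φZ p.1.1 p.1.2 p.2 :=
    Complex.continuous_ofReal.comp (((cfs.add ((continuous_const.mul ct1).mul cfv)).add
      (continuous_const.mul cT0)).sub cmz')
  have cT : Continuous fun p : (ℝ × ℝ) × ℝ => φT p.1.1 p.1.2 p.2 :=
    Complex.continuous_ofReal.comp (cT0.sub cmt')
  have p0 := pars3 hP c0
  have pZ := pars3 hP cZ
  have pT := pars3 hP cT
  have en : ∀ x : ℝ, ‖(x : ℂ)‖ ^ 2 = x ^ 2 := fun x => by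
    rw [Complex.norm_real, Real.norm_eq_abs, sq_abs]
  have q0 : ∀ s t v, ‖φ0 s t v‖ ^ 2 = (f s t v - m s t) ^ 2 := fun s t v => en _
  have qZ : ∀ s t v, ‖φZ s t v‖ ^ 2 = ((fs s t v + a * t * fv s t v) +
          c * (ft s t v - a * s * fv s t v) - mz s t) ^ 2 := fun s t v => en _
  have qT : ∀ s t v, ‖φT s t v‖ ^ 2 = (ft s t v - a * s * fv s t v - mt s t) ^ 2 :=
    fun s t v => en _
  simp only [q0] at p0
  simp only [qZ] at pZ
  simp only [qT] at pT
  rw [p0, pZ, pT, ← ENNReal.tsum_mul_left, ← ENNReal.tsum_mul_left, ← ENNReal.tsum_mul_left,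
    ← ENNReal.tsum_add]
  refine ENNReal.tsum_le_tsum fun k => ?_
  by_cases hk : k = 0
  · -- the zero mode of `f - m` vanishes
    have h1 : ∀ s t, co P k (φ0 s t) = 0 := by
      intro s t
      rw [hk, co_zero_idx]
      simp only [hφ0]
      have hc0 : Continuous fun v => f s t v :=
        cf.comp (by fun_prop : Continuous fun x : ℝ => ((s, t), x))
      rw [intervalIntegral.integral_ofReal, mean_zero hP hc0 (em s t)]
      simp
    simp only [h1]
    simp
  -- nonzero mode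
  set κ : ℝ := 2 * π * k / P with hκ
  have csl : ∀ {G : ℝ → ℝ → ℝ → ℝ}, Continuous (fun p : (ℝ × ℝ) × ℝ => G p.1.1 p.1.2 p.2) →
      ∀ s t, Continuous (fun v => (G s t v : ℂ)) := fun hG s t =>
    Complex.continuous_ofReal.comp (hG.comp (by fun_prop : Continuous fun x : ℝ => ((s, t), x)))
  set g : ℝ → ℝ → ℂ := fun s t => co P k (fun v => (f s t v : ℂ)) with hg
  set gs : ℝ → ℝ → ℂ := fun s t => co P k (fun v => (fs s t v : ℂ)) with hgs
  set gt : ℝ → ℝ → ℂ := fun s t => co P k (fun v => (ft s t v : ℂ)) with hgt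
  set gst : ℝ → ℝ → ℂ := fun s t => co P k (fun v => (fst s t v : ℂ)) with hgst
  have cco : ∀ {G : ℝ → ℝ → ℝ → ℝ}, Continuous (fun p : (ℝ × ℝ) × ℝ => G p.1.1 p.1.2 p.2) →
      Continuous (uncurry fun s t => co P k (fun v => (G s t v : ℂ))) := fun {G} hG =>
    co_continuous (X := ℝ × ℝ) (P := P) k (f := fun p v => (G p.1 p.2 v : ℂ))
      (Complex.continuous_ofReal.comp hG)
  have cg : Continuous (uncurry g) := cco cf
  have cgs : Continuous (uncurry gs) := cco cfs
  have cgt : Continuous (uncurry gt) := cco cft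
  have cgst : Continuous (uncurry gst) := cco cfst
  have egv : ∀ s t, co P k (fun v => (fv s t v : ℂ)) = (κ : ℂ) * Complex.I * g s t := by
    intro s t
    exact co_deriv hP k (f := fun v => (f s t v : ℂ)) (f' := fun v => (fv s t v : ℂ))
      (fun v => (hv s t v).ofReal_comp) (csl cfv s t)
      (by have := pv s t 0; rw [zero_add] at this; rw [this])
  have slice_s : ∀ {G : ℝ → ℝ → ℝ → ℝ}, Continuous (fun p : (ℝ × ℝ) × ℝ => G p.1.1 p.1.2 p.2) →
      ∀ t, Continuous (uncurry fun s v => (G s t v : ℂ)) := fun hG t =>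
    Complex.continuous_ofReal.comp
      (hG.comp (by fun_prop : Continuous fun x : ℝ × ℝ => ((x.1, t), x.2)))
  have slice_t : ∀ {G : ℝ → ℝ → ℝ → ℝ}, Continuous (fun p : (ℝ × ℝ) × ℝ => G p.1.1 p.1.2 p.2) →
      ∀ s, Continuous (uncurry fun t v => (G s t v : ℂ)) := fun hG s =>
    Complex.continuous_ofReal.comp
      (hG.comp (by fun_prop : Continuous fun x : ℝ × ℝ => ((s, x.1), x.2)))
  have dgs : ∀ s t, HasDerivAt (fun s => g s t) (gs s t) s := fun s t =>
    co_hasDerivAt k (f := fun s v => (f s t v : ℂ)) (f' := fun s v => (fs s t v : ℂ))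
      (fun s v => (hs s t v).ofReal_comp) (slice_s cf t) (slice_s cfs t) s
  have dgt : ∀ s t, HasDerivAt (fun t => g s t) (gt s t) t := fun s t =>
    co_hasDerivAt k (f := fun t v => (f s t v : ℂ)) (f' := fun t v => (ft s t v : ℂ))
      (fun t v => (ht s t v).ofReal_comp) (slice_t cf s) (slice_t cft s) t
  have dgst : ∀ s t, HasDerivAt (fun t => gs s t) (gst s t) t := fun s t =>
    co_hasDerivAt k (f := fun t v => (fs s t v : ℂ)) (f' := fun t v => (fst s t v : ℂ))
      (fun t v => (hst s t v).ofReal_comp) (slice_t cfs s) (slice_t cfst s) t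
  have dgts : ∀ s t, HasDerivAt (fun s => gt s t) (gst s t) s := fun s t =>
    co_hasDerivAt k (f := fun s v => (ft s t v : ℂ)) (f' := fun s v => (fst s t v : ℂ))
      (fun s v => (hts s t v).ofReal_comp) (slice_s cft t) (slice_s cfst t) s
  have qs : ∀ t, g 1 t = Complex.exp (-((κ * (α0 - a * t) : ℝ) : ℂ) * Complex.I) * g 0 t := by
    intro t
    exact co_qper hP k (F := fun v => (f 0 t v : ℂ)) (G := fun v => (f 1 t v : ℂ))
      (fun v => by simp only [pv]) (c := α0 - a * t)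
      (fun v => by
        have := ps 0 t v
        rw [zero_add] at this
        rw [this])
  have qt : ∀ s, g s 1 = Complex.exp (-((κ * (γ0 + a * s) : ℝ) : ℂ) * Complex.I) * g s 0 := by
    intro s
    exact co_qper hP k (F := fun v => (f s 0 v : ℂ)) (G := fun v => (f s 1 v : ℂ))
      (fun v => by simp only [pv]) (c := γ0 + a * s)
      (fun v => by
        have := pt s 0 v
        rw [zero_add] at this
        rw [this])
  set D : ℝ := √(4 * A1 * A3 - A2 ^ 2) with hDdef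
  have hD2 : D ^ 2 = 4 * A1 * c' := by
    rw [hDdef, Real.sq_sqrt (by linarith), hc']
    field_simp
  have LB := landau_bound (κ := κ) (a := a) (α0 := α0) (γ0 := γ0) hA1 (Real.sqrt_nonneg _) hD2 c
    dgs dgt dgst dgts cg cgs cgt cgst qs qt
  -- coefficients
  have e0 : ∀ s t, co P k (φ0 s t) = g s t := by
    intro s t
    have h1 : φ0 s t = fun v => (f s t v : ℂ) - (m s t : ℂ) := by
      ext v; simp only [hφ0]; push_cast; ring
    rw [h1, co_sub_const hP hk (csl cf s t)]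
  have ex : ∀ (r : ℝ) (F G : ℝ → ℂ), Continuous F → Continuous G →
      co P k (fun v => F v + (r : ℂ) * G v) = co P k F + (r : ℂ) * co P k G := by
    intro r F G hF hG
    rw [co_add (P := P) k (f := F) (g := fun v => (r : ℂ) * G v) hF (continuous_const.mul hG),
      co_mul]
  have eT : ∀ s t, co P k (φT s t) = gt s t - ((a * κ * s : ℝ) : ℂ) * Complex.I * g s t := by
    intro s t
    have h1 : φT s t = fun v => ((ft s t v : ℂ) + ((-(a * s) : ℝ) : ℂ) * (fv s t v : ℂ)) -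
        (mt s t : ℂ) := by
      ext v; simp only [hφT]; push_cast; ring
    have k1 := csl cft s t
    have k2 := csl cfv s t
    rw [h1, co_sub_const hP hk (by fun_prop), ex _ _ _ k1 k2, egv]
    push_cast; ring
  have eZ : ∀ s t, co P k (φZ s t) = (gs s t + ((a * κ * t : ℝ) : ℂ) * Complex.I * g s t) +
          (c : ℂ) * (gt s t - ((a * κ * s : ℝ) : ℂ) * Complex.I * g s t) := by
    intro s t
    have h1 : φZ s t = fun v => (((fs s t v : ℂ) + ((a * t : ℝ) : ℂ) * (fv s t v : ℂ)) +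
        (c : ℂ) * ((ft s t v : ℂ) + ((-(a * s) : ℝ) : ℂ) * (fv s t v : ℂ))) -
        (mz s t : ℂ) := by
      ext v; simp only [hφZ]; push_cast; ring
    have k1 := csl cft s t
    have k2 := csl cfv s t
    have k3 := csl cfs s t
    rw [h1, co_sub_const hP hk (by fun_prop), ex c (fun v => (fs s t v : ℂ) +
      ((a * t : ℝ) : ℂ) * (fv s t v : ℂ)) (fun v => (ft s t v : ℂ) +
      ((-(a * s) : ℝ) : ℂ) * (fv s t v : ℂ)) (by fun_prop) (by fun_prop),
      ex _ _ _ k1 k2, ex _ _ _ k3 k2, egv]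
    push_cast; ring
  simp only [e0, eT, eZ]
  set X : ℝ → ℝ → ℂ := fun s t => gs s t + ((a * κ * t : ℝ) : ℂ) * Complex.I * g s t with hX
  set Y : ℝ → ℝ → ℂ := fun s t => gt s t - ((a * κ * s : ℝ) : ℂ) * Complex.I * g s t with hY
  have cg1 : Continuous fun p : ℝ × ℝ => g p.1 p.2 := cg
  have cgs1 : Continuous fun p : ℝ × ℝ => gs p.1 p.2 := cgs
  have cgt1 : Continuous fun p : ℝ × ℝ => gt p.1 p.2 := cgt
  have cX : Continuous fun p : ℝ × ℝ => X p.1 p.2 := by simp only [hX]; fun_prop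
  have cY : Continuous fun p : ℝ × ℝ => Y p.1 p.2 := by simp only [hY]; fun_prop
  have hLP : 0 ≤ L * (2 * π / P) := by positivity
  have cN : Continuous (uncurry fun s t => P * ‖g s t‖ ^ 2) := by unfold uncurry; fun_prop
  have cQ1 : Continuous (uncurry fun s t => P * ‖X s t + (c : ℂ) * Y s t‖ ^ 2) := by
    unfold uncurry; fun_prop
  have cQ2 : Continuous (uncurry fun s t => P * ‖Y s t‖ ^ 2) := by unfold uncurry; fun_prop
  have cQ1' : Continuous (uncurry fun s t => A1 * ‖X s t + (c : ℂ) * Y s t‖ ^ 2) := by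
    unfold uncurry; fun_prop
  have cQ2' : Continuous (uncurry fun s t => c' * ‖Y s t‖ ^ 2) := by unfold uncurry; fun_prop
  rw [ofReal_mul_lint2 hLP cN (fun s t => by positivity),
    ofReal_mul_lint2 hA1.le cQ1 (fun s t => by positivity),
    ofReal_mul_lint2 hc'0.le cQ2 (fun s t => by positivity), ← ENNReal.ofReal_add]
  rotate_left
  · refine mul_nonneg hA1.le (intervalIntegral.integral_nonneg zero_le_one fun s _ =>
      intervalIntegral.integral_nonneg zero_le_one fun t _ => by positivity)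
  · refine mul_nonneg hc'0.le (intervalIntegral.integral_nonneg zero_le_one fun s _ =>
      intervalIntegral.integral_nonneg zero_le_one fun t _ => by positivity)
  refine ENNReal.ofReal_le_ofReal ?_
  rw [int2_mul, int2_mul, int2_mul]
  rw [int2_add cQ1' cQ2', int2_mul, int2_mul] at LB
  have hN0 : 0 ≤ ∫ s in (0:ℝ)..1, ∫ t in (0:ℝ)..1, ‖g s t‖ ^ 2 :=
    intervalIntegral.integral_nonneg zero_le_one fun s _ =>
      intervalIntegral.integral_nonneg zero_le_one fun t _ => by positivity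
  have hLle : L * (2 * π / P) ≤ D * |a * κ| := by
    have h1 : L ≤ |a| * D := by
      have h2 : L ^ 2 ≤ (|a| * D) ^ 2 := by
        rw [mul_pow, sq_abs, hDdef, Real.sq_sqrt (by linarith)]; exact hL
      exact le_of_sq_le_sq h2 (by positivity)
    have h3 : 2 * π / P ≤ |κ| := by
      rw [hκ, abs_div, abs_mul, abs_of_pos hP, abs_of_pos (by positivity : (0:ℝ) < 2 * π)]
      have : (1:ℝ) ≤ |(k:ℝ)| := by exact_mod_cast Int.one_le_abs hk
      rw [div_le_div_iff_of_pos_right hP]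
      nlinarith [Real.pi_pos]
    calc L * (2 * π / P) ≤ (|a| * D) * |κ| := mul_le_mul h1 h3 (by positivity) (by positivity)
      _ = D * |a * κ| := by rw [abs_mul]; ring
  have h5 := (mul_le_mul_of_nonneg_right hLle hN0).trans LB
  have h6 := mul_le_mul_of_nonneg_left h5 hP.le
  linarith

end Pool.Agent.Lib.H56.Gen
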