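import Pool.Agent.Lib.H56.Gen.CuspWO
import Pool.Agent.Lib.H56.Gen.CuspWA

/-!
# The weighted cusp inequality (chunk A, by helper92): the inequality on a horocycle level
-/

open MeasureTheory Set Real intervalIntegral Function
open scoped ENNReal ComplexConjugate

namespace Pool.Agent.Lib.H56.Gen

open Picard

/-- double `lintegral` -/
noncomputable def I2 (G : ℝ → ℝ → ℝ) : ℝ≥0∞ :=
  ∫⁻ s in Icc (0:ℝ) 1, ∫⁻ t in Icc (0:ℝ) 1, ENNReal.ofReal (G s t)

/-- triple `lintegral` -/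
noncomputable def I3 (P : ℝ) (G : ℝ → ℝ → ℝ → ℝ) : ℝ≥0∞ :=
  ∫⁻ s in Icc (0:ℝ) 1, ∫⁻ t in Icc (0:ℝ) 1, ∫⁻ v in Icc (0:ℝ) P, ENNReal.ofReal (G s t v)

lemma I2_lin {a b : ℝ} (ha : 0 ≤ a) (hb : 0 ≤ b) {G H : ℝ → ℝ → ℝ}
    (cG : Continuous fun p : ℝ × ℝ => G p.1 p.2)
    (hG : ∀ s t, 0 ≤ G s t) (hH : ∀ s t, 0 ≤ H s t) :
    I2 (fun s t => a * G s t + b * H s t) = ENNReal.ofReal a * I2 G + ENNReal.ofReal b * I2 H := by
  unfold I2
  have mG : Measurable fun p : ℝ × ℝ => ENNReal.ofReal a * ENNReal.ofReal (G p.1 p.2) :=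
    (cG.measurable.ennreal_ofReal).const_mul _
  rw [← lintegral_const_mul' _ _ ENNReal.ofReal_ne_top,
    ← lintegral_const_mul' _ _ ENNReal.ofReal_ne_top, ← lintegral_add_left]
  · refine lintegral_congr fun s => ?_
    rw [← lintegral_const_mul' _ _ ENNReal.ofReal_ne_top,
      ← lintegral_const_mul' _ _ ENNReal.ofReal_ne_top, ← lintegral_add_left]
    · refine lintegral_congr fun t => ?_
      rw [← ENNReal.ofReal_mul ha, ← ENNReal.ofReal_mul hb,
        ← ENNReal.ofReal_add (mul_nonneg ha (hG s t)) (mul_nonneg hb (hH s t))]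
    · exact mG.comp measurable_prodMk_left
  · simp only [← lintegral_const_mul' _ _ ENNReal.ofReal_ne_top]
    exact mG.lintegral_prod_right'

lemma I3_lin {P a b : ℝ} (ha : 0 ≤ a) (hb : 0 ≤ b) {G H : ℝ → ℝ → ℝ → ℝ}
    (cG : Continuous fun p : (ℝ × ℝ) × ℝ => G p.1.1 p.1.2 p.2)
    (hG : ∀ s t v, 0 ≤ G s t v) (hH : ∀ s t v, 0 ≤ H s t v) :
    I3 P (fun s t v => a * G s t v + b * H s t v) =
      ENNReal.ofReal a * I3 P G + ENNReal.ofReal b * I3 P H := by
  unfold I3
  have mG : Measurable fun p : (ℝ × ℝ) × ℝ =>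
      ENNReal.ofReal a * ENNReal.ofReal (G p.1.1 p.1.2 p.2) :=
    (cG.measurable.ennreal_ofReal).const_mul _
  have mG2 : Measurable fun p : ℝ × ℝ => ∫⁻ v in Icc (0:ℝ) P,
      ENNReal.ofReal a * ENNReal.ofReal (G p.1 p.2 v) := mG.lintegral_prod_right'
  rw [← lintegral_const_mul' _ _ ENNReal.ofReal_ne_top,
    ← lintegral_const_mul' _ _ ENNReal.ofReal_ne_top, ← lintegral_add_left]
  · refine lintegral_congr fun s => ?_
    rw [← lintegral_const_mul' _ _ ENNReal.ofReal_ne_top,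
      ← lintegral_const_mul' _ _ ENNReal.ofReal_ne_top, ← lintegral_add_left]
    · refine lintegral_congr fun t => ?_
      rw [← lintegral_const_mul' _ _ ENNReal.ofReal_ne_top,
        ← lintegral_const_mul' _ _ ENNReal.ofReal_ne_top, ← lintegral_add_left]
      · refine lintegral_congr fun v => ?_
        rw [← ENNReal.ofReal_mul ha, ← ENNReal.ofReal_mul hb,
          ← ENNReal.ofReal_add (mul_nonneg ha (hG s t v)) (mul_nonneg hb (hH s t v))]
      · have h1 : Measurable fun v : ℝ => ((s, t), v) := measurable_prodMk_left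
        exact mG.comp h1
    · simp only [← lintegral_const_mul' _ _ ENNReal.ofReal_ne_top]
      exact mG2.comp measurable_prodMk_left
  · simp only [← lintegral_const_mul' _ _ ENNReal.ofReal_ne_top]
    exact mG2.lintegral_prod_right'

lemma L2_add {a b : ℝ → ℝ → ℝ≥0∞} (ma : Measurable fun p : ℝ × ℝ => a p.1 p.2) :
    (∫⁻ s in Icc (0:ℝ) 1, ∫⁻ t in Icc (0:ℝ) 1, a s t) +
      (∫⁻ s in Icc (0:ℝ) 1, ∫⁻ t in Icc (0:ℝ) 1, b s t) =
      ∫⁻ s in Icc (0:ℝ) 1, ∫⁻ t in Icc (0:ℝ) 1, (a s t + b s t) := by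
  rw [← lintegral_add_left ma.lintegral_prod_right']
  refine lintegral_congr fun s => ?_
  exact (lintegral_add_left (ma.comp measurable_prodMk_left) _).symm

lemma I3_smul {P a : ℝ} (ha : 0 ≤ a) {G : ℝ → ℝ → ℝ → ℝ} :
    I3 P (fun s t v => a * G s t v) = ENNReal.ofReal a * I3 P G := by
  unfold I3
  rw [← lintegral_const_mul' _ _ ENNReal.ofReal_ne_top]
  refine lintegral_congr fun s => ?_
  rw [← lintegral_const_mul' _ _ ENNReal.ofReal_ne_top]
  refine lintegral_congr fun t => ?_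
  rw [← lintegral_const_mul' _ _ ENNReal.ofReal_ne_top]
  refine lintegral_congr fun v => ?_
  rw [ENNReal.ofReal_mul ha]

/-- the inequality on a fixed level `u` -/
lemma fiber_u {P a A1 A2 A3 k0 L α0 γ0 e wt u : ℝ} (hP : 0 < P) (hA1 : 0 < A1)
    (hA : A2 ^ 2 < 4 * A1 * A3) (hk0 : 0 ≤ k0)
    (hk : ∀ i j : ℤ, (i ≠ 0 ∨ j ≠ 0) → k0 ≤ A1 * i ^ 2 + A2 * i * j + A3 * j ^ 2)
    (hL0 : 0 ≤ L) (hL : L ^ 2 ≤ a ^ 2 * (4 * A1 * A3 - A2 ^ 2))
    (he : 0 ≤ e) (hw : 0 ≤ wt) (hu : 0 ≤ u)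
    {f fs ft fv fu fst : ℝ → ℝ → ℝ → ℝ}
    (hs : ∀ s t v, HasDerivAt (fun s => f s t v) (fs s t v) s)
    (ht : ∀ s t v, HasDerivAt (fun t => f s t v) (ft s t v) t)
    (hv : ∀ s t v, HasDerivAt (fun v => f s t v) (fv s t v) v)
    (hst : ∀ s t v, HasDerivAt (fun t => fs s t v) (fst s t v) t)
    (hts : ∀ s t v, HasDerivAt (fun s => ft s t v) (fst s t v) s)
    (cf : Continuous fun p : (ℝ × ℝ) × ℝ => f p.1.1 p.1.2 p.2)
    (cfs : Continuous fun p : (ℝ × ℝ) × ℝ => fs p.1.1 p.1.2 p.2)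
    (cft : Continuous fun p : (ℝ × ℝ) × ℝ => ft p.1.1 p.1.2 p.2)
    (cfv : Continuous fun p : (ℝ × ℝ) × ℝ => fv p.1.1 p.1.2 p.2)
    (cfu : Continuous fun p : (ℝ × ℝ) × ℝ => fu p.1.1 p.1.2 p.2)
    (cfst : Continuous fun p : (ℝ × ℝ) × ℝ => fst p.1.1 p.1.2 p.2)
    (pv : ∀ s t v, f s t (v + P) = f s t v)
    (ps : ∀ s t v, f (s + 1) t (v + (α0 - a * t)) = f s t v)
    (pt : ∀ s t v, f s (t + 1) (v + (γ0 + a * s)) = f s t v)
    (h0 : ∫ s in (0:ℝ)..1, ∫ t in (0:ℝ)..1, ∫ v in (0:ℝ)..P, f s t v = 0)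
    {m mu : ℝ → ℝ → ℝ} (em : ∀ s t, m s t = P⁻¹ * ∫ v in (0:ℝ)..P, f s t v)
    (emu : ∀ s t, mu s t = P⁻¹ * ∫ v in (0:ℝ)..P, fu s t v) :
    I2 (fun s t => e * (wt * (P * (u ^ 2 * mu s t ^ 2 + u * (4 * π ^ 2 * k0) * m s t ^ 2)))) +
      I3 P (fun s t v => e * (wt * (u ^ 2 * (fu s t v - mu s t) ^ 2 +
        (u ^ 2 * (2 * π / P) ^ 2 + u * L * (2 * π / P)) * (f s t v - m s t) ^ 2))) ≤
    I3 P (fun s t v => e * (wt * (u ^ 2 * (fu s t v ^ 2 + fv s t v ^ 2) +
        u * (A1 * (fs s t v + a * t * fv s t v) ^ 2 +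
          A2 * (fs s t v + a * t * fv s t v) * (ft s t v - a * s * fv s t v) +
          A3 * (ft s t v - a * s * fv s t v) ^ 2)))) := by
  set c : ℝ := A2 / (2 * A1) with hc
  set c' : ℝ := A3 - A2 ^ 2 / (4 * A1) with hc'
  have hc'0 : 0 < c' := quad_pos hA1 hA
  -- means
  have cmean : ∀ {G : ℝ → ℝ → ℝ → ℝ}, Continuous (fun p : (ℝ × ℝ) × ℝ => G p.1.1 p.1.2 p.2) →
      Continuous (uncurry fun s t => P⁻¹ * ∫ v in (0:ℝ)..P, G s t v) := fun {G} hG => by
    refine continuous_const.mul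
      (intervalIntegral.continuous_parametric_intervalIntegral_of_continuous'
        (f := fun (x : ℝ × ℝ) v => G x.1 x.2 v) ?_ 0 P)
    exact hG
  set ms : ℝ → ℝ → ℝ := fun s t => P⁻¹ * ∫ v in (0:ℝ)..P, fs s t v with hms
  set mt : ℝ → ℝ → ℝ := fun s t => P⁻¹ * ∫ v in (0:ℝ)..P, ft s t v with hmt
  have em' : m = fun s t => P⁻¹ * ∫ v in (0:ℝ)..P, f s t v := by ext s t; exact em s t
  have emu' : mu = fun s t => P⁻¹ * ∫ v in (0:ℝ)..P, fu s t v := by ext s t; exact emu s t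
  have cm : Continuous (uncurry m) := by rw [em']; exact cmean cf
  have cmu : Continuous (uncurry mu) := by rw [emu']; exact cmean cfu
  have cms : Continuous (uncurry ms) := cmean cfs
  have cmt : Continuous (uncurry mt) := cmean cft
  have cm1 : Continuous fun p : ℝ × ℝ => m p.1 p.2 := cm
  have cmu1 : Continuous fun p : ℝ × ℝ => mu p.1 p.2 := cmu
  have cms1 : Continuous fun p : ℝ × ℝ => ms p.1 p.2 := cms
  have cmt1 : Continuous fun p : ℝ × ℝ => mt p.1 p.2 := cmt
  set mz : ℝ → ℝ → ℝ := fun s t => ms s t + c * mt s t with hmz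
  have cmz : Continuous (uncurry mz) := cms.add (continuous_const.mul cmt)
  have slc : ∀ {G : ℝ → ℝ → ℝ → ℝ}, Continuous (fun p : (ℝ × ℝ) × ℝ => G p.1.1 p.1.2 p.2) →
      ∀ s t, Continuous (fun v => G s t v) := fun hG s t =>
    hG.comp (by fun_prop : Continuous fun x : ℝ => ((s, t), x))
  have sls : ∀ {G : ℝ → ℝ → ℝ → ℝ}, Continuous (fun p : (ℝ × ℝ) × ℝ => G p.1.1 p.1.2 p.2) →
      ∀ t, Continuous (uncurry fun s v => G s t v) := fun hG t =>
    hG.comp (by fun_prop : Continuous fun x : ℝ × ℝ => ((x.1, t), x.2))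
  have slt : ∀ {G : ℝ → ℝ → ℝ → ℝ}, Continuous (fun p : (ℝ × ℝ) × ℝ => G p.1.1 p.1.2 p.2) →
      ∀ s, Continuous (uncurry fun t v => G s t v) := fun hG s =>
    hG.comp (by fun_prop : Continuous fun x : ℝ × ℝ => ((s, x.1), x.2))
  have dms : ∀ s t, HasDerivAt (fun s => m s t) (ms s t) s := fun s t => by
    rw [em']
    exact (hasDerivAt_int isOpen_univ (f := fun s v => f s t v) (f' := fun s v => fs s t v)
      (fun x _ v => hs x t v) (sls cf t) (sls cfs t) (mem_univ s)).const_mul P⁻¹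
  have dmt : ∀ s t, HasDerivAt (fun t => m s t) (mt s t) t := fun s t => by
    rw [em']
    exact (hasDerivAt_int isOpen_univ (f := fun t v => f s t v) (f' := fun t v => ft s t v)
      (fun x _ v => ht s x v) (slt cf s) (slt cft s) (mem_univ t)).const_mul P⁻¹
  have shift : ∀ s t c, ∫ v in (0:ℝ)..P, f s t (v + c) = ∫ v in (0:ℝ)..P, f s t v := by
    intro s t c
    rw [intervalIntegral.integral_comp_add_right (fun v => f s t v)]
    have hper : Function.Periodic (fun v => f s t v) P := fun v => pv s t v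
    have := hper.intervalIntegral_add_eq c 0
    rw [zero_add, add_comm P c]
    simpa using this
  have pms : ∀ s t, m (s + 1) t = m s t := by
    intro s t
    rw [em, em, ← shift (s + 1) t (α0 - a * t)]
    simp only [ps]
  have pmt : ∀ s t, m s (t + 1) = m s t := by
    intro s t
    rw [em, em, ← shift s (t + 1) (γ0 + a * s)]
    simp only [pt]
  have m0 : ∫ s in (0:ℝ)..1, ∫ t in (0:ℝ)..1, m s t = 0 := by
    simp only [em, intervalIntegral.integral_const_mul]
    rw [h0, mul_zero]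
  have cs1 : Continuous fun p : (ℝ × ℝ) × ℝ => p.1.1 := by fun_prop
  have ct1 : Continuous fun p : (ℝ × ℝ) × ℝ => p.1.2 := by fun_prop
  -- the functions S, W, Z
  set S : ℝ → ℝ → ℝ → ℝ := fun s t v => fs s t v + a * t * fv s t v with hS
  set W : ℝ → ℝ → ℝ → ℝ := fun s t v => ft s t v - a * s * fv s t v with hW
  have cS : Continuous fun p : (ℝ × ℝ) × ℝ => S p.1.1 p.1.2 p.2 :=
    cfs.add ((continuous_const.mul ct1).mul cfv)
  have cW : Continuous fun p : (ℝ × ℝ) × ℝ => W p.1.1 p.1.2 p.2 :=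
    cft.sub ((continuous_const.mul cs1).mul cfv)
  have lift2 : ∀ {G : ℝ → ℝ → ℝ}, Continuous (fun p : ℝ × ℝ => G p.1 p.2) →
      Continuous fun p : (ℝ × ℝ) × ℝ => G p.1.1 p.1.2 := fun h => h.comp continuous_fst
  have cm2 := lift2 cm1
  have cmu2 := lift2 cmu1
  have cms2 := lift2 cms1
  have cmt2 := lift2 cmt1
  have cmz2 : Continuous fun p : (ℝ × ℝ) × ℝ => mz p.1.1 p.1.2 := lift2 cmz
  have OP := osc_part hP hA1 hA hL0 hL hs ht hv hst hts cf cfs cft cfv cfst pv ps pt cm cmz cmt em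
  rw [← hc, ← hc'] at OP
  have MP := mean_part hA1 hA hk0 hk dms dmt cm cms cmt pms pmt m0
  -- claim 1: pointwise in (s,t)
  have claim1 : I2 (fun s t => (e * wt * P * u ^ 2) * mu s t ^ 2 + (e * wt * P * u) *
        (A1 * ms s t ^ 2 + A2 * ms s t * mt s t + A3 * mt s t ^ 2)) +
      (I3 P (fun s t v => (e * wt * u ^ 2) * (fu s t v - mu s t) ^ 2 +
        (e * wt * (u ^ 2 * (2 * π / P) ^ 2)) * (f s t v - m s t) ^ 2) +
      I3 P (fun s t v => (e * wt * u) * (A1 * (S s t v + c * W s t v - mz s t) ^ 2 +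
        c' * (W s t v - mt s t) ^ 2))) ≤
      I3 P (fun s t v => e * (wt * (u ^ 2 * (fu s t v ^ 2 + fv s t v ^ 2) +
        u * (A1 * S s t v ^ 2 + A2 * S s t v * W s t v + A3 * W s t v ^ 2)))) := by
    have q1 : Continuous fun p : ℝ × ℝ => (e * wt * P * u ^ 2) * mu p.1 p.2 ^ 2 +
        (e * wt * P * u) * (A1 * ms p.1 p.2 ^ 2 + A2 * ms p.1 p.2 * mt p.1 p.2 +
          A3 * mt p.1 p.2 ^ 2) := by fun_prop
    have q2 : Continuous fun p : (ℝ × ℝ) × ℝ => (e * wt * u ^ 2) *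
        (fu p.1.1 p.1.2 p.2 - mu p.1.1 p.1.2) ^ 2 +
        (e * wt * (u ^ 2 * (2 * π / P) ^ 2)) * (f p.1.1 p.1.2 p.2 - m p.1.1 p.1.2) ^ 2 :=
      (continuous_const.mul ((cfu.sub cmu2).pow 2)).add
        (continuous_const.mul ((cf.sub cm2).pow 2))
    have m1 := q1.measurable.ennreal_ofReal
    have m2 : Measurable fun p : ℝ × ℝ => ∫⁻ v in Icc (0:ℝ) P,
        ENNReal.ofReal ((e * wt * u ^ 2) * (fu p.1 p.2 v - mu p.1 p.2) ^ 2 +
        (e * wt * (u ^ 2 * (2 * π / P) ^ 2)) * (f p.1 p.2 v - m p.1 p.2) ^ 2) :=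
      (q2.measurable.ennreal_ofReal).lintegral_prod_right'
    unfold I2 I3
    rw [L2_add (a := fun s t => ∫⁻ v in Icc (0:ℝ) P,
        ENNReal.ofReal ((e * wt * u ^ 2) * (fu s t v - mu s t) ^ 2 +
        (e * wt * (u ^ 2 * (2 * π / P) ^ 2)) * (f s t v - m s t) ^ 2)) m2,
      L2_add (a := fun s t => ENNReal.ofReal ((e * wt * P * u ^ 2) * mu s t ^ 2 +
        (e * wt * P * u) * (A1 * ms s t ^ 2 + A2 * ms s t * mt s t + A3 * mt s t ^ 2))) m1]
    refine lintegral_mono fun s => lintegral_mono fun t => ?_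
    have k1 := slc cf s t
    have k2 := slc cfv s t
    have k3 := slc cfu s t
    have k4 := slc cS s t
    have k5 := slc cW s t
    have k6 := slc cfs s t
    have k7 := slc cft s t
    have iFv : ∫ v in (0:ℝ)..P, fv s t v = 0 := by
      rw [intervalIntegral.integral_eq_sub_of_hasDerivAt (f := fun v => f s t v)
        (fun v _ => hv s t v) (k2.intervalIntegrable _ _)]
      have := pv s t 0
      rw [zero_add] at this
      rw [this, sub_self]
    have v1 := variance hP k3 (emu s t)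
    have w1 := wirtinger hP (f := fun v => f s t v - m s t) (f' := fun v => fv s t v)
      (fun v => (hv s t v).sub_const _) k2
      (by have := pv s t 0; rw [zero_add] at this; rw [this]) (mean_zero hP k1 (em s t))
    have mS : ms s t = P⁻¹ * ∫ v in (0:ℝ)..P, S s t v := by
      simp only [hS]
      rw [intervalIntegral.integral_add, intervalIntegral.integral_const_mul,
        iFv, mul_zero, add_zero]
      all_goals exact Continuous.intervalIntegrable (by fun_prop) _ _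
    have mW : mt s t = P⁻¹ * ∫ v in (0:ℝ)..P, W s t v := by
      simp only [hW]
      rw [intervalIntegral.integral_sub, intervalIntegral.integral_const_mul,
        iFv, mul_zero, sub_zero]
      all_goals exact Continuous.intervalIntegrable (by fun_prop) _ _
    have cZ : Continuous fun v => S s t v + c * W s t v := by fun_prop
    have mZ : mz s t = P⁻¹ * ∫ v in (0:ℝ)..P, (S s t v + c * W s t v) := by
      rw [intervalIntegral.integral_add, intervalIntegral.integral_const_mul, mul_add]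
      · have e1 : P⁻¹ * (c * ∫ v in (0:ℝ)..P, W s t v) = c * (P⁻¹ * ∫ v in (0:ℝ)..P, W s t v) := by
          ring
        rw [e1, ← mS, ← mW]
      all_goals exact Continuous.intervalIntegrable (by fun_prop) _ _
    have vZ := variance hP cZ mZ
    have vW := variance hP k5 mW
    have hQ : ∀ x y : ℝ, 0 ≤ A1 * x ^ 2 + A2 * x * y + A3 * y ^ 2 := fun x y => by
      rw [quad_sq hA1]; positivity
    have hQ' := fun x y : ℝ => quad_sq (A2 := A2) (A3 := A3) hA1 x y
    rw [← hc, ← hc'] at hQ'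
    show ENNReal.ofReal _ + ((∫⁻ v in Icc (0:ℝ) P, _) + ∫⁻ v in Icc (0:ℝ) P, _) ≤ _
    rw [lint_Icc hP.le (Continuous.continuousOn (by fun_prop)) (fun v _ => by positivity),
      lint_Icc hP.le (Continuous.continuousOn (by fun_prop)) (fun v _ => by positivity),
      lint_Icc hP.le (Continuous.continuousOn (by fun_prop)) (fun v _ => by
        have := hQ (S s t v) (W s t v)
        positivity),
      ← ENNReal.ofReal_add (intervalIntegral.integral_nonneg hP.le fun v _ => by positivity)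
        (intervalIntegral.integral_nonneg hP.le fun v _ => by positivity),
      ← ENNReal.ofReal_add (by
          have := hQ (ms s t) (mt s t)
          positivity)
        (add_nonneg (intervalIntegral.integral_nonneg hP.le fun v _ => by positivity)
        (intervalIntegral.integral_nonneg hP.le fun v _ => by positivity))]
    refine ENNReal.ofReal_le_ofReal ?_
    have i1 : ∫ v in (0:ℝ)..P, ((e * wt * u ^ 2) * (fu s t v - mu s t) ^ 2 +
        (e * wt * (u ^ 2 * (2 * π / P) ^ 2)) * (f s t v - m s t) ^ 2) =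
        (e * wt * u ^ 2) * (∫ v in (0:ℝ)..P, (fu s t v - mu s t) ^ 2) +
        (e * wt * (u ^ 2 * (2 * π / P) ^ 2)) * ∫ v in (0:ℝ)..P, (f s t v - m s t) ^ 2 := by
      rw [intervalIntegral.integral_add, intervalIntegral.integral_const_mul,
        intervalIntegral.integral_const_mul]
      all_goals exact Continuous.intervalIntegrable (by fun_prop) _ _
    have i2 : ∫ v in (0:ℝ)..P, (e * wt * u) * (A1 * (S s t v + c * W s t v - mz s t) ^ 2 +
        c' * (W s t v - mt s t) ^ 2) =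
        (e * wt * u) * (A1 * (∫ v in (0:ℝ)..P, (S s t v + c * W s t v - mz s t) ^ 2) +
        c' * ∫ v in (0:ℝ)..P, (W s t v - mt s t) ^ 2) := by
      rw [intervalIntegral.integral_const_mul, intervalIntegral.integral_add,
        intervalIntegral.integral_const_mul, intervalIntegral.integral_const_mul]
      all_goals exact Continuous.intervalIntegrable (by fun_prop) _ _
    have i3 : ∫ v in (0:ℝ)..P, e * (wt * (u ^ 2 * (fu s t v ^ 2 + fv s t v ^ 2) +
        u * (A1 * S s t v ^ 2 + A2 * S s t v * W s t v + A3 * W s t v ^ 2))) =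
        (e * wt * u ^ 2) * ((∫ v in (0:ℝ)..P, fu s t v ^ 2) + ∫ v in (0:ℝ)..P, fv s t v ^ 2) +
        (e * wt * u) * (A1 * (∫ v in (0:ℝ)..P, (S s t v + c * W s t v) ^ 2) +
          c' * ∫ v in (0:ℝ)..P, W s t v ^ 2) := by
      have e1 : ∀ v, e * (wt * (u ^ 2 * (fu s t v ^ 2 + fv s t v ^ 2) +
        u * (A1 * S s t v ^ 2 + A2 * S s t v * W s t v + A3 * W s t v ^ 2))) =
        (e * wt * u ^ 2) * (fu s t v ^ 2 + fv s t v ^ 2) +
        (e * wt * u) * (A1 * (S s t v + c * W s t v) ^ 2 + c' * W s t v ^ 2) := fun v => by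
        rw [hQ']; ring
      simp only [e1]
      rw [intervalIntegral.integral_add, intervalIntegral.integral_const_mul,
        intervalIntegral.integral_const_mul, intervalIntegral.integral_add,
        intervalIntegral.integral_add, intervalIntegral.integral_const_mul,
        intervalIntegral.integral_const_mul]
      all_goals exact Continuous.intervalIntegrable (by fun_prop) _ _
    rw [i1, i2, i3, v1, vZ, vW, hQ']
    have h5 := mul_le_mul_of_nonneg_left w1 (mul_nonneg (mul_nonneg he hw) (sq_nonneg u))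
    simp only [hmz]
    linarith [h5]
  -- claim 2
  have cZ3 : Continuous fun p : (ℝ × ℝ) × ℝ =>
      (S p.1.1 p.1.2 p.2 + c * W p.1.1 p.1.2 p.2 - mz p.1.1 p.1.2) ^ 2 :=
    ((cS.add (continuous_const.mul cW)).sub cmz2).pow 2
  have claim2 : ENNReal.ofReal (e * wt * u) * (ENNReal.ofReal (L * (2 * π / P)) *
      I3 P (fun s t v => (f s t v - m s t) ^ 2)) ≤
      I3 P (fun s t v => (e * wt * u) * (A1 * (S s t v + c * W s t v - mz s t) ^ 2 +
        c' * (W s t v - mt s t) ^ 2)) := by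
    rw [I3_smul (by positivity), I3_lin hA1.le hc'0.le cZ3 (fun s t v => by positivity)
      (fun s t v => by positivity)]
    exact mul_le_mul_right OP _
  -- claim 3
  have hQ0 : ∀ x y : ℝ, 0 ≤ A1 * x ^ 2 + A2 * x * y + A3 * y ^ 2 := fun x y => by
    rw [quad_sq hA1]; positivity
  have cmu3 : Continuous fun p : ℝ × ℝ => mu p.1 p.2 ^ 2 := by fun_prop
  have claim3 : I2 (fun s t => e * (wt * (P * (u ^ 2 * mu s t ^ 2 +
      u * (4 * π ^ 2 * k0) * m s t ^ 2)))) ≤
      I2 (fun s t => (e * wt * P * u ^ 2) * mu s t ^ 2 + (e * wt * P * u) *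
        (A1 * ms s t ^ 2 + A2 * ms s t * mt s t + A3 * mt s t ^ 2)) := by
    have e1 : (fun s t => e * (wt * (P * (u ^ 2 * mu s t ^ 2 +
      u * (4 * π ^ 2 * k0) * m s t ^ 2)))) = fun s t => (e * wt * P * u ^ 2) * mu s t ^ 2 +
      (e * wt * P * u) * (4 * π ^ 2 * k0 * m s t ^ 2) := by
      ext s t; ring
    have n1 : 0 ≤ e * wt * P * u ^ 2 := by positivity
    have n2 : 0 ≤ e * wt * P * u := by positivity
    have s1 := I2_lin n1 n2 cmu3 (H := fun s t => 4 * π ^ 2 * k0 * m s t ^ 2)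
      (fun s t => sq_nonneg (mu s t)) (fun s t => by positivity)
    have s2 := I2_lin n1 n2 cmu3
      (H := fun s t => A1 * ms s t ^ 2 + A2 * ms s t * mt s t + A3 * mt s t ^ 2)
      (fun s t => sq_nonneg (mu s t)) (fun s t => hQ0 _ _)
    rw [e1, s1, s2]
    exact add_le_add le_rfl (mul_le_mul_right MP _)
  refine le_trans ?_ claim1
  refine add_le_add claim3 ?_
  refine le_trans ?_ (add_le_add le_rfl claim2)
  -- recombine
  have cF2 : Continuous fun p : (ℝ × ℝ) × ℝ => (fu p.1.1 p.1.2 p.2 - mu p.1.1 p.1.2) ^ 2 :=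
    (cfu.sub cmu2).pow 2
  have e2 : (fun s t v => e * (wt * (u ^ 2 * (fu s t v - mu s t) ^ 2 +
        (u ^ 2 * (2 * π / P) ^ 2 + u * L * (2 * π / P)) * (f s t v - m s t) ^ 2))) =
      fun s t v => (e * wt * u ^ 2) * (fu s t v - mu s t) ^ 2 +
        (e * wt * (u ^ 2 * (2 * π / P) ^ 2) + (e * wt * u) * (L * (2 * π / P))) *
          (f s t v - m s t) ^ 2 := by
    ext s t v; ring
  have n1 : 0 ≤ e * wt * u ^ 2 := by positivity
  have n2 : 0 ≤ e * wt * (u ^ 2 * (2 * π / P) ^ 2) := by positivity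
  have n3 : 0 ≤ e * wt * u := by positivity
  have n4 : 0 ≤ L * (2 * π / P) := by positivity
  have key : ∀ (α β γ δ : ℝ) (x y : ℝ≥0∞), 0 ≤ β → 0 ≤ γ → 0 ≤ δ →
      ENNReal.ofReal α * x + ENNReal.ofReal (β + γ * δ) * y ≤
      (ENNReal.ofReal α * x + ENNReal.ofReal β * y) +
        ENNReal.ofReal γ * (ENNReal.ofReal δ * y) := by
    intro α β γ δ x y hβ hγ hδ
    rw [ENNReal.ofReal_add hβ (mul_nonneg hγ hδ), add_mul, ENNReal.ofReal_mul hγ, mul_assoc,
      add_assoc]
  have s1 := I3_lin (P := P) n1 (add_nonneg n2 (mul_nonneg n3 n4)) cF2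
    (H := fun s t v => (f s t v - m s t) ^ 2)
    (fun s t v => sq_nonneg (fu s t v - mu s t)) (fun s t v => sq_nonneg _)
  have s2 := I3_lin (P := P) n1 n2 cF2 (H := fun s t v => (f s t v - m s t) ^ 2)
    (fun s t v => sq_nonneg (fu s t v - mu s t)) (fun s t v => sq_nonneg _)
  rw [e2, s1, s2]
  exact key _ _ _ _ _ _ n2 n3 n4

end Pool.Agent.Lib.H56.Gen
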