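import Pool.Agent.Lib.H56.Gen.CheckSound

/-!
# Polynomial inequalities checked by the kernel (chunk R6, first part)

Polynomials are coefficient lists, lowest degree first. The check of an inequality on the intervals
`[k/K, (k+1)/K]` uses the Taylor coefficients at `k/K`, in natural numbers (positive and negative
parts are shifted separately).
-/

namespace Pool.Agent.Lib.H56.Gen

noncomputable section

/-! ### integer lists -/

/-- Polynomial data: `w = a(y)/sc`, `p1 = b1(y)/sc`, `p2 = b2(y)/sc` with `y = h/u`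
(coefficient lists, lowest degree first); `m1a/ms`, `m1b/ms`, `m2a/ms` are lower bounds for
`h² (2π/P)²`, `h L (2π/P)`, `h 4π² k0`. -/
structure PD where
  /-- constructor -/
  mk ::
  (a b1 b2 : List ℤ)
  (sc : ℕ)
  (m1a m1b m2a ms : ℕ)
  (WS VS : ℕ)

/-- evaluation of a coefficient list -/
def ev (l : List ℤ) (y : ℝ) : ℝ := l.foldr (fun c r => (c : ℝ) + y * r) 0

/-- derivative of a coefficient list, evaluated -/
def dv (l : List ℤ) (y : ℝ) : ℝ :=
  List.rec 0 (fun _ t ih => ev t y + y * ih) l

/-- sum of two coefficient lists -/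
def padd (a : List ℤ) : List ℤ → List ℤ :=
  List.rec (fun b => b) (fun c t ih b =>
    List.rec (List.cons c t) (fun e s _ => List.cons (Int.add c e) (ih s)) b) a

/-- multiple of a coefficient list -/
def pscal (c : ℤ) (a : List ℤ) : List ℤ := List.rec [] (fun e _ ih => List.cons (Int.mul c e) ih) a

/-- product of coefficient lists -/
def pmul (a b : List ℤ) : List ℤ :=
  List.rec [] (fun c _ ih => padd (pscal c b) (List.cons 0 ih)) a

/-- coefficient number `i` multiplied by `m + i` -/
def pw (a : List ℤ) : ℤ → List ℤ :=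
  List.rec (fun _ => []) (fun c _ ih m => List.cons (Int.mul m c) (ih (Int.add m 1))) a

/-- length -/
def ln {α : Type} (l : List α) : Nat := List.rec 0 (fun _ _ ih => Nat.succ ih) l

/-- coefficients multiplied by powers of `K` -/
def scl (K : Nat) (l : List ℤ) : List ℤ :=
  List.rec [] (fun c t ih => List.cons (Int.mul c (Int.ofNat (Nat.pow K (ln t)))) ih) l

/-- sum of the coefficients -/
def psum (l : List ℤ) : ℤ := List.rec 0 (fun c _ ih => Int.add c ih) l

/-- positive parts -/
def posL (l : List ℤ) : List Nat := List.rec [] (fun c _ ih => List.cons (Int.toNat c) ih) l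

/-- negative parts -/
def negL (l : List ℤ) : List Nat :=
  List.rec [] (fun c _ ih => List.cons (Int.toNat (Int.neg c)) ih) l

/-! ### lists of natural numbers -/

/-- `c + (1 + z) q(z)` -/
def shA (q : List Nat) : Nat → List Nat :=
  List.rec (fun c => [c]) (fun q _ ih c => List.cons (Nat.add c q) (ih q)) q

/-- `q(1 + z)` -/
def sh (l : List Nat) : List Nat := List.rec [] (fun c _ ih => shA ih c) l

/-- upper bound for `max (N(z) - P(z)) 0` on `[0, 1]` -/
def defc (N : List Nat) : List Nat → Nat :=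
  List.rec (fun _ => 0) (fun n _ ih P =>
    List.rec (Nat.add n (ih [])) (fun p ps _ => Nat.sub (Nat.add n (ih ps)) p) P) N

/-- add `2 k T + T z` -/
def addT (T k : Nat) (l : List Nat) : List Nat :=
  List.rec [Nat.mul 2 (Nat.mul k T), T] (fun n1 l1 _ =>
    List.cons (Nat.add n1 (Nat.mul 2 (Nat.mul k T)))
      (List.rec [T] (fun n2 l2 _ => List.cons (Nat.add n2 T) l2) l1)) l

/-- sufficient condition for `N(z) + T (k + z)² ≤ P(z)` on `[0, 1]` -/
def chkF (T k : Nat) (P N : List Nat) : Bool :=
  List.rec false (fun p ps _ => List.rec false (fun n ns _ =>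
    Nat.ble (Nat.add (Nat.add n (Nat.mul T (Nat.mul k k))) (defc (addT T k ns) ps)) p) N) P

/-- sufficient condition for `1 + N(z) ≤ P(z)` and `WS P(z) ≤ T + WS N(z)` on `[0, 1]` -/
def chkA (WS T : Nat) (P N : List Nat) : Bool :=
  List.rec false (fun p ps _ => List.rec false (fun n ns _ =>
    Bool.and (Nat.ble (Nat.succ (Nat.add n (defc ns ps))) p)
      (Nat.ble (Nat.mul WS (Nat.add p (defc ps ns))) (Nat.add T (Nat.mul WS n)))) N) P

/-- `chkF` on consecutive intervals -/
def loopF (T0 tv : Nat) : Nat → Nat → List Nat → List Nat → Bool :=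
  Nat.rec (fun _ _ _ => true) (fun _ ih k P N =>
    Bool.rec false (ih (Nat.succ k) (sh P) (sh N)) (chkF (Nat.mul T0 (tab tv k)) k P N))

/-- `chkA` on consecutive intervals -/
def loopA (WS T0 tw : Nat) : Nat → Nat → List Nat → List Nat → Bool :=
  Nat.rec (fun _ _ _ => true) (fun _ ih k P N =>
    Bool.rec false (ih (Nat.succ k) (sh P) (sh N)) (chkA WS (Nat.mul T0 (tab tw k)) P N))

/-- the polynomial `VS (sc² A (ma + mb y) + ms y² (sc (y (A B)' + 2 A B) - A B²))` -/
def polyF (sc ms VS ma mb : Nat) (a b : List ℤ) : List ℤ :=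
  (fun ab => padd (pscal (Int.ofNat (Nat.mul VS (Nat.mul sc sc))) (pmul a [Int.ofNat ma, Int.ofNat mb]))
    (List.cons 0 (List.cons 0 (pscal (Int.ofNat (Nat.mul VS ms))
      (padd (pscal (Int.ofNat sc) (pw ab 2)) (pscal (-1) (pmul ab b)))))))
  (pmul a b)

/-- check of one family of inequalities -/
def okF (K tv G : Nat) (F : List ℤ) : Bool :=
  Bool.and (Nat.ble 3 (ln F))
    ((fun l => loopF (Nat.mul G (Nat.pow K (Nat.sub (ln F) 3))) tv K 0 (posL l) (negL l)) (scl K F))

/-- check of the weight -/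
def okA (K tw sc WS : Nat) (a : List ℤ) : Bool :=
  Bool.and (Nat.ble 1 (ln a))
    ((fun l => loopA WS (Nat.mul sc (Nat.pow K (Nat.sub (ln a) 1))) tw K 0 (posL l) (negL l))
      (scl K a))

/-- Kernel-checkable condition on the data. -/
def pdOK (p : Par) (d : PD) : Bool :=
  Bool.and (Bool.and (Nat.ble 1 d.sc) (Bool.and (Nat.ble 1 d.ms) (Nat.ble 1 d.VS)))
    (Bool.and (Bool.and (Nat.beq (Int.toNat (psum d.b1)) 0) (Nat.beq (Int.toNat (psum d.b2)) 0))
      (Bool.and (okA p.K p.tw d.sc d.WS d.a)
        (Bool.and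
          (okF p.K p.tv (Nat.mul d.ms (Nat.mul d.sc (Nat.mul d.sc d.sc)))
            (polyF d.sc d.ms d.VS d.m1a d.m1b d.a d.b1))
          (okF p.K p.tv (Nat.mul d.ms (Nat.mul d.sc (Nat.mul d.sc d.sc)))
            (polyF d.sc d.ms d.VS 0 d.m2a d.a d.b2)))))

end

end Pool.Agent.Lib.H56.Gen
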