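import Pool.Agent.Lib.H56.Gen.Level

/-!
# Cusp data from integers, and the data of the levels used
-/

namespace Pool.Agent.Lib.H56.Gen

open MeasureTheory Topology

noncomputable section

/-- product of integer pairs, as elements of the order -/
def pm (q : QD) (a b : ℤ × ℤ) : ℤ × ℤ :=
  (a.1 * b.1 - q.n * (a.2 * b.2), a.1 * b.2 + a.2 * b.1 + q.t * (a.2 * b.2))

/-- twice the real part -/
def tp (q : QD) (a : ℤ × ℤ) : ℤ := 2 * a.1 + q.t * a.2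

/-- conjugate -/
def cp (q : QD) (a : ℤ × ℤ) : ℤ × ℤ := (a.1 + q.t * a.2, -a.2)

/-- norm -/
def np (q : QD) (a : ℤ × ℤ) : ℤ := a.1 ^ 2 + q.t * (a.1 * a.2) + q.n * a.2 ^ 2

/-- twice the real part of `a * conj b` -/
def bp (q : QD) (a b : ℤ × ℤ) : ℤ :=
  2 * (a.1 * b.1) + q.t * (a.1 * b.2 + a.2 * b.1) + 2 * q.n * (a.2 * b.2)

/-- determinant -/
def dp (a b : ℤ × ℤ) : ℤ := a.1 * b.2 - a.2 * b.1

/-- Integer description of the cusp data of a level: the level `p`, the quotients by `p` of the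
basis `e1`, `e2`, of the vertical parts `w1`, `w2` and of the central element, and the vertical
period in units of the square root of the discriminant. -/
structure LD (q : QD) where
  /-- level -/
  p : ℤ × ℤ
  /-- quotient for `e1` -/
  x1 : ℤ × ℤ
  /-- quotient for `e2` -/
  x2 : ℤ × ℤ
  /-- quotient for the conjugate of `e1` -/
  s1 : ℤ × ℤ
  /-- quotient for the conjugate of `e2` -/
  s2 : ℤ × ℤ
  /-- quotient for `w1` -/
  y1 : ℤ × ℤ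
  /-- quotient for `w2` -/
  y2 : ℤ × ℤ
  /-- quotient for the centre -/
  z : ℤ × ℤ
  /-- vertical period -/
  m : ℤ
  hp0 : 0 < np q p
  hs1 : pm q p s1 = cp q (pm q p x1)
  hs2 : pm q p s2 = cp q (pm q p x2)
  r1 : tp q (pm q p y1) = -np q (pm q p x1)
  r2 : tp q (pm q p y2) = -np q (pm q p x2)
  hz : tp q (pm q p z) = 0
  hz' : (pm q p z).2 = m
  hm : 0 < m
  cov : 0 < dp (pm q p x1) (pm q p x2)
  cen : ∀ a b : ℤ, tp q (pm q p (a, b)) = 0 → m ∣ (pm q p (a, b)).2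

variable {q : QD}

lemma el_pm (a b : ℤ × ℤ) : el q a.1 a.2 * el q b.1 b.2 = el q (pm q a b).1 (pm q a b).2 :=
  el_mul _ _ _ _

lemma two_re (a : ℤ × ℤ) : 2 * (el q a.1 a.2).re = tp q a := by
  rw [el_re, tp]
  push_cast
  ring

lemma two_im (a : ℤ × ℤ) : (el q a.1 a.2).im = a.2 * (sd q / 2) := by
  rw [el_im]
  ring

lemma nsq (a : ℤ × ℤ) : Complex.normSq (el q a.1 a.2) = np q a := by
  rw [normSq_el]
  rfl

/-- The cusp data. -/
def LD.K (D : LD q) : Cusp q where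
  p := el q D.p.1 D.p.2
  e1 := el q (pm q D.p D.x1).1 (pm q D.p D.x1).2
  e2 := el q (pm q D.p D.x2).1 (pm q D.p D.x2).2
  w1 := el q (pm q D.p D.y1).1 (pm q D.p D.y1).2
  w2 := el q (pm q D.p D.y2).1 (pm q D.p D.y2).2
  P := D.m * sd q
  hp := el_mem _ _
  hp0 := by
    intro h
    have h1 : Complex.normSq (el q D.p.1 D.p.2) = 0 := by rw [h]; simp
    rw [nsq] at h1
    have h2 : (0 : ℝ) < np q D.p := by exact_mod_cast D.hp0
    linarith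
  he1 := ⟨_, el_mem D.x1.1 D.x1.2, (el_pm _ _).symm⟩
  he2 := ⟨_, el_mem D.x2.1 D.x2.2, (el_pm _ _).symm⟩
  hs1 := ⟨_, el_mem D.s1.1 D.s1.2, by
    rw [el_pm, D.hs1, star_el]
    rfl⟩
  hs2 := ⟨_, el_mem D.s2.1 D.s2.2, by
    rw [el_pm, D.hs2, star_el]
    rfl⟩
  hw1 := ⟨_, el_mem D.y1.1 D.y1.2, (el_pm _ _).symm⟩
  hw2 := ⟨_, el_mem D.y2.1 D.y2.2, (el_pm _ _).symm⟩
  hw0 := by
    refine ⟨_, el_mem D.z.1 D.z.2, ?_⟩
    rw [el_pm]
    apply Complex.ext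
    · have h := two_re (q := q) (pm q D.p D.z)
      rw [D.hz] at h
      have h2 : (el q (pm q D.p D.z).1 (pm q D.p D.z).2).re = 0 := by
        push_cast at h
        linarith
      rw [h2]
    · rw [two_im, D.hz']
      ring
  r1 := by
    rw [two_re, nsq, D.r1]
    push_cast
    ring
  r2 := by
    rw [two_re, nsq, D.r2]
    push_cast
    ring
  hP := by
    have h1 : (0 : ℝ) < D.m := by exact_mod_cast D.hm
    exact mul_pos h1 (sd_pos q)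
  cov := by
    have h1 : (0 : ℝ) < dp (pm q D.p D.x1) (pm q D.p D.x2) := by exact_mod_cast D.cov
    have h2 : (el q (pm q D.p D.x1).1 (pm q D.p D.x1).2).re *
        (el q (pm q D.p D.x2).1 (pm q D.p D.x2).2).im -
        (el q (pm q D.p D.x1).1 (pm q D.p D.x1).2).im *
        (el q (pm q D.p D.x2).1 (pm q D.p D.x2).2).re =
        dp (pm q D.p D.x1) (pm q D.p D.x2) * (sd q / 2) := by
      rw [el_re, el_im, el_re, el_im, dp]
      push_cast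
      ring
    rw [h2]
    exact mul_pos h1 (half_pos (sd_pos q))
  cen := by
    rintro x ⟨a, b, rfl⟩ hx
    have e : el q D.p.1 D.p.2 * el q a b = el q (pm q D.p (a, b)).1 (pm q D.p (a, b)).2 :=
      el_pm D.p (a, b)
    rw [e] at hx ⊢
    have h1 : tp q (pm q D.p (a, b)) = 0 := by
      have h2 := two_re (q := q) (pm q D.p (a, b))
      rw [hx, mul_zero] at h2
      exact_mod_cast h2.symm
    obtain ⟨k, hk⟩ := D.cen a b h1
    refine ⟨k, ?_⟩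
    rw [two_im, hk]
    push_cast
    ring

/-- covolume in units of half the square root of the discriminant -/
def LD.D (D : LD q) : ℤ := dp (pm q D.p D.x1) (pm q D.p D.x2)

lemma LD.cv (D : LD q) : D.K.cv = D.D * (sd q / 2) := by
  unfold Cusp.cv LD.K LD.D
  simp only
  rw [el_re, el_im, el_re, el_im, dp]
  push_cast
  ring

lemma LD.cv_sq (D : LD q) : 4 * D.K.cv ^ 2 = dd q * D.D ^ 2 := by
  rw [D.cv]
  have := sd_sq q
  linear_combination (D.D : ℝ) ^ 2 * this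

/-- The quadratic form of the dual lattice. -/
lemma LD.form (D : LD q) (i j : ℤ) :
    D.K.A1 * i ^ 2 + D.K.A2 * i * j + D.K.A3 * j ^ 2 =
      (np q (pm q D.p D.x2) * i ^ 2 - bp q (pm q D.p D.x1) (pm q D.p D.x2) * (i * j) +
        np q (pm q D.p D.x1) * j ^ 2 : ℤ) / (dd q * D.D ^ 2) := by
  unfold Cusp.A1 Cusp.A2 Cusp.A3
  rw [D.cv_sq]
  have h1 : Complex.normSq D.K.e1 = np q (pm q D.p D.x1) := nsq _
  have h2 : Complex.normSq D.K.e2 = np q (pm q D.p D.x2) := nsq _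
  have h3 : 2 * (D.K.e1.re * D.K.e2.re + D.K.e1.im * D.K.e2.im) =
      bp q (pm q D.p D.x1) (pm q D.p D.x2) := by
    unfold LD.K
    simp only
    rw [el_re, el_im, el_re, el_im, bp]
    have := sd_sq' q
    push_cast
    linear_combination ((pm q D.p D.x1).2 * (pm q D.p D.x2).2 / 2 : ℝ) * this
  rw [h1, h2, h3]
  push_cast
  ring

/-- The lower bound for the dual lattice. -/
lemma LD.k0 (D : LD q) {k : ℤ} (hk : ∀ i j : ℤ, (i ≠ 0 ∨ j ≠ 0) →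
    k ≤ np q (pm q D.p D.x2) * i ^ 2 - bp q (pm q D.p D.x1) (pm q D.p D.x2) * (i * j) +
        np q (pm q D.p D.x1) * j ^ 2) (i j : ℤ) (hij : i ≠ 0 ∨ j ≠ 0) :
    (k : ℝ) / (dd q * D.D ^ 2) ≤ D.K.A1 * i ^ 2 + D.K.A2 * i * j + D.K.A3 * j ^ 2 := by
  rw [D.form]
  have h1 : (0 : ℝ) < dd q * D.D ^ 2 := by
    have h2 := dd_pos' q
    have h3 : (0 : ℝ) < D.D := by exact_mod_cast D.cov
    positivity
  have h2 : (k : ℝ) ≤ ((np q (pm q D.p D.x2) * i ^ 2 -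
      bp q (pm q D.p D.x1) (pm q D.p D.x2) * (i * j) + np q (pm q D.p D.x1) * j ^ 2 : ℤ) : ℝ) := by
    exact_mod_cast hk i j hij
  gcongr

/-- Minimum of a positive definite form with small discriminant: `4 a c - b² ≥ 4 k max(a, c)`
suffices. -/
lemma form_min {a b c k : ℤ} (ha : 0 < a) (hc : 0 < c) (hk : k ≤ a) (hk' : k ≤ c)
    (h1 : b ^ 2 ≤ a ^ 2) (h2 : b ^ 2 ≤ c ^ 2) (i j : ℤ) (hij : i ≠ 0 ∨ j ≠ 0) :
    k ≤ a * i ^ 2 - b * (i * j) + c * j ^ 2 := by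
  have ha' : |b| ≤ a := abs_le_of_sq_le_sq h1 ha.le
  have hc' : |b| ≤ c := abs_le_of_sq_le_sq h2 hc.le
  have hb : b * (i * j) ≤ |b| * (|i| * |j|) := by
    rw [← abs_mul, ← abs_mul]
    exact le_abs_self _
  have hb0 := abs_nonneg b
  have hi := abs_nonneg i
  have hj := abs_nonneg j
  rw [← sq_abs i, ← sq_abs j]
  rcases le_total (|i|) (|j|) with hle | hle
  · -- `|i| ≤ |j|`, `|j| ≥ 1`
    have hj1 : 1 ≤ |j| := by
      rcases hij with h | h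
      · have : 0 < |i| := abs_pos.mpr h
        omega
      · have : 0 < |j| := abs_pos.mpr h
        omega
    by_cases hi0 : |i| = 0
    · have h5 : c * 1 ≤ c * |j| ^ 2 := by
        apply mul_le_mul_of_nonneg_left _ hc.le
        nlinarith
      rw [hi0] at hb ⊢
      linarith
    · have hi1 : 1 ≤ |i| := by omega
      -- `a i² - b i j + c j² ≥ a i² + c (j² - i j) ≥ a`
      have h3 : |b| * (|i| * |j|) ≤ c * (|i| * |j|) := by
        apply mul_le_mul_of_nonneg_right hc' (by positivity)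
      have h4 : c * (|i| * |j|) ≤ c * |j| ^ 2 := by
        apply mul_le_mul_of_nonneg_left _ hc.le
        nlinarith
      have h5 : a * 1 ≤ a * |i| ^ 2 := by
        apply mul_le_mul_of_nonneg_left _ ha.le
        nlinarith
      linarith
  · have hi1 : 1 ≤ |i| := by
      rcases hij with h | h
      · have : 0 < |i| := abs_pos.mpr h
        omega
      · have : 0 < |j| := abs_pos.mpr h
        omega
    by_cases hj0 : |j| = 0
    · have h5 : a * 1 ≤ a * |i| ^ 2 := by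
        apply mul_le_mul_of_nonneg_left _ ha.le
        nlinarith
      rw [hj0] at hb ⊢
      linarith
    · have hj1 : 1 ≤ |j| := by omega
      have h3 : |b| * (|i| * |j|) ≤ a * (|i| * |j|) := by
        apply mul_le_mul_of_nonneg_right ha' (by positivity)
      have h4 : a * (|i| * |j|) ≤ a * |i| ^ 2 := by
        apply mul_le_mul_of_nonneg_left _ ha.le
        nlinarith
      have h5 : c * 1 ≤ c * |j| ^ 2 := by
        apply mul_le_mul_of_nonneg_left _ hc.le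
        nlinarith
      linarith

/-! ### The rings -/

/-- `ℤ[ω]`, `ω² = ω - 1`. -/
def qW : QD := ⟨1, 1, by norm_num⟩
/-- `ℤ[i]`. -/
def qI : QD := ⟨0, 1, by norm_num⟩
/-- the integers of `ℚ(√-7)`. -/
def q7 : QD := ⟨1, 2, by norm_num⟩
/-- the integers of `ℚ(√-8)`. -/
def q8 : QD := ⟨0, 2, by norm_num⟩

lemma dd_qW : (dd qW : ℝ) = 3 := by unfold dd qW; norm_num
lemma dd_qI : (dd qI : ℝ) = 4 := by unfold dd qI; norm_num
lemma dd_q7 : (dd q7 : ℝ) = 7 := by unfold dd q7; norm_num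
lemma dd_q8 : (dd q8 : ℝ) = 8 := by unfold dd q8; norm_num

lemma sd_qW : sd qW = √3 := by unfold sd; rw [dd_qW]
lemma sd_qI : sd qI = 2 := by
  unfold sd
  rw [dd_qI, show (4 : ℝ) = 2 ^ 2 by norm_num]
  exact Real.sqrt_sq (by norm_num)
lemma sd_q7 : sd q7 = √7 := by unfold sd; rw [dd_q7]
lemma sd_q8 : sd q8 = √8 := by unfold sd; rw [dd_q8]

/-- `ℤ[ω]`, level `3` -/
def dW3 : LD qW where
  p := (3, 0)
  x1 := (1, 0)
  x2 := (0, 1)
  s1 := (1, 0)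
  s2 := (1, -1)
  y1 := (-1, -1)
  y2 := (-1, -1)
  z := (-1, 2)
  m := 6
  hp0 := by simp [np, qW]
  hs1 := by simp [pm, cp, qW]
  hs2 := by simp [pm, cp, qW]
  r1 := by simp [np, tp, pm, qW]
  r2 := by simp [np, tp, pm, qW]
  hz := by simp [tp, pm, qW]
  hz' := by simp [pm, qW]
  hm := by norm_num
  cov := by simp [dp, pm, qW]
  cen := by
    intro a b h
    simp only [tp, pm, qW] at h ⊢
    omega

/-- `ℤ[ω]`, level `2 √-3` -/
def dW12 : LD qW where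
  p := (-2, 4)
  x1 := (1, 0)
  x2 := (0, 1)
  s1 := (-1, 0)
  s2 := (-1, 1)
  y1 := (0, 2)
  y2 := (0, 2)
  z := (1, 0)
  m := 4
  hp0 := by simp [np, qW]
  hs1 := by simp [pm, cp, qW]
  hs2 := by simp [pm, cp, qW]
  r1 := by simp [np, tp, pm, qW]
  r2 := by simp [np, tp, pm, qW]
  hz := by simp [tp, pm, qW]
  hz' := by simp [pm, qW]
  hm := by norm_num
  cov := by simp [dp, pm, qW]
  cen := by
    intro a b h
    simp only [tp, pm, qW] at h ⊢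
    omega

/-- `ℤ[ω]`, level `4` -/
def dW4 : LD qW where
  p := (4, 0)
  x1 := (1, 0)
  x2 := (0, 1)
  s1 := (1, 0)
  s2 := (1, -1)
  y1 := (-2, 0)
  y2 := (-2, 0)
  z := (-1, 2)
  m := 8
  hp0 := by simp [np, qW]
  hs1 := by simp [pm, cp, qW]
  hs2 := by simp [pm, cp, qW]
  r1 := by simp [np, tp, pm, qW]
  r2 := by simp [np, tp, pm, qW]
  hz := by simp [tp, pm, qW]
  hz' := by simp [pm, qW]
  hm := by norm_num
  cov := by simp [dp, pm, qW]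
  cen := by
    intro a b h
    simp only [tp, pm, qW] at h ⊢
    omega

/-- `ℤ[i]`, level `2 + 2i` -/
def dI8 : LD qI where
  p := (2, 2)
  x1 := (1, 0)
  x2 := (0, 1)
  s1 := (0, -1)
  s2 := (-1, 0)
  y1 := (-2, 0)
  y2 := (-2, 0)
  z := (1, 1)
  m := 4
  hp0 := by simp [np, qI]
  hs1 := by simp [pm, cp, qI]
  hs2 := by simp [pm, cp, qI]
  r1 := by simp [np, tp, pm, qI]
  r2 := by simp [np, tp, pm, qI]
  hz := by simp [tp, pm, qI]
  hz' := by simp [pm, qI]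
  hm := by norm_num
  cov := by simp [dp, pm, qI]
  cen := by
    intro a b h
    simp only [tp, pm, qI] at h ⊢
    omega

/-- the integers of `ℚ(√-7)`, level one -/
def d7 : LD q7 where
  p := (1, 0)
  x1 := (1, 0)
  x2 := (0, 1)
  s1 := (1, 0)
  s2 := (1, -1)
  y1 := (-1, 1)
  y2 := (-1, 0)
  z := (-1, 2)
  m := 2
  hp0 := by simp [np, q7]
  hs1 := by simp [pm, cp, q7]
  hs2 := by simp [pm, cp, q7]
  r1 := by simp [np, tp, pm, q7]
  r2 := by simp [np, tp, pm, q7]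
  hz := by simp [tp, pm, q7]
  hz' := by simp [pm, q7]
  hm := by norm_num
  cov := by simp [dp, pm, q7]
  cen := by
    intro a b h
    simp only [tp, pm, q7] at h ⊢
    omega

/-- the integers of `ℚ(√-8)`, level one -/
def d8 : LD q8 where
  p := (1, 0)
  x1 := (2, 0)
  x2 := (0, 1)
  s1 := (2, 0)
  s2 := (0, -1)
  y1 := (-2, 0)
  y2 := (-1, 0)
  z := (0, 1)
  m := 1
  hp0 := by simp [np, q8]
  hs1 := by simp [pm, cp, q8]
  hs2 := by simp [pm, cp, q8]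
  r1 := by simp [np, tp, pm, q8]
  r2 := by simp [np, tp, pm, q8]
  hz := by simp [tp, pm, q8]
  hz' := by simp [pm, q8]
  hm := by norm_num
  cov := by simp [dp, pm, q8]
  cen := by
    intro a b h
    simp only [tp, pm, q8] at h ⊢
    omega

/-! ### Bounds for the dual lattices -/

/-- Bound for the dual lattice in numbers. -/
lemma LD.k0' (D : LD q) {k ka kb : ℤ}
    (ha : 0 < np q (pm q D.p D.x2)) (hc : 0 < np q (pm q D.p D.x1))
    (h1 : k ≤ np q (pm q D.p D.x2)) (h2 : k ≤ np q (pm q D.p D.x1))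
    (h3 : bp q (pm q D.p D.x1) (pm q D.p D.x2) ^ 2 ≤ np q (pm q D.p D.x2) ^ 2)
    (h4 : bp q (pm q D.p D.x1) (pm q D.p D.x2) ^ 2 ≤ np q (pm q D.p D.x1) ^ 2)
    (hkb : 0 < kb) (hk : ka * (dd q * D.D ^ 2) ≤ k * kb) (i j : ℤ) (hij : i ≠ 0 ∨ j ≠ 0) :
    (ka : ℝ) / kb ≤ D.K.A1 * i ^ 2 + D.K.A2 * i * j + D.K.A3 * j ^ 2 := by
  refine le_trans ?_ (D.k0 (k := k) (form_min ha hc h1 h2 h3 h4) i j hij)
  have h5 : (0 : ℝ) < dd q * D.D ^ 2 := by
    have h2 := dd_pos' q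
    have h3 : (0 : ℝ) < D.D := by exact_mod_cast D.cov
    positivity
  have h6 : (0 : ℝ) < kb := by exact_mod_cast hkb
  rw [div_le_div_iff₀ h6 h5]
  exact_mod_cast hk

lemma k0_W3 (i j : ℤ) (hij : i ≠ 0 ∨ j ≠ 0) :
    ((1 : ℤ) : ℝ) / (27 : ℤ) ≤ dW3.K.A1 * i ^ 2 + dW3.K.A2 * i * j + dW3.K.A3 * j ^ 2 := by
  refine dW3.k0' (k := 9) ?_ ?_ ?_ ?_ ?_ ?_ (by norm_num) ?_ i j hij <;>
    simp [np, bp, pm, qW, dW3, dd, LD.D, dp]

lemma k0_W12 (i j : ℤ) (hij : i ≠ 0 ∨ j ≠ 0) :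
    ((1 : ℤ) : ℝ) / (36 : ℤ) ≤ dW12.K.A1 * i ^ 2 + dW12.K.A2 * i * j + dW12.K.A3 * j ^ 2 := by
  refine dW12.k0' (k := 12) ?_ ?_ ?_ ?_ ?_ ?_ (by norm_num) ?_ i j hij <;>
    simp [np, bp, pm, qW, dW12, dd, LD.D, dp]

lemma k0_W4 (i j : ℤ) (hij : i ≠ 0 ∨ j ≠ 0) :
    ((1 : ℤ) : ℝ) / (48 : ℤ) ≤ dW4.K.A1 * i ^ 2 + dW4.K.A2 * i * j + dW4.K.A3 * j ^ 2 := by
  refine dW4.k0' (k := 16) ?_ ?_ ?_ ?_ ?_ ?_ (by norm_num) ?_ i j hij <;>
    simp [np, bp, pm, qW, dW4, dd, LD.D, dp]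

lemma k0_I8 (i j : ℤ) (hij : i ≠ 0 ∨ j ≠ 0) :
    ((1 : ℤ) : ℝ) / (32 : ℤ) ≤ dI8.K.A1 * i ^ 2 + dI8.K.A2 * i * j + dI8.K.A3 * j ^ 2 := by
  refine dI8.k0' (k := 8) ?_ ?_ ?_ ?_ ?_ ?_ (by norm_num) ?_ i j hij <;>
    simp [np, bp, pm, qI, dI8, dd, LD.D, dp]

lemma k0_7 (i j : ℤ) (hij : i ≠ 0 ∨ j ≠ 0) :
    ((1 : ℤ) : ℝ) / (7 : ℤ) ≤ d7.K.A1 * i ^ 2 + d7.K.A2 * i * j + d7.K.A3 * j ^ 2 := by
  refine d7.k0' (k := 1) ?_ ?_ ?_ ?_ ?_ ?_ (by norm_num) ?_ i j hij <;>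
    simp [np, bp, pm, q7, d7, dd, LD.D, dp]

lemma k0_8 (i j : ℤ) (hij : i ≠ 0 ∨ j ≠ 0) :
    ((1 : ℤ) : ℝ) / (16 : ℤ) ≤ d8.K.A1 * i ^ 2 + d8.K.A2 * i * j + d8.K.A3 * j ^ 2 := by
  refine d8.k0' (k := 2) ?_ ?_ ?_ ?_ ?_ ?_ (by norm_num) ?_ i j hij <;>
    simp [np, bp, pm, q8, d8, dd, LD.D, dp]

/-! ### Numerical inequalities -/

lemma pi_sq_lower : (3141592 : ℝ) ^ 2 ≤ 10 ^ 12 * Real.pi ^ 2 := by
  have h := Real.pi_gt_d6
  have h1 : (3.141592 : ℝ) ^ 2 ≤ Real.pi ^ 2 := by gcongr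
  norm_num at h1 ⊢
  linarith

/-- The vertical period of integer cusp data. -/
lemma LD.P_sq (D : LD q) : D.K.P ^ 2 = ((D.m ^ 2 * dd q : ℤ) : ℝ) := by
  unfold LD.K
  simp only
  have h := sd_sq q
  push_cast
  linear_combination (D.m : ℝ) ^ 2 * h

lemma num_a {P : ℝ} {dP m ms hn hd : ℕ} (hms : 0 < ms) (hhd : 0 < hd) (hdP : 0 < dP)
    (hP : P ^ 2 ≤ dP) (hP0 : 0 < P)
    (h : m * (hd ^ 2 * dP) * 10 ^ 12 ≤ ms * (hn ^ 2 * (4 * 3141592 ^ 2))) :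
    (m : ℝ) / ms ≤ ((hn : ℝ) / hd) ^ 2 * (2 * Real.pi / P) ^ 2 := by
  have h1 : (0 : ℝ) < ms := by exact_mod_cast hms
  have h2 : (0 : ℝ) < hd := by exact_mod_cast hhd
  have h3 : (0 : ℝ) < dP := by exact_mod_cast hdP
  have h4 : (m : ℝ) * (hd ^ 2 * dP) * 10 ^ 12 ≤ ms * (hn ^ 2 * (4 * 3141592 ^ 2)) := by
    exact_mod_cast h
  have h5 := pi_sq_lower
  have h6 : (ms : ℝ) * (hn ^ 2 * (4 * 3141592 ^ 2)) ≤
      ms * (hn ^ 2 * (4 * (10 ^ 12 * Real.pi ^ 2))) := by gcongr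
  have e : ((hn : ℝ) / hd) ^ 2 * (2 * Real.pi / P) ^ 2 =
      (hn ^ 2 * (4 * Real.pi ^ 2)) / (hd ^ 2 * P ^ 2) := by
    rw [div_pow, div_pow, mul_pow]
    rw [div_mul_div_comm]
    norm_num
  rw [e, div_le_div_iff₀ h1 (by positivity)]
  have h7 : (m : ℝ) * (hd ^ 2 * P ^ 2) ≤ m * (hd ^ 2 * dP) := by gcongr
  linarith

lemma num_b {P : ℝ} {dP Pu Pv m ms hn hd : ℕ} (hms : 0 < ms) (hhd : 0 < hd)
    (hPv : 0 < Pv) (hP : P ^ 2 ≤ dP) (hP0 : 0 < P) (hPu : dP * Pv ^ 2 ≤ Pu ^ 2)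
    (h : m * (hd * Pu) * 10 ^ 6 ≤ ms * (hn * (2 * 3141592)) * Pv) :
    (m : ℝ) / ms ≤ ((hn : ℝ) / hd) * 1 * (2 * Real.pi / P) := by
  have h1 : (0 : ℝ) < ms := by exact_mod_cast hms
  have h2 : (0 : ℝ) < hd := by exact_mod_cast hhd
  have h3 : (0 : ℝ) < Pv := by exact_mod_cast hPv
  have h4 : (m : ℝ) * (hd * Pu) * 10 ^ 6 ≤ ms * (hn * (2 * 3141592)) * Pv := by
    exact_mod_cast h
  have h5 : (3141592 : ℝ) ≤ 10 ^ 6 * Real.pi := by
    have := Real.pi_gt_d6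
    norm_num at this ⊢
    linarith
  have h6 : (ms : ℝ) * (hn * (2 * 3141592)) * Pv ≤ ms * (hn * (2 * (10 ^ 6 * Real.pi))) * Pv := by
    gcongr
  have h7 : P * Pv ≤ Pu := by
    have h8 : (dP : ℝ) * Pv ^ 2 ≤ Pu ^ 2 := by exact_mod_cast hPu
    have h9 : (P * Pv) ^ 2 ≤ (Pu : ℝ) ^ 2 := by
      have : P ^ 2 * (Pv : ℝ) ^ 2 ≤ dP * Pv ^ 2 := by gcongr
      nlinarith
    exact le_of_sq_le_sq h9 (Nat.cast_nonneg _)
  have e : ((hn : ℝ) / hd) * 1 * (2 * Real.pi / P) = (hn * (2 * Real.pi)) / (hd * P) := by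
    rw [mul_one, div_mul_div_comm]
  rw [e, div_le_div_iff₀ h1 (by positivity)]
  have h10 : (m : ℝ) * (hd * P) * Pv ≤ m * (hd * Pu) := by
    calc (m : ℝ) * (hd * P) * Pv = m * (hd * (P * Pv)) := by ring
      _ ≤ _ := by gcongr
  have h11 : (m : ℝ) * (hd * P) * Pv ≤ hn * (2 * Real.pi) * ms * Pv := by linarith
  exact le_of_mul_le_mul_right h11 h3

lemma num_c {m ms hn hd : ℕ} {ka kb : ℤ} (hms : 0 < ms) (hhd : 0 < hd) (hkb : 0 < kb)
    (hka : 0 ≤ ka)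
    (h : (m : ℤ) * (hd * kb) * 10 ^ 12 ≤ ms * (hn * (4 * 3141592 ^ 2 * ka))) :
    (m : ℝ) / ms ≤ ((hn : ℝ) / hd) * (4 * Real.pi ^ 2 * ((ka : ℝ) / kb)) := by
  have h1 : (0 : ℝ) < ms := by exact_mod_cast hms
  have h2 : (0 : ℝ) < hd := by exact_mod_cast hhd
  have h3 : (0 : ℝ) < kb := by exact_mod_cast hkb
  have h3' : (0 : ℝ) ≤ ka := by exact_mod_cast hka
  have h4 : (m : ℝ) * (hd * kb) * 10 ^ 12 ≤ ms * (hn * (4 * 3141592 ^ 2 * ka)) := by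
    exact_mod_cast h
  have h5 := pi_sq_lower
  have h6 : (ms : ℝ) * (hn * (4 * 3141592 ^ 2 * ka)) ≤
      ms * (hn * (4 * (10 ^ 12 * Real.pi ^ 2) * ka)) := by gcongr
  have e : ((hn : ℝ) / hd) * (4 * Real.pi ^ 2 * ((ka : ℝ) / kb)) =
      (hn * (4 * Real.pi ^ 2 * ka)) / (hd * kb) := by
    field_simp
  rw [e, div_le_div_iff₀ h1 (by positivity)]
  linarith

end

end Pool.Agent.Lib.H56.Gen
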