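import Pool.Agent.Lib.H56.Gen.PolySound

/-!
# Polynomial weights and their tables (chunk R6)
-/

namespace Pool.Agent.Lib.H56.Gen

open Set Real

noncomputable section

/-- the function `f(h/u)` -/
lemma comp_hasDerivAt (l : List ℤ) {h u : ℝ} (hu : u ≠ 0) :
    HasDerivAt (fun u => ev l (h / u)) (dv l (h / u) * (-h / u ^ 2)) u := by
  have h1 : HasDerivAt (fun u : ℝ => h / u) (-h / u ^ 2) u := by
    have := (hasDerivAt_const u h).div (hasDerivAt_id u) hu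
    refine this.congr_deriv ?_
    simp only [id]
    ring
  exact (ev_hasDerivAt l (h / u)).comp u h1

lemma comp_continuousOn (l : List ℤ) {h : ℝ} (hh : 0 < h) :
    ContinuousOn (fun u => ev l (h / u)) (Set.Ici h) := by
  refine (ev_continuous l).comp_continuousOn ?_
  refine continuousOn_const.div continuousOn_id ?_
  intro u hu
  exact (hh.trans_le hu).ne'

lemma inv_continuousOn {h : ℝ} (hh : 0 < h) (n : ℕ) :
    ContinuousOn (fun u : ℝ => u⁻¹ ^ n) (Set.Ici h) :=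
  (continuousOn_inv₀.mono fun _ hu => (hh.trans_le hu).ne').pow n

/-- main inequality in the variable `y = h / u` -/
lemma main_ineq {a b : List ℤ} {sc ms VS ma mb t : ℕ} (hsc : 0 < sc) (hms : 0 < ms) (hVS : 0 < VS)
    {y u X : ℝ} (hu : 0 < u) (hy : 0 < y) (hA : 0 < ev a y)
    (hF : ((ms * (sc * (sc * sc)) : ℕ) * (t : ℝ)) * y ^ 2 ≤ ev (polyF sc ms VS ma mb a b) y)
    (hX : (ma : ℝ) / ms + y * ((mb : ℝ) / ms) ≤ y ^ 2 * X) :
    u⁻¹ ^ 3 * ((t : ℝ) / VS) ≤ u⁻¹ ^ 3 * (ev a y / sc * X) -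
      (-(2 * ev (pmul a b) y + y * dv (pmul a b) y) / sc ^ 2 * u⁻¹ ^ 3) -
      (ev (pmul a b) y / sc ^ 2 * u⁻¹ ^ 2) ^ 2 * (u / (ev a y / sc)) := by
  have hsc' : (0:ℝ) < sc := by exact_mod_cast hsc
  have hms' : (0:ℝ) < ms := by exact_mod_cast hms
  have hVS' : (0:ℝ) < VS := by exact_mod_cast hVS
  set D := 2 * ev (pmul a b) y + y * dv (pmul a b) y with hD
  set A := ev a y with hAd
  have e1 : (ev (pmul a b) y / sc ^ 2 * u⁻¹ ^ 2) ^ 2 * (u / (A / sc)) =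
      u⁻¹ ^ 3 * (A * ev b y ^ 2 / sc ^ 3) := by
    rw [ev_pmul, ← hAd]
    field_simp
  rw [e1]
  have e2 : u⁻¹ ^ 3 * (A / sc * X) - (-D / sc ^ 2 * u⁻¹ ^ 3) - u⁻¹ ^ 3 * (A * ev b y ^ 2 / sc ^ 3) =
      u⁻¹ ^ 3 * (A / sc * X + D / sc ^ 2 - A * ev b y ^ 2 / sc ^ 3) := by ring
  rw [e2]
  apply mul_le_mul_of_nonneg_left _ (by positivity)
  rw [ev_polyF, ← hD, ← hAd] at hF
  -- multiply by `y² VS sc³ ms`
  have hG : (0:ℝ) < y ^ 2 * VS * sc ^ 3 * ms := by positivity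
  refine le_of_mul_le_mul_left ?_ hG
  have h1 : y ^ 2 * VS * sc ^ 3 * ms * ((t : ℝ) / VS) =
      ((ms * (sc * (sc * sc)) : ℕ) * (t : ℝ)) * y ^ 2 := by
    push_cast; field_simp
  rw [h1]
  refine hF.trans ?_
  have h2 : y ^ 2 * VS * sc ^ 3 * ms * (A / sc * X + D / sc ^ 2 - A * ev b y ^ 2 / sc ^ 3) =
      VS * (sc ^ 2 * A * ms * (y ^ 2 * X) + ms * y ^ 2 * (sc * D - A * ev b y ^ 2)) := by
    field_simp
    ring
  rw [h2]
  have h3 : (ma : ℝ) + mb * y ≤ ms * (y ^ 2 * X) := by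
    have := mul_le_mul_of_nonneg_left hX hms'.le
    have e : (ms:ℝ) * ((ma : ℝ) / ms + y * ((mb : ℝ) / ms)) = ma + mb * y := by
      field_simp
    linarith
  have h4 : (sc:ℝ) ^ 2 * A * (ma + mb * y) ≤ sc ^ 2 * A * (ms * (y ^ 2 * X)) :=
    mul_le_mul_of_nonneg_left h3 (by positivity)
  apply mul_le_mul_of_nonneg_left _ hVS'.le
  linarith

theorem poly_data {p : Par} (hp : OK p) {d : PD} (hd : pdOK p d = true)
    {P k0 L : ℝ} (hP : 0 < P) (hk0 : 0 ≤ k0) (hL0 : 0 ≤ L)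
    (h1a : (d.m1a : ℝ) / d.ms ≤ ((p.hn : ℝ) / p.hd) ^ 2 * (2 * π / P) ^ 2)
    (h1b : (d.m1b : ℝ) / d.ms ≤ ((p.hn : ℝ) / p.hd) * L * (2 * π / P))
    (h2a : (d.m2a : ℝ) / d.ms ≤ ((p.hn : ℝ) / p.hd) * (4 * π ^ 2 * k0)) :
    ∃ (w V B1 B2 B1' B2' : ℝ → ℝ) (M : ℝ),
      let h : ℝ := (p.hn : ℝ) / p.hd
      ContinuousOn w (Set.Ici h) ∧ (∀ u, h ≤ u → 0 < w u) ∧
      Measurable V ∧ (∀ u, h < u → 0 ≤ V u) ∧
      (∀ u, h < u → HasDerivAt B1 (B1' u) u) ∧ (∀ u, h < u → HasDerivAt B2 (B2' u) u) ∧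
      ContinuousOn B1 (Set.Ici h) ∧ ContinuousOn B2 (Set.Ici h) ∧
      ContinuousOn B1' (Set.Ici h) ∧ ContinuousOn B2' (Set.Ici h) ∧
      B1 h ≤ 0 ∧ B2 h ≤ 0 ∧
      (∀ u, h ≤ u → |B1 u| ≤ M * u⁻¹ ^ 2) ∧ (∀ u, h ≤ u → |B2 u| ≤ M * u⁻¹ ^ 2) ∧
      (∀ u, h < u → u⁻¹ ^ 3 * V u ≤
        u⁻¹ ^ 3 * (w u * (u ^ 2 * (2 * π / P) ^ 2 + u * L * (2 * π / P))) - B1' u -
          B1 u ^ 2 * (u / w u)) ∧
      (∀ u, h < u → u⁻¹ ^ 3 * V u ≤
        u⁻¹ ^ 3 * (w u * (u * (4 * π ^ 2 * k0))) - B2' u - B2 u ^ 2 * (u / w u)) ∧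
      (∀ u, h < u → d.WS * w u ≤ tab p.tw (ix p u)) ∧
      (∀ u, h < u → d.VS * V u = tab p.tv (ix p u)) := by
  have hd' := hd
  unfold pdOK at hd'
  simp only [Bool.and_eq_true] at hd'
  obtain ⟨⟨hsc, hms, hVS⟩, ⟨hs1, hs2⟩, hokA, hok1, hok2⟩ := hd'
  have hsc : 0 < d.sc := Nat.le_of_ble_eq_true hsc
  have hms : 0 < d.ms := Nat.le_of_ble_eq_true hms
  have hVS : 0 < d.VS := Nat.le_of_ble_eq_true hVS
  have hsc' : (0:ℝ) < d.sc := by exact_mod_cast hsc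
  have hms' : (0:ℝ) < d.ms := by exact_mod_cast hms
  have hVS' : (0:ℝ) < d.VS := by exact_mod_cast hVS
  have hhn : (0:ℝ) < p.hn := by exact_mod_cast hp.hn0
  have hhd : (0:ℝ) < p.hd := by exact_mod_cast hp.hd0
  have hK := hp.K0
  have hK' : (0:ℝ) < p.K := by exact_mod_cast hp.K0
  have hsum : ∀ b : List ℤ, Nat.beq (Int.toNat (psum b)) 0 = true → ev b 1 ≤ 0 := by
    intro b hb
    have h1 : (psum b).toNat = 0 := Nat.eq_of_beq_eq_true hb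
    have h2 : psum b ≤ 0 := by omega
    rw [ev_one]
    exact_mod_cast h2
  have hb1 := hsum _ hs1
  have hb2 := hsum _ hs2
  set h : ℝ := (p.hn : ℝ) / p.hd with hh
  have hh0 : 0 < h := by positivity
  have hix : ∀ u, h < u → ix p u = ⌊(p.K : ℝ) * (h / u)⌋₊ := by
    intro u hu
    have hu0 : 0 < u := hh0.trans hu
    unfold ix
    congr 1
    rw [hh]
    field_simp
  have hy : ∀ u, h < u → 0 < h / u ∧ h / u < 1 := fun u hu =>
    ⟨div_pos hh0 (hh0.trans hu), (div_lt_one (hh0.trans hu)).2 hu⟩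
  have hApos : ∀ u, h ≤ u → 0 < ev d.a (h / u) := by
    intro u hu
    rcases hu.eq_or_lt with rfl | hu
    · rw [div_self hh0.ne']; exact okA_one hK hokA
    · exact (okA_sound hK hokA (hy u hu).1.le (hy u hu).2).1
  -- derivative and bounds of `B`
  have hder : ∀ b : List ℤ, ∀ u, h < u →
      HasDerivAt (fun u => ev (pmul d.a b) (h / u) / (d.sc:ℝ) ^ 2 * u⁻¹ ^ 2)
        (-(2 * ev (pmul d.a b) (h / u) + (h / u) * dv (pmul d.a b) (h / u)) / (d.sc:ℝ) ^ 2 *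
          u⁻¹ ^ 3) u := by
    intro b u hu
    have hu0 : u ≠ 0 := (hh0.trans hu).ne'
    have h1 := (comp_hasDerivAt (pmul d.a b) (h := h) hu0).div_const ((d.sc:ℝ) ^ 2)
    have h2 : HasDerivAt (fun u : ℝ => u⁻¹ ^ 2) (2 * u⁻¹ ^ 1 * (-(u ^ 2)⁻¹)) u := by
      refine ((hasDerivAt_inv hu0).pow 2).congr_deriv ?_
      norm_num
    refine (h1.mul h2).congr_deriv ?_
    field_simp
    ring
  have hcont : ∀ b : List ℤ,
      ContinuousOn (fun u => ev (pmul d.a b) (h / u) / (d.sc:ℝ) ^ 2 * u⁻¹ ^ 2) (Set.Ici h) :=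
    fun b => ((comp_continuousOn _ hh0).div_const _).mul (inv_continuousOn hh0 2)
  have hcont' : ∀ b : List ℤ,
      ContinuousOn (fun u => -(2 * ev (pmul d.a b) (h / u) + (h / u) * dv (pmul d.a b) (h / u)) /
        (d.sc:ℝ) ^ 2 * u⁻¹ ^ 3) (Set.Ici h) := by
    intro b
    have e : ∀ y, 2 * ev (pmul d.a b) y + y * dv (pmul d.a b) y = ev (pw (pmul d.a b) 2) y := by
      intro y; rw [ev_pw]; push_cast; ring
    simp only [e]
    exact ((comp_continuousOn _ hh0).neg.div_const _).mul (inv_continuousOn hh0 3)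
  have hle : ∀ b : List ℤ, ev b 1 ≤ 0 → ev (pmul d.a b) (h / h) / (d.sc:ℝ) ^ 2 * h⁻¹ ^ 2 ≤ 0 := by
    intro b hb
    rw [div_self hh0.ne', ev_pmul]
    have h1 := okA_one hK hokA
    have h2 : ev d.a 1 * ev b 1 ≤ 0 := mul_nonpos_of_nonneg_of_nonpos h1.le hb
    exact mul_nonpos_of_nonpos_of_nonneg (div_nonpos_of_nonpos_of_nonneg h2 (by positivity))
      (by positivity)
  have hbd : ∀ b : List ℤ, ∀ u, h ≤ u → |ev (pmul d.a b) (h / u) / (d.sc:ℝ) ^ 2 * u⁻¹ ^ 2| ≤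
      (nrm (pmul d.a b) / (d.sc:ℝ) ^ 2) * u⁻¹ ^ 2 := by
    intro b u hu
    have hu0 : 0 < u := hh0.trans_le hu
    rw [abs_mul, abs_div, abs_of_nonneg (by positivity : (0:ℝ) ≤ u⁻¹ ^ 2),
      abs_of_nonneg (by positivity : (0:ℝ) ≤ (d.sc:ℝ) ^ 2)]
    have h1 := abs_ev_le (pmul d.a b) (y := h / u) (by positivity) ((div_le_one hu0).2 hu)
    gcongr
  refine ⟨fun u => ev d.a (h / u) / d.sc, fun u => tab p.tv (ix p u) / d.VS,
    fun u => ev (pmul d.a d.b1) (h / u) / (d.sc:ℝ) ^ 2 * u⁻¹ ^ 2,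
    fun u => ev (pmul d.a d.b2) (h / u) / (d.sc:ℝ) ^ 2 * u⁻¹ ^ 2,
    fun u => -(2 * ev (pmul d.a d.b1) (h / u) + (h / u) * dv (pmul d.a d.b1) (h / u)) /
      (d.sc:ℝ) ^ 2 * u⁻¹ ^ 3,
    fun u => -(2 * ev (pmul d.a d.b2) (h / u) + (h / u) * dv (pmul d.a d.b2) (h / u)) /
      (d.sc:ℝ) ^ 2 * u⁻¹ ^ 3,
    nrm (pmul d.a d.b1) / (d.sc:ℝ) ^ 2 + nrm (pmul d.a d.b2) / (d.sc:ℝ) ^ 2, ?_⟩
  refine ⟨(comp_continuousOn _ hh0).div_const _, fun u hu => div_pos (hApos u hu) hsc', ?_,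
    fun u _ => by positivity, hder _, hder _, hcont _, hcont _, hcont' _, hcont' _,
    hle _ hb1, hle _ hb2, ?_, ?_, ?_, ?_, ?_, ?_⟩
  · -- measurability
    have h1 : Measurable (ix p) := by
      unfold ix
      exact Nat.measurable_floor.comp (measurable_const.div (measurable_const.mul measurable_id))
    have h2 : Measurable (fun n : ℕ => (tab p.tv n : ℝ)) := measurable_from_nat
    exact (h2.comp h1).div_const _
  · intro u hu
    refine (hbd _ u hu).trans ?_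
    have h1 : 0 ≤ nrm (pmul d.a d.b2) / (d.sc:ℝ) ^ 2 * u⁻¹ ^ 2 := by
      have := nrm_nonneg (pmul d.a d.b2)
      positivity
    linarith
  · intro u hu
    refine (hbd _ u hu).trans ?_
    have h1 : 0 ≤ nrm (pmul d.a d.b1) / (d.sc:ℝ) ^ 2 * u⁻¹ ^ 2 := by
      have := nrm_nonneg (pmul d.a d.b1)
      positivity
    linarith
  · intro u hu
    have hu0 : 0 < u := hh0.trans hu
    obtain ⟨hy0, hy1⟩ := hy u hu
    have hF := okF_sound hK hok1 hy0.le hy1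
    rw [← hix u hu] at hF
    refine main_ineq hsc hms hVS hu0 hy0 (hApos u hu.le) hF ?_
    have e : (h / u) ^ 2 * (u ^ 2 * (2 * π / P) ^ 2 + u * L * (2 * π / P)) =
        h ^ 2 * (2 * π / P) ^ 2 + (h / u) * (h * L * (2 * π / P)) := by
      field_simp
    rw [e]
    have := mul_le_mul_of_nonneg_left h1b hy0.le
    linarith
  · intro u hu
    have hu0 : 0 < u := hh0.trans hu
    obtain ⟨hy0, hy1⟩ := hy u hu
    have hF := okF_sound hK hok2 hy0.le hy1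
    rw [← hix u hu] at hF
    refine main_ineq hsc hms hVS hu0 hy0 (hApos u hu.le) hF ?_
    have e : (h / u) ^ 2 * (u * (4 * π ^ 2 * k0)) = (h / u) * (h * (4 * π ^ 2 * k0)) := by
      field_simp
    rw [e]
    have := mul_le_mul_of_nonneg_left h2a hy0.le
    simp only [Nat.cast_zero, zero_div, zero_add]
    linarith
  · intro u hu
    obtain ⟨hy0, hy1⟩ := hy u hu
    have h1 := (okA_sound hK hokA hy0.le hy1).2
    rw [← hix u hu] at h1
    have e : (d.WS:ℝ) * (ev d.a (h / u) / d.sc) = (d.WS * ev d.a (h / u)) / d.sc := by ring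
    show (d.WS:ℝ) * (ev d.a (h / u) / d.sc) ≤ _
    rw [e, div_le_iff₀ hsc']
    linarith
  · intro u hu
    show (d.VS:ℝ) * (tab p.tv (ix p u) / d.VS) = _
    field_simp

end

end Pool.Agent.Lib.H56.Gen
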