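import Pool.Agent.Lib.H56.Gen.Bounds
import Pool.Agent.Lib.H56.Gen.PolyData
import Pool.Agent.Lib.H56.Gen.LevelData

/-!
# The spectral gap from certificates
-/

namespace Pool.Agent.Lib.H56.Gen

open Matrix hiding J
open MeasureTheory Topology
open Pool.Agent.Lib.H56.Picard hiding O Gam mem_Gam star_mem_O T_mem sg_mem
open scoped ENNReal

noncomputable section

/-- From the extended nonnegative reals to the bound for the eigenvalue. -/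
lemma bound_of_ennreal {c C VS WS bn bd : ℕ} (hWS : 0 < WS) (hVS : 0 < VS) (hc0 : 0 < c)
    (hbd : 0 < bd) (hb : bn * (C * VS) ≤ bd * (c * WS)) {x : ℝ}
    (h : (c : ℝ≥0∞) / VS ≤ (C : ℝ≥0∞) / WS * ENNReal.ofReal x) : (bn : ℝ) / bd ≤ x := by
  have hWS' : (0 : ℝ) < WS := by exact_mod_cast hWS
  have hVS' : (0 : ℝ) < VS := by exact_mod_cast hVS
  have hc' : (0 : ℝ) < c := by exact_mod_cast hc0
  have hbd' : (0 : ℝ) < bd := by exact_mod_cast hbd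
  have e1 : (c : ℝ≥0∞) / VS = ENNReal.ofReal ((c : ℝ) / VS) := by
    rw [ENNReal.ofReal_div_of_pos hVS', ENNReal.ofReal_natCast, ENNReal.ofReal_natCast]
  have e2 : (C : ℝ≥0∞) / WS = ENNReal.ofReal ((C : ℝ) / WS) := by
    rw [ENNReal.ofReal_div_of_pos hWS', ENNReal.ofReal_natCast, ENNReal.ofReal_natCast]
  rw [e1, e2, ← ENNReal.ofReal_mul (by positivity)] at h
  have h1 : (c : ℝ) / VS ≤ (C : ℝ) / WS * x := by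
    rcases le_or_gt ((C : ℝ) / WS * x) 0 with h2 | h2
    · rw [ENNReal.ofReal_of_nonpos h2] at h
      have h3 := ENNReal.ofReal_eq_zero.mp (le_zero_iff.mp h)
      have h4 : (0 : ℝ) < c / VS := by positivity
      linarith
    · exact (ENNReal.ofReal_le_ofReal_iff h2.le).mp h
  have h2 : (c : ℝ) * WS ≤ C * VS * x := by
    have h3 := mul_le_mul_of_nonneg_right h1 (mul_pos hVS' hWS').le
    have e3 : (c : ℝ) / VS * (VS * WS) = c * WS := by field_simp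
    have e4 : (C : ℝ) / WS * x * (VS * WS) = C * VS * x := by field_simp
    linarith
  have h3 : (bn : ℝ) * (C * VS) ≤ bd * (c * WS) := by exact_mod_cast hb
  have hC : (0 : ℝ) < C := by
    have h4 : (0 : ℝ) ≤ C := Nat.cast_nonneg C
    rcases h4.eq_or_lt with h5 | h5
    · rw [← h5] at h2
      have h6 : (0 : ℝ) < c * WS := by positivity
      linarith
    · exact h5
  rw [div_le_iff₀ hbd']
  have h4 : (bn : ℝ) * (C * VS) ≤ x * bd * (C * VS) := by nlinarith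
  exact le_of_mul_le_mul_right h4 (by positivity)

/-- **The eigenvalue bound from certificates.** -/
theorem gap_of_cert {E : EP} {q : QD} {p : Par} {w1 w2 : ℤ × ℤ} {Le : List Ent} {Lc : List Cos}
    {tw tv : Tr} {M4 Pm U1 kf : ℕ} (hC : CertOK E q p w1 w2 Le Lc tw tv M4 Pm U1 kf)
    {d : PD} (hd : pdOK p d = true) (hWS : 0 < d.WS) (hVS : 0 < d.VS) (hc0 : 0 < p.c)
    {bn bd : ℕ} (hbd : 0 < bd) (hb : bn * (p.C * d.VS) ≤ bd * (p.c * d.WS))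
    (K : Cusp q) {k0 L : ℝ} (hk0 : 0 ≤ k0)
    (hk : ∀ i j : ℤ, (i ≠ 0 ∨ j ≠ 0) → k0 ≤ K.A1 * i ^ 2 + K.A2 * i * j + K.A3 * j ^ 2)
    (hL0 : 0 ≤ L) (hL : L ≤ 1)
    (h1a : (d.m1a : ℝ) / d.ms ≤ ((p.hn : ℝ) / p.hd) ^ 2 * (2 * Real.pi / K.P) ^ 2)
    (h1b : (d.m1b : ℝ) / d.ms ≤ ((p.hn : ℝ) / p.hd) * L * (2 * Real.pi / K.P))
    (h2a : (d.m2a : ℝ) / d.ms ≤ ((p.hn : ℝ) / p.hd) * (4 * Real.pi ^ 2 * k0))
    {f : ℂ × ℂ → ℂ} (hf : ContDiffOn ℝ 2 f U)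
    (hinv : ∀ γ : Gam q, γ ∈ GamN q K.p → ∀ z ∈ U, f (act (mat γ.1) z) = f z) {lam : ℂ}
    (heig : ∀ z ∈ U, laplacian f z = -(lam * f z)) (hne : ∃ z ∈ U, f z ≠ 0)
    (hcus : ∀ γ : Gam q, ∀ u : ℝ, 0 < u → ∫ s in (0:ℝ)..1, ∫ t in (0:ℝ)..1, ∫ v in (0:ℝ)..K.P,
      f (act (mat γ.1) (PsiE K.e1 K.e2 s t v u)) = 0)
    (hL2 : ∀ γ : Gam q, ∫⁻ u in Set.Ioi (1:ℝ), ∫⁻ s in Set.Icc (0:ℝ) 1, ∫⁻ t in Set.Icc (0:ℝ) 1,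
      ∫⁻ v in Set.Icc (0:ℝ) K.P, ENNReal.ofReal (u⁻¹ ^ 3 *
        Complex.normSq (f (act (mat γ.1) (PsiE K.e1 K.e2 s t v u)))) ≠ ⊤) :
    lam.im = 0 ∧ (bn : ℝ) / bd ≤ lam.re := by
  obtain ⟨w, V, B1, B2, B1', B2', M, cw, hw, mV, hV0, hB1, hB2, cB1, cB2, cB1', cB2', hB1h, hB2h,
    hM1, hM2, hV1, hV2, hwt, hvt⟩ := poly_data hC.ok hd K.hP hk0 hL0 h1a h1b h2a
  have hhn : (0 : ℝ) < p.hn := by exact_mod_cast hC.ok.hn0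
  have hhd : (0 : ℝ) < p.hd := by exact_mod_cast hC.ok.hd0
  set h : ℝ := (p.hn : ℝ) / p.hd with hh
  have hpos : 0 < h := by positivity
  classical
  set wE : ℝ → ℝ≥0∞ := fun u => if u ≤ h then 0 else ENNReal.ofReal (w u) with hwE
  set vE : ℝ → ℝ≥0∞ := fun u => if u ≤ h then 0 else ENNReal.ofReal (V u) with hvE
  have a1 : ∀ u, h < u → wE u = ENNReal.ofReal (w u) := fun u hu => if_neg (not_le.mpr hu)
  have a2 : ∀ u ≤ h, wE u = 0 := fun u hu => if_pos hu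
  have a3 : ∀ u, h < u → vE u = ENNReal.ofReal (V u) := fun u hu => if_neg (not_le.mpr hu)
  have a4 : ∀ u ≤ h, vE u = 0 := fun u hu => if_pos hu
  obtain ⟨b1, b2⟩ := bounds hC hWS hVS a1 a2 a3 a4 hwt hvt
  have hWS0 : (d.WS : ℝ≥0∞) ≠ 0 := by exact_mod_cast hWS.ne'
  have hc1 : (p.c : ℝ≥0∞) / d.VS ≠ 0 := by
    rw [Ne, ENNReal.div_eq_zero_iff, not_or]
    exact ⟨by exact_mod_cast hc0.ne', ENNReal.natCast_ne_top _⟩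
  have hCt : (p.C : ℝ≥0∞) / d.WS ≠ ⊤ := ENNReal.div_ne_top (ENNReal.natCast_ne_top _) hWS0
  obtain ⟨r1, r2⟩ := main_level K hpos hk0 hk hL0 hL cw hw mV hV0 hB1 hB2 cB1 cB2 cB1' cB2' hB1h
    hB2h hM1 hM2 hV1 hV2 a1 a2 a3 a4 hCt hc1 b1 b2 hf hinv heig hne hcus hL2
  exact ⟨r1, bound_of_ennreal hWS hVS hc0 hbd hb r2⟩

/-- The eigenvalue bound for a level given by integer data, with all numerical conditions on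
natural numbers. -/
theorem gap_LD {E : EP} {q : QD} {p : Par} {w1 w2 : ℤ × ℤ} {Le : List Ent} {Lc : List Cos}
    {tw tv : Tr} {M4 Pm U1 kf : ℕ} (hC : CertOK E q p w1 w2 Le Lc tw tv M4 Pm U1 kf)
    {d : PD} (hd : pdOK p d = true) (hWS : 0 < d.WS) (hVS : 0 < d.VS) (hc0 : 0 < p.c)
    {bn bd : ℕ} (hbd : 0 < bd) (hb : bn * (p.C * d.VS) ≤ bd * (p.c * d.WS))
    (D : LD q) {ka kb : ℤ} (hka : 0 ≤ ka) (hkb : 0 < kb)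
    (hk : ∀ i j : ℤ, (i ≠ 0 ∨ j ≠ 0) →
      (ka : ℝ) / kb ≤ D.K.A1 * i ^ 2 + D.K.A2 * i * j + D.K.A3 * j ^ 2)
    {dP Pu Pv : ℕ} (hdP : D.m ^ 2 * dd q = dP) (hms : 0 < d.ms) (hPv : 0 < Pv)
    (hPu : dP * Pv ^ 2 ≤ Pu ^ 2)
    (n1 : d.m1a * (p.hd ^ 2 * dP) * 10 ^ 12 ≤ d.ms * (p.hn ^ 2 * (4 * 3141592 ^ 2)))
    (n2 : d.m1b * (p.hd * Pu) * 10 ^ 6 ≤ d.ms * (p.hn * (2 * 3141592)) * Pv)
    (n3 : (d.m2a : ℤ) * (p.hd * kb) * 10 ^ 12 ≤ d.ms * (p.hn * (4 * 3141592 ^ 2 * ka)))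
    {f : ℂ × ℂ → ℂ} (hf : ContDiffOn ℝ 2 f U)
    (hinv : ∀ γ : Gam q, γ ∈ GamN q D.K.p → ∀ z ∈ U, f (act (mat γ.1) z) = f z) {lam : ℂ}
    (heig : ∀ z ∈ U, laplacian f z = -(lam * f z)) (hne : ∃ z ∈ U, f z ≠ 0)
    (hcus : ∀ γ : Gam q, ∀ u : ℝ, 0 < u → ∫ s in (0:ℝ)..1, ∫ t in (0:ℝ)..1, ∫ v in (0:ℝ)..D.K.P,
      f (act (mat γ.1) (PsiE D.K.e1 D.K.e2 s t v u)) = 0)
    (hL2 : ∀ γ : Gam q, ∫⁻ u in Set.Ioi (1:ℝ), ∫⁻ s in Set.Icc (0:ℝ) 1, ∫⁻ t in Set.Icc (0:ℝ) 1,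
      ∫⁻ v in Set.Icc (0:ℝ) D.K.P, ENNReal.ofReal (u⁻¹ ^ 3 *
        Complex.normSq (f (act (mat γ.1) (PsiE D.K.e1 D.K.e2 s t v u)))) ≠ ⊤) :
    lam.im = 0 ∧ (bn : ℝ) / bd ≤ lam.re := by
  have hdP0 : 0 < dP := by
    have h1 := D.hm
    have h2 := dd_pos q
    have h3 : 0 < D.m ^ 2 * dd q := by positivity
    rw [hdP] at h3
    exact_mod_cast h3
  have hP2 : D.K.P ^ 2 ≤ (dP : ℝ) := by
    rw [D.P_sq, hdP]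
    push_cast
    exact le_refl _
  have hka' : (0 : ℝ) ≤ ka := by exact_mod_cast hka
  have hkb' : (0 : ℝ) < kb := by exact_mod_cast hkb
  exact gap_of_cert hC hd hWS hVS hc0 hbd hb D.K (k0 := (ka : ℝ) / kb) (L := 1) (by positivity) hk
    zero_le_one le_rfl (num_a hms hC.ok.hd0 hdP0 hP2 D.K.hP n1)
    (num_b hms hC.ok.hd0 hPv hP2 D.K.hP hPu n2) (num_c hms hC.ok.hd0 hkb hka n3) hf hinv heig hne
    hcus hL2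

/-- The statement of the eigenvalue bound `B` at the level `K`. -/
def GapAt (q : QD) (K : Cusp q) (B : ℝ) : Prop :=
  ∀ (f : ℂ × ℂ → ℂ) (lam : ℂ), ContDiffOn ℝ 2 f U →
    (∀ γ : Gam q, γ ∈ GamN q K.p → ∀ z ∈ U, f (act (mat γ.1) z) = f z) →
    (∀ z ∈ U, laplacian f z = -(lam * f z)) → (∃ z ∈ U, f z ≠ 0) →
    (∀ γ : Gam q, ∀ u : ℝ, 0 < u → ∫ s in (0:ℝ)..1, ∫ t in (0:ℝ)..1, ∫ v in (0:ℝ)..K.P,
      f (act (mat γ.1) (PsiE K.e1 K.e2 s t v u)) = 0) →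
    (∀ γ : Gam q, ∫⁻ u in Set.Ioi (1:ℝ), ∫⁻ s in Set.Icc (0:ℝ) 1, ∫⁻ t in Set.Icc (0:ℝ) 1,
      ∫⁻ v in Set.Icc (0:ℝ) K.P, ENNReal.ofReal (u⁻¹ ^ 3 *
        Complex.normSq (f (act (mat γ.1) (PsiE K.e1 K.e2 s t v u)))) ≠ ⊤) →
    lam.im = 0 ∧ B ≤ lam.re

/-- `gap_LD` in terms of `GapAt`. -/
theorem gapAt_LD {E : EP} {q : QD} {p : Par} {w1 w2 : ℤ × ℤ} {Le : List Ent} {Lc : List Cos}
    {tw tv : Tr} {M4 Pm U1 kf : ℕ} (hC : CertOK E q p w1 w2 Le Lc tw tv M4 Pm U1 kf)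
    {d : PD} (hd : pdOK p d = true) (hWS : 0 < d.WS) (hVS : 0 < d.VS) (hc0 : 0 < p.c)
    {bn bd : ℕ} (hbd : 0 < bd) (hb : bn * (p.C * d.VS) ≤ bd * (p.c * d.WS))
    (D : LD q) {ka kb : ℤ} (hka : 0 ≤ ka) (hkb : 0 < kb)
    (hk : ∀ i j : ℤ, (i ≠ 0 ∨ j ≠ 0) →
      (ka : ℝ) / kb ≤ D.K.A1 * i ^ 2 + D.K.A2 * i * j + D.K.A3 * j ^ 2)
    {dP Pu Pv : ℕ} (hdP : D.m ^ 2 * dd q = dP) (hms : 0 < d.ms) (hPv : 0 < Pv)
    (hPu : dP * Pv ^ 2 ≤ Pu ^ 2)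
    (n1 : d.m1a * (p.hd ^ 2 * dP) * 10 ^ 12 ≤ d.ms * (p.hn ^ 2 * (4 * 3141592 ^ 2)))
    (n2 : d.m1b * (p.hd * Pu) * 10 ^ 6 ≤ d.ms * (p.hn * (2 * 3141592)) * Pv)
    (n3 : (d.m2a : ℤ) * (p.hd * kb) * 10 ^ 12 ≤ d.ms * (p.hn * (4 * 3141592 ^ 2 * ka))) :
    GapAt q D.K ((bn : ℝ) / bd) := fun _ _ hf hinv heig hne hcus hL2 =>
  gap_LD hC hd hWS hVS hc0 hbd hb D hka hkb hk hdP hms hPv hPu n1 n2 n3 hf hinv heig hne hcus hL2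

end

end Pool.Agent.Lib.H56.Gen
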