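import Pool.Agent.Lib.H56.Gen.Bounds

/-!
# Kernel checkable conditions on the certificate data
-/

namespace Pool.Agent.Lib.H56.Gen

open Pool.Agent.Lib.H56.Picard hiding O Gam mem_Gam star_mem_O T_mem sg_mem

noncomputable section

/-- equality of integers -/
def eqI (a b : Int) : Bool := Nat.beq (Int.natAbs (Int.sub a b)) 0

/-- equality of rows -/
def eqRow (a b : Row) : Bool :=
  Bool.and (eqI a.c1 b.c1) (Bool.and (eqI a.c2 b.c2) (Bool.and (eqI a.d1 b.d1)
    (Bool.and (eqI a.d2 b.d2) (Bool.and (eqI a.x b.x) (eqI a.y b.y)))))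

/-- the list of rows is the list of the rows of the entries -/
def eqRL (l : List Row) : List Ent → Bool :=
  List.rec (fun m => List.rec true (fun _ _ _ => false) m)
    (fun a _ ih m => List.rec false (fun b t _ => Bool.and (eqRow a (Ent.r b)) (ih t)) m) l

/-- all entries satisfy the test -/
def allE (f : Ent → Bool) (l : List Ent) : Bool :=
  List.rec true (fun a _ ih => Bool.and (f a) ih) l

/-- an injective key -/
def keyR (E : EP) (KB : Int) (r : Row) : Nat :=
  Int.toNat (Int.add (Int.add (Int.mul (Int.add (Int.mul (Int.add (Int.mul (Int.add (Int.mul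
    (Int.add r.c1 KB) 4096) (Int.add r.c2 KB)) 4096) (Int.add r.d1 KB)) 4096)
    (Int.add r.d2 KB)) 4096) (mulE E (conjE E (r.c1, r.c2)) (r.x, r.y)).2) KB)

/-- the keys increase -/
def incK (f : Row → Nat) (l : List Ent) : Nat → Bool :=
  List.rec (fun _ => true) (fun a _ ih (prev : Nat) => Bool.and (Nat.ble (Nat.succ prev) (f a.r))
    (ih (f a.r))) l

/-- equality of cusp data -/
def eqCos (a b : Cos) : Bool :=
  Bool.and (Nat.beq a.n b.n) (Bool.and (Nat.beq a.nd b.nd) (Bool.and (Nat.beq a.a1 b.a1)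
    (Bool.and (Nat.beq a.a2 b.a2) (Bool.and (Nat.beq a.b1 b.b1) (Bool.and (Nat.beq a.b2 b.b2)
      (Bool.and (Nat.beq a.r b.r) (Bool.and (Nat.beq a.B1 b.B1) (Nat.beq a.B2 b.B2))))))))

/-- the list of cusp data belongs to the list of entries -/
def eqCL (f : Row → Cos) (l : List Cos) : List Ent → Bool :=
  List.rec (fun m => List.rec true (fun _ _ _ => false) m)
    (fun a _ ih m => List.rec false (fun b t _ => Bool.and (eqCos a (f (Ent.r b))) (ih t)) m) l

/-- the first entries of the table decrease -/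
def antiT (T : Nat) (K : Nat) : Bool :=
  Nat.rec true (fun i ih => Bool.and (Nat.ble (tab T (Nat.succ i)) (tab T i)) ih) K

/-- the parameters are admissible -/
def okP (p : Par) : Bool :=
  Bool.and (Nat.ble 1 p.M) (Bool.and (Nat.ble 1 p.K) (Bool.and (Nat.ble 1 p.hn)
    (Bool.and (Nat.ble 1 p.hd) (Bool.and (Nat.beq (Nat.shiftRight p.tw (Nat.mul 16 p.K)) 0)
      (Bool.and (Nat.beq (Nat.shiftRight p.tv (Nat.mul 16 p.K)) 0)
        (Bool.and (antiT p.tw p.K) (antiT p.tv p.K)))))))

/-! ### soundness -/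

lemma eqI_iff {a b : ℤ} : eqI a b = true ↔ a = b := by
  unfold eqI
  rw [Nat.beq_eq]
  show (a - b).natAbs = 0 ↔ _
  omega

lemma eqRow_iff {a b : Row} : eqRow a b = true ↔ a = b := by
  unfold eqRow
  simp only [Bool.and_eq_true, eqI_iff]
  cases a; cases b
  simp only [Row.mk.injEq]

lemma eqRL_sound {l : List Row} : ∀ {m : List Ent}, eqRL l m = true → l = m.map Ent.r := by
  induction l with
  | nil =>
    intro m h
    cases m with
    | nil => rfl
    | cons b t => exact absurd h (by simp [eqRL])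
  | cons a l ih =>
    intro m h
    cases m with
    | nil => exact absurd h (by simp [eqRL])
    | cons b t =>
      have h1 : Bool.and (eqRow a b.r) (eqRL l t) = true := h
      simp only [Bool.and_eq_true] at h1
      rw [List.map_cons, ← ih h1.2, eqRow_iff.mp h1.1]

lemma allE_sound {f : Ent → Bool} {l : List Ent} (h : allE f l = true) : ∀ x ∈ l, f x = true := by
  induction l with
  | nil => simp
  | cons a l ih =>
    have h1 : Bool.and (f a) (allE f l) = true := h
    simp only [Bool.and_eq_true] at h1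
    intro x hx
    rcases List.mem_cons.mp hx with rfl | hx
    · exact h1.1
    · exact ih h1.2 x hx

lemma incK_sound {f : Row → ℕ} {l : List Ent} : ∀ {k : ℕ}, incK f l k = true →
    (∀ x ∈ l, k < f x.r) ∧ (l.map Ent.r).Nodup := by
  induction l with
  | nil => intro k _; simp
  | cons a l ih =>
    intro k h
    have h1 : Bool.and (Nat.ble (k + 1) (f a.r)) (incK f l (f a.r)) = true := h
    simp only [Bool.and_eq_true, Nat.ble_eq] at h1
    obtain ⟨h2, h3⟩ := ih h1.2
    refine ⟨?_, ?_⟩
    · intro x hx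
      rcases List.mem_cons.mp hx with rfl | hx
      · omega
      · have := h2 x hx
        omega
    · rw [List.map_cons, List.nodup_cons]
      refine ⟨?_, h3⟩
      intro hm
      obtain ⟨x, hx, e⟩ := List.mem_map.mp hm
      have := h2 x hx
      rw [e] at this
      omega

lemma eqCos_iff {a b : Cos} : eqCos a b = true ↔ a = b := by
  unfold eqCos
  simp only [Bool.and_eq_true, Nat.beq_eq]
  cases a; cases b
  simp only [Cos.mk.injEq]

lemma eqCL_sound {f : Row → Cos} {l : List Cos} : ∀ {m : List Ent}, eqCL f l m = true →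
    l = m.map fun x => f x.r := by
  induction l with
  | nil =>
    intro m h
    cases m with
    | nil => rfl
    | cons b t => exact absurd h (by simp [eqCL])
  | cons a l ih =>
    intro m h
    cases m with
    | nil => exact absurd h (by simp [eqCL])
    | cons b t =>
      have h1 : Bool.and (eqCos a (f b.r)) (eqCL f l t) = true := h
      simp only [Bool.and_eq_true] at h1
      rw [List.map_cons, ← ih h1.2, eqCos_iff.mp h1.1]

lemma antiT_sound {T K : ℕ} (h : antiT T K = true) : ∀ i < K, tab T (i + 1) ≤ tab T i := by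
  induction K with
  | zero => intro i hi; omega
  | succ K ih =>
    have h1 : Bool.and (Nat.ble (tab T (K + 1)) (tab T K)) (antiT T K) = true := h
    simp only [Bool.and_eq_true, Nat.ble_eq] at h1
    intro i hi
    rcases Nat.lt_succ_iff_lt_or_eq.mp hi with h2 | rfl
    · exact ih h1.2 i h2
    · exact h1.1

lemma tab_zero {T K : ℕ} (h : Nat.shiftRight T (Nat.mul 16 K) = 0) : ∀ i, K ≤ i → tab T i = 0 := by
  intro i hi
  unfold tab
  have e : Nat.shiftRight T (Nat.mul 16 i) = 0 := by
    show T >>> (16 * i) = 0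
    have h' : T >>> (16 * K) = 0 := h
    obtain ⟨j, rfl⟩ := Nat.exists_eq_add_of_le hi
    rw [mul_add, Nat.shiftRight_add, h', Nat.zero_shiftRight]
  rw [e]
  exact Nat.zero_and _

lemma okP_sound {p : Par} (h : okP p = true) : OK p := by
  unfold okP at h
  simp only [Bool.and_eq_true, Nat.ble_eq, Nat.beq_eq] at h
  obtain ⟨h1, h2, h3, h4, h5, h6, h7, h8⟩ := h
  have zw := tab_zero h5
  have zv := tab_zero h6
  refine ⟨h1, h2, h3, h4, ?_, ?_, zw, zv⟩
  · intro i
    by_cases hi : i < p.K
    · exact antiT_sound h7 i hi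
    · rw [zw (i + 1) (by omega)]; exact Nat.zero_le _
  · intro i
    by_cases hi : i < p.K
    · exact antiT_sound h8 i hi
    · rw [zv (i + 1) (by omega)]; exact Nat.zero_le _

/-- assembly of the hypotheses -/
theorem certOK_of_checks {E : EP} {q : QD} {p : Par} {w1 w2 : ℤ × ℤ} {L : List Ent}
    {Lc : List Cos} {tw tv : Tr} {M4 Pm U1 kf : ℕ}
    (comp : Comp E q) (ep : EPok E) (epw : EPw E w1 w2) (Ms : ∀ m ∈ E.Ms, 2 ≤ nfE E m)
    (hgen : eqRL (gen E) L = true) (ent : allE (entOK E) L = true)
    (nodup : incK (keyR E 2048) L 0 = true) (par : ParOK E p) (ok : okP p = true)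
    (small : allE (fun x => smallR p.KB E x.r) L = true)
    (cos : eqCL (cosOf p.KB E) Lc L = true)
    (hM4 : p.M = 4 * M4) (hPm : (2 * Pm : ℤ) = E.Pp * p.M) (hU1 : 4 * p.hd * p.M ^ 2 ≤ p.hn * U1)
    (far : p.K * p.hn * p.M ^ 2 < (kf + 1) * (p.hd * U1)) (farV : p.c ≤ tab p.tv kf)
    (farW : tab p.tw 0 ≤ p.C)
    (W : chkW p tw M4 M4 (2 * M4) (2 * M4) Pm Pm 0 U1 Lc = true)
    (V : chkV p tv M4 M4 (2 * M4) (2 * M4) Pm Pm 0 U1 Lc = true) :
    CertOK E q p w1 w2 L Lc tw tv M4 Pm U1 kf :=
  { comp := comp, ep := ep, epw := epw, Ms := Ms, hgen := eqRL_sound hgen, ent := allE_sound ent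
    nodup := (incK_sound nodup).2, par := par, ok := okP_sound ok, small := allE_sound small
    cos := eqCL_sound cos, hM4 := hM4, hPm := hPm, hU1 := hU1, far := far, farV := farV
    farW := farW, W := W, V := V }

end

end Pool.Agent.Lib.H56.Gen
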