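import Pool.Agent.Lib.H56.Gen.Data
import Pool.Agent.Lib.H56.Gen.LevelData

/-!
# The four fields: parameters of the enumerations
-/

namespace Pool.Agent.Lib.H56.Gen

open Pool.Agent.Lib.H56.Picard hiding O Gam mem_Gam star_mem_O T_mem sg_mem

noncomputable section

/-- parameters, discriminant `-7` -/
def E7 : EP := ⟨.ofNat 1, .ofNat 2, .ofNat 1, .ofNat 0, .ofNat 0, .ofNat 1, .ofNat 2, .ofNat 3,
  .ofNat 5, .ofNat 2, [(.ofNat 0, .ofNat 1),
    (.ofNat 1, .negSucc 0),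
    (.negSucc 0, .ofNat 2),
    (.ofNat 3, .ofNat 0),
    (.ofNat 1, .ofNat 2),
    (.ofNat 3, .negSucc 1)]⟩

/-- parameters, discriminant `-8` -/
def E8 : EP := ⟨.ofNat 0, .ofNat 2, .ofNat 2, .ofNat 0, .ofNat 0, .ofNat 1, .ofNat 1, .ofNat 2,
  .ofNat 5, .ofNat 2, [(.ofNat 0, .ofNat 1),
    (.ofNat 1, .ofNat 1),
    (.ofNat 1, .negSucc 0),
    (.ofNat 3, .ofNat 1),
    (.ofNat 3, .negSucc 0),
    (.ofNat 3, .ofNat 2),
    (.ofNat 3, .negSucc 1),
    (.ofNat 1, .ofNat 3),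
    (.ofNat 1, .negSucc 2)]⟩

/-- parameters, discriminant `-3` -/
def E3 : EP := ⟨.ofNat 1, .ofNat 1, .ofNat 1, .ofNat 0, .ofNat 0, .ofNat 1, .ofNat 2, .ofNat 3,
  .ofNat 4, .ofNat 2, [(.ofNat 1, .ofNat 1),
    (.ofNat 2, .ofNat 0),
    (.ofNat 2, .ofNat 1),
    (.ofNat 3, .negSucc 0)]⟩

/-- parameters, discriminant `-4` -/
def E4 : EP := ⟨.ofNat 0, .ofNat 1, .ofNat 1, .ofNat 1, .negSucc 0, .ofNat 1, .ofNat 1, .ofNat 7,
  .ofNat 10, .ofNat 2, [(.ofNat 1, .ofNat 1), (.ofNat 2, .ofNat 1), (.ofNat 2, .negSucc 0)]⟩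

lemma comp7 : Comp E7 q7 := ⟨rfl, rfl⟩
lemma comp8 : Comp E8 q8 := ⟨rfl, rfl⟩
lemma comp3 : Comp E3 qW := ⟨rfl, rfl⟩
lemma comp4 : Comp E4 qI := ⟨rfl, rfl⟩

lemma epw7 : EPw E7 (-1, 1) (-1, 0) := ⟨by decide, by decide, ⟨1, by decide⟩, by decide⟩
lemma epw8 : EPw E8 (-2, 0) (-1, 0) := ⟨by decide, by decide, ⟨0, by decide⟩, by decide⟩
lemma epw3 : EPw E3 (-1, 1) (-1, 1) := ⟨by decide, by decide, ⟨1, by decide⟩, by decide⟩
lemma epw4 : EPw E4 (-1, 0) (-1, 0) := ⟨by decide, by decide, ⟨0, by decide⟩, by decide⟩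

lemma Ms7 : ∀ m ∈ E7.Ms, 2 ≤ nfE E7 m := by decide
lemma Ms8 : ∀ m ∈ E8.Ms, 2 ≤ nfE E8 m := by decide
lemma Ms3 : ∀ m ∈ E3.Ms, 2 ≤ nfE E3 m := by decide
lemma Ms4 : ∀ m ∈ E4.Ms, 2 ≤ nfE E4 m := by decide

lemma Bd_eq (E : EP) (n : ℤ) : Bd E n =
    (n * (alE E + (2 * absI (beE E) + 4 * gaE E)) * E.hn + 4 * E.hd).tdiv (2 * E.hn) + 1 := rfl

lemma tdiv_le {a b c : ℤ} (hb : 0 < b) (hc : 0 ≤ c) (h : a ≤ b * c) : a.tdiv b ≤ c := by
  rcases le_total 0 a with h0 | h0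
  · rw [Int.tdiv_eq_ediv_of_nonneg h0]
    exact Int.ediv_le_of_le_mul hb (by linarith [mul_comm b c])
  · have h1 : (-a).tdiv b = -(a.tdiv b) := Int.neg_tdiv a b
    have h2 : 0 ≤ (-a).tdiv b := Int.tdiv_nonneg (by omega) hb.le
    omega

lemma Bd_le {E : EP} {n c s a hn hd : ℤ} (e : alE E + (2 * absI (beE E) + 4 * gaE E) = s)
    (e1 : E.hn = hn) (e2 : E.hd = hd) (h1 : 0 < hn) (hc : 1 ≤ c)
    (hn' : n ≤ a) (hs : 0 ≤ s) (h : a * s * hn + 4 * hd ≤ (2 * hn) * (c - 1)) : Bd E n ≤ c := by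
  rw [Bd_eq, e, e1, e2]
  have := tdiv_le (a := n * s * hn + 4 * hd) (b := 2 * hn) (c := c - 1) (by omega) (by omega) (by
    have h2 : n * s * hn ≤ a * s * hn := by gcongr
    omega)
  omega

lemma ep7 : EPok E7 where
  t01 := by right; rfl
  n1 := by decide
  hn := by decide
  hd := by decide
  Pp := by decide
  tau0 := by decide
  tau := by decide
  gram := by decide
  small := by
    intro n hn
    have h1 : n ≤ 11 := by
      have : n * 3 ^ 2 < 4 * 5 ^ 2 := hn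
      omega
    have h2 : Bd E7 n ≤ 66 := Bd_le (s := 11) (hn := 3) (hd := 5) (a := 11) (by decide) rfl rfl
      (by decide) (by decide) h1 (by decide) (by decide)
    constructor
    · show 4 * (2 : ℤ) * Bd E7 n ≤ 7 * 100 ^ 2
      omega
    · show 4 * Bd E7 n ≤ 7 * 100 ^ 2
      omega
  small' := by decide

lemma ep8 : EPok E8 where
  t01 := by left; rfl
  n1 := by decide
  hn := by decide
  hd := by decide
  Pp := by decide
  tau0 := by decide
  tau := by decide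
  gram := by decide
  small := by
    intro n hn
    have h1 : n ≤ 24 := by
      have : n * 2 ^ 2 < 4 * 5 ^ 2 := hn
      omega
    have h2 : Bd E8 n ≤ 160 := Bd_le (s := 12) (hn := 2) (hd := 5) (a := 24) (by decide) rfl rfl
      (by decide) (by decide) h1 (by decide) (by decide)
    constructor
    · show 4 * (2 : ℤ) * Bd E8 n ≤ 8 * 100 ^ 2
      omega
    · show 4 * Bd E8 n ≤ 8 * 100 ^ 2
      omega
  small' := by decide

lemma ep3 : EPok E3 where
  t01 := by right; rfl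
  n1 := by decide
  hn := by decide
  hd := by decide
  Pp := by decide
  tau0 := by decide
  tau := by decide
  gram := by decide
  small := by
    intro n hn
    have h1 : n ≤ 7 := by
      have : n * 3 ^ 2 < 4 * 4 ^ 2 := hn
      omega
    have h2 : Bd E3 n ≤ 40 := Bd_le (s := 7) (hn := 3) (hd := 4) (a := 7) (by decide) rfl rfl
      (by decide) (by decide) h1 (by decide) (by decide)
    constructor
    · show 4 * (1 : ℤ) * Bd E3 n ≤ 3 * 100 ^ 2
      omega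
    · show 4 * Bd E3 n ≤ 3 * 100 ^ 2
      omega
  small' := by decide

lemma ep4 : EPok E4 where
  t01 := by left; rfl
  n1 := by decide
  hn := by decide
  hd := by decide
  Pp := by decide
  tau0 := by decide
  tau := by decide
  gram := by decide
  small := by
    intro n hn
    have h1 : n ≤ 8 := by
      have : n * 7 ^ 2 < 4 * 10 ^ 2 := hn
      omega
    have h2 : Bd E4 n ≤ 60 := Bd_le (s := 10) (hn := 7) (hd := 10) (a := 8) (by decide) rfl rfl
      (by decide) (by decide) h1 (by decide) (by decide)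
    constructor
    · show 4 * (1 : ℤ) * Bd E4 n ≤ 4 * 100 ^ 2
      omega
    · show 4 * Bd E4 n ≤ 4 * 100 ^ 2
      omega
  small' := by decide

end

end Pool.Agent.Lib.H56.Gen
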