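import Pool.Agent.Lib.H56.Gen.GreenSub1

/-!
# The energy inequality for automorphic functions of a finite index subgroup
-/

namespace Pool.Agent.Lib.H56.Gen

open Matrix MeasureTheory Topology
open Pool.Agent.Lib.H56.Picard

noncomputable section

variable {O : Subring ℂ} {hO : ∀ x ∈ O, star x ∈ O}

/-- Subgroup version of `Picard.green`. -/
theorem green_sub (hOd : ∀ B : ℝ, {x : ℂ | x ∈ O ∧ ‖x‖ ≤ B}.Finite)
    (hO1 : ∀ x ∈ O, x ≠ 0 → 1 ≤ ‖x‖) {G : Subgroup (arith O hO)}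
    (hcov : ∀ R : ℝ, ∃ K : Set (ℂ × ℂ), IsCompact K ∧ K ⊆ U ∧ ∀ z ∈ U,
      (∀ γ : arith O hO, height (act (mat γ.1) z) ≤ R) → ∃ γ : G, act (mat γ.1.1) z ∈ K)
    {w : X → ENNReal} (hw : Measurable w) {c : ENNReal} (hc0 : c ≠ 0) (hc : c ≠ ⊤)
    (hwc : ∀ᵐ z ∂mu, ∑' γ : G, w (γ • z) = c)
    {f : ℂ × ℂ → ℂ} (hf : ContDiffOn ℝ 2 f U)
    (hinv : ∀ γ : G, ∀ z ∈ U, f (act (mat γ.1.1) z) = f z) {lam : ℂ}
    (heig : ∀ z ∈ U, laplacian f z = -(lam * f z))
    (hL2 : ∫⁻ z, w z * ENNReal.ofReal (Complex.normSq (f z.1)) ∂mu ≠ ⊤)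
    (hne : ∃ z ∈ U, f z ≠ 0) :
    lam.im = 0 ∧
    ∫⁻ z, w z * ENNReal.ofReal (energy (fun z => (f z).re) z.1 +
        energy (fun z => (f z).im) z.1) ∂mu ≤
      ENNReal.ofReal lam.re * ∫⁻ z, w z * ENNReal.ofReal (Complex.normSq (f z.1)) ∂mu := by
  let e : G ≃* G.map (arith O hO).subtype :=
    G.equivMapOfInjective (arith O hO).subtype Subtype.coe_injective
  have hGO : G.map (arith O hO).subtype ≤ arith O hO := by
    rintro _ ⟨γ, _, rfl⟩
    exact γ.2
  refine green_sub_aux (G := G.map (arith O hO).subtype) hGO hOd hO1 ?_ hw hc0 hc ?_ hf ?_ heig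
    hL2 hne
  · intro R
    obtain ⟨K, hK, hKU, hKc⟩ := hcov R
    refine ⟨K, hK, hKU, fun z hz hR => ?_⟩
    obtain ⟨γ, hγ⟩ := hKc z hz hR
    exact ⟨e γ, hγ⟩
  · filter_upwards [hwc] with z hz
    rw [← e.toEquiv.tsum_eq, ← hz]
    rfl
  · rintro ⟨_, γ, hγ, rfl⟩ z hz
    exact hinv ⟨γ, hγ⟩ z hz

/-- The conjugates of `f` by representatives of the cosets of `G`. -/
def conj (G : Subgroup (arith O hO)) (f : ℂ × ℂ → ℂ) (q : arith O hO ⧸ G) (z : ℂ × ℂ) : ℂ :=
  f (act (mat (q.out : arith O hO)⁻¹.1) z)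

/-- The energy density of a composition with a group element. -/
lemma energy_comp (g : SU21) {z : ℂ × ℂ} (hz : 0 < height z) {f : ℂ × ℂ → ℝ}
    (hf : DifferentiableAt ℝ f (act (mat g) z)) :
    energy (fun w => f (act (mat g) w)) z = energy f (act (mat g) z) := by
  have hj := jf_ne_zero (mat_unitary g) hz
  have h1 : HasFDerivAt (fun w => f (act (mat g) w))
      ((fderiv ℝ f (act (mat g) z)).comp ((dact (mat g) z).restrictScalars ℝ)) z :=
    hf.hasFDerivAt.comp z ((hasFDerivAt_act hj).restrictScalars ℝ)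
  unfold energy
  rw [h1.fderiv, normL_comp g hz]

/-- Elements of a group as products of representatives and elements of the subgroup. -/
lemma bijective_out {A : Type*} [Group A] (G : Subgroup A) :
    Function.Bijective (fun p : (A ⧸ G) × G => (p.1.out : A) * p.2) := by
  constructor
  · rintro ⟨q, γ⟩ ⟨q', γ'⟩ h
    have h' : (q.out : A) * γ = (q'.out : A) * γ' := h
    have h1 : (((q.out : A) * γ : A) : A ⧸ G) = q := by
      rw [QuotientGroup.mk_mul_of_mem _ γ.2, QuotientGroup.out_eq']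
    have h2 : (((q'.out : A) * γ' : A) : A ⧸ G) = q' := by
      rw [QuotientGroup.mk_mul_of_mem _ γ'.2, QuotientGroup.out_eq']
    have h3 : q = q' := by rw [← h1, ← h2, h']
    subst h3
    have h4 : (γ : A) = γ' := mul_left_cancel h'
    rw [Subtype.ext h4]
  · intro g
    have h1 : ((g : A ⧸ G).out : A)⁻¹ * g ∈ G := by
      rw [← QuotientGroup.eq, QuotientGroup.out_eq']
    refine ⟨((g : A ⧸ G), ⟨_, h1⟩), ?_⟩
    simp

/-- Unfolding over the cosets. -/
lemma lintegral_cosets {G : Subgroup (arith O hO)} [Finite (arith O hO ⧸ G)]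
    {w : X → ENNReal} (hw : Measurable w) {φ : X → ENNReal} (hφ : Measurable φ) :
    ∫⁻ z, (∑' q : arith O hO ⧸ G, w ((q.out : arith O hO) • z)) * φ z ∂mu =
      ∫⁻ z, w z * ∑' q : arith O hO ⧸ G, φ ((q.out : arith O hO)⁻¹ • z) ∂mu := by
  have := Fintype.ofFinite (arith O hO ⧸ G)
  simp only [← ENNReal.tsum_mul_right, ← ENNReal.tsum_mul_left]
  rw [lintegral_tsum, lintegral_tsum]
  · refine tsum_congr fun q => ?_
    have h3 := (measurePreserving_smul (q.out : arith O hO) (mu : Measure X)).lintegral_comp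
      (f := fun z => w z * φ ((q.out : arith O hO)⁻¹ • z))
      (hw.mul (hφ.comp (measurable_const_smul (q.out : arith O hO)⁻¹)))
    rw [← h3]
    simp
  · intro q
    exact (hw.mul (hφ.comp (measurable_const_smul (q.out : arith O hO)⁻¹))).aemeasurable
  · intro q
    exact ((hw.comp (measurable_const_smul (q.out : arith O hO))).mul hφ).aemeasurable

/-- The energy inequality at level `G`, in terms of a weight for the full group. -/
theorem green_level (hOd : ∀ B : ℝ, {x : ℂ | x ∈ O ∧ ‖x‖ ≤ B}.Finite)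
    (hO1 : ∀ x ∈ O, x ≠ 0 → 1 ≤ ‖x‖)
    (hcov : ∀ R : ℝ, ∃ K : Set (ℂ × ℂ), IsCompact K ∧ K ⊆ U ∧ ∀ z ∈ U,
      (∀ γ : arith O hO, height (act (mat γ.1) z) ≤ R) → ∃ γ : arith O hO, act (mat γ.1) z ∈ K)
    {G : Subgroup (arith O hO)} (hG : G.FiniteIndex)
    {w : X → ENNReal} (hw : Measurable w) {c : ENNReal} (hc0 : c ≠ 0) (hc : c ≠ ⊤)
    (hwc : ∀ᵐ z ∂mu, ∑' γ : arith O hO, w (γ • z) = c)
    {f : ℂ × ℂ → ℂ} (hf : ContDiffOn ℝ 2 f U)
    (hinv : ∀ γ : arith O hO, γ ∈ G → ∀ z ∈ U, f (act (mat γ.1) z) = f z) {lam : ℂ}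
    (heig : ∀ z ∈ U, laplacian f z = -(lam * f z))
    (hL2 : ∀ q : arith O hO ⧸ G,
      ∫⁻ z, w z * ENNReal.ofReal (Complex.normSq (conj G f q z.1)) ∂mu ≠ ⊤)
    (hne : ∃ z ∈ U, f z ≠ 0) :
    lam.im = 0 ∧
    ∫⁻ z, w z * ∑' q : arith O hO ⧸ G, ENNReal.ofReal (energy (fun z => (conj G f q z).re) z.1 +
        energy (fun z => (conj G f q z).im) z.1) ∂mu ≤
      ENNReal.ofReal lam.re *
        ∫⁻ z, w z * ∑' q : arith O hO ⧸ G, ENNReal.ofReal (Complex.normSq (conj G f q z.1)) ∂mu := by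
  have hfinq : Finite (arith O hO ⧸ G) := Subgroup.finite_quotient_of_finiteIndex
  have := Fintype.ofFinite (arith O hO ⧸ G)
  have hcountA : Countable (arith O hO) := countable_arith hOd
  -- the weight for the subgroup
  set w' : X → ENNReal := fun z => ∑' q : arith O hO ⧸ G, w ((q.out : arith O hO) • z) with hw'
  have hw'm : Measurable w' :=
    Measurable.ennreal_tsum fun q => hw.comp (measurable_const_smul (q.out : arith O hO))
  have hw'c : ∀ᵐ z ∂mu, ∑' γ : G, w' (γ • z) = c := by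
    filter_upwards [hwc] with z hz
    rw [← hz, ← (Equiv.ofBijective _ (bijective_out G)).tsum_eq, ENNReal.tsum_prod',
      ENNReal.tsum_comm]
    refine tsum_congr fun q => tsum_congr fun γ => ?_
    have h1 : ((Equiv.ofBijective _ (bijective_out G)) (q, γ)) • z =
        (q.out : arith O hO) • (γ • z) := mul_smul (q.out : arith O hO) (γ : arith O hO) z
    rw [h1]
  -- compact sets
  have hcov' : ∀ R : ℝ, ∃ K : Set (ℂ × ℂ), IsCompact K ∧ K ⊆ U ∧ ∀ z ∈ U,
      (∀ γ : arith O hO, height (act (mat γ.1) z) ≤ R) → ∃ γ : G, act (mat γ.1.1) z ∈ K := by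
    intro R
    obtain ⟨K, hK, hKU, hKc⟩ := hcov R
    refine ⟨⋃ q : arith O hO ⧸ G, act (mat ((q.out : arith O hO)⁻¹).1) '' K,
      isCompact_iUnion fun q => hK.image_of_continuousOn fun z hz =>
        (contDiffAt_act _ (hKU hz)).continuousAt.continuousWithinAt, ?_, ?_⟩
    · rw [Set.iUnion_subset_iff]
      rintro q _ ⟨z, hz, rfl⟩
      exact act_mem_U _ (hKU hz)
    · intro z hz hR
      obtain ⟨γ, hγ⟩ := hKc z hz hR
      obtain ⟨⟨q, δ⟩, rfl⟩ := (bijective_out G).2 γ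
      refine ⟨δ, Set.mem_iUnion.2 ⟨q, _, hγ, ?_⟩⟩
      rw [act_act _ _ hz]
      congr 2
      simp
  have hinv' : ∀ γ : G, ∀ z ∈ U, f (act (mat γ.1.1) z) = f z := fun γ z hz =>
    hinv γ.1 γ.2 z hz
  -- the change of variables
  have hfc : ContinuousOn f U := hf.continuousOn
  have hnm : Measurable fun z : X => ENNReal.ofReal (Complex.normSq (f z.1)) :=
    (ENNReal.continuous_ofReal.comp (Complex.continuous_normSq.comp
      (continuousOn_iff_continuous_domRestrict.mp hfc))).measurable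
  have e1 : ∫⁻ z, w' z * ENNReal.ofReal (Complex.normSq (f z.1)) ∂mu =
      ∫⁻ z, w z * ∑' q : arith O hO ⧸ G, ENNReal.ofReal (Complex.normSq (conj G f q z.1)) ∂mu :=
    lintegral_cosets hw hnm
  have hf1 : ContDiffOn ℝ 1 (fun z => (f z).re) U :=
    (Complex.reCLM.contDiff.comp_contDiffOn hf).of_le (by norm_num)
  have hf2 : ContDiffOn ℝ 1 (fun z => (f z).im) U :=
    (Complex.imCLM.contDiff.comp_contDiffOn hf).of_le (by norm_num)
  have hem : Measurable fun z : X => ENNReal.ofReal (energy (fun z => (f z).re) z.1 +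
        energy (fun z => (f z).im) z.1) :=
    (ENNReal.continuous_ofReal.comp (continuous_restrict (φ := fun z =>
      normL z (fderiv ℝ (fun z => (f z).re) z) + normL z (fderiv ℝ (fun z => (f z).im) z))
        ((continuousOn_normL hf1).add (continuousOn_normL hf2)))).measurable
  have e2 : ∫⁻ z, w' z * ENNReal.ofReal (energy (fun z => (f z).re) z.1 +
        energy (fun z => (f z).im) z.1) ∂mu =
      ∫⁻ z, w z * ∑' q : arith O hO ⧸ G, ENNReal.ofReal (energy (fun z => (conj G f q z).re) z.1 +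
        energy (fun z => (conj G f q z).im) z.1) ∂mu := by
    refine (lintegral_cosets (G := G) hw hem).trans ?_
    refine lintegral_congr fun z => ?_
    congr 1
    refine tsum_congr fun q => ?_
    congr 2
    · exact (energy_comp ((q.out : arith O hO)⁻¹).1 z.2 ((hf1.contDiffAt (isOpen_U.mem_nhds
        (act_mem_U _ z.2))).differentiableAt (by norm_num))).symm
    · exact (energy_comp ((q.out : arith O hO)⁻¹).1 z.2 ((hf2.contDiffAt (isOpen_U.mem_nhds
        (act_mem_U _ z.2))).differentiableAt (by norm_num))).symm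
  have hL2' : ∫⁻ z, w' z * ENNReal.ofReal (Complex.normSq (f z.1)) ∂mu ≠ ⊤ := by
    rw [e1]
    simp only [tsum_fintype, Finset.mul_sum]
    rw [lintegral_finsetSum]
    · exact ENNReal.sum_ne_top.2 fun q _ => hL2 q
    · intro q _
      exact hw.mul (hnm.comp (measurable_const_smul (q.out : arith O hO)⁻¹))
  have key := green_sub hOd hO1 hcov' hw'm hc0 hc hw'c hf hinv' heig hL2' hne
  rw [e1, e2] at key
  exact key

end

end Pool.Agent.Lib.H56.Gen
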