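import Pool.Agent.Lib.H56.Picard.Green

/-!
# The energy inequality for subgroups of the arithmetic group
-/

namespace Pool.Agent.Lib.H56.Gen

open Matrix MeasureTheory Topology Picard

noncomputable section

section sub

variable {G : Subgroup SU21}

lemma locally_finite (hGd : ∀ B : ℝ, {γ : G | ∀ i j, ‖mat γ.1 i j‖ ≤ B}.Finite) {K : Set (ℂ × ℂ)}
    (hK : IsCompact K) (hKU : K ⊆ U) {z : ℂ × ℂ} (hz : z ∈ U) :
    ∃ S : Finset (G), ∀ᶠ w in 𝓝 z, w ∈ U ∧ ∀ γ ∉ S, act (mat γ.1) w ∉ K := by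
  obtain ⟨N, hN, hNU, hNc⟩ := local_compact_nhds (isOpen_U.mem_nhds hz)
  obtain ⟨B, hB⟩ := exists_entry_bound hNc hNU hK hKU
  refine ⟨(hGd B).toFinset, ?_⟩
  filter_upwards [hN] with w hw
  refine ⟨hNU hw, fun γ hγ hmem => hγ ?_⟩
  rw [Set.Finite.mem_toFinset]
  exact hB w hw γ.1 hmem

/-- Periodisation of a function over the group. -/
def Per (G : Subgroup SU21) (h : ℂ × ℂ → ℝ) (z : ℂ × ℂ) : ℝ :=
  ∑' γ : G, h (act (mat γ.1) z)

lemma per_local (hGd : ∀ B : ℝ, {γ : G | ∀ i j, ‖mat γ.1 i j‖ ≤ B}.Finite) {K : Set (ℂ × ℂ)}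
    (hK : IsCompact K) (hKU : K ⊆ U) {z : ℂ × ℂ} (hz : z ∈ U) :
    ∃ S : Finset (G), ∀ᶠ w in 𝓝 z, w ∈ U ∧ ∀ γ ∉ S, act (mat γ.1) w ∉ K :=
  locally_finite hGd hK hKU hz

lemma contDiffOn_per (hGd : ∀ B : ℝ, {γ : G | ∀ i j, ‖mat γ.1 i j‖ ≤ B}.Finite) {h : ℂ × ℂ → ℝ}
    (hh : ContDiff ℝ 1 h) (hc : HasCompactSupport h) (hs : tsupport h ⊆ U) :
    ContDiffOn ℝ 1 (Per G h) U := by
  intro z hz
  obtain ⟨S, hS⟩ := locally_finite hGd hc hs hz
  have h1 : Per G h =ᶠ[𝓝 z] fun w => ∑ γ ∈ S, h (act (mat γ.1) w) := by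
    filter_upwards [hS] with w hw
    exact tsum_eq_sum fun γ hγ => image_eq_zero_of_notMem_tsupport (hw.2 γ hγ)
  have h2 : ContDiffAt ℝ 1 (fun w => ∑ γ ∈ S, h (act (mat γ.1) w)) z :=
    ContDiffAt.sum fun γ _ => hh.contDiffAt.comp z (contDiffAt_act γ.1 hz)
  exact (h2.congr_of_eventuallyEq h1).contDiffWithinAt

lemma per_act (h : ℂ × ℂ → ℝ) (δ : G) {z : ℂ × ℂ} (hz : z ∈ U) :
    Per G h (act (mat δ.1) z) = Per G h z := by
  unfold Per
  have h1 : ∀ γ : G, act (mat γ.1) (act (mat δ.1) z) = act (mat (γ * δ).1) z := by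
    intro γ
    have := act_mul (g := mat γ.1) (h := mat δ.1) (jf_ne_zero (mat_unitary δ.1) hz)
      (jf_ne_zero (mat_unitary γ.1) (height_act_pos (mat_unitary δ.1) hz))
    rw [← this]
    rfl
  simp only [h1]
  exact (Equiv.mulRight δ).tsum_eq fun γ : G => h (act (mat γ.1) z)

lemma fderiv_per (hGd : ∀ B : ℝ, {γ : G | ∀ i j, ‖mat γ.1 i j‖ ≤ B}.Finite) {h : ℂ × ℂ → ℝ}
    (hh : ContDiff ℝ 1 h) (hc : HasCompactSupport h) (hs : tsupport h ⊆ U) {z : ℂ × ℂ}
    (hz : z ∈ U) : ∃ S : Finset (G),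
      (∀ γ ∉ S, act (mat γ.1) z ∉ tsupport h) ∧
      Per G h z = ∑ γ ∈ S, h (act (mat γ.1) z) ∧
      fderiv ℝ (Per G h) z = ∑ γ ∈ S,
        (fderiv ℝ h (act (mat γ.1) z)).comp ((dact (mat γ.1) z).restrictScalars ℝ) := by
  obtain ⟨S, hS⟩ := locally_finite hGd hc hs hz
  have h1 : Per G h =ᶠ[𝓝 z] fun w => ∑ γ ∈ S, h (act (mat γ.1) w) := by
    filter_upwards [hS] with w hw
    exact tsum_eq_sum fun γ hγ => image_eq_zero_of_notMem_tsupport (hw.2 γ hγ)
  refine ⟨S, hS.self_of_nhds.2, h1.eq_of_nhds, ?_⟩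
  rw [h1.fderiv_eq]
  exact (HasFDerivAt.fun_sum fun γ _ => fderiv_comp_act γ.1 hz
    ((hh.differentiable (by norm_num)).differentiableAt)).fderiv

/-- Derivative of an invariant function. -/
lemma fderiv_invariant {g : ℂ × ℂ → ℝ} (hg : ContDiffOn ℝ 1 g U)
    (hinv : ∀ γ : G, ∀ z ∈ U, g (act (mat γ.1) z) = g z) (γ : G)
    {z : ℂ × ℂ} (hz : z ∈ U) :
    fderiv ℝ g z = (fderiv ℝ g (act (mat γ.1) z)).comp ((dact (mat γ.1) z).restrictScalars ℝ) := by
  have h1 := fderiv_comp_act (φ := g) γ.1 hz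
    ((hg.contDiffAt (isOpen_U.mem_nhds (act_mem_U γ.1 hz))).differentiableAt (by norm_num))
  rw [← h1.fderiv]
  refine Filter.EventuallyEq.fderiv_eq ?_
  filter_upwards [isOpen_U.mem_nhds hz] with w hw
  exact (hinv γ w hw).symm

/-- The periodised first order identity. -/
lemma tsum_Bf (hGd : ∀ B : ℝ, {γ : G | ∀ i j, ‖mat γ.1 i j‖ ≤ B}.Finite) {h : ℂ × ℂ → ℝ}
    (hh : ContDiff ℝ 1 h) (hc : HasCompactSupport h) (hs : tsupport h ⊆ U)
    {f g : ℂ × ℂ → ℝ} (hg : ContDiffOn ℝ 1 g U)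
    (hfinv : ∀ γ : G, ∀ z ∈ U, f (act (mat γ.1) z) = f z)
    (hginv : ∀ γ : G, ∀ z ∈ U, g (act (mat γ.1) z) = g z)
    {z : ℂ × ℂ} (hz : z ∈ U) :
    ∑' γ : G, f (act (mat γ.1) z) * Bf (act (mat γ.1) z)
      (fderiv ℝ h (act (mat γ.1) z)) (fderiv ℝ g (act (mat γ.1) z)) =
    f z * Bf z (fderiv ℝ (Per G h) z) (fderiv ℝ g z) := by
  obtain ⟨S, hS, -, hS2⟩ := fderiv_per hGd hh hc hs hz
  rw [hS2, Bf_sum_left, Finset.mul_sum, tsum_eq_sum (s := S)]
  · refine Finset.sum_congr rfl fun γ _ => ?_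
    rw [fderiv_invariant hg hginv γ hz, Bf_comp γ.1 hz, hfinv γ z hz]
  · intro γ hγ
    have h0 : h =ᶠ[𝓝 (act (mat γ.1) z)] 0 := notMem_tsupport_iff_eventuallyEq.mp (hS γ hγ)
    rw [h0.fderiv_eq]
    simp [Pi.zero_def, Bf_zero_left]

lemma countable_sub (hGd : ∀ B : ℝ, {γ : G | ∀ i j, ‖mat γ.1 i j‖ ≤ B}.Finite) :
    Countable G := by
  rw [← Set.countable_univ_iff]
  have h1 : (Set.univ : Set G) ⊆ ⋃ n : ℕ, {γ | ∀ i j, ‖mat γ.1 i j‖ ≤ n} := by
    intro γ _
    rw [Set.mem_iUnion]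
    obtain ⟨n, hn⟩ := exists_nat_ge (∑ i : Fin 3, ∑ j : Fin 3, ‖mat γ.1 i j‖)
    refine ⟨n, fun i j => le_trans ?_ hn⟩
    have h2 : ‖mat γ.1 i j‖ ≤ ∑ j : Fin 3, ‖mat γ.1 i j‖ :=
      Finset.single_le_sum (f := fun j => ‖mat γ.1 i j‖) (fun _ _ => norm_nonneg _)
        (Finset.mem_univ j)
    have h3 : ∑ j : Fin 3, ‖mat γ.1 i j‖ ≤ ∑ i : Fin 3, ∑ j : Fin 3, ‖mat γ.1 i j‖ :=
      Finset.single_le_sum (f := fun i => ∑ j : Fin 3, ‖mat γ.1 i j‖)
        (fun _ _ => Finset.sum_nonneg fun _ _ => norm_nonneg _) (Finset.mem_univ i)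
    exact h2.trans h3
  exact (Set.countable_iUnion fun n : ℕ => (hGd n).countable).mono h1

end sub

section group

variable {O : Subring ℂ} {hO : ∀ x ∈ O, star x ∈ O} {G : Subgroup SU21}

/-- Existence of the test function whose periodisation is the square of the invariant cut-off. -/
lemma exists_test (hGO : G ≤ arith O hO)
    (hGd : ∀ B : ℝ, {γ : G | ∀ i j, ‖mat γ.1 i j‖ ≤ B}.Finite)
    (hO1 : ∀ x ∈ O, x ≠ 0 → 1 ≤ ‖x‖)
    (hcov : ∀ R : ℝ, ∃ K : Set (ℂ × ℂ), IsCompact K ∧ K ⊆ U ∧ ∀ z ∈ U,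
      (∀ γ : arith O hO, height (act (mat γ.1) z) ≤ R) → ∃ γ : G, act (mat γ.1) z ∈ K)
    {R : ℝ} (hR : 3 ≤ R) :
    ∃ h : ℂ × ℂ → ℝ, ContDiff ℝ 1 h ∧ HasCompactSupport h ∧ tsupport h ⊆ U ∧ (∀ z, 0 ≤ h z) ∧
      ∀ z ∈ U, Per G h z = cutH O hO (qR R) z ^ 2 := by
  have hR0 : 0 < R := by linarith
  obtain ⟨K, hK, hKU, hKc⟩ := hcov (2 * R)
  obtain ⟨V, hVo, hKV, hVU, hVc⟩ := exists_open_between_and_isCompact_closure hK isOpen_U hKU
  obtain ⟨χ, hχs, hχd, hχr⟩ := hVo.exists_contDiff_support_eq (n := 1)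
  have hχd' : ContDiff ℝ 1 χ := hχd
  have hχt : tsupport χ = closure V := by rw [tsupport, hχs]
  have hχc : HasCompactSupport χ := by rw [HasCompactSupport, hχt]; exact hVc
  have hχU : tsupport χ ⊆ U := by rw [hχt]; exact hVU
  have hχ0 : ∀ z, 0 ≤ χ z := fun z => (hχr ⟨z, rfl⟩).1
  have hηd : ContDiffOn ℝ 1 (cutH O hO (qR R)) U :=
    contDiffOn_cutH hO1 hR (fun u hu => qR_eq_one hR0 hu) (contDiff_qR R)
  have hPd : ContDiffOn ℝ 1 (Per G χ) U := contDiffOn_per hGd hχd' hχc hχU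
  -- positivity
  have hpos : ∀ z ∈ U, Per G χ z = 0 → ∃ γ : arith O hO, 2 * R < height (act (mat γ.1) z) := by
    intro z hz h0
    by_contra hcon
    push Not at hcon
    obtain ⟨γ, hγ⟩ := hKc z hz hcon
    obtain ⟨S, hS, hS1, -⟩ := fderiv_per hGd hχd' hχc hχU hz
    have h1 : 0 < χ (act (mat γ.1) z) := by
      have h2 : act (mat γ.1) z ∈ Function.support χ := by rw [hχs]; exact hKV hγ
      exact lt_of_le_of_ne (hχ0 _) (Ne.symm h2)
    have h3 : γ ∈ S := by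
      by_contra hγS
      exact hS γ hγS (subset_tsupport _ (by rw [hχs]; exact hKV hγ))
    have h4 : 0 < ∑ γ ∈ S, χ (act (mat γ.1) z) :=
      Finset.sum_pos' (fun _ _ => hχ0 _) ⟨γ, h3, h1⟩
    rw [← hS1, h0] at h4
    exact lt_irrefl _ h4
  have hη0 : ∀ z ∈ U, Per G χ z = 0 → cutH O hO (qR R) =ᶠ[𝓝 z] fun _ => 0 := by
    intro z hz h0
    obtain ⟨γ, hγ⟩ := hpos z hz h0
    have hcont : ContinuousAt (fun w => height (act (mat γ.1) w)) z :=
      continuous_height.continuousAt.comp (contDiffAt_act γ.1 hz).continuousAt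
    filter_upwards [isOpen_U.mem_nhds hz, hcont.eventually_const_lt hγ] with w hw hw2
    rw [cutH_eq hO1 (qR R) γ hw (by linarith), qR_eq_zero hR0 hw2.le]
  set Q : ℂ × ℂ → ℝ := fun z => cutH O hO (qR R) z ^ 2 / Per G χ z with hQ
  have hQd : ContDiffOn ℝ 1 Q U := by
    intro z hz
    apply ContDiffAt.contDiffWithinAt
    by_cases h0 : Per G χ z = 0
    · have h1 : Q =ᶠ[𝓝 z] fun _ => 0 := by
        filter_upwards [hη0 z hz h0] with w hw
        simp only [hQ, hw]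
        simp
      exact contDiffAt_const.congr_of_eventuallyEq h1
    · exact ((hηd.contDiffAt (isOpen_U.mem_nhds hz)).pow 2).div
        (hPd.contDiffAt (isOpen_U.mem_nhds hz)) h0
  have hP0 : ∀ z, 0 ≤ Per G χ z := fun z => tsum_nonneg fun _ => hχ0 _
  refine ⟨fun z => χ z * Q z, contDiff_mul_of_tsupport hχd' hχU hQd, hχc.mul_right,
    (tsupport_mul_subset_left).trans hχU, ?_, ?_⟩
  · intro z
    exact mul_nonneg (hχ0 z) (div_nonneg (sq_nonneg _) (hP0 z))
  · intro z hz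
    have h1 : Per G (fun z => χ z * Q z) z = Per G χ z * Q z := by
      unfold Per
      rw [← tsum_mul_right]
      refine tsum_congr fun γ => ?_
      simp only [hQ]
      rw [cutH_act hO1 (qR R) ⟨γ.1, hGO γ.2⟩ hz, per_act χ γ hz]
    rw [h1]
    by_cases h0 : Per G χ z = 0
    · rw [h0, (hη0 z hz h0).eq_of_nhds]
      simp
    · simp only [hQ]
      field_simp

lemma finite_sub (hGO : G ≤ arith O hO)
    (hOd : ∀ B : ℝ, {x : ℂ | x ∈ O ∧ ‖x‖ ≤ B}.Finite) (B : ℝ) :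
    {γ : G | ∀ i j, ‖mat γ.1 i j‖ ≤ B}.Finite := by
  have h := finite_entries (hO := hO) hOd B
  refine Set.Finite.of_finite_image (f := fun γ : G => (⟨γ.1, hGO γ.2⟩ : arith O hO))
    (h.subset ?_) ?_
  · rintro _ ⟨γ, hγ, rfl⟩
    exact hγ
  · intro γ _ γ' _ h
    exact Subtype.ext (congrArg (fun x : arith O hO => x.1) h)

/-- Unfolding of an invariant function against a test function. -/
lemma unf_inv (hGd : ∀ B : ℝ, {γ : G | ∀ i j, ‖mat γ.1 i j‖ ≤ B}.Finite)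
    {w : X → ENNReal} (hw : Measurable w) {c : ENNReal} (hc : c ≠ ⊤)
    (hwc : ∀ᵐ z ∂mu, ∑' γ : G, w (γ • z) = c)
    {h η E : ℂ × ℂ → ℝ} (hh : ContDiff ℝ 1 h) (hcs : HasCompactSupport h) (hs : tsupport h ⊆ U)
    (hη : ContDiffOn ℝ 1 η U) (hP : ∀ z ∈ U, Per G h z = η z ^ 2) (hE : ContinuousOn E U)
    (hEinv : ∀ γ : G, ∀ z ∈ U, E (act (mat γ.1) z) = E z) :
    Integrable (fun z : X => h z.1 * E z.1) mu ∧
    Integrable (fun z : X => (w z).toReal * (η z.1 ^ 2 * E z.1)) mu ∧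
    c.toReal * ∫ z : X, h z.1 * E z.1 ∂mu = ∫ z : X, (w z).toReal * (η z.1 ^ 2 * E z.1) ∂mu := by
  have := countable_sub hGd
  have hcont : ContinuousOn (fun z => h z * E z) U := hh.continuous.continuousOn.mul hE
  have hint : Integrable (fun z : X => h z.1 * E z.1) mu := by
    refine integrable_mu (φ := fun z => h z * E z) hcs hs hcont fun z _ hz => ?_
    rw [image_eq_zero_of_notMem_tsupport hz, zero_mul]
  have hm : Measurable (fun z : X => h z.1 * E z.1) := (continuous_restrict hcont).measurable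
  have hsum : ∀ z : X, ∑' γ : G, (fun z : X => h z.1 * E z.1) (γ • z) =
      η z.1 ^ 2 * E z.1 := by
    intro z
    have h1 : ∀ γ : G, h (γ • z : X).1 * E (γ • z : X).1 =
        h (act (mat γ.1) z.1) * E z.1 := by
      intro γ
      have h2 : (γ • z : X).1 = act (mat γ.1) z.1 := rfl
      rw [h2, hEinv γ z.1 z.2]
    simp only [h1]
    rw [tsum_mul_right, ← hP z.1 z.2]
    rfl
  have hm2 : Measurable (fun z : X => η z.1 ^ 2 * E z.1) :=
    (continuous_restrict ((hη.continuousOn.pow 2).mul hE)).measurable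
  refine ⟨hint, unfold_integrable hw hc hwc hint hm hm2 hsum, ?_⟩
  rw [unfold_integral hw hc hwc hint hm]
  simp only [hsum]

/-- Unfolding of the first order term. -/
lemma unf_grad (hGd : ∀ B : ℝ, {γ : G | ∀ i j, ‖mat γ.1 i j‖ ≤ B}.Finite)
    {w : X → ENNReal} (hw : Measurable w) {c : ENNReal} (hc : c ≠ ⊤)
    (hwc : ∀ᵐ z ∂mu, ∑' γ : G, w (γ • z) = c)
    {h η f g : ℂ × ℂ → ℝ} (hh : ContDiff ℝ 1 h) (hcs : HasCompactSupport h) (hs : tsupport h ⊆ U)
    (hη : ContDiffOn ℝ 1 η U) (hP : ∀ z ∈ U, Per G h z = η z ^ 2)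
    (hf : ContDiffOn ℝ 1 f U) (hg : ContDiffOn ℝ 1 g U)
    (hfinv : ∀ γ : G, ∀ z ∈ U, f (act (mat γ.1) z) = f z)
    (hginv : ∀ γ : G, ∀ z ∈ U, g (act (mat γ.1) z) = g z) :
    Integrable (fun z : X => f z.1 * Bf z.1 (fderiv ℝ h z.1) (fderiv ℝ g z.1)) mu ∧
    Integrable (fun z : X => (w z).toReal *
      (2 * η z.1 * (f z.1 * Bf z.1 (fderiv ℝ η z.1) (fderiv ℝ g z.1)))) mu ∧
    c.toReal * ∫ z : X, f z.1 * Bf z.1 (fderiv ℝ h z.1) (fderiv ℝ g z.1) ∂mu =
      ∫ z : X, (w z).toReal *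
        (2 * η z.1 * (f z.1 * Bf z.1 (fderiv ℝ η z.1) (fderiv ℝ g z.1))) ∂mu := by
  have := countable_sub hGd
  have hcont : ContinuousOn (fun z => f z * Bf z (fderiv ℝ h z) (fderiv ℝ g z)) U :=
    hf.continuousOn.mul (continuousOn_Bf hg hh.contDiffOn)
  have hint : Integrable (fun z : X => f z.1 * Bf z.1 (fderiv ℝ h z.1) (fderiv ℝ g z.1)) mu := by
    refine integrable_mu (φ := fun z => f z * Bf z (fderiv ℝ h z) (fderiv ℝ g z)) hcs hs hcont
      fun z _ hz => ?_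
    have h0 : h =ᶠ[𝓝 z] 0 := notMem_tsupport_iff_eventuallyEq.mp hz
    rw [h0.fderiv_eq]
    simp [Pi.zero_def, Bf_zero_left]
  have hm : Measurable (fun z : X => f z.1 * Bf z.1 (fderiv ℝ h z.1) (fderiv ℝ g z.1)) :=
    (continuous_restrict hcont).measurable
  have hsum : ∀ z : X, ∑' γ : G,
      (fun z : X => f z.1 * Bf z.1 (fderiv ℝ h z.1) (fderiv ℝ g z.1)) (γ • z) =
      2 * η z.1 * (f z.1 * Bf z.1 (fderiv ℝ η z.1) (fderiv ℝ g z.1)) := by
    intro z
    have h1 := tsum_Bf hGd hh hcs hs hg hfinv hginv z.2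
    have h2 : fderiv ℝ (Per G h) z.1 = (2 * η z.1) • fderiv ℝ η z.1 := by
      have h3 : Per G h =ᶠ[𝓝 z.1] fun z => η z ^ 2 := by
        filter_upwards [isOpen_U.mem_nhds z.2] with v hv
        exact hP v hv
      rw [h3.fderiv_eq]
      have h4 := ((hη.contDiffAt (isOpen_U.mem_nhds z.2)).differentiableAt (by norm_num)).hasFDerivAt
      have h5 := (h4.pow 2).fderiv
      rw [h5]
      simp
    rw [h2, Bf_smul_left] at h1
    refine Eq.trans h1 ?_
    ring
  have hm2 : Measurable (fun z : X =>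
      2 * η z.1 * (f z.1 * Bf z.1 (fderiv ℝ η z.1) (fderiv ℝ g z.1))) :=
    (continuous_restrict (φ := fun z => 2 * η z * (f z * Bf z (fderiv ℝ η z) (fderiv ℝ g z)))
      ((continuousOn_const.mul hη.continuousOn).mul
        (hf.continuousOn.mul (continuousOn_Bf hg hη)))).measurable
  refine ⟨hint, unfold_integrable hw hc hwc hint hm hm2 hsum, ?_⟩
  rw [unfold_integral hw hc hwc hint hm]
  simp only [hsum]

lemma Bf_invariant {f g : ℂ × ℂ → ℝ} (hf : ContDiffOn ℝ 1 f U) (hg : ContDiffOn ℝ 1 g U)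
    (hfinv : ∀ γ : G, ∀ z ∈ U, f (act (mat γ.1) z) = f z)
    (hginv : ∀ γ : G, ∀ z ∈ U, g (act (mat γ.1) z) = g z) (γ : G) (z : ℂ × ℂ)
    (hz : z ∈ U) :
    Bf (act (mat γ.1) z) (fderiv ℝ f (act (mat γ.1) z)) (fderiv ℝ g (act (mat γ.1) z)) =
      Bf z (fderiv ℝ f z) (fderiv ℝ g z) := by
  rw [fderiv_invariant hf hfinv γ hz, fderiv_invariant hg hginv γ hz, Bf_comp γ.1 hz]

/-- The unfolded weak identity for a pair of invariant functions. -/
lemma green_pair (hGd : ∀ B : ℝ, {γ : G | ∀ i j, ‖mat γ.1 i j‖ ≤ B}.Finite)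
    {w : X → ENNReal} (hw : Measurable w) {c : ENNReal} (hc : c ≠ ⊤)
    (hwc : ∀ᵐ z ∂mu, ∑' γ : G, w (γ • z) = c)
    {h η : ℂ × ℂ → ℝ} (hh : ContDiff ℝ 1 h) (hcs : HasCompactSupport h) (hs : tsupport h ⊆ U)
    (hη : ContDiffOn ℝ 1 η U) (hP : ∀ z ∈ U, Per G h z = η z ^ 2)
    {f g k l : ℂ × ℂ → ℝ} (hf : ContDiffOn ℝ 2 f U) (hg : ContDiffOn ℝ 2 g U)
    (hk : ContDiffOn ℝ 2 k U) (hl : ContDiffOn ℝ 2 l U)
    (hfinv : ∀ γ : G, ∀ z ∈ U, f (act (mat γ.1) z) = f z)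
    (hginv : ∀ γ : G, ∀ z ∈ U, g (act (mat γ.1) z) = g z)
    (hkinv : ∀ γ : G, ∀ z ∈ U, k (act (mat γ.1) z) = k z)
    (hlinv : ∀ γ : G, ∀ z ∈ U, l (act (mat γ.1) z) = l z)
    {p q : ℝ} (hlap : ∀ z ∈ U, lapR g z = -(p * k z + q * l z)) :
    -(p * ∫ z : X, (w z).toReal * (η z.1 ^ 2 * (f z.1 * k z.1)) ∂mu +
      q * ∫ z : X, (w z).toReal * (η z.1 ^ 2 * (f z.1 * l z.1)) ∂mu) +
    ∫ z : X, (w z).toReal *
        (2 * η z.1 * (f z.1 * Bf z.1 (fderiv ℝ η z.1) (fderiv ℝ g z.1))) ∂mu +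
    ∫ z : X, (w z).toReal * (η z.1 ^ 2 * Bf z.1 (fderiv ℝ f z.1) (fderiv ℝ g z.1)) ∂mu = 0 := by
  have hf1 : ContDiffOn ℝ 1 f U := hf.of_le (by norm_num)
  have hg1 : ContDiffOn ℝ 1 g U := hg.of_le (by norm_num)
  have hlc : ContinuousOn (lapR g) U := by
    have : ContinuousOn (fun z => -(p * k z + q * l z)) U :=
      ((continuousOn_const.mul hk.continuousOn).add (continuousOn_const.mul hl.continuousOn)).neg
    exact this.congr hlap
  have h0 := green_mul hf1 hg hh hcs hs hlc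
  obtain ⟨i1, -, e1⟩ := unf_inv hGd hw hc hwc hh hcs hs hη hP
    (E := fun z => f z * k z) (hf.continuousOn.mul hk.continuousOn)
    (fun γ z hz => by rw [hfinv γ z hz, hkinv γ z hz])
  obtain ⟨i2, -, e2⟩ := unf_inv hGd hw hc hwc hh hcs hs hη hP
    (E := fun z => f z * l z) (hf.continuousOn.mul hl.continuousOn)
    (fun γ z hz => by rw [hfinv γ z hz, hlinv γ z hz])
  obtain ⟨-, -, e3⟩ := unf_inv hGd hw hc hwc hh hcs hs hη hP
    (E := fun z => Bf z (fderiv ℝ f z) (fderiv ℝ g z)) (continuousOn_Bf hg1 hf1)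
    (Bf_invariant hf1 hg1 hfinv hginv)
  obtain ⟨-, -, e4⟩ := unf_grad hGd hw hc hwc hh hcs hs hη hP hf1 hg1 hfinv hginv
  rw [← e1, ← e2, ← e3, ← e4]
  have h1 : ∫ z : X, h z.1 * (f z.1 * lapR g z.1) ∂mu =
      -(p * ∫ z : X, h z.1 * (f z.1 * k z.1) ∂mu + q * ∫ z : X, h z.1 * (f z.1 * l z.1) ∂mu) := by
    rw [← integral_const_mul, ← integral_const_mul, ← integral_add (i1.const_mul p)
      (i2.const_mul q), ← integral_neg]
    refine integral_congr_ae (Filter.Eventually.of_forall fun z => ?_)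
    simp only
    rw [hlap z.1 z.2]
    ring
  rw [h1] at h0
  linear_combination c.toReal * h0

/-- The two inequalities at a fixed cut-off. -/
lemma green_fixed (hGO : G ≤ arith O hO)
    (hOd : ∀ B : ℝ, {x : ℂ | x ∈ O ∧ ‖x‖ ≤ B}.Finite)
    (hO1 : ∀ x ∈ O, x ≠ 0 → 1 ≤ ‖x‖)
    (hcov : ∀ R : ℝ, ∃ K : Set (ℂ × ℂ), IsCompact K ∧ K ⊆ U ∧ ∀ z ∈ U,
      (∀ γ : arith O hO, height (act (mat γ.1) z) ≤ R) → ∃ γ : G, act (mat γ.1) z ∈ K)
    {w : X → ENNReal} (hw : Measurable w) {c : ENNReal} (hc : c ≠ ⊤)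
    (hwc : ∀ᵐ z ∂mu, ∑' γ : G, w (γ • z) = c)
    {f g : ℂ × ℂ → ℝ} (hf : ContDiffOn ℝ 2 f U) (hg : ContDiffOn ℝ 2 g U)
    (hfinv : ∀ γ : G, ∀ z ∈ U, f (act (mat γ.1) z) = f z)
    (hginv : ∀ γ : G, ∀ z ∈ U, g (act (mat γ.1) z) = g z)
    {a b : ℝ} (hlf : ∀ z ∈ U, lapR f z = -(a * f z - b * g z))
    (hlg : ∀ z ∈ U, lapR g z = -(a * g z + b * f z))
    (hL2 : Integrable (fun z : X => (w z).toReal * (f z.1 ^ 2 + g z.1 ^ 2)) mu)
    {C : ℝ} (hC : ∀ R : ℝ, 0 < R → ∀ u, u ^ 2 * deriv (qR R) u ^ 2 ≤ C)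
    {R ε : ℝ} (hR : 3 ≤ R) (hε : 0 < ε) :
    let η := cutH O hO (qR R)
    let D := ∫ z : X, (w z).toReal * (η z.1 ^ 2 *
      (normL z.1 (fderiv ℝ f z.1) + normL z.1 (fderiv ℝ g z.1))) ∂mu
    let A := ∫ z : X, (w z).toReal * (η z.1 ^ 2 * (f z.1 ^ 2 + g z.1 ^ 2)) ∂mu
    let δ := ∫ z : X, (Subtype.val ⁻¹' (TR O hO R) : Set X).indicator
      (fun z : X => (w z).toReal * (f z.1 ^ 2 + g z.1 ^ 2)) z ∂mu
    Integrable (fun z : X => (w z).toReal * (η z.1 ^ 2 *
      (normL z.1 (fderiv ℝ f z.1) + normL z.1 (fderiv ℝ g z.1)))) mu ∧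
    D ≤ a * A + (ε * D + C / ε * δ) ∧ |b| * A ≤ ε * D + C / ε * δ := by
  intro η D A δ
  have hGd := finite_sub hGO hOd
  have hR0 : 0 < R := by linarith
  have hC0 : 0 ≤ C := le_trans (by positivity) (hC R hR0 0)
  obtain ⟨h, hh, hcs, hs, h0, hP⟩ := exists_test hGO hGd hO1 hcov hR
  have hη : ContDiffOn ℝ 1 η U :=
    contDiffOn_cutH hO1 hR (fun u hu => qR_eq_one hR0 hu) (contDiff_qR R)
  have hf1 : ContDiffOn ℝ 1 f U := hf.of_le (by norm_num)
  have hg1 : ContDiffOn ℝ 1 g U := hg.of_le (by norm_num)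
  have hηm := fun z : ℂ × ℂ => cutH_mem (hO := hO) (qR R) (qR_mem R) z
  -- pair identities
  have p11 := green_pair hGd hw hc hwc hh hcs hs hη hP hf hf hf hg hfinv hfinv hfinv hginv
    (p := a) (q := -b) (fun z hz => by rw [hlf z hz]; ring)
  have p22 := green_pair hGd hw hc hwc hh hcs hs hη hP hg hg hf hg hginv hginv hfinv hginv
    (p := b) (q := a) (fun z hz => by rw [hlg z hz]; ring)
  have p21 := green_pair hGd hw hc hwc hh hcs hs hη hP hg hf hf hg hginv hfinv hfinv hginv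
    (p := a) (q := -b) (fun z hz => by rw [hlf z hz]; ring)
  have p12 := green_pair hGd hw hc hwc hh hcs hs hη hP hf hg hf hg hfinv hginv hfinv hginv
    (p := b) (q := a) (fun z hz => by rw [hlg z hz]; ring)
  -- integrability
  obtain ⟨-, iff', -⟩ := unf_inv hGd hw hc hwc hh hcs hs hη hP
    (E := fun z => f z * f z) (hf.continuousOn.mul hf.continuousOn)
    (fun γ z hz => by rw [hfinv γ z hz])
  obtain ⟨-, igg, -⟩ := unf_inv hGd hw hc hwc hh hcs hs hη hP
    (E := fun z => g z * g z) (hg.continuousOn.mul hg.continuousOn)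
    (fun γ z hz => by rw [hginv γ z hz])
  obtain ⟨-, dff, -⟩ := unf_inv hGd hw hc hwc hh hcs hs hη hP
    (E := fun z => Bf z (fderiv ℝ f z) (fderiv ℝ f z)) (continuousOn_Bf hf1 hf1)
    (Bf_invariant hf1 hf1 hfinv hfinv)
  obtain ⟨-, dgg, -⟩ := unf_inv hGd hw hc hwc hh hcs hs hη hP
    (E := fun z => Bf z (fderiv ℝ g z) (fderiv ℝ g z)) (continuousOn_Bf hg1 hg1)
    (Bf_invariant hg1 hg1 hginv hginv)
  obtain ⟨-, gff, -⟩ := unf_grad hGd hw hc hwc hh hcs hs hη hP hf1 hf1 hfinv hfinv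
  obtain ⟨-, ggg, -⟩ := unf_grad hGd hw hc hwc hh hcs hs hη hP hg1 hg1 hginv hginv
  obtain ⟨-, gfg, -⟩ := unf_grad hGd hw hc hwc hh hcs hs hη hP hf1 hg1 hfinv hginv
  obtain ⟨-, ggf, -⟩ := unf_grad hGd hw hc hwc hh hcs hs hη hP hg1 hf1 hginv hfinv
  have iD : Integrable (fun z : X => (w z).toReal * (η z.1 ^ 2 *
      (normL z.1 (fderiv ℝ f z.1) + normL z.1 (fderiv ℝ g z.1)))) mu := by
    refine (dff.add dgg).congr (Filter.Eventually.of_forall fun z => ?_)
    simp only [Pi.add_apply, Bf_self]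
    ring
  have eD : D = ∫ z : X, (w z).toReal * (η z.1 ^ 2 * Bf z.1 (fderiv ℝ f z.1) (fderiv ℝ f z.1)) ∂mu +
      ∫ z : X, (w z).toReal * (η z.1 ^ 2 * Bf z.1 (fderiv ℝ g z.1) (fderiv ℝ g z.1)) ∂mu := by
    rw [← integral_add dff dgg]
    refine integral_congr_ae (Filter.Eventually.of_forall fun z => ?_)
    simp only [Bf_self]
    ring
  have eA : A = ∫ z : X, (w z).toReal * (η z.1 ^ 2 * (f z.1 * f z.1)) ∂mu +
      ∫ z : X, (w z).toReal * (η z.1 ^ 2 * (g z.1 * g z.1)) ∂mu := by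
    rw [← integral_add iff' igg]
    refine integral_congr_ae (Filter.Eventually.of_forall fun z => ?_)
    simp only
    ring
  have eP : ∫ z : X, (w z).toReal * (η z.1 ^ 2 * (f z.1 * g z.1)) ∂mu =
      ∫ z : X, (w z).toReal * (η z.1 ^ 2 * (g z.1 * f z.1)) ∂mu := by
    refine integral_congr_ae (Filter.Eventually.of_forall fun z => ?_)
    simp only
    ring
  have eB : ∫ z : X, (w z).toReal * (η z.1 ^ 2 * Bf z.1 (fderiv ℝ f z.1) (fderiv ℝ g z.1)) ∂mu =
      ∫ z : X, (w z).toReal * (η z.1 ^ 2 * Bf z.1 (fderiv ℝ g z.1) (fderiv ℝ f z.1)) ∂mu := by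
    refine integral_congr_ae (Filter.Eventually.of_forall fun z => ?_)
    simp only
    rw [Bf_comm]
  set G1 := ∫ z : X, (w z).toReal *
    (2 * η z.1 * (f z.1 * Bf z.1 (fderiv ℝ η z.1) (fderiv ℝ f z.1))) ∂mu with hG1
  set G2 := ∫ z : X, (w z).toReal *
    (2 * η z.1 * (g z.1 * Bf z.1 (fderiv ℝ η z.1) (fderiv ℝ g z.1))) ∂mu with hG2
  set G3 := ∫ z : X, (w z).toReal *
    (2 * η z.1 * (f z.1 * Bf z.1 (fderiv ℝ η z.1) (fderiv ℝ g z.1))) ∂mu with hG3
  set G4 := ∫ z : X, (w z).toReal *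
    (2 * η z.1 * (g z.1 * Bf z.1 (fderiv ℝ η z.1) (fderiv ℝ f z.1))) ∂mu with hG4
  have eq1 : D = a * A - (G1 + G2) := by
    rw [eD, eA]
    linear_combination p11 + p22 - b * eP
  have eq2 : b * A = G3 - G4 := by
    rw [eA]
    linear_combination p21 - p12 + eB - a * eP
  -- pointwise bounds
  set T : Set X := Subtype.val ⁻¹' (TR O hO R) with hT
  have hTm : MeasurableSet T := measurableSet_TR hOd R
  have iT : Integrable (T.indicator (fun z : X => (w z).toReal * (f z.1 ^ 2 + g z.1 ^ 2))) mu :=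
    hL2.indicator hTm
  have hbound : ∀ (z : X) (x : ℝ), x ^ 2 ≤ ((f z.1 ^ 2 + g z.1 ^ 2) * normL z.1 (fderiv ℝ η z.1)) *
      (normL z.1 (fderiv ℝ f z.1) + normL z.1 (fderiv ℝ g z.1)) →
      |(w z).toReal * (2 * η z.1 * x)| ≤ ε * ((w z).toReal * (η z.1 ^ 2 *
        (normL z.1 (fderiv ℝ f z.1) + normL z.1 (fderiv ℝ g z.1)))) +
        C / ε * T.indicator (fun z : X => (w z).toReal * (f z.1 ^ 2 + g z.1 ^ 2)) z := by
    intro z x hx
    have hz := z.2
    have hn1 := normL_nonneg hz.le (fderiv ℝ f z.1)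
    have hn2 := normL_nonneg hz.le (fderiv ℝ g z.1)
    have hn3 := normL_nonneg hz.le (fderiv ℝ η z.1)
    have hy := young_aux (η := η z.1) hε (by positivity) (by positivity) hx
    obtain ⟨hc1, hc2⟩ := normL_fderiv_cutH (hO := hO) hO1 hR (fun u hu => qR_eq_one hR0 hu)
      (contDiff_qR R) (hC R hR0) hz
    have hw0 : 0 ≤ (w z).toReal := ENNReal.toReal_nonneg
    rw [abs_mul, abs_of_nonneg hw0]
    have h5 : (f z.1 ^ 2 + g z.1 ^ 2) * normL z.1 (fderiv ℝ η z.1) / ε ≤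
        C / ε * T.indicator (fun z : X => f z.1 ^ 2 + g z.1 ^ 2) z := by
      by_cases hzT : z ∈ T
      · rw [Set.indicator_of_mem hzT]
        rw [div_mul_eq_mul_div]
        have : (f z.1 ^ 2 + g z.1 ^ 2) * normL z.1 (fderiv ℝ η z.1) ≤
            C * (f z.1 ^ 2 + g z.1 ^ 2) := by
          rw [mul_comm C]
          exact mul_le_mul_of_nonneg_left hc1 (by positivity)
        gcongr
      · rw [Set.indicator_of_notMem hzT]
        have h6 : fderiv ℝ η z.1 = 0 := by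
          apply hc2
          intro γ
          by_contra hcon
          push Not at hcon
          exact hzT ⟨γ, hcon⟩
        rw [h6, normL_zero]
        simp
    have h7 : T.indicator (fun z : X => (w z).toReal * (f z.1 ^ 2 + g z.1 ^ 2)) z =
        (w z).toReal * T.indicator (fun z : X => f z.1 ^ 2 + g z.1 ^ 2) z := by
      by_cases hzT : z ∈ T
      · rw [Set.indicator_of_mem hzT, Set.indicator_of_mem hzT]
      · rw [Set.indicator_of_notMem hzT, Set.indicator_of_notMem hzT, mul_zero]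
    rw [h7]
    calc (w z).toReal * |2 * η z.1 * x| ≤ (w z).toReal * (ε * (η z.1 ^ 2 *
          (normL z.1 (fderiv ℝ f z.1) + normL z.1 (fderiv ℝ g z.1))) +
          (f z.1 ^ 2 + g z.1 ^ 2) * normL z.1 (fderiv ℝ η z.1) / ε) := by gcongr
      _ ≤ (w z).toReal * (ε * (η z.1 ^ 2 *
          (normL z.1 (fderiv ℝ f z.1) + normL z.1 (fderiv ℝ g z.1))) +
          C / ε * T.indicator (fun z : X => f z.1 ^ 2 + g z.1 ^ 2) z) := by gcongr
      _ = _ := by ring
  have iRHS : Integrable (fun z : X => ε * ((w z).toReal * (η z.1 ^ 2 *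
        (normL z.1 (fderiv ℝ f z.1) + normL z.1 (fderiv ℝ g z.1)))) +
        C / ε * T.indicator (fun z : X => (w z).toReal * (f z.1 ^ 2 + g z.1 ^ 2)) z) mu :=
    (iD.const_mul ε).add (iT.const_mul (C / ε))
  have eRHS : ∫ z : X, (ε * ((w z).toReal * (η z.1 ^ 2 *
        (normL z.1 (fderiv ℝ f z.1) + normL z.1 (fderiv ℝ g z.1)))) +
        C / ε * T.indicator (fun z : X => (w z).toReal * (f z.1 ^ 2 + g z.1 ^ 2)) z) ∂mu =
      ε * D + C / ε * δ := by
    rw [integral_add (iD.const_mul ε) (iT.const_mul (C / ε)), integral_const_mul,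
      integral_const_mul]
  have cs : ∀ (z : X) (s t x y : ℝ), s ^ 2 + t ^ 2 = f z.1 ^ 2 + g z.1 ^ 2 →
      x ^ 2 ≤ normL z.1 (fderiv ℝ η z.1) * normL z.1 (fderiv ℝ f z.1) →
      y ^ 2 ≤ normL z.1 (fderiv ℝ η z.1) * normL z.1 (fderiv ℝ g z.1) →
      (s * x + t * y) ^ 2 ≤ ((f z.1 ^ 2 + g z.1 ^ 2) * normL z.1 (fderiv ℝ η z.1)) *
      (normL z.1 (fderiv ℝ f z.1) + normL z.1 (fderiv ℝ g z.1)) := by
    intro z s t x y hst hx hy
    calc (s * x + t * y) ^ 2 ≤ (s ^ 2 + t ^ 2) * (x ^ 2 + y ^ 2) := by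
          nlinarith [sq_nonneg (s * y - t * x)]
      _ ≤ (s ^ 2 + t ^ 2) * (normL z.1 (fderiv ℝ η z.1) * normL z.1 (fderiv ℝ f z.1) +
          normL z.1 (fderiv ℝ η z.1) * normL z.1 (fderiv ℝ g z.1)) := by gcongr
      _ = _ := by rw [hst]; ring
  have hG12 : |G1 + G2| ≤ ε * D + C / ε * δ := by
    rw [← eRHS, hG1, hG2, ← integral_add gff ggg]
    refine (abs_integral_le_integral_abs).trans ?_
    refine integral_mono_of_nonneg (Filter.Eventually.of_forall fun z => abs_nonneg _) iRHS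
      (Filter.Eventually.of_forall fun z => ?_)
    simp only
    have hx : (w z).toReal * (2 * η z.1 * (f z.1 * Bf z.1 (fderiv ℝ η z.1) (fderiv ℝ f z.1))) +
        (w z).toReal * (2 * η z.1 * (g z.1 * Bf z.1 (fderiv ℝ η z.1) (fderiv ℝ g z.1))) =
        (w z).toReal * (2 * η z.1 * (f z.1 * Bf z.1 (fderiv ℝ η z.1) (fderiv ℝ f z.1) +
          g z.1 * Bf z.1 (fderiv ℝ η z.1) (fderiv ℝ g z.1))) := by ring
    rw [hx]
    exact hbound z _ (cs z _ _ _ _ rfl (Bf_sq_le z.2.le _ _) (Bf_sq_le z.2.le _ _))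
  have hG34 : |G3 - G4| ≤ ε * D + C / ε * δ := by
    rw [← eRHS, hG3, hG4, ← integral_sub gfg ggf]
    refine (abs_integral_le_integral_abs).trans ?_
    refine integral_mono_of_nonneg (Filter.Eventually.of_forall fun z => abs_nonneg _) iRHS
      (Filter.Eventually.of_forall fun z => ?_)
    simp only
    have hx : (w z).toReal * (2 * η z.1 * (f z.1 * Bf z.1 (fderiv ℝ η z.1) (fderiv ℝ g z.1))) -
        (w z).toReal * (2 * η z.1 * (g z.1 * Bf z.1 (fderiv ℝ η z.1) (fderiv ℝ f z.1))) =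
        (w z).toReal * (2 * η z.1 * (-g z.1 * Bf z.1 (fderiv ℝ η z.1) (fderiv ℝ f z.1) +
          f z.1 * Bf z.1 (fderiv ℝ η z.1) (fderiv ℝ g z.1))) := by ring
    rw [hx]
    exact hbound z _ (cs z _ _ _ _ (by ring) (Bf_sq_le z.2.le _ _) (Bf_sq_le z.2.le _ _))
  refine ⟨iD, ?_, ?_⟩
  · rw [abs_le] at hG12
    linarith [hG12.1]
  · have hA0 : 0 ≤ A := integral_nonneg fun z => by
      have : 0 ≤ (w z).toReal := ENNReal.toReal_nonneg
      positivity
    have h8 : |b| * A = |b * A| := by rw [abs_mul, abs_of_nonneg hA0]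
    rw [h8, eq2]
    exact hG34

/-- **The energy inequality.** A square integrable automorphic eigenfunction of the Laplacian has a
real eigenvalue, and its Dirichlet energy is at most the eigenvalue times its norm. The integral
over a fundamental domain is expressed by a weight `w` whose translates sum to a constant. -/
theorem green_sub_aux (hGO : G ≤ arith O hO)
    (hOd : ∀ B : ℝ, {x : ℂ | x ∈ O ∧ ‖x‖ ≤ B}.Finite)
    (hO1 : ∀ x ∈ O, x ≠ 0 → 1 ≤ ‖x‖)
    (hcov : ∀ R : ℝ, ∃ K : Set (ℂ × ℂ), IsCompact K ∧ K ⊆ U ∧ ∀ z ∈ U,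
      (∀ γ : arith O hO, height (act (mat γ.1) z) ≤ R) → ∃ γ : G, act (mat γ.1) z ∈ K)
    {w : X → ENNReal} (hw : Measurable w) {c : ENNReal} (hc0 : c ≠ 0) (hc : c ≠ ⊤)
    (hwc : ∀ᵐ z ∂mu, ∑' γ : G, w (γ • z) = c)
    {f : ℂ × ℂ → ℂ} (hf : ContDiffOn ℝ 2 f U)
    (hinv : ∀ γ : G, ∀ z ∈ U, f (act (mat γ.1) z) = f z) {lam : ℂ}
    (heig : ∀ z ∈ U, laplacian f z = -(lam * f z))
    (hL2 : ∫⁻ z, w z * ENNReal.ofReal (Complex.normSq (f z.1)) ∂mu ≠ ⊤)
    (hne : ∃ z ∈ U, f z ≠ 0) :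
    lam.im = 0 ∧
    ∫⁻ z, w z * ENNReal.ofReal (energy (fun z => (f z).re) z.1 +
        energy (fun z => (f z).im) z.1) ∂mu ≤
      ENNReal.ofReal lam.re * ∫⁻ z, w z * ENNReal.ofReal (Complex.normSq (f z.1)) ∂mu := by
  have hGd := finite_sub hGO hOd
  have hcount := countable_sub hGd
  set f1 : ℂ × ℂ → ℝ := fun z => (f z).re with hf1
  set f2 : ℂ × ℂ → ℝ := fun z => (f z).im with hf2
  have hf1d : ContDiffOn ℝ 2 f1 U := Complex.reCLM.contDiff.comp_contDiffOn hf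
  have hf2d : ContDiffOn ℝ 2 f2 U := Complex.imCLM.contDiff.comp_contDiffOn hf
  have hf1i : ∀ γ : G, ∀ z ∈ U, f1 (act (mat γ.1) z) = f1 z := fun γ z hz => by
    simp only [hf1, hinv γ z hz]
  have hf2i : ∀ γ : G, ∀ z ∈ U, f2 (act (mat γ.1) z) = f2 z := fun γ z hz => by
    simp only [hf2, hinv γ z hz]
  have hl1 : ∀ z ∈ U, lapR f1 z = -(lam.re * f1 z - lam.im * f2 z) := by
    intro z hz
    have h := lapR_comp Complex.reCLM hf hz
    rw [heig z hz] at h
    have h' : lapR f1 z = Complex.reCLM (-(lam * f z)) := h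
    rw [h']
    simp [hf1, hf2]
  have hl2 : ∀ z ∈ U, lapR f2 z = -(lam.re * f2 z + lam.im * f1 z) := by
    intro z hz
    have h := lapR_comp Complex.imCLM hf hz
    rw [heig z hz] at h
    have h' : lapR f2 z = Complex.imCLM (-(lam * f z)) := h
    rw [h']
    simp [hf1, hf2]
  have hnsq : ∀ z, Complex.normSq (f z) = f1 z ^ 2 + f2 z ^ 2 := by
    intro z
    rw [Complex.normSq_apply]
    ring
  have hfin : ∀ᵐ z ∂mu, w z ≠ ⊤ := by
    filter_upwards [hwc] with z hz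
    have h1 : w ((1 : G) • z) ≤ c := by
      rw [← hz]
      exact ENNReal.le_tsum _
    rw [one_smul] at h1
    exact ne_top_of_le_ne_top hc h1
  -- real and extended versions of the integrals
  have hconv : ∀ φ : X → ℝ, (∀ z, 0 ≤ φ z) →
      (fun z => w z * ENNReal.ofReal (φ z)) =ᵐ[mu] fun z => ENNReal.ofReal ((w z).toReal * φ z) := by
    intro φ hφ
    filter_upwards [hfin] with z hz
    rw [ENNReal.ofReal_mul ENNReal.toReal_nonneg, ENNReal.ofReal_toReal hz]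
  have hc1 : Continuous fun z : X => f1 z.1 := continuous_restrict hf1d.continuousOn
  have hc2 : Continuous fun z : X => f2 z.1 := continuous_restrict hf2d.continuousOn
  have hF2m : Measurable fun z : X => (w z).toReal * (f1 z.1 ^ 2 + f2 z.1 ^ 2) :=
    hw.ennreal_toReal.mul ((hc1.pow 2).add (hc2.pow 2)).measurable
  have hF20 : ∀ z : X, 0 ≤ (w z).toReal * (f1 z.1 ^ 2 + f2 z.1 ^ 2) := fun z =>
    mul_nonneg ENNReal.toReal_nonneg (by positivity)
  have hN1 : ∫⁻ z, w z * ENNReal.ofReal (Complex.normSq (f z.1)) ∂mu =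
      ∫⁻ z : X, ENNReal.ofReal ((w z).toReal * (f1 z.1 ^ 2 + f2 z.1 ^ 2)) ∂mu := by
    simp only [hnsq]
    exact lintegral_congr_ae (hconv (fun z => f1 z.1 ^ 2 + f2 z.1 ^ 2) fun z => by positivity)
  have hint : Integrable (fun z : X => (w z).toReal * (f1 z.1 ^ 2 + f2 z.1 ^ 2)) mu := by
    refine ⟨hF2m.aestronglyMeasurable, ?_⟩
    rw [hasFiniteIntegral_iff_ofReal (Filter.Eventually.of_forall hF20), ← hN1]
    exact hL2.lt_top
  set N := ∫ z : X, (w z).toReal * (f1 z.1 ^ 2 + f2 z.1 ^ 2) ∂mu with hN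
  have hN0 : 0 ≤ N := integral_nonneg hF20
  have hN2 : ∫⁻ z, w z * ENNReal.ofReal (Complex.normSq (f z.1)) ∂mu = ENNReal.ofReal N := by
    rw [hN1, ofReal_integral_eq_lintegral_ofReal hint (Filter.Eventually.of_forall hF20)]
  -- positivity of the norm
  have hNpos : 0 < N := by
    by_contra hcon
    have hN00 : N = 0 := le_antisymm (not_lt.mp hcon) hN0
    have h1 := unfold_lintegral (G := G) hw hwc
      (Φ := fun z : X => ENNReal.ofReal (f1 z.1 ^ 2 + f2 z.1 ^ 2))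
      (ENNReal.measurable_ofReal.comp ((hc1.pow 2).add (hc2.pow 2)).measurable)
    have h2 : ∫⁻ z, w z * ∑' γ : G,
        ENNReal.ofReal (f1 (γ • z : X).1 ^ 2 + f2 (γ • z : X).1 ^ 2) ∂mu = 0 := by
      have h3 : ∀ z : X, ∀ γ : G,
          ENNReal.ofReal (f1 (γ • z : X).1 ^ 2 + f2 (γ • z : X).1 ^ 2) =
            ENNReal.ofReal (f1 z.1 ^ 2 + f2 z.1 ^ 2) := by
        intro z γ
        have h4 : (γ • z : X).1 = act (mat γ.1) z.1 := rfl
        rw [h4, hf1i γ z.1 z.2, hf2i γ z.1 z.2]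
      simp only [h3]
      have h5 : ∫⁻ z, w z * ENNReal.ofReal (Complex.normSq (f z.1)) ∂mu = 0 := by
        rw [hN2, hN00, ENNReal.ofReal_zero]
      simp only [hnsq] at h5
      have hm5 : Measurable fun z : X => w z * ENNReal.ofReal (f1 z.1 ^ 2 + f2 z.1 ^ 2) :=
        hw.mul (ENNReal.measurable_ofReal.comp ((hc1.pow 2).add (hc2.pow 2)).measurable)
      rw [lintegral_eq_zero_iff hm5] at h5
      refine (lintegral_congr_ae ?_).trans lintegral_zero
      filter_upwards [h5] with z hz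
      simp only [Pi.zero_apply, mul_eq_zero] at hz ⊢
      rcases hz with hz | hz
      · exact Or.inl hz
      · right
        rw [hz]
        simp
    rw [h2] at h1
    have h6 : ∫⁻ z : X, ENNReal.ofReal (f1 z.1 ^ 2 + f2 z.1 ^ 2) ∂mu = 0 := by
      rcases mul_eq_zero.mp h1 with h | h
      · exact absurd h hc0
      · exact h
    have hF2c : Continuous fun z : X => f1 z.1 ^ 2 + f2 z.1 ^ 2 := (hc1.pow 2).add (hc2.pow 2)
    have h7 : (fun z : X => f1 z.1 ^ 2 + f2 z.1 ^ 2) =ᵐ[mu] fun _ => 0 := by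
      have hm6 : Measurable fun z : X => ENNReal.ofReal (f1 z.1 ^ 2 + f2 z.1 ^ 2) :=
        ENNReal.measurable_ofReal.comp hF2c.measurable
      rw [lintegral_eq_zero_iff hm6] at h6
      filter_upwards [h6] with z hz
      have h8 : f1 z.1 ^ 2 + f2 z.1 ^ 2 ≤ 0 := ENNReal.ofReal_eq_zero.mp hz
      exact le_antisymm h8 (by positivity)
    have h8 : (fun z : X => f1 z.1 ^ 2 + f2 z.1 ^ 2) = fun _ => 0 :=
      (Continuous.ae_eq_iff_eq mu hF2c continuous_const).mp h7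
    obtain ⟨z0, hz0, hfz0⟩ := hne
    have h9 := congrFun h8 (⟨z0, hz0⟩ : X)
    simp only at h9
    rw [← hnsq, Complex.normSq_eq_zero] at h9
    exact hfz0 h9
  obtain ⟨C, hC⟩ := exists_bound_deriv_qR
  have hC0 : 0 ≤ C := le_trans (by positivity) (hC 1 one_pos 0)
  set η : ℕ → ℂ × ℂ → ℝ := fun n => cutH O hO (qR ((n : ℝ) + 3)) with hη
  have hR3 : ∀ n : ℕ, (3 : ℝ) ≤ (n : ℝ) + 3 := fun n => by
    have := Nat.cast_nonneg (α := ℝ) n
    linarith
  have hR0 : ∀ n : ℕ, (0 : ℝ) < (n : ℝ) + 3 := fun n => by linarith [hR3 n]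
  have hηc : ∀ n, Continuous fun z : X => η n z.1 := fun n =>
    continuous_restrict (contDiffOn_cutH (hO := hO) hO1 (hR3 n)
      (fun u hu => qR_eq_one (hR0 n) hu) (contDiff_qR _)).continuousOn
  have hηm : ∀ n z, η n z ∈ Set.Icc (0 : ℝ) 1 := fun n z =>
    cutH_mem (hO := hO) (qR ((n : ℝ) + 3)) (qR_mem _) z
  have hη2 : ∀ n z, η n z ^ 2 ≤ 1 := fun n z => by
    have := hηm n z
    exact pow_le_one₀ this.1 this.2
  have hev : ∀ z : X, ∀ᶠ n : ℕ in Filter.atTop, η n z.1 = 1 ∧ z.1 ∉ TR O hO ((n : ℝ) + 3) := by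
    intro z
    obtain ⟨M, hM⟩ := height_bounded (hO := hO) hO1 z.2
    filter_upwards [Filter.eventually_ge_atTop (Nat.ceil M)] with n hn
    have hn' : M ≤ (n : ℝ) + 3 := by
      have h1 : M ≤ (Nat.ceil M : ℝ) := Nat.le_ceil M
      have h2 : ((Nat.ceil M : ℕ) : ℝ) ≤ n := by exact_mod_cast hn
      linarith
    refine ⟨cutH_eq_one hO1 (fun u hu => qR_eq_one (hR0 n) hu) z.2
      fun γ => ((hM γ).le.trans hn'), ?_⟩
    rintro ⟨γ, hγ⟩
    have := hM γ
    linarith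
  set F : X → ℝ := fun z => (w z).toReal * (f1 z.1 ^ 2 + f2 z.1 ^ 2) with hF
  set E : X → ℝ := fun z => normL z.1 (fderiv ℝ f1 z.1) + normL z.1 (fderiv ℝ f2 z.1) with hE
  have hf11 : ContDiffOn ℝ 1 f1 U := hf1d.of_le (by norm_num)
  have hf21 : ContDiffOn ℝ 1 f2 U := hf2d.of_le (by norm_num)
  have hEc : Continuous E := continuous_restrict (φ := fun z => normL z (fderiv ℝ f1 z) +
    normL z (fderiv ℝ f2 z)) ((continuousOn_normL hf11).add (continuousOn_normL hf21))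
  have hE0 : ∀ z, 0 ≤ E z := fun z => add_nonneg (normL_nonneg z.2.le _) (normL_nonneg z.2.le _)
  set D : ℕ → ℝ := fun n => ∫ z : X, (w z).toReal * (η n z.1 ^ 2 * E z) ∂mu with hD
  set A : ℕ → ℝ := fun n => ∫ z : X, (w z).toReal * (η n z.1 ^ 2 * (f1 z.1 ^ 2 + f2 z.1 ^ 2)) ∂mu
    with hA
  set δ : ℕ → ℝ := fun n => ∫ z : X, (Subtype.val ⁻¹' (TR O hO ((n : ℝ) + 3)) : Set X).indicator
      F z ∂mu with hδ
  have hfix : ∀ n : ℕ, ∀ ε : ℝ, 0 < ε → Integrable (fun z : X => (w z).toReal *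
      (η n z.1 ^ 2 * E z)) mu ∧ D n ≤ lam.re * A n + (ε * D n + C / ε * δ n) ∧
      |lam.im| * A n ≤ ε * D n + C / ε * δ n := fun n ε hε =>
    green_fixed hGO hOd hO1 hcov hw hc hwc hf1d hf2d hf1i hf2i hl1 hl2 hint hC (hR3 n) hε
  -- limits
  have hAlim : Filter.Tendsto A Filter.atTop (𝓝 N) := by
    refine tendsto_integral_of_dominated_convergence F (fun n => ?_) hint
      (fun n => Filter.Eventually.of_forall fun z => ?_) (Filter.Eventually.of_forall fun z => ?_)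
    · exact (hw.ennreal_toReal.mul (((hηc n).pow 2).mul
        ((hc1.pow 2).add (hc2.pow 2))).measurable).aestronglyMeasurable
    · have h1 : 0 ≤ (w z).toReal := ENNReal.toReal_nonneg
      rw [Real.norm_eq_abs, abs_of_nonneg (by positivity)]
      have h2 := hη2 n z.1
      have h3 : 0 ≤ f1 z.1 ^ 2 + f2 z.1 ^ 2 := by positivity
      simp only [hF]
      gcongr
      nlinarith
    · refine tendsto_const_nhds.congr' ?_
      filter_upwards [hev z] with n hn
      rw [hn.1]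
      simp
  have hδlim : Filter.Tendsto δ Filter.atTop (𝓝 0) := by
    have h0 : (0 : ℝ) = ∫ _ : X, (0 : ℝ) ∂mu := by simp
    rw [h0]
    refine tendsto_integral_of_dominated_convergence F (fun n => ?_) hint
      (fun n => Filter.Eventually.of_forall fun z => ?_) (Filter.Eventually.of_forall fun z => ?_)
    · exact (hF2m.indicator (measurableSet_TR hOd _)).aestronglyMeasurable
    · rw [Real.norm_eq_abs]
      by_cases hz : z ∈ (Subtype.val ⁻¹' (TR O hO ((n : ℝ) + 3)) : Set X)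
      · rw [Set.indicator_of_mem hz, abs_of_nonneg (hF20 z)]
      · rw [Set.indicator_of_notMem hz, abs_zero]
        exact hF20 z
    · refine tendsto_const_nhds.congr' ?_
      filter_upwards [hev z] with n hn
      rw [Set.indicator_of_notMem]
      exact hn.2
  have hδN : ∀ n, δ n ≤ N := by
    intro n
    refine integral_mono_of_nonneg (Filter.Eventually.of_forall fun z => ?_) hint
      (Filter.Eventually.of_forall fun z => ?_)
    · exact Set.indicator_nonneg (fun z _ => hF20 z) z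
    · exact Set.indicator_le_self' (fun z _ => hF20 z) z
  have hδ0 : ∀ n, 0 ≤ δ n := fun n =>
    integral_nonneg fun z => Set.indicator_nonneg (fun z _ => hF20 z) z
  have hA0 : ∀ n, 0 ≤ A n := fun n => integral_nonneg fun z =>
    mul_nonneg ENNReal.toReal_nonneg (by positivity)
  have hAN : ∀ n, A n ≤ N := by
    intro n
    refine integral_mono_of_nonneg (Filter.Eventually.of_forall fun z =>
      mul_nonneg ENNReal.toReal_nonneg (by positivity)) hint
      (Filter.Eventually.of_forall fun z => ?_)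
    have h1 : 0 ≤ (w z).toReal := ENNReal.toReal_nonneg
    have h2 := hη2 n z.1
    have h3 : 0 ≤ f1 z.1 ^ 2 + f2 z.1 ^ 2 := by positivity
    simp only
    gcongr
    nlinarith
  have hD0 : ∀ n, 0 ≤ D n := fun n => integral_nonneg fun z =>
    mul_nonneg ENNReal.toReal_nonneg (mul_nonneg (sq_nonneg _) (hE0 z))
  -- uniform bound
  set M0 := 2 * |lam.re| * N + 4 * C * N with hM0
  have hDM : ∀ n, D n ≤ M0 := by
    intro n
    have h1 := (hfix n (1 / 2) (by norm_num)).2.1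
    have h2 : lam.re * A n ≤ |lam.re| * N := by
      calc lam.re * A n ≤ |lam.re| * A n := mul_le_mul_of_nonneg_right (le_abs_self _) (hA0 n)
        _ ≤ |lam.re| * N := mul_le_mul_of_nonneg_left (hAN n) (abs_nonneg _)
    have h3 : C / (1 / 2) * δ n ≤ 2 * C * N := by
      have : C / (1 / 2) = 2 * C := by ring
      rw [this]
      exact mul_le_mul_of_nonneg_left (hδN n) (by positivity)
    rw [hM0]
    linarith
  have hM00 : 0 ≤ M0 := by positivity
  constructor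
  · -- the eigenvalue is real
    by_contra him
    have hb : 0 < |lam.im| := abs_pos.mpr him
    have hbN : 0 < |lam.im| * N := mul_pos hb hNpos
    set ε := |lam.im| * N / (2 * (M0 + 1)) with hε
    have hε0 : 0 < ε := by positivity
    have h1 : ∀ n, |lam.im| * A n ≤ ε * M0 + C / ε * δ n := by
      intro n
      have h2 := (hfix n ε hε0).2.2
      have h3 : ε * D n ≤ ε * M0 := mul_le_mul_of_nonneg_left (hDM n) hε0.le
      linarith
    have h4 : |lam.im| * N ≤ ε * M0 + C / ε * 0 :=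
      le_of_tendsto_of_tendsto' (hAlim.const_mul _)
        (tendsto_const_nhds.add (hδlim.const_mul _)) h1
    have h5 : ε * M0 < |lam.im| * N := by
      rw [hε, div_mul_eq_mul_div, div_lt_iff₀ (by positivity)]
      nlinarith
    linarith
  · -- the energy bound
    have hV : ∫⁻ z, w z * ENNReal.ofReal (energy f1 z.1 + energy f2 z.1) ∂mu =
        ∫⁻ z, ENNReal.ofReal ((w z).toReal * E z) ∂mu :=
      lintegral_congr_ae (hconv E hE0)
    rw [hV, hN2, ← ENNReal.ofReal_mul' hN0]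
    have hFatou : ∀ ε : ℝ, 0 < ε → ε < 1 →
        ∫⁻ z, ENNReal.ofReal ((w z).toReal * E z) ∂mu ≤
          ENNReal.ofReal (lam.re * N / (1 - ε)) := by
      intro ε hε0 hε1
      have h1ε : 0 < 1 - ε := by linarith
      have h1 : ∀ n, D n ≤ (lam.re * A n + C / ε * δ n) / (1 - ε) := by
        intro n
        have h2 := (hfix n ε hε0).2.1
        rw [le_div_iff₀ h1ε]
        linarith
      have h3 : ∀ z : X, ENNReal.ofReal ((w z).toReal * E z) ≤
          Filter.liminf (fun n => ENNReal.ofReal ((w z).toReal * (η n z.1 ^ 2 * E z)))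
            Filter.atTop := by
        intro z
        have h4 : Filter.Tendsto (fun n => ENNReal.ofReal ((w z).toReal * (η n z.1 ^ 2 * E z)))
            Filter.atTop (𝓝 (ENNReal.ofReal ((w z).toReal * E z))) := by
          refine tendsto_const_nhds.congr' ?_
          filter_upwards [hev z] with n hn
          rw [hn.1]
          simp
        rw [h4.liminf_eq]
      calc ∫⁻ z, ENNReal.ofReal ((w z).toReal * E z) ∂mu
          ≤ ∫⁻ z, Filter.liminf (fun n => ENNReal.ofReal ((w z).toReal * (η n z.1 ^ 2 * E z)))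
            Filter.atTop ∂mu := lintegral_mono h3
        _ ≤ Filter.liminf (fun n => ∫⁻ z, ENNReal.ofReal ((w z).toReal * (η n z.1 ^ 2 * E z)) ∂mu)
            Filter.atTop := by
            refine lintegral_liminf_le fun n => ?_
            exact ENNReal.measurable_ofReal.comp (hw.ennreal_toReal.mul
              (((hηc n).pow 2).mul hEc).measurable)
        _ = Filter.liminf (fun n => ENNReal.ofReal (D n)) Filter.atTop := by
            congr 1
            funext n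
            rw [hD]
            simp only
            rw [ofReal_integral_eq_lintegral_ofReal (hfix n 1 one_pos).1
              (Filter.Eventually.of_forall fun z => mul_nonneg ENNReal.toReal_nonneg
                (mul_nonneg (sq_nonneg _) (hE0 z)))]
        _ ≤ Filter.liminf (fun n => ENNReal.ofReal ((lam.re * A n + C / ε * δ n) / (1 - ε)))
            Filter.atTop :=
            Filter.liminf_le_liminf (Filter.Eventually.of_forall fun n =>
              ENNReal.ofReal_le_ofReal (h1 n))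
        _ = ENNReal.ofReal ((lam.re * N + C / ε * 0) / (1 - ε)) := by
            apply Filter.Tendsto.liminf_eq
            exact (ENNReal.continuous_ofReal.tendsto _).comp
              (((hAlim.const_mul _).add (hδlim.const_mul _)).div_const _)
        _ = ENNReal.ofReal (lam.re * N / (1 - ε)) := by rw [mul_zero, add_zero]
    have hlim : Filter.Tendsto (fun ε : ℝ => ENNReal.ofReal (lam.re * N / (1 - ε)))
        (𝓝[>] 0) (𝓝 (ENNReal.ofReal (lam.re * N / (1 - 0)))) := by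
      refine (ENNReal.continuous_ofReal.tendsto _).comp ?_
      refine Filter.Tendsto.mono_left ?_ nhdsWithin_le_nhds
      refine Filter.Tendsto.div tendsto_const_nhds ?_ (by norm_num)
      exact (continuous_const.sub continuous_id).tendsto 0
    rw [sub_zero, div_one] at hlim
    refine ge_of_tendsto hlim ?_
    filter_upwards [Ioo_mem_nhdsGT (show (0 : ℝ) < 1 by norm_num)] with ε hε
    exact hFatou ε hε.1 hε.2

end group

end

end Pool.Agent.Lib.H56.Gen
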