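import Pool.Agent.Lib.H56.Gen.GreenSub

/-!
# The abstract spectral gap theorem: unfolding with weights on all horoballs
-/

namespace Pool.Agent.Lib.H56.Gen

open Matrix MeasureTheory Topology
open Pool.Agent.Lib.H56.Picard
open scoped ENNReal

noncomputable section

variable {O : Subring ℂ} {hO : ∀ x ∈ O, star x ∈ O}

lemma row_two_one_of_zero (g : SU21) (h0 : mat g 2 0 = 0) : mat g 2 1 = 0 := by
  have h1 := hd_row_two g
  rw [hd_apply, h0] at h1
  simpa using h1

/-- The stabiliser of the cusp at infinity. -/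
def stab (O : Subring ℂ) (hO : ∀ x ∈ O, star x ∈ O) : Subgroup (arith O hO) where
  carrier := {γ | mat γ.1 2 0 = 0}
  mul_mem' := by
    intro a b ha hb
    have ha' : mat a.1 2 0 = 0 := ha
    have hb' : mat b.1 2 0 = 0 := hb
    have ha1 := row_two_one_of_zero a.1 ha'
    show mat (a.1 * b.1) 2 0 = 0
    rw [mat_mul, Matrix.mul_apply, Fin.sum_univ_three, ha', ha1, hb']
    simp
  one_mem' := by
    show mat (1 : SU21) 2 0 = 0
    rw [mat_one]
    simp
  inv_mem' := by
    intro a ha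
    have ha' : mat a.1 2 0 = 0 := ha
    show mat (a.1)⁻¹ 2 0 = 0
    rw [mat_inv]
    simp [Matrix.mul_apply, Matrix.vecMul, dotProduct, Fin.sum_univ_three, Picard.J, ha']

/-- Sum over all cusps of a function of the height. -/
def cuspSum (O : Subring ℂ) (hO : ∀ x ∈ O, star x ∈ O) (φ : ℝ → ℝ≥0∞) (z : X) : ℝ≥0∞ :=
  ∑' q : arith O hO ⧸ stab O hO, φ (height (act (mat (q.out : arith O hO)⁻¹.1) z.1))

/-! ### The number of translates in the box -/

open Classical in
/-- indicator of the box at `z` -/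
def bx (Box : Set (ℂ × ℂ)) (z : ℂ × ℂ) : ℝ≥0∞ := if z ∈ Box then 1 else 0

/-- number of translates of `y` by the stabiliser in the box -/
def rep (O : Subring ℂ) (hO : ∀ x ∈ O, star x ∈ O) (Box : Set (ℂ × ℂ)) (y : X) : ℝ≥0∞ :=
  ∑' a : stab O hO, bx Box (a • y : X).1

lemma sum_bx {B : Subgroup (arith O hO)} {Box : Set (ℂ × ℂ)}
    (hB : ∀ z ∈ U, ∃! b : B, act (mat b.1.1) z ∈ Box) (z : X) :
    ∑' b : B, bx Box (b • z : X).1 = 1 := by
  classical
  obtain ⟨b, hb, hu⟩ := hB z.1 z.2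
  rw [tsum_eq_single b]
  · exact if_pos hb
  · intro b' hb'
    exact if_neg fun h => hb' (hu b' h)

lemma sum_bx_inv {B : Subgroup (arith O hO)} {Box : Set (ℂ × ℂ)}
    (hB : ∀ z ∈ U, ∃! b : B, act (mat b.1.1) z ∈ Box) (z : X) :
    ∑' b : B, bx Box (b⁻¹ • z : X).1 = 1 := by
  rw [← sum_bx hB z, ← (Equiv.inv B).tsum_eq]
  simp

lemma rep_const {B : Subgroup (arith O hO)} {Box : Set (ℂ × ℂ)} (hBA : B ≤ stab O hO)
    (hB : ∀ z ∈ U, ∃! b : B, act (mat b.1.1) z ∈ Box) (y y1 : X) :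
    rep O hO Box y = rep O hO Box y1 := by
  have h1 : rep O hO Box y = ∑' a : stab O hO, ∑' b : B,
      bx Box (a • y : X).1 * bx Box (b • (a • y1) : X).1 := by
    refine tsum_congr fun a => ?_
    rw [ENNReal.tsum_mul_left, sum_bx hB, mul_one]
  have h2 : rep O hO Box y1 = ∑' a : stab O hO, ∑' b : B,
      bx Box (b⁻¹ • (a • y) : X).1 * bx Box (a • y1 : X).1 := by
    refine tsum_congr fun a => ?_
    rw [ENNReal.tsum_mul_right, sum_bx_inv hB, one_mul]
  rw [h1, h2, ENNReal.tsum_comm, ENNReal.tsum_comm (α := stab O hO)]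
  refine tsum_congr fun b => ?_
  set b' : stab O hO := ⟨b.1, hBA b.2⟩ with hb'
  rw [← (Equiv.mulLeft b').tsum_eq (fun a : stab O hO =>
    bx Box (b⁻¹ • (a • y) : X).1 * bx Box (a • y1 : X).1)]
  refine tsum_congr fun a => ?_
  have e1 : (b⁻¹ • ((Equiv.mulLeft b') a • y) : X) = a • y := by
    have : (b⁻¹ • ((Equiv.mulLeft b') a • y) : X) = b.1⁻¹ • ((b.1 * a.1) • y) := rfl
    rw [this, smul_smul, inv_mul_cancel_left]
    rfl
  have e2 : ((Equiv.mulLeft b') a • y1 : X) = b • (a • y1) := by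
    have : ((Equiv.mulLeft b') a • y1 : X) = (b.1 * a.1) • y1 := rfl
    rw [this, mul_smul]
    rfl
  rw [e1, e2]

lemma one_le_rep {B : Subgroup (arith O hO)} {Box : Set (ℂ × ℂ)} (hBA : B ≤ stab O hO)
    (hB : ∀ z ∈ U, ∃! b : B, act (mat b.1.1) z ∈ Box) (y : X) :
    1 ≤ rep O hO Box y := by
  obtain ⟨b, hb, -⟩ := hB y.1 y.2
  refine le_trans ?_ (ENNReal.le_tsum (⟨b.1, hBA b.2⟩ : stab O hO))
  exact (if_pos hb).ge

/-- a sum with finite support of finite terms is finite -/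
lemma tsum_ne_top_of_finite {α : Type*} {F : α → ℝ≥0∞} (S : Finset α) (hS : ∀ a ∉ S, F a = 0)
    (hF : ∀ a, F a ≠ ⊤) : ∑' a, F a ≠ ⊤ := by
  rw [tsum_eq_sum (s := S) fun a ha => hS a ha]
  exact ENNReal.sum_ne_top.2 fun a _ => hF a

lemma bx_ne_top (Box : Set (ℂ × ℂ)) (z : ℂ × ℂ) : bx Box z ≠ ⊤ := by
  unfold bx
  split_ifs <;> simp

lemma rep_ne_top (hOd : ∀ B : ℝ, {x : ℂ | x ∈ O ∧ ‖x‖ ≤ B}.Finite)
    (hO1 : ∀ x ∈ O, x ≠ 0 → 1 ≤ ‖x‖) {Box : Set (ℂ × ℂ)}
    (hBox : ∀ r R : ℝ, 0 < r → ∃ K : Set (ℂ × ℂ), IsCompact K ∧ K ⊆ U ∧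
      ∀ z ∈ Box, r ≤ height z → height z ≤ R → z ∈ K) (y : X) :
    rep O hO Box y ≠ ⊤ := by
  classical
  obtain ⟨K, hK, hKU, hKc⟩ := hBox (height y.1) (height y.1) y.2
  obtain ⟨S, hS⟩ := Picard.locally_finite (hO := hO) hOd hK hKU (z := y.1) y.2
  have hS' := hS.self_of_nhds.2
  refine tsum_ne_top_of_finite (S.subtype (fun a => a ∈ stab O hO)) (fun a ha => ?_)
    fun a => bx_ne_top _ _
  refine if_neg fun hmem => ?_
  have hh : height (act (mat a.1.1) y.1) = height y.1 := height_eq_of_zero hO1 a.1 a.2 y.2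
  have h1 : act (mat a.1.1) y.1 ∈ K := hKc _ hmem hh.ge hh.le
  have h2 : a.1 ∉ S := fun h => ha (Finset.mem_subtype.2 h)
  exact hS' a.1 h2 h1

lemma height_stab (hO1 : ∀ x ∈ O, x ≠ 0 → 1 ≤ ‖x‖) (a : stab O hO) (y : X) :
    height (a • y : X).1 = height y.1 := height_eq_of_zero hO1 a.1 a.2 y.2

/-- sums over the group of functions supported in the box -/
lemma sum_box (hO1 : ∀ x ∈ O, x ≠ 0 → 1 ≤ ‖x‖) {B : Subgroup (arith O hO)} {Box : Set (ℂ × ℂ)}
    (hBA : B ≤ stab O hO) (hB : ∀ z ∈ U, ∃! b : B, act (mat b.1.1) z ∈ Box) (φ : ℝ → ℝ≥0∞)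
    (y0 z : X) :
    ∑' γ : arith O hO, bx Box (γ • z : X).1 * φ (height (γ • z : X).1) =
      rep O hO Box y0 * cuspSum O hO φ z := by
  rw [← (Equiv.inv (arith O hO)).tsum_eq, ← (Equiv.ofBijective _
    (bijective_out (stab O hO))).tsum_eq, ENNReal.tsum_prod']
  unfold cuspSum
  rw [← ENNReal.tsum_mul_left]
  refine tsum_congr fun q => ?_
  rw [rep_const hBA hB y0 ((q.out : arith O hO)⁻¹ • z)]
  unfold rep
  rw [← (Equiv.inv (stab O hO)).tsum_eq, ← ENNReal.tsum_mul_right]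
  refine tsum_congr fun a => ?_
  have e1 : (Equiv.inv (arith O hO)) ((Equiv.ofBijective _ (bijective_out (stab O hO)))
      (q, (Equiv.inv (stab O hO)) a)) • z = a • ((q.out : arith O hO)⁻¹ • z : X) := by
    have h1 : (Equiv.inv (arith O hO)) ((Equiv.ofBijective _ (bijective_out (stab O hO)))
        (q, (Equiv.inv (stab O hO)) a)) = a.1 * (q.out : arith O hO)⁻¹ := by
      have h2 : (Equiv.inv (arith O hO)) ((Equiv.ofBijective _ (bijective_out (stab O hO)))
        (q, (Equiv.inv (stab O hO)) a)) = ((q.out : arith O hO) * (a.1)⁻¹)⁻¹ := rfl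
      rw [h2, _root_.mul_inv_rev, inv_inv]
    rw [h1, mul_smul]
    rfl
  rw [e1, height_stab hO1]
  rfl

/-! ### The counting function -/

/-- the indicator of heights above `h` -/
def above (h : ℝ) (u : ℝ) : ℝ≥0∞ := (Set.Ioi h).indicator (fun _ => 1) u

lemma measurable_above (h : ℝ) : Measurable (above h) :=
  measurable_const.indicator measurableSet_Ioi

lemma measurable_bx {Box : Set (ℂ × ℂ)} (mBox : MeasurableSet Box) :
    Measurable fun z : X => bx Box z.1 := by
  classical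
  unfold bx
  exact Measurable.ite (mBox.preimage measurable_subtype_coe) measurable_const measurable_const

lemma measurable_height : Measurable fun z : X => height z.1 :=
  continuous_height.measurable.comp measurable_subtype_coe

/-- the number of translates in the box above height `h` -/
def cnt (O : Subring ℂ) (hO : ∀ x ∈ O, star x ∈ O) (Box : Set (ℂ × ℂ)) (h : ℝ) (z : X) : ℝ≥0∞ :=
  ∑' γ : arith O hO, bx Box (γ • z : X).1 * above h (height (γ • z : X).1)

lemma measurable_cnt (hOd : ∀ B : ℝ, {x : ℂ | x ∈ O ∧ ‖x‖ ≤ B}.Finite)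
    {Box : Set (ℂ × ℂ)} (mBox : MeasurableSet Box) (h : ℝ) : Measurable (cnt O hO Box h) := by
  have := countable_arith (hO := hO) hOd
  exact Measurable.ennreal_tsum fun γ => ((measurable_bx mBox).comp (measurable_const_smul γ)).mul
    ((measurable_above h).comp (measurable_height.comp (measurable_const_smul γ)))

lemma cnt_smul (Box : Set (ℂ × ℂ)) (h : ℝ) (δ : arith O hO) (z : X) :
    cnt O hO Box h (δ • z) = cnt O hO Box h z := by
  unfold cnt
  rw [← (Equiv.mulRight δ).tsum_eq (fun γ : arith O hO =>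
    bx Box (γ • z : X).1 * above h (height (γ • z : X).1))]
  refine tsum_congr fun γ => ?_
  have e : ((Equiv.mulRight δ) γ • z : X) = γ • (δ • z) := mul_smul γ δ z
  rw [e]

lemma cnt_ne_top (hOd : ∀ B : ℝ, {x : ℂ | x ∈ O ∧ ‖x‖ ≤ B}.Finite)
    (hO1 : ∀ x ∈ O, x ≠ 0 → 1 ≤ ‖x‖) {Box : Set (ℂ × ℂ)}
    (hBox : ∀ r R : ℝ, 0 < r → ∃ K : Set (ℂ × ℂ), IsCompact K ∧ K ⊆ U ∧
      ∀ z ∈ Box, r ≤ height z → height z ≤ R → z ∈ K) {h : ℝ} (hh : 0 < h) (z : X) :
    cnt O hO Box h z ≠ ⊤ := by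
  obtain ⟨M, hM⟩ := height_bounded (hO := hO) hO1 z.2
  obtain ⟨K, hK, hKU, hKc⟩ := hBox h M hh
  obtain ⟨S, hS⟩ := Picard.locally_finite (hO := hO) hOd hK hKU (z := z.1) z.2
  have hS' := hS.self_of_nhds.2
  refine tsum_ne_top_of_finite S (fun γ hγ => ?_) fun γ => ?_
  · by_cases hmem : (γ • z : X).1 ∈ Box
    · by_cases hab : h < height (γ • z : X).1
      · exact absurd (hKc _ hmem hab.le (hM γ).le) (hS' γ hγ)
      · have : above h (height (γ • z : X).1) = 0 := Set.indicator_of_notMem hab _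
        rw [this, mul_zero]
    · have : bx Box (γ • z : X).1 = 0 := if_neg hmem
      rw [this, zero_mul]
  · refine ENNReal.mul_ne_top (bx_ne_top _ _) ?_
    unfold above
    by_cases hab : h < height (γ • z : X).1
    · rw [Set.indicator_of_mem (show height (γ • z : X).1 ∈ Set.Ioi h from hab)]
      exact ENNReal.one_ne_top
    · rw [Set.indicator_of_notMem (show height (γ • z : X).1 ∉ Set.Ioi h from hab)]
      exact ENNReal.zero_ne_top

/-- there is a translate in the box above height `h` -/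
lemma exists_above {B : Subgroup (arith O hO)} {Box : Set (ℂ × ℂ)} (hBA : B ≤ stab O hO)
    (hO1 : ∀ x ∈ O, x ≠ 0 → 1 ≤ ‖x‖) (hB : ∀ z ∈ U, ∃! b : B, act (mat b.1.1) z ∈ Box) {h : ℝ}
    {v : ℝ → ℝ≥0∞} (hv0 : ∀ u ≤ h, v u = 0) {c : ℝ≥0∞} (hc0 : c ≠ 0) {z : X}
    (hc : c ≤ cuspSum O hO v z) :
    ∃ γ : arith O hO, (γ • z : X).1 ∈ Box ∧ h < height (γ • z : X).1 := by
  have h1 : cuspSum O hO v z ≠ 0 := by
    intro h0
    rw [h0] at hc
    exact hc0 (le_zero_iff.1 hc)
  unfold cuspSum at h1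
  rw [Ne, ENNReal.tsum_eq_zero] at h1
  push Not at h1
  obtain ⟨q, hq⟩ := h1
  have h2 : h < height (act (mat (q.out : arith O hO)⁻¹.1) z.1) := by
    by_contra hcon
    exact hq (hv0 _ (not_lt.mp hcon))
  obtain ⟨b, hb, -⟩ := hB ((q.out : arith O hO)⁻¹ • z : X).1 ((q.out : arith O hO)⁻¹ • z : X).2
  refine ⟨b.1 * (q.out : arith O hO)⁻¹, ?_, ?_⟩
  · rw [mul_smul]
    exact hb
  · rw [mul_smul]
    have h3 := height_stab hO1 (⟨b.1, hBA b.2⟩ : stab O hO) ((q.out : arith O hO)⁻¹ • z)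
    have h4 : (b.1 • ((q.out : arith O hO)⁻¹ • z) : X) =
      (⟨b.1, hBA b.2⟩ : stab O hO) • ((q.out : arith O hO)⁻¹ • z) := rfl
    rw [h4, h3]
    exact h2

lemma one_le_cnt {Box : Set (ℂ × ℂ)} {h : ℝ} {z : X}
    (hex : ∃ γ : arith O hO, (γ • z : X).1 ∈ Box ∧ h < height (γ • z : X).1) :
    1 ≤ cnt O hO Box h z := by
  obtain ⟨γ, h1, h2⟩ := hex
  refine le_trans ?_ (ENNReal.le_tsum γ)
  have e1 : bx Box (γ • z : X).1 = 1 := if_pos h1
  have e2 : above h (height (γ • z : X).1) = 1 :=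
    Set.indicator_of_mem (show height (γ • z : X).1 ∈ Set.Ioi h from h2) _
  rw [e1, e2, mul_one]

/-- the weight -/
def omg (O : Subring ℂ) (hO : ∀ x ∈ O, star x ∈ O) (Box : Set (ℂ × ℂ)) (h : ℝ) (z : X) : ℝ≥0∞ :=
  bx Box z.1 * above h (height z.1) * (cnt O hO Box h z)⁻¹

lemma measurable_omg (hOd : ∀ B : ℝ, {x : ℂ | x ∈ O ∧ ‖x‖ ≤ B}.Finite)
    {Box : Set (ℂ × ℂ)} (mBox : MeasurableSet Box) (h : ℝ) : Measurable (omg O hO Box h) :=
  ((measurable_bx mBox).mul ((measurable_above h).comp measurable_height)).mul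
    (measurable_cnt hOd mBox h).inv

lemma sum_omg {Box : Set (ℂ × ℂ)} {h : ℝ} {z : X} (h1 : 1 ≤ cnt O hO Box h z)
    (h2 : cnt O hO Box h z ≠ ⊤) : ∑' γ : arith O hO, omg O hO Box h (γ • z) = 1 := by
  have h3 : cnt O hO Box h z ≠ 0 := by
    intro h0
    rw [h0] at h1
    exact absurd h1 (by simp)
  unfold omg
  simp only [cnt_smul]
  rw [ENNReal.tsum_mul_right]
  exact ENNReal.mul_inv_cancel h3 h2

lemma omg_le {Box : Set (ℂ × ℂ)} {h : ℝ} {z : X} (h1 : 1 ≤ cnt O hO Box h z) :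
    omg O hO Box h z ≤ bx Box z.1 * above h (height z.1) := by
  unfold omg
  calc bx Box z.1 * above h (height z.1) * (cnt O hO Box h z)⁻¹ ≤
      bx Box z.1 * above h (height z.1) * 1 := by
        gcongr
        exact ENNReal.inv_le_one.2 h1
    _ = _ := mul_one _

/-! ### Invariance of the sums over conjugates -/

section conj

variable {G : Subgroup (arith O hO)} {f : ℂ × ℂ → ℂ}

/-- the conjugate at a translated point -/
lemma conj_smul (hinv : ∀ γ : arith O hO, γ ∈ G → ∀ z ∈ U, f (act (mat γ.1) z) = f z)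
    (q : arith O hO ⧸ G) (γ : arith O hO) {z : ℂ × ℂ} (hz : z ∈ U) :
    conj G f q (act (mat γ.1) z) = conj G f (γ⁻¹ • q) z := by
  have h0 : ((γ⁻¹ * (q.out : arith O hO) : arith O hO) : arith O hO ⧸ G) = γ⁻¹ • q := by
    conv_rhs => rw [← QuotientGroup.out_eq' q]
    rfl
  set q1 := γ⁻¹ • q with hq1
  have hmem : (γ⁻¹ * (q.out : arith O hO))⁻¹ * (q1.out : arith O hO) ∈ G := by
    rw [← QuotientGroup.eq, h0, QuotientGroup.out_eq']
  unfold conj
  set g := (γ⁻¹ * (q.out : arith O hO))⁻¹ * (q1.out : arith O hO) with hg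
  have h2 : (q.out : arith O hO)⁻¹ * γ = g * (q1.out : arith O hO)⁻¹ := by
    rw [hg]
    group
  have h3 : act (mat ((q.out : arith O hO)⁻¹).1) (act (mat γ.1) z) =
      act (mat g.1) (act (mat ((q1.out : arith O hO)⁻¹).1) z) := by
    rw [act_act _ _ hz, act_act _ _ hz]
    congr 2
    exact congrArg (fun x : arith O hO => x.1) h2
  rw [h3]
  exact hinv g hmem _ (act_mem_U _ hz)

/-- sum of the squared absolute values of the conjugates -/
def PhiS (G : Subgroup (arith O hO)) (f : ℂ × ℂ → ℂ) (z : X) : ℝ≥0∞ :=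
  ∑' q : arith O hO ⧸ G, ENNReal.ofReal (Complex.normSq (conj G f q z.1))

/-- sum of the energies of the conjugates -/
def EnS (G : Subgroup (arith O hO)) (f : ℂ × ℂ → ℂ) (z : X) : ℝ≥0∞ :=
  ∑' q : arith O hO ⧸ G, ENNReal.ofReal (energy (fun z => (conj G f q z).re) z.1 +
        energy (fun z => (conj G f q z).im) z.1)

lemma PhiS_smul (hinv : ∀ γ : arith O hO, γ ∈ G → ∀ z ∈ U, f (act (mat γ.1) z) = f z)
    (γ : arith O hO) (z : X) : PhiS G f (γ • z) = PhiS G f z := by
  unfold PhiS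
  rw [← (MulAction.toPerm γ⁻¹ : Equiv.Perm (arith O hO ⧸ G)).tsum_eq
    (fun q => ENNReal.ofReal (Complex.normSq (conj G f q z.1)))]
  refine tsum_congr fun q => ?_
  have h1 : (γ • z : X).1 = act (mat γ.1) z.1 := rfl
  rw [h1, conj_smul hinv q γ z.2]
  rfl

lemma contDiffOn_conj (hf : ContDiffOn ℝ 2 f U) (q : arith O hO ⧸ G) :
    ContDiffOn ℝ 1 (conj G f q) U := by
  intro z hz
  apply ContDiffAt.contDiffWithinAt
  exact ((hf.of_le (by norm_num)).contDiffAt (isOpen_U.mem_nhds (act_mem_U _ hz))).comp z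
    (contDiffAt_act _ hz)

lemma energy_smul {g1 g2 : ℂ × ℂ → ℝ} (hg : ContDiffOn ℝ 1 g1 U) (γ : SU21) {z : ℂ × ℂ}
    (hz : z ∈ U) (h : ∀ w ∈ U, g1 (act (mat γ) w) = g2 w) :
    energy g1 (act (mat γ) z) = energy g2 z := by
  rw [← energy_comp γ hz ((hg.contDiffAt (isOpen_U.mem_nhds
    (act_mem_U _ hz))).differentiableAt (by norm_num))]
  unfold energy
  congr 1
  apply Filter.EventuallyEq.fderiv_eq
  filter_upwards [isOpen_U.mem_nhds hz] with w hw
  exact h w hw

lemma EnS_smul (hf : ContDiffOn ℝ 2 f U)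
    (hinv : ∀ γ : arith O hO, γ ∈ G → ∀ z ∈ U, f (act (mat γ.1) z) = f z)
    (γ : arith O hO) (z : X) : EnS G f (γ • z) = EnS G f z := by
  unfold EnS
  rw [← (MulAction.toPerm γ⁻¹ : Equiv.Perm (arith O hO ⧸ G)).tsum_eq
    (fun q => ENNReal.ofReal (energy (fun z => (conj G f q z).re) z.1 +
        energy (fun z => (conj G f q z).im) z.1))]
  refine tsum_congr fun q => ?_
  have h1 : (γ • z : X).1 = act (mat γ.1) z.1 := rfl
  have hc := contDiffOn_conj (G := G) hf q
  rw [h1]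
  congr 2
  · exact energy_smul (Complex.reCLM.contDiff.comp_contDiffOn hc) γ.1 z.2 fun w hw =>
      congrArg Complex.re (conj_smul hinv q γ hw)
  · exact energy_smul (Complex.imCLM.contDiff.comp_contDiffOn hc) γ.1 z.2 fun w hw =>
      congrArg Complex.im (conj_smul hinv q γ hw)

lemma measurable_PhiS [Countable (arith O hO ⧸ G)] (hf : ContDiffOn ℝ 2 f U) :
    Measurable (PhiS G f) := by
  refine Measurable.ennreal_tsum fun q => ?_
  exact (ENNReal.continuous_ofReal.comp (Complex.continuous_normSq.comp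
      (continuousOn_iff_continuous_domRestrict.mp
        (contDiffOn_conj (G := G) hf q).continuousOn))).measurable

lemma measurable_energy (hf : ContDiffOn ℝ 2 f U) (q : arith O hO ⧸ G) :
    Measurable fun z : X => ENNReal.ofReal (energy (fun z => (conj G f q z).re) z.1 +
        energy (fun z => (conj G f q z).im) z.1) := by
  have hc := contDiffOn_conj (G := G) hf q
  have hf1 : ContDiffOn ℝ 1 (fun z => (conj G f q z).re) U :=
    Complex.reCLM.contDiff.comp_contDiffOn hc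
  have hf2 : ContDiffOn ℝ 1 (fun z => (conj G f q z).im) U :=
    Complex.imCLM.contDiff.comp_contDiffOn hc
  exact (ENNReal.continuous_ofReal.comp (continuous_restrict (φ := fun z =>
      normL z (fderiv ℝ (fun z => (conj G f q z).re) z) +
        normL z (fderiv ℝ (fun z => (conj G f q z).im) z))
        ((continuousOn_normL hf1).add (continuousOn_normL hf2)))).measurable

lemma measurable_EnS [Countable (arith O hO ⧸ G)] (hf : ContDiffOn ℝ 2 f U) :
    Measurable (EnS G f) :=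
  Measurable.ennreal_tsum fun q => measurable_energy hf q

end conj

lemma measurable_cuspSum (hOd : ∀ B : ℝ, {x : ℂ | x ∈ O ∧ ‖x‖ ≤ B}.Finite) {φ : ℝ → ℝ≥0∞}
    (mφ : Measurable φ) : Measurable fun z : X => cuspSum O hO φ z := by
  have := countable_arith (hO := hO) hOd
  have : Countable (arith O hO ⧸ stab O hO) :=
    Function.Surjective.countable QuotientGroup.mk_surjective
  exact Measurable.ennreal_tsum fun q => mφ.comp
    (measurable_height.comp (measurable_const_smul (q.out : arith O hO)⁻¹))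

/-- Unfolding of the box against an invariant function. -/
lemma box_unfold (hOd : ∀ B : ℝ, {x : ℂ | x ∈ O ∧ ‖x‖ ≤ B}.Finite)
    (hO1 : ∀ x ∈ O, x ≠ 0 → 1 ≤ ‖x‖) {B : Subgroup (arith O hO)} {Box : Set (ℂ × ℂ)}
    (mBox : MeasurableSet Box) (hBA : B ≤ stab O hO)
    (hB : ∀ z ∈ U, ∃! b : B, act (mat b.1.1) z ∈ Box) {ω : X → ℝ≥0∞} (mω : Measurable ω)
    (hω : ∀ z : X, ∑' γ : arith O hO, ω (γ • z) = 1) {φ : ℝ → ℝ≥0∞} (mφ : Measurable φ)
    {Ψ : X → ℝ≥0∞} (mΨ : Measurable Ψ) (hΨ : ∀ (γ : arith O hO) (z : X), Ψ (γ • z) = Ψ z)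
    (y0 : X) :
    ∫⁻ z in {z : X | z.1 ∈ Box}, φ (height z.1) * Ψ z ∂mu =
      rep O hO Box y0 * ∫⁻ z, ω z * (cuspSum O hO φ z * Ψ z) ∂mu := by
  have := countable_arith (hO := hO) hOd
  have mF : Measurable fun z : X => bx Box z.1 * φ (height z.1) * Ψ z :=
    ((measurable_bx mBox).mul (mφ.comp measurable_height)).mul mΨ
  have h1 : ∫⁻ z in {z : X | z.1 ∈ Box}, φ (height z.1) * Ψ z ∂mu =
      ∫⁻ z, bx Box z.1 * φ (height z.1) * Ψ z ∂mu := by
    have hs : MeasurableSet {z : X | z.1 ∈ Box} := mBox.preimage measurable_subtype_coe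
    rw [← lintegral_indicator hs]
    refine lintegral_congr fun z => ?_
    by_cases hz : z ∈ {z : X | z.1 ∈ Box}
    · rw [Set.indicator_of_mem hz]
      have : bx Box z.1 = 1 := if_pos hz
      rw [this, one_mul]
    · rw [Set.indicator_of_notMem hz]
      have : bx Box z.1 = 0 := if_neg hz
      rw [this, zero_mul, zero_mul]
  have h2 := unfold_lintegral (G := arith O hO) (w := ω) mω (c := 1)
    (Filter.Eventually.of_forall hω) mF
  rw [one_mul] at h2
  rw [h1, h2]
  have h3 : ∀ z : X, ∑' γ : arith O hO, bx Box (γ • z : X).1 * φ (height (γ • z : X).1) *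
      Ψ (γ • z) = rep O hO Box y0 * (cuspSum O hO φ z * Ψ z) := by
    intro z
    simp only [hΨ]
    rw [ENNReal.tsum_mul_right, sum_box hO1 hBA hB φ y0 z, mul_assoc]
  simp only [h3]
  have h4 : ∀ z : X, ω z * (rep O hO Box y0 * (cuspSum O hO φ z * Ψ z)) =
      rep O hO Box y0 * (ω z * (cuspSum O hO φ z * Ψ z)) := fun z => by ring
  simp only [h4]
  have mS := measurable_cuspSum (hO := hO) hOd mφ
  have mT : Measurable fun z : X => ω z * (cuspSum O hO φ z * Ψ z) := mω.mul (mS.mul mΨ)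
  exact lintegral_const_mul _ mT

/-- **Abstract theorem.** -/
theorem main_abstract (hOd : ∀ B : ℝ, {x : ℂ | x ∈ O ∧ ‖x‖ ≤ B}.Finite)
    (hO1 : ∀ x ∈ O, x ≠ 0 → 1 ≤ ‖x‖)
    {G : Subgroup (arith O hO)} (hG : G.FiniteIndex)
    {Box : Set (ℂ × ℂ)} (mBox : MeasurableSet Box)
    {B : Subgroup (arith O hO)} (hBA : B ≤ stab O hO)
    (hB : ∀ z ∈ U, ∃! b : B, act (mat b.1.1) z ∈ Box)
    (hBox : ∀ r R : ℝ, 0 < r → ∃ K : Set (ℂ × ℂ), IsCompact K ∧ K ⊆ U ∧
      ∀ z ∈ Box, r ≤ height z → height z ≤ R → z ∈ K)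
    {h : ℝ} (hh : 0 < h) {w v : ℝ → ℝ≥0∞} (mw : Measurable w) (mv : Measurable v)
    (hw0 : ∀ u ≤ h, w u = 0) (hv0 : ∀ u ≤ h, v u = 0) (hvt : ∀ u, v u ≠ ⊤)
    {C c : ℝ≥0∞} (hCt : C ≠ ⊤) (hc0 : c ≠ 0)
    (hC : ∀ z : X, cuspSum O hO w z ≤ C) (hc : ∀ z : X, c ≤ cuspSum O hO v z)
    {f : ℂ × ℂ → ℂ} (hf : ContDiffOn ℝ 2 f U)
    (hinv : ∀ γ : arith O hO, γ ∈ G → ∀ z ∈ U, f (act (mat γ.1) z) = f z) {lam : ℂ}
    (heig : ∀ z ∈ U, laplacian f z = -(lam * f z))
    (hne : ∃ z ∈ U, f z ≠ 0)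
    (hL2 : ∀ q : arith O hO ⧸ G, ∫⁻ z in {z : X | z.1 ∈ Box ∧ h < height z.1},
      ENNReal.ofReal (Complex.normSq (conj G f q z.1)) ∂mu ≠ ⊤)
    (hcusp : ∀ q : arith O hO ⧸ G,
      ∫⁻ z in {z : X | z.1 ∈ Box}, v (height z.1) *
        ENNReal.ofReal (Complex.normSq (conj G f q z.1)) ∂mu ≤
      ∫⁻ z in {z : X | z.1 ∈ Box}, w (height z.1) *
        ENNReal.ofReal (energy (fun z => (conj G f q z).re) z.1 +
          energy (fun z => (conj G f q z).im) z.1) ∂mu) :
    lam.im = 0 ∧ c ≤ C * ENNReal.ofReal lam.re := by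
  have hcountA : Countable (arith O hO) := countable_arith hOd
  have hfinq : Finite (arith O hO ⧸ G) := Subgroup.finite_quotient_of_finiteIndex
  obtain ⟨z0, hz0, hfz0⟩ := hne
  set y0 : X := ⟨z0, hz0⟩ with hy0
  have hex : ∀ z : X, ∃ γ : arith O hO, (γ • z : X).1 ∈ Box ∧ h < height (γ • z : X).1 :=
    fun z => exists_above hBA hO1 hB hv0 hc0 (hc z)
  have hN1 : ∀ z, 1 ≤ cnt O hO Box h z := fun z => one_le_cnt (hex z)
  have hNt : ∀ z, cnt O hO Box h z ≠ ⊤ := fun z => cnt_ne_top hOd hO1 hBox hh z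
  set ω : X → ℝ≥0∞ := omg O hO Box h with hω
  have mω : Measurable ω := measurable_omg hOd mBox h
  have hωs : ∀ z : X, ∑' γ : arith O hO, ω (γ • z) = 1 := fun z => sum_omg (hN1 z) (hNt z)
  have hωle : ∀ z : X, ω z ≤ bx Box z.1 * above h (height z.1) := fun z => omg_le (hN1 z)
  -- covering by compact sets
  have hcov : ∀ R : ℝ, ∃ K : Set (ℂ × ℂ), IsCompact K ∧ K ⊆ U ∧ ∀ z ∈ U,
      (∀ γ : arith O hO, height (act (mat γ.1) z) ≤ R) →
        ∃ γ : arith O hO, act (mat γ.1) z ∈ K := by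
    intro R
    obtain ⟨K, hK, hKU, hKc⟩ := hBox h R hh
    refine ⟨K, hK, hKU, fun z hz hR => ?_⟩
    obtain ⟨γ, h1, h2⟩ := hex ⟨z, hz⟩
    exact ⟨γ, hKc _ h1 h2.le (hR γ)⟩
  -- finiteness of the norms
  have hL2' : ∀ q : arith O hO ⧸ G,
      ∫⁻ z, ω z * ENNReal.ofReal (Complex.normSq (conj G f q z.1)) ∂mu ≠ ⊤ := by
    intro q
    refine ne_top_of_le_ne_top (hL2 q) ?_
    have hs : MeasurableSet {z : X | z.1 ∈ Box ∧ h < height z.1} :=
      (mBox.preimage measurable_subtype_coe).inter (measurableSet_lt measurable_const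
        measurable_height)
    rw [← lintegral_indicator hs]
    refine lintegral_mono fun z => ?_
    by_cases hz : z ∈ {z : X | z.1 ∈ Box ∧ h < height z.1}
    · rw [Set.indicator_of_mem hz]
      have e1 : bx Box z.1 = 1 := if_pos hz.1
      have e2 : above h (height z.1) = 1 :=
        Set.indicator_of_mem (show height z.1 ∈ Set.Ioi h from hz.2) _
      have h1 := hωle z
      rw [e1, e2, mul_one] at h1
      calc ω z * _ ≤ 1 * ENNReal.ofReal (Complex.normSq (conj G f q z.1)) := by gcongr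
        _ = _ := one_mul _
    · rw [Set.indicator_of_notMem hz]
      have h1 : ω z = 0 := by
        have h2 := hωle z
        have h3 : bx Box z.1 * above h (height z.1) = 0 := by
          by_cases hb : z.1 ∈ Box
          · have hnot : height z.1 ∉ Set.Ioi h := fun hc => hz ⟨hb, hc⟩
            have : above h (height z.1) = 0 := Set.indicator_of_notMem hnot _
            rw [this, mul_zero]
          · have : bx Box z.1 = 0 := if_neg hb
            rw [this, zero_mul]
        rw [h3] at h2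
        exact le_zero_iff.1 h2
      rw [h1, zero_mul]
  obtain ⟨him, hE⟩ := green_level hOd hO1 hcov hG mω (c := 1) one_ne_zero ENNReal.one_ne_top
    (Filter.Eventually.of_forall hωs) hf hinv heig hL2' ⟨z0, hz0, hfz0⟩
  refine ⟨him, ?_⟩
  have mP : Measurable (PhiS G f) := measurable_PhiS hf
  have mE : Measurable (EnS G f) := measurable_EnS hf
  have mOP : Measurable fun z : X => ω z * PhiS G f z := mω.mul mP
  have mOE : Measurable fun z : X => ω z * EnS G f z := mω.mul mE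
  have hPinv : ∀ (γ : arith O hO) (z : X), PhiS G f (γ • z) = PhiS G f z := PhiS_smul hinv
  have hEinv : ∀ (γ : arith O hO) (z : X), EnS G f (γ • z) = EnS G f z := EnS_smul hf hinv
  set I := ∫⁻ z, ω z * PhiS G f z ∂mu with hI
  set D := ∫⁻ z, ω z * EnS G f z ∂mu with hD
  have hE' : D ≤ ENNReal.ofReal lam.re * I := hE
  set R := rep O hO Box y0 with hR
  have hR0 : R ≠ 0 := by
    have := one_le_rep hBA hB y0
    intro h0
    rw [← hR, h0] at this
    exact absurd this (by simp)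
  have hRt : R ≠ ⊤ := rep_ne_top hOd hO1 hBox y0
  -- finite
  have hIt : I ≠ ⊤ := by
    have := Fintype.ofFinite (arith O hO ⧸ G)
    rw [hI]
    unfold PhiS
    simp only [tsum_fintype, Finset.mul_sum]
    rw [lintegral_finsetSum]
    · exact ENNReal.sum_ne_top.2 fun q _ => hL2' q
    · intro q _
      exact mω.mul (ENNReal.continuous_ofReal.comp (Complex.continuous_normSq.comp
        (continuousOn_iff_continuous_domRestrict.mp
          (contDiffOn_conj (G := G) hf q).continuousOn))).measurable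
  -- nonzero
  have hI0 : I ≠ 0 := by
    intro hcon
    have h1 := unfold_lintegral (G := arith O hO) (w := ω) mω (c := 1)
      (Filter.Eventually.of_forall hωs) mP
    rw [one_mul] at h1
    have h2 : ∫⁻ z, ω z * ∑' γ : arith O hO, PhiS G f (γ • z) ∂mu = 0 := by
      simp only [hPinv]
      rw [hI, lintegral_eq_zero_iff mOP] at hcon
      refine (lintegral_congr_ae ?_).trans lintegral_zero
      filter_upwards [hcon] with z hz
      simp only [Pi.zero_apply, mul_eq_zero] at hz ⊢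
      rcases hz with hz | hz
      · exact Or.inl hz
      · right
        rw [hz]
        simp
    rw [h2] at h1
    set q : arith O hO ⧸ G := ((1 : arith O hO) : arith O hO ⧸ G) with hq
    have hcq : Continuous fun z : X => Complex.normSq (conj G f q z.1) :=
      Complex.continuous_normSq.comp (continuousOn_iff_continuous_domRestrict.mp
        (contDiffOn_conj (G := G) hf q).continuousOn)
    have h3 : (fun z : X => Complex.normSq (conj G f q z.1)) =ᵐ[mu] fun _ => 0 := by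
      rw [lintegral_eq_zero_iff mP] at h1
      filter_upwards [h1] with z hz
      have h4 : PhiS G f z = 0 := hz
      unfold PhiS at h4
      rw [ENNReal.tsum_eq_zero] at h4
      exact le_antisymm (ENNReal.ofReal_eq_zero.mp (h4 q)) (Complex.normSq_nonneg _)
    have h5 := (Continuous.ae_eq_iff_eq mu hcq continuous_const).mp h3
    have h6 : Complex.normSq (conj G f q ((q.out : arith O hO) • y0 : X).1) = 0 :=
      congrFun h5 ((q.out : arith O hO) • y0)
    rw [Complex.normSq_eq_zero] at h6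
    have h7 : conj G f q ((q.out : arith O hO) • y0 : X).1 = f z0 := by
      unfold conj
      congr 1
      exact act_inv_act (q.out : arith O hO).1 hz0
    rw [h7] at h6
    exact hfz0 h6
  -- the two unfoldings
  have u1 := box_unfold hOd hO1 mBox hBA hB mω hωs mv mP hPinv y0
  have u2 := box_unfold hOd hO1 mBox hBA hB mω hωs mw mE hEinv y0
  have l1 : R * (c * I) ≤ ∫⁻ z in {z : X | z.1 ∈ Box}, v (height z.1) * PhiS G f z ∂mu := by
    rw [u1]
    gcongr
    rw [hI, ← lintegral_const_mul _ mOP]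
    refine lintegral_mono fun z => ?_
    calc c * (ω z * PhiS G f z) = ω z * (c * PhiS G f z) := by ring
      _ ≤ ω z * (cuspSum O hO v z * PhiS G f z) := by
        gcongr
        exact hc z
  have l2 : ∫⁻ z in {z : X | z.1 ∈ Box}, w (height z.1) * EnS G f z ∂mu ≤ R * (C * D) := by
    rw [u2]
    gcongr
    rw [hD, ← lintegral_const_mul _ mOE]
    refine lintegral_mono fun z => ?_
    calc ω z * (cuspSum O hO w z * EnS G f z) ≤ ω z * (C * EnS G f z) := by
          gcongr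
          exact hC z
      _ = C * (ω z * EnS G f z) := by ring
  have l3 : ∫⁻ z in {z : X | z.1 ∈ Box}, v (height z.1) * PhiS G f z ∂mu ≤
      ∫⁻ z in {z : X | z.1 ∈ Box}, w (height z.1) * EnS G f z ∂mu := by
    have := Fintype.ofFinite (arith O hO ⧸ G)
    unfold PhiS EnS
    simp only [tsum_fintype, Finset.mul_sum]
    rw [lintegral_finsetSum, lintegral_finsetSum]
    · exact Finset.sum_le_sum fun q _ => hcusp q
    · intro q _
      exact (mw.comp measurable_height).mul (measurable_energy hf q)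
    · intro q _
      exact (mv.comp measurable_height).mul (ENNReal.continuous_ofReal.comp
        (Complex.continuous_normSq.comp (continuousOn_iff_continuous_domRestrict.mp
          (contDiffOn_conj (G := G) hf q).continuousOn))).measurable
  have l4 : R * (c * I) ≤ R * (C * (ENNReal.ofReal lam.re * I)) := by
    refine (l1.trans l3).trans (l2.trans ?_)
    gcongr
  have l5 : c * I ≤ C * (ENNReal.ofReal lam.re * I) := (ENNReal.mul_le_mul_iff_right hR0 hRt).1 l4
  have l6 : I * c ≤ I * (C * ENNReal.ofReal lam.re) := by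
    calc I * c = c * I := mul_comm _ _
      _ ≤ C * (ENNReal.ofReal lam.re * I) := l5
      _ = I * (C * ENNReal.ofReal lam.re) := by ring
  exact (ENNReal.mul_le_mul_iff_right hI0 hIt).1 l6

end

end Pool.Agent.Lib.H56.Gen
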