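import Pool.Agent.Lib.H56.Gen.LevelCusp
import Pool.Agent.Lib.H56.Gen.Main
import Pool.Agent.Lib.H56.Picard.Final

/-!
# The conjugates of an automorphic function at the cusp
-/

namespace Pool.Agent.Lib.H56.Gen

open Matrix hiding J
open MeasureTheory Topology
open Pool.Agent.Lib.H56.Picard (SU21 mat height X mu continuous_height mat_one
  measurableSet_siegel act energy normL normL_nonneg dv du isOpen_siegel U isOpen_U act_mem_U TM T
  mat_T act_TM lift jf jf_ne_zero mat_unitary lin mulVec_lift_apply lin_apply triple_comm arith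
  continuous_restrict continuousOn_normL)
open scoped ENNReal

noncomputable section

variable {q : QD}

/-- Elements of the group are smooth. -/
lemma contDiffAt_act2 (g : SU21) {z : ℂ × ℂ} (hz : z ∈ U) : ContDiffAt ℝ 2 (act (mat g)) z := by
  have h1 : ∀ i : Fin 3, ContDiffAt ℂ 2 (fun z => (mat g *ᵥ lift z) i) z := by
    intro i
    have : (fun z => (mat g *ᵥ lift z) i) = fun z => lin (mat g) i z + mat g i 2 := by
      funext z
      rw [mulVec_lift_apply, lin_apply]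
    rw [this]
    exact ((lin (mat g) i).contDiff.add contDiff_const).contDiffAt
  have hj : jf (mat g) z ≠ 0 := jf_ne_zero (mat_unitary g) hz
  have h2 : ContDiffAt ℂ 2 (act (mat g)) z := ((h1 0).div (h1 2) hj).prodMk ((h1 1).div (h1 2) hj)
  exact h2.restrict_scalars ℝ

lemma contDiffOn_conj2 {G : Subgroup (Gam q)} {f : ℂ × ℂ → ℂ} (hf : ContDiffOn ℝ 2 f U)
    (x : Gam q ⧸ G) : ContDiffOn ℝ 2 (conj G f x) U := by
  intro z hz
  apply ContDiffAt.contDiffWithinAt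
  exact (hf.contDiffAt (isOpen_U.mem_nhds (act_mem_U _ hz))).comp z (contDiffAt_act2 _ hz)

lemma conj_inv {p : ℂ} {f : ℂ × ℂ → ℂ}
    (hinv : ∀ γ : Gam q, γ ∈ GamN q p → ∀ z ∈ U, f (act (mat γ.1) z) = f z)
    (x : Gam q ⧸ GamN q p) {γ : Gam q} (hγ : γ ∈ GamN q p) {z : ℂ × ℂ} (hz : z ∈ U) :
    conj (GamN q p) f x (act (mat γ.1) z) = conj (GamN q p) f x z := by
  rw [conj_smul hinv x γ hz]
  congr 1
  induction x using QuotientGroup.induction_on with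
  | H a =>
    have h1 : (γ⁻¹ • (a : Gam q ⧸ GamN q p)) = ((γ⁻¹ * a : Gam q) : Gam q ⧸ GamN q p) := rfl
    rw [h1, QuotientGroup.eq]
    have h2 : (γ⁻¹ * a)⁻¹ * a = a⁻¹ * γ * a := by group
    rw [h2]
    exact GamN_normal.conj_mem' γ hγ a

lemma T_mem_GamN {p l w : ℂ} (hp : p ∈ OO q) (h : 2 * w.re = -Complex.normSq l)
    (hl : l ∈ PO q p) (hsl : star l ∈ PO q p) (hw : w ∈ PO q p) :
    (⟨T l w h, T_mem h (PO_le hp hl) (PO_le hp hw)⟩ : Gam q) ∈ GamN q p := by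
  rw [mem_GamN]
  intro i j
  show mat (T l w h) i j - (1 : Matrix (Fin 3) (Fin 3) ℂ) i j ∈ PO q p
  rw [mat_T]
  have h0 := (PO q p).zero_mem
  have h1 := (PO q p).neg_mem hsl
  simp only [Complex.star_def] at h1
  fin_cases i <;> fin_cases j <;> simp [TM, h0, h1, hl, hw]

lemma cuspFun_re (K : Cusp q) {f : ℂ × ℂ → ℂ} (hf : ContDiffOn ℝ 2 f U)
    (hinv : ∀ γ : Gam q, γ ∈ GamN q K.p → ∀ z ∈ U, f (act (mat γ.1) z) = f z)
    (x : Gam q ⧸ GamN q K.p) (R : ℂ →L[ℝ] ℝ) :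
    CuspFun K (fun z => R (conj (GamN q K.p) f x z)) := by
  have hr0 : 2 * (⟨0, K.P / 2⟩ : ℂ).re = -Complex.normSq 0 := by simp
  refine ⟨R.contDiff.comp_contDiffOn (contDiffOn_conj2 hf x), fun z hz => ?_, fun z hz => ?_,
    fun z hz => ?_⟩
  · have h1 := conj_inv hinv x (T_mem_GamN K.hp hr0 (PO q K.p).zero_mem
      (by rw [star_zero]; exact (PO q K.p).zero_mem) K.hw0) (z := z) hz
    have h2 : act (mat (⟨T 0 ⟨0, K.P / 2⟩ hr0, T_mem hr0 (PO_le K.hp (PO q K.p).zero_mem)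
      (PO_le K.hp K.hw0)⟩ : Gam q).1) z = (z.1 + ⟨0, K.P / 2⟩, z.2) := by
      show act (mat (T 0 ⟨0, K.P / 2⟩ hr0)) z = _
      rw [mat_T, act_TM]
      simp
    rw [h2] at h1
    exact congrArg R h1
  · have h1 := conj_inv hinv x (T_mem_GamN K.hp K.r1 K.he1 K.hs1 K.hw1) (z := z) hz
    have h2 : act (mat (⟨T K.e1 K.w1 K.r1, T_mem K.r1 (PO_le K.hp K.he1)
      (PO_le K.hp K.hw1)⟩ : Gam q).1) z = (z.1 - star K.e1 * z.2 + K.w1, z.2 + K.e1) := by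
      show act (mat (T K.e1 K.w1 K.r1)) z = _
      rw [mat_T, act_TM]
    rw [h2] at h1
    exact congrArg R h1
  · have h1 := conj_inv hinv x (T_mem_GamN K.hp K.r2 K.he2 K.hs2 K.hw2) (z := z) hz
    have h2 : act (mat (⟨T K.e2 K.w2 K.r2, T_mem K.r2 (PO_le K.hp K.he2)
      (PO_le K.hp K.hw2)⟩ : Gam q).1) z = (z.1 - star K.e2 * z.2 + K.w2, z.2 + K.e2) := by
      show act (mat (T K.e2 K.w2 K.r2)) z = _
      rw [mat_T, act_TM]
    rw [h2] at h1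
    exact congrArg R h1

lemma cont_fixedE (e1 e2 : ℂ) {f : ℂ × ℂ → ℂ} (hf : ContinuousOn f U) {u : ℝ}
    (hu : 0 < u) : Continuous fun p : ℝ × ℝ × ℝ => f (PsiE e1 e2 p.1 p.2.1 p.2.2 u) := by
  have h0 : Continuous fun p : ℝ × ℝ × ℝ => ((p.1, p.2.1, p.2.2, u) : ℝ × ℝ × ℝ × ℝ) := by
    fun_prop
  have h1 := (continuous_PsiE4 e1 e2).comp h0
  simp only [Function.comp_def] at h1
  apply hf.comp_continuous h1
  intro p
  show 0 < height _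
  rw [ht_PsiE]; exact hu

/-- Finiteness of the integral above any height. -/
lemma BW_lt_top (K : Cusp q) {h : ℝ} (hh : 0 < h) {φ : ℂ × ℂ → ℝ} (hφ : ContinuousOn φ U)
    (h1 : BW 1 K.P (fun s t v u => φ (PsiE K.e1 K.e2 s t v u)) < ∞) :
    BW h K.P (fun s t v u => φ (PsiE K.e1 K.e2 s t v u)) < ∞ := by
  -- bound on the compact part
  have hcpt : IsCompact (Set.Icc (0 : ℝ) 1 ×ˢ Set.Icc (0 : ℝ) 1 ×ˢ Set.Icc (0 : ℝ) K.P ×ˢ
      Set.Icc h 1) :=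
    isCompact_Icc.prod (isCompact_Icc.prod (isCompact_Icc.prod isCompact_Icc))
  have hcont : ContinuousOn (fun p : ℝ × ℝ × ℝ × ℝ =>
      φ (PsiE K.e1 K.e2 p.1 p.2.1 p.2.2.1 p.2.2.2))
      (Set.Icc (0 : ℝ) 1 ×ˢ Set.Icc (0 : ℝ) 1 ×ˢ Set.Icc (0 : ℝ) K.P ×ˢ Set.Icc h 1) := by
    have h2 : ContinuousOn (fun p : ℝ × ℝ × ℝ × ℝ =>
        φ (PsiE K.e1 K.e2 p.1 p.2.1 p.2.2.1 p.2.2.2)) {p | 0 < p.2.2.2} :=
      ContinuousOn.comp (t := U) hφ (continuous_PsiE4 K.e1 K.e2).continuousOn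
        (PsiE_mapsTo K.e1 K.e2)
    refine h2.mono ?_
    intro p hp
    exact lt_of_lt_of_le hh hp.2.2.2.1
  obtain ⟨M, hM⟩ := hcpt.exists_bound_of_continuousOn hcont
  have hsub : Set.Ioi h ⊆ Set.Icc h 1 ∪ Set.Ioi 1 := by
    intro u hu
    by_cases h2 : u ≤ 1
    · exact Or.inl ⟨le_of_lt hu, h2⟩
    · exact Or.inr (not_le.mp h2)
  unfold BW at h1 ⊢
  refine lt_of_le_of_lt (lintegral_mono_set hsub) ?_
  refine lt_of_le_of_lt (lintegral_union_le _ _ _) ?_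
  refine ENNReal.add_lt_top.2 ⟨?_, h1⟩
  have hb : ∀ u ∈ Set.Icc h 1, ∀ s ∈ Set.Icc (0 : ℝ) 1, ∀ t ∈ Set.Icc (0 : ℝ) 1,
      ∀ v ∈ Set.Icc (0 : ℝ) K.P,
      ENNReal.ofReal (u⁻¹ ^ 3 * φ (PsiE K.e1 K.e2 s t v u)) ≤ ENNReal.ofReal (h⁻¹ ^ 3 * M) := by
    intro u hu s hs t ht v hv
    apply ENNReal.ofReal_le_ofReal
    have h3 := hM (s, t, v, u) ⟨hs, ht, hv, hu⟩
    have h4 : φ (PsiE K.e1 K.e2 s t v u) ≤ M := (le_abs_self _).trans h3
    have h5 : 0 ≤ M := (norm_nonneg _).trans h3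
    have hu0 : 0 < u := lt_of_lt_of_le hh hu.1
    have h6 : u⁻¹ ^ 3 ≤ h⁻¹ ^ 3 := by
      have : u⁻¹ ≤ h⁻¹ := inv_anti₀ hh hu.1
      gcongr
    calc u⁻¹ ^ 3 * φ (PsiE K.e1 K.e2 s t v u) ≤ u⁻¹ ^ 3 * M := by gcongr
      _ ≤ h⁻¹ ^ 3 * M := by gcongr
  have hle : ∫⁻ u in Set.Icc h 1, ∫⁻ s in Set.Icc (0 : ℝ) 1, ∫⁻ t in Set.Icc (0 : ℝ) 1,
      ∫⁻ v in Set.Icc (0 : ℝ) K.P, ENNReal.ofReal (u⁻¹ ^ 3 * φ (PsiE K.e1 K.e2 s t v u)) ≤
      ∫⁻ u in Set.Icc h 1, ∫⁻ s in Set.Icc (0 : ℝ) 1, ∫⁻ t in Set.Icc (0 : ℝ) 1,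
      ∫⁻ v in Set.Icc (0 : ℝ) K.P, ENNReal.ofReal (h⁻¹ ^ 3 * M) :=
    setLIntegral_mono' measurableSet_Icc fun u hu =>
      setLIntegral_mono' measurableSet_Icc fun s hs =>
        setLIntegral_mono' measurableSet_Icc fun t ht =>
          setLIntegral_mono' measurableSet_Icc fun v hv => hb u hu s hs t ht v hv
  refine lt_of_le_of_lt hle ?_
  simp only [lintegral_const, Measure.restrict_apply MeasurableSet.univ, Set.univ_inter,
    Real.volume_Icc]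
  exact ENNReal.mul_lt_top (ENNReal.mul_lt_top (ENNReal.mul_lt_top (ENNReal.mul_lt_top
    ENNReal.ofReal_lt_top ENNReal.ofReal_lt_top) ENNReal.ofReal_lt_top) ENNReal.ofReal_lt_top)
    ENNReal.ofReal_lt_top

end

end Pool.Agent.Lib.H56.Gen
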