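import Pool.Agent.Lib.H56.Gen.LevelCoord

/-!
# The weighted cusp inequality for functions periodic under the translations of the cusp
-/

namespace Pool.Agent.Lib.H56.Gen

open Matrix hiding J
open MeasureTheory Topology
open Pool.Agent.Lib.H56.Picard (SU21 mat height X mu continuous_height
  measurableSet_siegel act energy normL dv du hasDerivAt_mk isOpen_siegel)
open scoped ENNReal

noncomputable section

variable {q : QD}

/-- coordinate vector field in the direction `s` -/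
def dsE (e1 e2 : ℂ) (s t : ℝ) : ℂ × ℂ :=
  (⟨-(s * Complex.normSq e1 + t * (e1.re * e2.re + e1.im * e2.im)), 0⟩, e1)

/-- coordinate vector field in the direction `t` -/
def dtE (e1 e2 : ℂ) (s t : ℝ) : ℂ × ℂ :=
  (⟨-(s * (e1.re * e2.re + e1.im * e2.im) + t * Complex.normSq e2), 0⟩, e2)

/-- mixed derivative of the coordinates -/
def dstE (e1 e2 : ℂ) : ℂ × ℂ := (⟨-(e1.re * e2.re + e1.im * e2.im), 0⟩, 0)

lemma PsiE_mk (e1 e2 : ℂ) (s t v u : ℝ) : PsiE e1 e2 s t v u =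
    (⟨(-(s ^ 2 * Complex.normSq e1 + 2 * (s * t) * (e1.re * e2.re + e1.im * e2.im) +
      t ^ 2 * Complex.normSq e2) - u) / 2, v / 2⟩,
      ⟨s * e1.re + t * e2.re, s * e1.im + t * e2.im⟩) := by
  refine Prod.ext (Complex.ext ?_ rfl) (Complex.ext ?_ ?_)
  · simp only [PsiE, Complex.normSq_apply]
    simp
    ring
  · simp [PsiE]
  · simp [PsiE]

lemma hasDerivAt_PsiE_s (e1 e2 : ℂ) (s t v u : ℝ) :
    HasDerivAt (fun x => PsiE e1 e2 x t v u) (dsE e1 e2 s t) s := by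
  have e : dsE e1 e2 s t = (⟨-(s * Complex.normSq e1 + t * (e1.re * e2.re + e1.im * e2.im)), 0⟩,
    ⟨e1.re, e1.im⟩) := rfl
  rw [e]
  simp only [PsiE_mk]
  apply hasDerivAt_mk
  · have h := (((((((hasDerivAt_id s).pow 2).mul_const (Complex.normSq e1)).add
      ((((hasDerivAt_id s).mul_const t).const_mul 2).mul_const
        (e1.re * e2.re + e1.im * e2.im))).add_const (t ^ 2 * Complex.normSq e2)).neg).sub_const
      u).div_const 2
    refine h.congr_deriv ?_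
    simp
    ring
  · exact hasDerivAt_const _ _
  · refine (((hasDerivAt_id s).mul_const e1.re).add_const (t * e2.re)).congr_deriv ?_
    simp
  · refine (((hasDerivAt_id s).mul_const e1.im).add_const (t * e2.im)).congr_deriv ?_
    simp

lemma hasDerivAt_PsiE_t (e1 e2 : ℂ) (s t v u : ℝ) :
    HasDerivAt (fun x => PsiE e1 e2 s x v u) (dtE e1 e2 s t) t := by
  have e : dtE e1 e2 s t = (⟨-(s * (e1.re * e2.re + e1.im * e2.im) + t * Complex.normSq e2), 0⟩,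
    ⟨e2.re, e2.im⟩) := rfl
  rw [e]
  simp only [PsiE_mk]
  apply hasDerivAt_mk
  · have h := ((((((((hasDerivAt_id t).const_mul s).const_mul 2).mul_const
        (e1.re * e2.re + e1.im * e2.im)).const_add (s ^ 2 * Complex.normSq e1)).add
        (((hasDerivAt_id t).pow 2).mul_const (Complex.normSq e2))).neg).sub_const
      u).div_const 2
    refine h.congr_deriv ?_
    simp
    ring
  · exact hasDerivAt_const _ _
  · refine (((hasDerivAt_id t).mul_const e2.re).const_add (s * e1.re)).congr_deriv ?_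
    simp
  · refine (((hasDerivAt_id t).mul_const e2.im).const_add (s * e1.im)).congr_deriv ?_
    simp

lemma hasDerivAt_PsiE_v (e1 e2 : ℂ) (s t v u : ℝ) :
    HasDerivAt (fun x => PsiE e1 e2 s t x u) dv v := by
  have e : dv = (⟨0, 1 / 2⟩, ⟨0, 0⟩) := rfl
  rw [e]
  simp only [PsiE_mk]
  apply hasDerivAt_mk
  · exact hasDerivAt_const _ _
  · exact (hasDerivAt_id v).div_const 2
  · exact hasDerivAt_const _ _
  · exact hasDerivAt_const _ _

lemma hasDerivAt_PsiE_u (e1 e2 : ℂ) (s t v u : ℝ) :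
    HasDerivAt (fun x => PsiE e1 e2 s t v x) du u := by
  have e : du = (⟨-(1 / 2), 0⟩, ⟨0, 0⟩) := rfl
  rw [e]
  simp only [PsiE_mk]
  apply hasDerivAt_mk
  · refine (((hasDerivAt_id u).const_sub _).div_const 2).congr_deriv ?_
    norm_num
  · exact hasDerivAt_const _ _
  · exact hasDerivAt_const _ _
  · exact hasDerivAt_const _ _

lemma hasDerivAt_dsE_t (e1 e2 : ℂ) (s t : ℝ) :
    HasDerivAt (fun x => dsE e1 e2 s x) (dstE e1 e2) t := by
  have e : dstE e1 e2 = (⟨-(e1.re * e2.re + e1.im * e2.im), 0⟩, ⟨0, 0⟩) := rfl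
  have e' : (fun x => dsE e1 e2 s x) = fun x =>
      ((⟨-(s * Complex.normSq e1 + x * (e1.re * e2.re + e1.im * e2.im)), 0⟩,
        ⟨e1.re, e1.im⟩) : ℂ × ℂ) := rfl
  rw [e, e']
  apply hasDerivAt_mk
  · refine ((((hasDerivAt_id t).mul_const (e1.re * e2.re + e1.im * e2.im)).const_add
      (s * Complex.normSq e1)).neg).congr_deriv ?_
    simp
  · exact hasDerivAt_const _ _
  · exact hasDerivAt_const _ _
  · exact hasDerivAt_const _ _

lemma hasDerivAt_dtE_s (e1 e2 : ℂ) (s t : ℝ) :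
    HasDerivAt (fun x => dtE e1 e2 x t) (dstE e1 e2) s := by
  have e : dstE e1 e2 = (⟨-(e1.re * e2.re + e1.im * e2.im), 0⟩, ⟨0, 0⟩) := rfl
  have e' : (fun x => dtE e1 e2 x t) = fun x =>
      ((⟨-(x * (e1.re * e2.re + e1.im * e2.im) + t * Complex.normSq e2), 0⟩,
        ⟨e2.re, e2.im⟩) : ℂ × ℂ) := rfl
  rw [e, e']
  apply hasDerivAt_mk
  · refine ((((hasDerivAt_id s).mul_const (e1.re * e2.re + e1.im * e2.im)).add_const
      (t * Complex.normSq e2)).neg).congr_deriv ?_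
    simp
  · exact hasDerivAt_const _ _
  · exact hasDerivAt_const _ _
  · exact hasDerivAt_const _ _

lemma continuous_dsE (e1 e2 : ℂ) : Continuous fun p : ℝ × ℝ × ℝ × ℝ => dsE e1 e2 p.1 p.2.1 := by
  have e : (fun p : ℝ × ℝ × ℝ × ℝ => dsE e1 e2 p.1 p.2.1) = fun p =>
      (((-(p.1 * Complex.normSq e1 + p.2.1 * (e1.re * e2.re + e1.im * e2.im)) : ℝ) : ℂ), e1) := by
    funext p
    refine Prod.ext (Complex.ext ?_ ?_) rfl <;> simp [dsE]
  rw [e]
  fun_prop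

lemma continuous_dtE (e1 e2 : ℂ) : Continuous fun p : ℝ × ℝ × ℝ × ℝ => dtE e1 e2 p.1 p.2.1 := by
  have e : (fun p : ℝ × ℝ × ℝ × ℝ => dtE e1 e2 p.1 p.2.1) = fun p =>
      (((-(p.1 * (e1.re * e2.re + e1.im * e2.im) + p.2.1 * Complex.normSq e2) : ℝ) : ℂ), e2) := by
    funext p
    refine Prod.ext (Complex.ext ?_ ?_) rfl <;> simp [dtE]
  rw [e]
  fun_prop

/-- The energy density in coordinates. -/
lemma energy_PsiE (K : Cusp q) (f : ℂ × ℂ → ℝ) (s t v u : ℝ) :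
    energy f (PsiE K.e1 K.e2 s t v u) =
      u ^ 2 * ((fderiv ℝ f (PsiE K.e1 K.e2 s t v u) du) ^ 2 +
        (fderiv ℝ f (PsiE K.e1 K.e2 s t v u) dv) ^ 2) +
      u * (K.A1 * (fderiv ℝ f (PsiE K.e1 K.e2 s t v u) (dsE K.e1 K.e2 s t) +
          (2 * K.cv) * t * fderiv ℝ f (PsiE K.e1 K.e2 s t v u) dv) ^ 2 +
        K.A2 * (fderiv ℝ f (PsiE K.e1 K.e2 s t v u) (dsE K.e1 K.e2 s t) +
            (2 * K.cv) * t * fderiv ℝ f (PsiE K.e1 K.e2 s t v u) dv) *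
          (fderiv ℝ f (PsiE K.e1 K.e2 s t v u) (dtE K.e1 K.e2 s t) -
            (2 * K.cv) * s * fderiv ℝ f (PsiE K.e1 K.e2 s t v u) dv) +
        K.A3 * (fderiv ℝ f (PsiE K.e1 K.e2 s t v u) (dtE K.e1 K.e2 s t) -
            (2 * K.cv) * s * fderiv ℝ f (PsiE K.e1 K.e2 s t v u) dv) ^ 2) := by
  unfold energy normL
  rw [ht_PsiE]
  have hc := K.cv_pos.ne'
  have hz2 : (PsiE K.e1 K.e2 s t v u).2 = s * K.e1 + t * K.e2 := rfl
  rw [hz2]
  generalize fderiv ℝ f (PsiE K.e1 K.e2 s t v u) = L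
  have e1 : L (1 / 2, 0) = -L du := by
    rw [← map_neg]; congr 1
    refine Prod.ext (Complex.ext ?_ ?_) (Complex.ext ?_ ?_) <;> simp [du]
  have e2 : L (Complex.I / 2, 0) = L dv := by
    congr 1
    refine Prod.ext (Complex.ext ?_ ?_) (Complex.ext ?_ ?_) <;> simp [dv]
  have e3 : K.e1.re * L (-star (s * K.e1 + t * K.e2 : ℂ), 1) +
      K.e1.im * L (-(Complex.I * star (s * K.e1 + t * K.e2 : ℂ)), Complex.I) =
      L (dsE K.e1 K.e2 s t) + (2 * K.cv) * t * L dv := by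
    have : K.e1.re • ((-star (s * K.e1 + t * K.e2 : ℂ), 1) : ℂ × ℂ) +
        K.e1.im • ((-(Complex.I * star (s * K.e1 + t * K.e2 : ℂ)), Complex.I) : ℂ × ℂ) =
        dsE K.e1 K.e2 s t + ((2 * K.cv) * t) • dv := by
      refine Prod.ext (Complex.ext ?_ ?_) (Complex.ext ?_ ?_) <;>
        simp [dsE, dv, Cusp.cv, Complex.normSq_apply] <;> ring
    have h2 := congrArg L this
    simp only [map_smul, map_add, smul_eq_mul] at h2
    exact h2
  have e4 : K.e2.re * L (-star (s * K.e1 + t * K.e2 : ℂ), 1) +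
      K.e2.im * L (-(Complex.I * star (s * K.e1 + t * K.e2 : ℂ)), Complex.I) =
      L (dtE K.e1 K.e2 s t) - (2 * K.cv) * s * L dv := by
    have : K.e2.re • ((-star (s * K.e1 + t * K.e2 : ℂ), 1) : ℂ × ℂ) +
        K.e2.im • ((-(Complex.I * star (s * K.e1 + t * K.e2 : ℂ)), Complex.I) : ℂ × ℂ) =
        dtE K.e1 K.e2 s t - ((2 * K.cv) * s) • dv := by
      refine Prod.ext (Complex.ext ?_ ?_) (Complex.ext ?_ ?_) <;>
        simp [dtE, dv, Cusp.cv, Complex.normSq_apply] <;> ring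
    have h2 := congrArg L this
    simp only [map_smul, map_add, map_sub, smul_eq_mul] at h2
    exact h2
  rw [e1, e2, ← e3, ← e4]
  generalize L (-star (s * K.e1 + t * K.e2 : ℂ), 1) = C
  generalize L (-(Complex.I * star (s * K.e1 + t * K.e2 : ℂ)), Complex.I) = D
  have key : K.A1 * (K.e1.re * C + K.e1.im * D) ^ 2 +
      K.A2 * (K.e1.re * C + K.e1.im * D) * (K.e2.re * C + K.e2.im * D) +
      K.A3 * (K.e2.re * C + K.e2.im * D) ^ 2 = (C ^ 2 + D ^ 2) / 4 := by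
    have h4 : K.cv ^ 2 = (K.e1.re * K.e2.im - K.e1.im * K.e2.re) ^ 2 := rfl
    simp only [Cusp.A1, Cusp.A2, Cusp.A3, Complex.normSq_apply]
    field_simp
    rw [h4]
    ring
  rw [key]
  ring

/-- A real function on the Siegel domain periodic under the translations of the cusp. -/
structure CuspFun (K : Cusp q) (g : ℂ × ℂ → ℝ) : Prop where
  smooth : ContDiffOn ℝ 2 g {z : ℂ × ℂ | 0 < height z}
  pv : ∀ z : ℂ × ℂ, 0 < height z → g (z.1 + ⟨0, K.P / 2⟩, z.2) = g z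
  ps : ∀ z : ℂ × ℂ, 0 < height z → g (z.1 - star K.e1 * z.2 + K.w1, z.2 + K.e1) = g z
  pt : ∀ z : ℂ × ℂ, 0 < height z → g (z.1 - star K.e2 * z.2 + K.w2, z.2 + K.e2) = g z

lemma PsiE_mapsTo (e1 e2 : ℂ) : Set.MapsTo
    (fun p : ℝ × ℝ × ℝ × ℝ => PsiE e1 e2 p.1 p.2.1 p.2.2.1 p.2.2.2)
    {p | 0 < p.2.2.2} {z : ℂ × ℂ | 0 < height z} := by
  intro p hp
  show 0 < height (PsiE e1 e2 p.1 p.2.1 p.2.2.1 p.2.2.2)
  rw [ht_PsiE]; exact hp

namespace CuspFun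

variable {K : Cusp q} {g : ℂ × ℂ → ℝ} (hg : CuspFun K g)

include hg

lemma differentiableAt {z : ℂ × ℂ} (hz : 0 < height z) : DifferentiableAt ℝ g z :=
  ((hg.smooth.differentiableOn two_ne_zero) z hz).differentiableAt (isOpen_siegel.mem_nhds hz)

lemma contDiffOn_fderiv : ContDiffOn ℝ 1 (fderiv ℝ g) {z : ℂ × ℂ | 0 < height z} :=
  hg.smooth.fderiv_of_isOpen isOpen_siegel (by norm_num)

lemma continuousOn_fderiv : ContinuousOn (fderiv ℝ g) {z : ℂ × ℂ | 0 < height z} :=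
  hg.contDiffOn_fderiv.continuousOn

lemma continuousOn_fderiv2 :
    ContinuousOn (fderiv ℝ (fderiv ℝ g)) {z : ℂ × ℂ | 0 < height z} :=
  hg.contDiffOn_fderiv.continuousOn_fderiv_of_isOpen isOpen_siegel le_rfl

lemma differentiableAt_fderiv {z : ℂ × ℂ} (hz : 0 < height z) :
    DifferentiableAt ℝ (fderiv ℝ g) z :=
  ((hg.contDiffOn_fderiv.differentiableOn one_ne_zero) z hz).differentiableAt
    (isOpen_siegel.mem_nhds hz)

lemma cont : ContinuousOn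
    (fun p : ℝ × ℝ × ℝ × ℝ => g (PsiE K.e1 K.e2 p.1 p.2.1 p.2.2.1 p.2.2.2))
    {p | 0 < p.2.2.2} :=
  hg.smooth.continuousOn.comp (continuous_PsiE4 _ _).continuousOn (PsiE_mapsTo _ _)

lemma cont_dir {d : ℝ × ℝ × ℝ × ℝ → ℂ × ℂ} (hd : Continuous d) :
    ContinuousOn (fun p : ℝ × ℝ × ℝ × ℝ =>
      fderiv ℝ g (PsiE K.e1 K.e2 p.1 p.2.1 p.2.2.1 p.2.2.2) (d p)) {p | 0 < p.2.2.2} :=
  (hg.continuousOn_fderiv.comp (continuous_PsiE4 _ _).continuousOn
    (PsiE_mapsTo _ _)).clm_apply hd.continuousOn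

lemma cont_dir2 {d d' : ℝ × ℝ × ℝ × ℝ → ℂ × ℂ} (hd : Continuous d) (hd' : Continuous d') :
    ContinuousOn (fun p : ℝ × ℝ × ℝ × ℝ =>
      fderiv ℝ (fderiv ℝ g) (PsiE K.e1 K.e2 p.1 p.2.1 p.2.2.1 p.2.2.2) (d p) (d' p))
      {p | 0 < p.2.2.2} :=
  ((hg.continuousOn_fderiv2.comp (continuous_PsiE4 _ _).continuousOn
    (PsiE_mapsTo _ _)).clm_apply hd.continuousOn).clm_apply hd'.continuousOn

lemma hasDerivAt {c : ℝ → ℂ × ℂ} {c' : ℂ × ℂ} {x : ℝ} (hc : HasDerivAt c c' x)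
    (hx : 0 < height (c x)) : HasDerivAt (fun x => g (c x)) (fderiv ℝ g (c x) c') x :=
  (hg.differentiableAt hx).hasFDerivAt.comp_hasDerivAt x hc

lemma hasDerivAt2 {c : ℝ → ℂ × ℂ} {c' : ℂ × ℂ} {d : ℝ → ℂ × ℂ} {d' : ℂ × ℂ} {x : ℝ}
    (hc : HasDerivAt c c' x) (hd : HasDerivAt d d' x) (hx : 0 < height (c x)) :
    HasDerivAt (fun x => fderiv ℝ g (c x) (d x))
      (fderiv ℝ (fderiv ℝ g) (c x) c' (d x) + fderiv ℝ g (c x) d') x := by
  have h1 : HasDerivAt (fun x => fderiv ℝ g (c x)) (fderiv ℝ (fderiv ℝ g) (c x) c') x :=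
    (hg.differentiableAt_fderiv hx).hasFDerivAt.comp_hasDerivAt x hc
  exact h1.clm_apply hd

lemma symm {z : ℂ × ℂ} (hz : 0 < height z) (a b : ℂ × ℂ) :
    fderiv ℝ (fderiv ℝ g) z a b = fderiv ℝ (fderiv ℝ g) z b a := by
  have h1 : ContDiffAt ℝ 2 g z := hg.smooth.contDiffAt (isOpen_siegel.mem_nhds hz)
  exact (h1.isSymmSndFDerivAt (by simp)) a b

lemma per_v (s t v u : ℝ) (hu : 0 < u) :
    g (PsiE K.e1 K.e2 s t (v + K.P) u) = g (PsiE K.e1 K.e2 s t v u) := by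
  rw [← hg.pv (PsiE K.e1 K.e2 s t v u) (by rw [ht_PsiE]; exact hu)]
  congr 1
  refine Prod.ext (Complex.ext ?_ ?_) rfl
  · simp [PsiE]
  · simp [PsiE]
    ring

lemma per_s (s t v u : ℝ) (hu : 0 < u) :
    g (PsiE K.e1 K.e2 (s + 1) t (v + (2 * K.w1.im - 2 * K.cv * t)) u) =
      g (PsiE K.e1 K.e2 s t v u) := by
  rw [← hg.ps (PsiE K.e1 K.e2 s t v u) (by rw [ht_PsiE]; exact hu)]
  congr 1
  have hr := K.r1
  rw [Complex.normSq_apply] at hr
  refine Prod.ext (Complex.ext ?_ ?_) ?_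
  · simp [PsiE, Complex.normSq_apply]
    linarith
  · simp [PsiE, Cusp.cv]
    ring
  · simp [PsiE]
    ring

lemma per_t (s t v u : ℝ) (hu : 0 < u) :
    g (PsiE K.e1 K.e2 s (t + 1) (v + (2 * K.w2.im + 2 * K.cv * s)) u) =
      g (PsiE K.e1 K.e2 s t v u) := by
  rw [← hg.pt (PsiE K.e1 K.e2 s t v u) (by rw [ht_PsiE]; exact hu)]
  congr 1
  have hr := K.r2
  rw [Complex.normSq_apply] at hr
  refine Prod.ext (Complex.ext ?_ ?_) ?_
  · simp [PsiE, Complex.normSq_apply]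
    linarith
  · simp [PsiE, Cusp.cv]
    ring
  · simp [PsiE]
    ring

end CuspFun

/-- The weighted cusp inequality for a real function. -/
theorem cusp_real (K : Cusp q)
    {h k0 L : ℝ} (hh : 0 < h) (hk0 : 0 ≤ k0)
    (hk : ∀ i j : ℤ, (i ≠ 0 ∨ j ≠ 0) → k0 ≤ K.A1 * i ^ 2 + K.A2 * i * j + K.A3 * j ^ 2)
    (hL0 : 0 ≤ L) (hL : L ≤ 1)
    {w V B1 B2 B1' B2' : ℝ → ℝ}
    (cw : ContinuousOn w (Set.Ici h)) (hw : ∀ u, h ≤ u → 0 < w u)
    (mV : Measurable V) (hV0 : ∀ u, h < u → 0 ≤ V u)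
    (hB1 : ∀ u, h < u → HasDerivAt B1 (B1' u) u) (hB2 : ∀ u, h < u → HasDerivAt B2 (B2' u) u)
    (cB1 : ContinuousOn B1 (Set.Ici h)) (cB2 : ContinuousOn B2 (Set.Ici h))
    (cB1' : ContinuousOn B1' (Set.Ici h)) (cB2' : ContinuousOn B2' (Set.Ici h))
    (hB1h : B1 h ≤ 0) (hB2h : B2 h ≤ 0)
    {M : ℝ} (hM1 : ∀ u, h ≤ u → |B1 u| ≤ M * u⁻¹ ^ 2) (hM2 : ∀ u, h ≤ u → |B2 u| ≤ M * u⁻¹ ^ 2)
    (hV1 : ∀ u, h < u → u⁻¹ ^ 3 * V u ≤
      u⁻¹ ^ 3 * (w u * (u ^ 2 * (2 * Real.pi / K.P) ^ 2 + u * L * (2 * Real.pi / K.P))) - B1' u -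
        B1 u ^ 2 * (u / w u))
    (hV2 : ∀ u, h < u → u⁻¹ ^ 3 * V u ≤
      u⁻¹ ^ 3 * (w u * (u * (4 * Real.pi ^ 2 * k0))) - B2' u - B2 u ^ 2 * (u / w u))
    {g : ℂ × ℂ → ℝ} (hg : CuspFun K g)
    (h0 : ∀ u, h < u → ∫ s in (0:ℝ)..1, ∫ t in (0:ℝ)..1, ∫ v in (0:ℝ)..K.P,
      g (PsiE K.e1 K.e2 s t v u) = 0)
    (hfin : BW h K.P (fun s t v u => g (PsiE K.e1 K.e2 s t v u) ^ 2) < ∞) :
    BW h K.P (fun s t v u => V u * g (PsiE K.e1 K.e2 s t v u) ^ 2) ≤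
      BW h K.P (fun s t v u => w u * energy g (PsiE K.e1 K.e2 s t v u)) := by
  have hc := K.cv_pos
  have hdet : 4 * K.A1 * K.A3 - K.A2 ^ 2 = 1 / (4 * K.cv ^ 2) := by
    have h4 : K.cv ^ 2 = (K.e1.re * K.e2.im - K.e1.im * K.e2.re) ^ 2 := rfl
    have h5 : K.cv ^ 4 = (K.e1.re * K.e2.im - K.e1.im * K.e2.re) ^ 4 := rfl
    simp only [Cusp.A1, Cusp.A2, Cusp.A3, Complex.normSq_apply]
    field_simp
    rw [h4]
    ring
  have hn1 : 0 < Complex.normSq K.e1 := by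
    rw [Complex.normSq_pos]
    rintro he
    have := K.cov
    rw [he] at this
    simp at this
  have hn2 : 0 < Complex.normSq K.e2 := by
    rw [Complex.normSq_pos]
    rintro he
    have := K.cov
    rw [he] at this
    simp at this
  have hA1 : 0 < K.A1 := by
    unfold Cusp.A1
    positivity
  have hA3 : 0 < K.A3 := by
    unfold Cusp.A3
    positivity
  have hA : K.A2 ^ 2 < 4 * K.A1 * K.A3 := by
    have : 0 < 1 / (4 * K.cv ^ 2) := by positivity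
    linarith
  have hLL : L ^ 2 ≤ (2 * K.cv) ^ 2 * (4 * K.A1 * K.A3 - K.A2 ^ 2) := by
    rw [hdet]
    have : (2 * K.cv) ^ 2 * (1 / (4 * K.cv ^ 2)) = 1 := by
      field_simp
      norm_num
    rw [this]
    nlinarith
  have hmain := cusp_weighted (a := 2 * K.cv) (α0 := 2 * K.w1.im) (γ0 := 2 * K.w2.im) hh K.hP
    hA1 hA3 hA hk0 hk hL0 hLL cw hw mV hV0 hB1 hB2 cB1 cB2 cB1' cB2' hB1h hB2h hM1 hM2 hV1 hV2
    (F := fun s t v u => g (PsiE K.e1 K.e2 s t v u))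
    (Fs := fun s t v u => fderiv ℝ g (PsiE K.e1 K.e2 s t v u) (dsE K.e1 K.e2 s t))
    (Ft := fun s t v u => fderiv ℝ g (PsiE K.e1 K.e2 s t v u) (dtE K.e1 K.e2 s t))
    (Fv := fun s t v u => fderiv ℝ g (PsiE K.e1 K.e2 s t v u) dv)
    (Fu := fun s t v u => fderiv ℝ g (PsiE K.e1 K.e2 s t v u) du)
    (Fst := fun s t v u => fderiv ℝ (fderiv ℝ g) (PsiE K.e1 K.e2 s t v u)
      (dtE K.e1 K.e2 s t) (dsE K.e1 K.e2 s t) +
      fderiv ℝ g (PsiE K.e1 K.e2 s t v u) (dstE K.e1 K.e2))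
    (fun s t v u hu => hg.hasDerivAt (hasDerivAt_PsiE_s _ _ s t v u)
      (by rw [ht_PsiE]; exact hu))
    (fun s t v u hu => hg.hasDerivAt (hasDerivAt_PsiE_t _ _ s t v u)
      (by rw [ht_PsiE]; exact hu))
    (fun s t v u hu => hg.hasDerivAt (hasDerivAt_PsiE_v _ _ s t v u)
      (by rw [ht_PsiE]; exact hu))
    (fun s t v u hu => hg.hasDerivAt (hasDerivAt_PsiE_u _ _ s t v u)
      (by rw [ht_PsiE]; exact hu))
    (fun s t v u hu => hg.hasDerivAt2 (hasDerivAt_PsiE_t _ _ s t v u) (hasDerivAt_dsE_t _ _ s t)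
      (by rw [ht_PsiE]; exact hu))
    (fun s t v u hu => by
      have h1 := hg.hasDerivAt2 (hasDerivAt_PsiE_s K.e1 K.e2 s t v u)
        (hasDerivAt_dtE_s K.e1 K.e2 s t) (by rw [ht_PsiE]; exact hu)
      refine h1.congr_deriv ?_
      rw [hg.symm (by rw [ht_PsiE]; exact hu)])
    hg.cont
    (hg.cont_dir (continuous_dsE _ _))
    (hg.cont_dir (continuous_dtE _ _))
    (hg.cont_dir continuous_const)
    (hg.cont_dir continuous_const)
    ((hg.cont_dir2 (continuous_dtE _ _) (continuous_dsE _ _)).add (hg.cont_dir continuous_const))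
    (fun s t v u hu => hg.per_v s t v u hu)
    (fun s t v u hu => hg.per_s s t v u hu)
    (fun s t v u hu => hg.per_t s t v u hu)
    h0 hfin
  refine hmain.trans (le_of_eq ?_)
  congr 1
  funext s t v u
  rw [energy_PsiE K g s t v u]

end

end Pool.Agent.Lib.H56.Gen
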