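import Pool.Agent.Lib.H56.Gen.PolyCheck

/-!
# Soundness of the polynomial checks (chunk R6, second part)
-/

namespace Pool.Agent.Lib.H56.Gen

noncomputable section

/-! ### evaluation of integer lists -/

@[simp] lemma ev_nil (y : ℝ) : ev [] y = 0 := rfl
@[simp] lemma ev_cons (c : ℤ) (l : List ℤ) (y : ℝ) : ev (c :: l) y = c + y * ev l y := rfl
@[simp] lemma dv_nil (y : ℝ) : dv [] y = 0 := rfl
@[simp] lemma dv_cons (c : ℤ) (l : List ℤ) (y : ℝ) : dv (c :: l) y = ev l y + y * dv l y := rfl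

lemma ev_hasDerivAt (l : List ℤ) (y : ℝ) : HasDerivAt (ev l) (dv l y) y := by
  induction l with
  | nil => exact hasDerivAt_const y (0:ℝ)
  | cons c l ih =>
    have h := ((hasDerivAt_id y).mul ih).const_add (c:ℝ)
    have e : (1 * ev l y + id y * dv l y) = dv (c :: l) y := by simp
    rw [e] at h
    exact h

lemma ev_continuous (l : List ℤ) : Continuous (ev l) :=
  continuous_iff_continuousAt.2 fun y => (ev_hasDerivAt l y).continuousAt

lemma padd_nil (b : List ℤ) : padd [] b = b := rfl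
lemma padd_cons_nil (c : ℤ) (a : List ℤ) : padd (c :: a) [] = c :: a := rfl
lemma padd_cons_cons (c e : ℤ) (a b : List ℤ) : padd (c :: a) (e :: b) = (c + e) :: padd a b := rfl

lemma ev_padd (a b : List ℤ) (y : ℝ) : ev (padd a b) y = ev a y + ev b y := by
  induction a generalizing b with
  | nil => simp [padd_nil]
  | cons c a ih =>
    cases b with
    | nil => simp [padd_cons_nil]
    | cons e b => rw [padd_cons_cons, ev_cons, ih]; push_cast; simp only [ev_cons]; ring

lemma pscal_nil (c : ℤ) : pscal c [] = [] := rfl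
lemma pscal_cons (c e : ℤ) (a : List ℤ) : pscal c (e :: a) = (c * e) :: pscal c a := rfl

lemma ev_pscal (c : ℤ) (a : List ℤ) (y : ℝ) : ev (pscal c a) y = c * ev a y := by
  induction a with
  | nil => simp [pscal_nil]
  | cons e a ih => rw [pscal_cons, ev_cons, ih]; push_cast; simp only [ev_cons]; ring

lemma pmul_nil (b : List ℤ) : pmul [] b = [] := rfl
lemma pmul_cons (c : ℤ) (a b : List ℤ) : pmul (c :: a) b = padd (pscal c b) (0 :: pmul a b) := rfl

lemma ev_pmul (a b : List ℤ) (y : ℝ) : ev (pmul a b) y = ev a y * ev b y := by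
  induction a with
  | nil => simp [pmul_nil]
  | cons c a ih =>
    rw [pmul_cons, ev_padd, ev_pscal, ev_cons, ih]; push_cast; simp only [ev_cons]; ring

lemma pw_nil (m : ℤ) : pw [] m = [] := rfl
lemma pw_cons (c : ℤ) (a : List ℤ) (m : ℤ) : pw (c :: a) m = (m * c) :: pw a (m + 1) := rfl

lemma ev_pw (a : List ℤ) (m : ℤ) (y : ℝ) : ev (pw a m) y = m * ev a y + y * dv a y := by
  induction a generalizing m with
  | nil => simp [pw_nil]
  | cons c a ih =>
    rw [pw_cons, ev_cons, ih]; push_cast; simp only [ev_cons, dv_cons]; ring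

lemma ln_nil {α : Type} : ln ([] : List α) = 0 := rfl
lemma ln_cons {α : Type} (c : α) (l : List α) : ln (c :: l) = ln l + 1 := rfl

lemma scl_nil (K : ℕ) : scl K [] = [] := rfl
lemma scl_cons (K : ℕ) (c : ℤ) (l : List ℤ) :
    scl K (c :: l) = (c * ((K ^ ln l : ℕ) : ℤ)) :: scl K l := rfl

lemma ev_scl (K : ℕ) (hK : 0 < K) (l : List ℤ) (x : ℝ) :
    K * ev (scl K l) x = K ^ ln l * ev l (x / K) := by
  have hK' : (K:ℝ) ≠ 0 := by positivity
  induction l with
  | nil => simp [scl_nil]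
  | cons c l ih =>
    rw [scl_cons, ev_cons, ev_cons, ln_cons]
    push_cast
    calc (K:ℝ) * (c * K ^ ln l + x * ev (scl K l) x)
        = K * (c * K ^ ln l) + x * (K * ev (scl K l) x) := by ring
      _ = _ := by rw [ih, pow_succ]; field_simp

lemma psum_nil : psum [] = 0 := rfl
lemma psum_cons (c : ℤ) (l : List ℤ) : psum (c :: l) = c + psum l := rfl

lemma ev_one (l : List ℤ) : ev l 1 = psum l := by
  induction l with
  | nil => simp [psum_nil]
  | cons c l ih => rw [ev_cons, ih, psum_cons]; push_cast; ring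

/-- the norm of a coefficient list -/
def nrm (l : List ℤ) : ℝ := List.rec 0 (fun c _ ih => |(c:ℝ)| + ih) l

lemma nrm_nonneg (l : List ℤ) : 0 ≤ nrm l := by
  induction l with
  | nil => exact le_refl _
  | cons c l ih => exact add_nonneg (abs_nonneg _) ih

lemma abs_ev_le (l : List ℤ) {y : ℝ} (h0 : 0 ≤ y) (h1 : y ≤ 1) : |ev l y| ≤ nrm l := by
  induction l with
  | nil => simp [nrm]
  | cons c l ih =>
    rw [ev_cons]
    refine (abs_add_le _ _).trans ?_
    show _ ≤ |(c:ℝ)| + nrm l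
    have h2 : |y * ev l y| ≤ nrm l := by
      rw [abs_mul, abs_of_nonneg h0]
      calc y * |ev l y| ≤ 1 * nrm l := mul_le_mul h1 ih (abs_nonneg _) zero_le_one
        _ = nrm l := one_mul _
    linarith

/-! ### lists of natural numbers -/

/-- evaluation -/
def evn (l : List ℕ) (y : ℝ) : ℝ := List.rec 0 (fun c _ ih => (c:ℝ) + y * ih) l

@[simp] lemma evn_nil (y : ℝ) : evn [] y = 0 := rfl
@[simp] lemma evn_cons (c : ℕ) (l : List ℕ) (y : ℝ) : evn (c :: l) y = c + y * evn l y := rfl

lemma evn_pos_sub_neg (l : List ℤ) (y : ℝ) : evn (posL l) y - evn (negL l) y = ev l y := by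
  induction l with
  | nil => show (0:ℝ) - 0 = 0; ring
  | cons c l ih =>
    show ((c.toNat : ℝ) + y * evn (posL l) y) - (((-c).toNat : ℝ) + y * evn (negL l) y) = _
    rw [ev_cons, ← ih]
    have h : (c : ℝ) = (c.toNat : ℝ) - ((-c).toNat : ℝ) := by
      have h1 : (c : ℤ) = (c.toNat : ℤ) - ((-c).toNat : ℤ) := by omega
      have h2 := congrArg (Int.cast : ℤ → ℝ) h1
      push_cast at h2
      exact_mod_cast h2
    rw [h]; ring

lemma shA_nil (c : ℕ) : shA [] c = [c] := rfl
lemma shA_cons (q : ℕ) (l : List ℕ) (c : ℕ) : shA (q :: l) c = (c + q) :: shA l q := rfl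

lemma evn_shA (q : List ℕ) (c : ℕ) (z : ℝ) : evn (shA q c) z = c + (1 + z) * evn q z := by
  induction q generalizing c with
  | nil => simp [shA_nil]
  | cons q l ih => rw [shA_cons, evn_cons, ih]; push_cast; simp only [evn_cons]; ring

lemma evn_sh (l : List ℕ) (z : ℝ) : evn (sh l) z = evn l (z + 1) := by
  induction l with
  | nil => rfl
  | cons c l ih =>
    show evn (shA (sh l) c) z = _
    rw [evn_shA, ih, evn_cons]; ring

lemma defc_nil (P : List ℕ) : defc [] P = 0 := rfl
lemma defc_cons_nil (n : ℕ) (N : List ℕ) : defc (n :: N) [] = n + defc N [] := rfl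
lemma defc_cons_cons (n p : ℕ) (N P : List ℕ) : defc (n :: N) (p :: P) = (n + defc N P) - p := rfl

lemma evn_nonneg (l : List ℕ) {z : ℝ} (h0 : 0 ≤ z) : 0 ≤ evn l z := by
  induction l with
  | nil => exact le_refl _
  | cons c l ih => rw [evn_cons]; positivity

lemma defc_sound (N P : List ℕ) {z : ℝ} (h0 : 0 ≤ z) (h1 : z ≤ 1) :
    evn N z ≤ evn P z + defc N P := by
  induction N generalizing P with
  | nil => rw [evn_nil, defc_nil]; have := evn_nonneg P h0; push_cast; linarith
  | cons n N ih =>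
    cases P with
    | nil =>
      rw [defc_cons_nil, evn_cons, evn_nil]
      have h2 := ih []
      rw [evn_nil] at h2
      have h3 : z * evn N z ≤ defc N [] := by
        calc z * evn N z ≤ 1 * (0 + (defc N [] : ℝ)) :=
              mul_le_mul h1 h2 (evn_nonneg N h0) zero_le_one
          _ = _ := by ring
      push_cast; linarith
    | cons p P =>
      rw [defc_cons_cons, evn_cons, evn_cons]
      have h2 := ih P
      have h3 : z * evn N z ≤ z * evn P z + defc N P := by
        have h4 := mul_le_mul_of_nonneg_left h2 h0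
        have h5 : z * (defc N P : ℝ) ≤ 1 * defc N P :=
          mul_le_mul_of_nonneg_right h1 (Nat.cast_nonneg _)
        linarith
      have h6 : ((n + defc N P : ℕ) : ℝ) ≤ ((n + defc N P - p : ℕ) : ℝ) + p := by
        have : n + defc N P ≤ (n + defc N P - p) + p := by omega
        exact_mod_cast this
      push_cast at h6
      linarith

lemma evn_addT (T k : ℕ) (l : List ℕ) (z : ℝ) :
    evn (addT T k l) z = evn l z + 2 * (k * T) + T * z := by
  cases l with
  | nil =>
    show ((2 * (k * T) : ℕ) : ℝ) + z * ((T:ℝ) + z * 0) = 0 + 2 * (k * T) + T * z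
    push_cast; ring
  | cons n1 l =>
    cases l with
    | nil =>
      show ((n1 + 2 * (k * T) : ℕ) : ℝ) + z * ((T:ℝ) + z * 0) = (n1 + z * 0) + 2 * (k * T) + T * z
      push_cast; ring
    | cons n2 l =>
      show ((n1 + 2 * (k * T) : ℕ) : ℝ) + z * (((n2 + T : ℕ) : ℝ) + z * evn l z) =
        (n1 + z * (n2 + z * evn l z)) + 2 * (k * T) + T * z
      push_cast; ring

lemma chkF_sound {T k : ℕ} {P N : List ℕ} (h : chkF T k P N = true) {z : ℝ} (h0 : 0 ≤ z)
    (h1 : z ≤ 1) : evn N z + T * (k + z) ^ 2 ≤ evn P z := by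
  cases P with
  | nil => exact absurd h (by simp [chkF])
  | cons p P =>
    cases N with
    | nil => exact absurd h (by simp [chkF])
    | cons n N =>
      have h2 : (n + T * (k * k)) + defc (addT T k N) P ≤ p := Nat.le_of_ble_eq_true h
      have h3 := defc_sound (addT T k N) P h0 h1
      rw [evn_addT] at h3
      have h4 := mul_le_mul_of_nonneg_left h3 h0
      have h5 : z * (defc (addT T k N) P : ℝ) ≤ 1 * defc (addT T k N) P :=
        mul_le_mul_of_nonneg_right h1 (Nat.cast_nonneg _)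
      have h6 : ((n + T * (k * k) + defc (addT T k N) P : ℕ) : ℝ) ≤ p := by exact_mod_cast h2
      push_cast at h6
      rw [evn_cons, evn_cons]
      nlinarith

lemma chkA_sound {WS T : ℕ} {P N : List ℕ} (h : chkA WS T P N = true) {z : ℝ} (h0 : 0 ≤ z)
    (h1 : z ≤ 1) : 1 + evn N z ≤ evn P z ∧ WS * evn P z ≤ T + WS * evn N z := by
  cases P with
  | nil => exact absurd h (by simp [chkA])
  | cons p P =>
    cases N with
    | nil => exact absurd h (by simp [chkA])
    | cons n N =>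
      have h' : (Nat.ble (Nat.succ (n + defc N P)) p && Nat.ble (WS * (p + defc P N))
        (T + WS * n)) = true := h
      rw [Bool.and_eq_true] at h'
      have a1 : Nat.succ (n + defc N P) ≤ p := Nat.le_of_ble_eq_true h'.1
      have a2 : WS * (p + defc P N) ≤ T + WS * n := Nat.le_of_ble_eq_true h'.2
      have b1 : ((n + defc N P + 1 : ℕ) : ℝ) ≤ p := by exact_mod_cast a1
      have b2 : ((WS * (p + defc P N) : ℕ) : ℝ) ≤ ((T + WS * n : ℕ) : ℝ) := by exact_mod_cast a2
      push_cast at b1 b2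
      have c1 := defc_sound N P h0 h1
      have c2 := defc_sound P N h0 h1
      have d1 := mul_le_mul_of_nonneg_left c1 h0
      have d2 := mul_le_mul_of_nonneg_left c2 h0
      have e1 : z * (defc N P : ℝ) ≤ 1 * defc N P :=
        mul_le_mul_of_nonneg_right h1 (Nat.cast_nonneg _)
      have e2 : z * (defc P N : ℝ) ≤ 1 * defc P N :=
        mul_le_mul_of_nonneg_right h1 (Nat.cast_nonneg _)
      rw [evn_cons, evn_cons]
      constructor
      · linarith
      · have hW : (0:ℝ) ≤ WS := Nat.cast_nonneg _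
        have f : (WS:ℝ) * (z * evn P z) ≤ WS * (z * evn N z + defc P N) :=
          mul_le_mul_of_nonneg_left (by linarith) hW
        nlinarith

lemma rec_and {b c : Bool} (h : (Bool.rec false c b : Bool) = true) : b = true ∧ c = true := by
  cases b with
  | true => exact ⟨rfl, h⟩
  | false => exact absurd h (by simp)

lemma loopF_sound {T0 tv : ℕ} (fuel k : ℕ) (P N : List ℕ) (h : loopF T0 tv fuel k P N = true)
    (j : ℕ) (hj : j < fuel) {z : ℝ} (h0 : 0 ≤ z) (h1 : z ≤ 1) :
    evn N (j + z) + (T0 * tab tv (k + j) : ℝ) * (k + j + z) ^ 2 ≤ evn P (j + z) := by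
  induction fuel generalizing k P N j with
  | zero => omega
  | succ f ih =>
    obtain ⟨a, b⟩ := rec_and h
    cases j with
    | zero =>
      have := chkF_sound a h0 h1
      have e : ((Nat.mul T0 (tab tv k) : ℕ) : ℝ) = T0 * tab tv k := by
        show ((T0 * tab tv k : ℕ) : ℝ) = _
        push_cast; ring
      rw [e] at this
      simpa using this
    | succ j =>
      have := ih (Nat.succ k) (sh P) (sh N) b j (by omega)
      rw [evn_sh, evn_sh] at this
      have e1 : (j:ℝ) + z + 1 = ((j + 1 : ℕ) : ℝ) + z := by push_cast; ring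
      have e2 : ((Nat.succ k : ℕ) : ℝ) + j + z = k + ((j + 1 : ℕ) : ℝ) + z := by push_cast; ring
      have e3 : Nat.succ k + j = k + (j + 1) := by omega
      rw [e1, e2, e3] at this
      exact this

lemma loopA_sound {WS T0 tw : ℕ} (fuel k : ℕ) (P N : List ℕ)
    (h : loopA WS T0 tw fuel k P N = true)
    (j : ℕ) (hj : j < fuel) {z : ℝ} (h0 : 0 ≤ z) (h1 : z ≤ 1) :
    1 + evn N (j + z) ≤ evn P (j + z) ∧
      WS * evn P (j + z) ≤ (T0 * tab tw (k + j) : ℝ) + WS * evn N (j + z) := by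
  induction fuel generalizing k P N j with
  | zero => omega
  | succ f ih =>
    obtain ⟨a, b⟩ := rec_and h
    cases j with
    | zero =>
      have := chkA_sound a h0 h1
      have e : ((Nat.mul T0 (tab tw k) : ℕ) : ℝ) = T0 * tab tw k := by
        show ((T0 * tab tw k : ℕ) : ℝ) = _
        push_cast; ring
      rw [e] at this
      simpa using this
    | succ j =>
      have := ih (Nat.succ k) (sh P) (sh N) b j (by omega)
      rw [evn_sh, evn_sh] at this
      have e1 : (j:ℝ) + z + 1 = ((j + 1 : ℕ) : ℝ) + z := by push_cast; ring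
      have e3 : Nat.succ k + j = k + (j + 1) := by omega
      rw [e1, e3] at this
      exact this

/-- position in the subdivision -/
lemma exists_pos {K : ℕ} (hK : 0 < K) {y : ℝ} (hy0 : 0 ≤ y) (hy1 : y < 1) :
    ∃ z : ℝ, 0 ≤ z ∧ z ≤ 1 ∧ ((⌊K * y⌋₊ : ℕ) : ℝ) + z = K * y ∧ ⌊K * y⌋₊ < K := by
  have hK' : (0:ℝ) < K := by exact_mod_cast hK
  have h0 : 0 ≤ K * y := by positivity
  refine ⟨K * y - ⌊K * y⌋₊, sub_nonneg.2 (Nat.floor_le h0), ?_, by ring, ?_⟩
  · have := Nat.lt_floor_add_one (K * y)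
    linarith
  · rw [Nat.floor_lt h0]
    nlinarith

lemma okF_sound {K tv G : ℕ} {F : List ℤ} (hK : 0 < K) (h : okF K tv G F = true) {y : ℝ}
    (hy0 : 0 ≤ y) (hy1 : y < 1) :
    (G * tab tv ⌊K * y⌋₊ : ℝ) * y ^ 2 ≤ ev F y := by
  have hK' : (0:ℝ) < K := by exact_mod_cast hK
  have h' : (Nat.ble 3 (ln F) && loopF (G * K ^ (ln F - 3)) tv K 0 (posL (scl K F))
    (negL (scl K F))) = true := h
  rw [Bool.and_eq_true] at h'
  have h3 : 3 ≤ ln F := Nat.le_of_ble_eq_true h'.1
  obtain ⟨z, hz0, hz1, hz, hlt⟩ := exists_pos hK hy0 hy1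
  have h4 := loopF_sound K 0 _ _ h'.2 ⌊K * y⌋₊ hlt hz0 hz1
  rw [hz, zero_add] at h4
  rw [Nat.cast_zero, zero_add, hz] at h4
  have h6 := evn_pos_sub_neg (scl K F) (K * y)
  have h7 := ev_scl K hK F (K * y)
  have h8 : (K:ℝ) * y / K = y := by field_simp
  rw [h8] at h7
  obtain ⟨m, hm⟩ := Nat.exists_eq_add_of_le h3
  rw [hm] at h4 h7
  have h9 : 3 + m - 3 = m := by omega
  rw [h9] at h4
  push_cast at h4
  have h10 : (K:ℝ) * (((G:ℝ) * K ^ m * tab tv ⌊K * y⌋₊) * (K * y) ^ 2) ≤
      K ^ (3 + m) * ev F y := by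
    rw [← h7, ← h6]
    exact mul_le_mul_of_nonneg_left (by linarith) hK'.le
  have h11 : (K:ℝ) * (((G:ℝ) * K ^ m * tab tv ⌊K * y⌋₊) * (K * y) ^ 2) =
      K ^ (3 + m) * ((G * tab tv ⌊K * y⌋₊ : ℝ) * y ^ 2) := by ring
  rw [h11] at h10
  exact le_of_mul_le_mul_left h10 (by positivity)

lemma okA_aux {K tw sc WS : ℕ} {a : List ℤ} (hK : 0 < K) (h : okA K tw sc WS a = true)
    {j : ℕ} (hj : j < K) {z : ℝ} (h0 : 0 ≤ z) (h1 : z ≤ 1) :
    0 < ev a ((j + z) / K) ∧ WS * ev a ((j + z) / K) ≤ sc * tab tw j := by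
  have hK' : (0:ℝ) < K := by exact_mod_cast hK
  have h' : (Nat.ble 1 (ln a) && loopA WS (sc * K ^ (ln a - 1)) tw K 0 (posL (scl K a))
    (negL (scl K a))) = true := h
  rw [Bool.and_eq_true] at h'
  have h3 : 1 ≤ ln a := Nat.le_of_ble_eq_true h'.1
  have h4 := loopA_sound K 0 _ _ h'.2 j hj h0 h1
  rw [zero_add] at h4
  have h6 := evn_pos_sub_neg (scl K a) (j + z)
  have h7 := ev_scl K hK a (j + z)
  obtain ⟨m, hm⟩ := Nat.exists_eq_add_of_le h3
  rw [hm] at h4 h7
  have h9 : 1 + m - 1 = m := by omega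
  rw [h9] at h4
  push_cast at h4
  have h10 : ev (scl K a) (j + z) = K ^ m * ev a ((j + z) / K) := by
    have : (K:ℝ) * ev (scl K a) (j + z) = K * (K ^ m * ev a ((j + z) / K)) := by
      rw [h7]; ring
    exact mul_left_cancel₀ hK'.ne' this
  have hKm : (0:ℝ) < K ^ m := by positivity
  constructor
  · have : 0 < (K:ℝ) ^ m * ev a ((j + z) / K) := by rw [← h10, ← h6]; linarith [h4.1]
    exact (mul_pos_iff_of_pos_left hKm).1 this
  · have h12 : (WS:ℝ) * (K ^ m * ev a ((j + z) / K)) ≤ sc * K ^ m * tab tw j := by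
      rw [← h10, ← h6]; linarith [h4.2]
    have h13 : (K:ℝ) ^ m * (WS * ev a ((j + z) / K)) ≤ K ^ m * (sc * tab tw j) := by
      linarith
    exact le_of_mul_le_mul_left h13 hKm

lemma okA_sound {K tw sc WS : ℕ} {a : List ℤ} (hK : 0 < K) (h : okA K tw sc WS a = true) {y : ℝ}
    (hy0 : 0 ≤ y) (hy1 : y < 1) :
    0 < ev a y ∧ WS * ev a y ≤ sc * tab tw ⌊K * y⌋₊ := by
  have hK' : (0:ℝ) < K := by exact_mod_cast hK
  obtain ⟨z, hz0, hz1, hz, hlt⟩ := exists_pos hK hy0 hy1
  have := okA_aux hK h hlt hz0 hz1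
  rw [hz] at this
  have h8 : (K:ℝ) * y / K = y := by field_simp
  rwa [h8] at this

lemma okA_one {K tw sc WS : ℕ} {a : List ℤ} (hK : 0 < K) (h : okA K tw sc WS a = true) :
    0 < ev a 1 := by
  have hK' : (0:ℝ) < K := by exact_mod_cast hK
  have := (okA_aux hK h (j := K - 1) (by omega) (z := 1) zero_le_one (le_refl _)).1
  have e : (((K - 1 : ℕ) : ℝ) + 1) / K = 1 := by
    rw [Nat.cast_sub (by omega)]; push_cast; field_simp; ring
  rwa [e] at this

lemma ev_polyF (sc ms VS ma mb : ℕ) (a b : List ℤ) (y : ℝ) :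
    ev (polyF sc ms VS ma mb a b) y = VS * (sc ^ 2 * ev a y * (ma + mb * y) +
      ms * y ^ 2 * (sc * (2 * ev (pmul a b) y + y * dv (pmul a b) y) -
        ev a y * ev b y ^ 2)) := by
  show ev (padd (pscal (Int.ofNat (VS * (sc * sc))) (pmul a [Int.ofNat ma, Int.ofNat mb]))
    (0 :: 0 :: (pscal (Int.ofNat (VS * ms))
      (padd (pscal (Int.ofNat sc) (pw (pmul a b) 2)) (pscal (-1) (pmul (pmul a b) b)))))) y = _
  simp only [ev_padd, ev_pscal, ev_pw, ev_cons, ev_nil, Int.ofNat_eq_natCast, ev_pmul]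
  push_cast
  ring

end

end Pool.Agent.Lib.H56.Gen
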