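import Pool.Agent.Lib.H56.Picard.Heis

/-!
# Imaginary quadratic orders as subrings of `ℂ`
-/

namespace Pool.Agent.Lib.H56.Gen

open Matrix hiding J
open MeasureTheory
open Pool.Agent.Lib.H56.Picard (SU21 mat mat_mul mat_one mat_unitary mat_inv mkSU mat_mkSU TM TM_unitary
  T mat_T act_TM row_null unitary_right jf jf_apply act lift J height X mulVec_lift_apply
  jf_ne_zero arith)

noncomputable section

/-- Parameters of an imaginary quadratic order `ℤ[ω]`, `ω² = tω - n`. -/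
structure QD where
  /-- trace of `ω` -/
  t : ℤ
  /-- norm of `ω` -/
  n : ℤ
  /-- the discriminant is negative -/
  pos : 0 < 4 * n - t ^ 2

/-- absolute value of the discriminant -/
def dd (q : QD) : ℤ := 4 * q.n - q.t ^ 2

/-- square root of the absolute value of the discriminant -/
def sd (q : QD) : ℝ := √(dd q : ℝ)

lemma dd_pos (q : QD) : 0 < dd q := q.pos

lemma dd_pos' (q : QD) : (0 : ℝ) < dd q := by exact_mod_cast q.pos

lemma sd_pos (q : QD) : 0 < sd q := Real.sqrt_pos.mpr (dd_pos' q)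

lemma sd_sq (q : QD) : sd q * sd q = dd q := Real.mul_self_sqrt (dd_pos' q).le

lemma sd_sq' (q : QD) : sd q * sd q = 4 * q.n - q.t ^ 2 := by
  rw [sd_sq, dd]; push_cast; ring

/-- The element `a + bω`. -/
def el (q : QD) (a b : ℤ) : ℂ := ⟨a + b * q.t / 2, b * sd q / 2⟩

variable {q : QD}

lemma el_re (a b : ℤ) : (el q a b).re = a + b * q.t / 2 := rfl

lemma el_im (a b : ℤ) : (el q a b).im = b * sd q / 2 := rfl

lemma el_zero : el q 0 0 = 0 := by apply Complex.ext <;> simp [el]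

lemma el_one : el q 1 0 = 1 := by apply Complex.ext <;> simp [el]

lemma el_int (a : ℤ) : el q a 0 = a := by apply Complex.ext <;> simp [el]

lemma el_add (a b c d : ℤ) : el q a b + el q c d = el q (a + c) (b + d) := by
  apply Complex.ext <;> simp [el] <;> ring

lemma el_neg (a b : ℤ) : -el q a b = el q (-a) (-b) := by
  apply Complex.ext <;> simp [el] <;> ring

lemma el_sub (a b c d : ℤ) : el q a b - el q c d = el q (a - c) (b - d) := by
  apply Complex.ext <;> simp [el] <;> ring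

lemma el_mul (a b c d : ℤ) : el q a b * el q c d =
    el q (a * c - q.n * (b * d)) (a * d + b * c + q.t * (b * d)) := by
  have h := sd_sq' q
  apply Complex.ext
  · simp only [el, Complex.mul_re]
    push_cast
    linear_combination (-(b : ℝ) * d / 4) * h
  · simp only [el, Complex.mul_im]
    push_cast
    ring

lemma star_el (a b : ℤ) : star (el q a b) = el q (a + q.t * b) (-b) := by
  apply Complex.ext <;> simp [el] <;> ring

/-- the norm form -/
def nf (q : QD) (a b : ℤ) : ℤ := a ^ 2 + q.t * (a * b) + q.n * b ^ 2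

lemma normSq_el (a b : ℤ) : Complex.normSq (el q a b) = (nf q a b : ℝ) := by
  rw [Complex.normSq_apply, el_re, el_im, nf]
  push_cast
  linear_combination ((b : ℝ) ^ 2 / 4) * sd_sq' q

lemma el_inj {a b c d : ℤ} : el q a b = el q c d ↔ a = c ∧ b = d := by
  constructor
  · intro h
    have h1 := congrArg Complex.im h
    have h2 := congrArg Complex.re h
    rw [el_im, el_im] at h1
    rw [el_re, el_re] at h2
    have hs := (sd_pos q).ne'
    have h3 : (b : ℝ) = d := by
      have : (b : ℝ) * sd q = d * sd q := by linarith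
      exact mul_right_cancel₀ hs this
    rw [h3] at h2
    have h4 : (a : ℝ) = c := by linarith
    exact ⟨by exact_mod_cast h4, by exact_mod_cast h3⟩
  · rintro ⟨rfl, rfl⟩; rfl

/-- The order `ℤ[ω]`. -/
def OO (q : QD) : Subring ℂ where
  carrier := {x | ∃ a b : ℤ, x = el q a b}
  mul_mem' := by
    rintro _ _ ⟨a, b, rfl⟩ ⟨c, d, rfl⟩
    exact ⟨_, _, el_mul a b c d⟩
  one_mem' := ⟨1, 0, el_one.symm⟩
  add_mem' := by
    rintro _ _ ⟨a, b, rfl⟩ ⟨c, d, rfl⟩
    exact ⟨_, _, el_add a b c d⟩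
  zero_mem' := ⟨0, 0, el_zero.symm⟩
  neg_mem' := by
    rintro _ ⟨a, b, rfl⟩
    exact ⟨_, _, el_neg a b⟩

lemma mem_OO {x : ℂ} : x ∈ OO q ↔ ∃ a b : ℤ, x = el q a b := Iff.rfl

lemma el_mem (a b : ℤ) : el q a b ∈ OO q := ⟨a, b, rfl⟩

lemma star_mem : ∀ x ∈ OO q, star x ∈ OO q := by
  rintro _ ⟨a, b, rfl⟩
  exact ⟨_, _, star_el a b⟩

lemma normSq_mem {x : ℂ} (hx : x ∈ OO q) : ∃ n : ℤ, 0 ≤ n ∧ Complex.normSq x = n := by
  obtain ⟨a, b, rfl⟩ := hx
  refine ⟨nf q a b, ?_, normSq_el a b⟩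
  have h := Complex.normSq_nonneg (el q a b)
  rw [normSq_el] at h
  exact_mod_cast h

/-- nonzero elements have norm at least one -/
lemma one_le_normSq {x : ℂ} (hx : x ∈ OO q) (h0 : x ≠ 0) : 1 ≤ Complex.normSq x := by
  obtain ⟨n, hn, h⟩ := normSq_mem hx
  rw [h]
  have : n ≠ 0 := by
    rintro rfl
    apply h0
    rw [← Complex.normSq_eq_zero, h]; simp
  exact_mod_cast (show 1 ≤ n by omega)

lemma one_le_norm : ∀ x ∈ OO q, x ≠ 0 → 1 ≤ ‖x‖ := by
  intro x hx h0
  have h := one_le_normSq hx h0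
  rw [Complex.normSq_eq_norm_sq] at h
  nlinarith [norm_nonneg x]

lemma finite_ball (R : ℝ) : {x : ℂ | x ∈ OO q ∧ ‖x‖ ≤ R}.Finite := by
  obtain ⟨m, hm⟩ := exists_nat_ge (2 * R / sd q)
  obtain ⟨k, hk⟩ := exists_nat_ge (R + m * |(q.t : ℝ)| / 2)
  apply Set.Finite.subset ((Set.Finite.prod (Set.finite_Icc (-(k : ℤ)) k)
    (Set.finite_Icc (-(m : ℤ)) m)).image (fun p : ℤ × ℤ => el q p.1 p.2))
  rintro x ⟨⟨a, b, rfl⟩, hR⟩
  have hs := sd_pos q
  have h1 : |(el q a b).im| ≤ R := (Complex.abs_im_le_norm _).trans hR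
  have h2 : |(el q a b).re| ≤ R := (Complex.abs_re_le_norm _).trans hR
  rw [el_im] at h1
  rw [el_re] at h2
  have h3 : |(b : ℝ)| ≤ m := by
    refine le_trans ?_ hm
    rw [le_div_iff₀ hs]
    rw [abs_div, abs_mul, abs_of_pos hs, abs_of_pos (by norm_num : (0 : ℝ) < 2)] at h1
    linarith
  have h4 : |(a : ℝ)| ≤ k := by
    refine le_trans ?_ hk
    have h5 : |(b : ℝ) * q.t / 2| ≤ m * |(q.t : ℝ)| / 2 := by
      rw [abs_div, abs_mul, abs_of_pos (by norm_num : (0 : ℝ) < 2)]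
      gcongr
    have h6 : (a : ℝ) = (a + b * q.t / 2) - b * q.t / 2 := by ring
    calc |(a : ℝ)| = |((a : ℝ) + b * q.t / 2) - b * q.t / 2| := by rw [← h6]
      _ ≤ |(a : ℝ) + b * q.t / 2| + |(b : ℝ) * q.t / 2| := abs_sub _ _
      _ ≤ R + m * |(q.t : ℝ)| / 2 := add_le_add h2 h5
  refine ⟨(a, b), ⟨?_, ?_⟩, rfl⟩
  · rw [abs_le] at h4
    exact ⟨by exact_mod_cast h4.1, by exact_mod_cast h4.2⟩
  · rw [abs_le] at h3
    exact ⟨by exact_mod_cast h3.1, by exact_mod_cast h3.2⟩

/-- Heisenberg translations in the arithmetic group. -/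
lemma T_mem {l w : ℂ} (h : 2 * w.re = -Complex.normSq l) (hl : l ∈ OO q) (hw : w ∈ OO q) :
    T l w h ∈ arith (OO q) star_mem := by
  intro i j
  rw [mat_T]
  fin_cases i <;> fin_cases j <;> simp only [TM]
  · exact (OO q).one_mem
  · exact (OO q).neg_mem (star_mem l hl)
  · exact hw
  · exact (OO q).zero_mem
  · exact (OO q).one_mem
  · exact hl
  · exact (OO q).zero_mem
  · exact (OO q).zero_mem
  · exact (OO q).one_mem

end

end Pool.Agent.Lib.H56.Gen
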