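import Pool.Agent.Lib.H56.Gen.Check


/-!
# Enumeration of the relevant cusps: definitions

The functions use the basic operations on `Int` and `Nat` directly, to be fast in the kernel.
-/

namespace Pool.Agent.Lib.H56.Gen

/-- Integer coordinates of a bottom row `(c, d, e)`, `c = c1 + c2 ω` etc. -/
structure Row where
  /-- constructor -/
  mk ::
  (c1 c2 d1 d2 x y : Int)
  deriving DecidableEq, Repr

/-- Parameters of the enumeration: `ω² = tω - n`, basis `(x1,y1), (x2,y2)` of the lattice of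
horizontal translations, vertical period `Pp` (in units of the square root of the discriminant),
`h = hn/hd` the height above which cusps are counted, `tau` a bound with `|D| tau² ≥ 4/h²`,
and a list of nonunits. -/
structure EP where
  /-- constructor -/
  mk ::
  (t n x1 y1 x2 y2 Pp hn hd tau : Int)
  (Ms : List (Int × Int))

noncomputable section

/-- product in `ℤ[ω]` -/
def mulE (E : EP) (a b : Int × Int) : Int × Int :=
  (Int.sub (Int.mul a.1 b.1) (Int.mul E.n (Int.mul a.2 b.2)),
    Int.add (Int.add (Int.mul a.1 b.2) (Int.mul a.2 b.1)) (Int.mul E.t (Int.mul a.2 b.2)))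

/-- conjugate in `ℤ[ω]` -/
def conjE (E : EP) (a : Int × Int) : Int × Int := (Int.add a.1 (Int.mul E.t a.2), Int.neg a.2)

/-- norm in `ℤ[ω]` -/
def nfE (E : EP) (a : Int × Int) : Int :=
  Int.add (Int.add (Int.mul a.1 a.1) (Int.mul E.t (Int.mul a.1 a.2)))
    (Int.mul E.n (Int.mul a.2 a.2))

/-- trace in `ℤ[ω]` -/
def trE (E : EP) (a : Int × Int) : Int := Int.add (Int.mul 2 a.1) (Int.mul E.t a.2)

/-- absolute discriminant -/
def DE (E : EP) : Int := Int.sub (Int.mul 4 E.n) (Int.mul E.t E.t)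

/-- Gram matrix entry `|e1|²` -/
def alE (E : EP) : Int := nfE E (E.x1, E.y1)
/-- Gram matrix entry `2 Re e1 conj e2` -/
def beE (E : EP) : Int := trE E (mulE E (E.x1, E.y1) (conjE E (E.x2, E.y2)))
/-- Gram matrix entry `|e2|²` -/
def gaE (E : EP) : Int := nfE E (E.x2, E.y2)

/-- comparison -/
def leI (a b : Int) : Bool := Nat.beq (Int.toNat (Int.sub a b)) 0

/-- absolute value -/
def absI (a : Int) : Int := Int.ofNat (Int.natAbs a)

/-- positive part -/
def posI (a : Int) : Int := Int.ofNat (Int.toNat a)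

/-- integers `lo, lo+1, …, lo+k-1` -/
def rng (lo : Int) (k : Nat) : List Int :=
  Nat.rec (fun _ => []) (fun _ ih (l : Int) => List.cons l (ih (Int.add l 1))) k lo

/-- canonical representatives modulo units -/
def can (E : EP) (c : Int × Int) : Bool :=
  Bool.rec
    (Bool.or (leI 1 c.1) (Bool.and (Nat.beq (Int.natAbs c.1) 0) (leI 1 c.2)))
    (Bool.and (leI 1 c.1) (leI 0 c.2))
    (leI E.n 1)

/-- smallest `k ≥ k0` satisfying `f`, at most `k0 + b` -/
def isq (f : Int → Bool) (b : Nat) (k0 : Int) : Int :=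
  Nat.rec (fun k => k) (fun _ ih (k : Int) => Bool.rec (ih (Int.add k 1)) k (f k)) b k0

/-- bound for the second coordinate of elements of norm `< B` (i.e. `D b² ≥ 4 B`) -/
def bd2 (E : EP) (B : Int) : Int :=
  isq (fun k => leI (Int.mul 4 B) (Int.mul (DE E) (Int.mul k k))) 100 0

/-- bound for the first coordinate of elements of norm `< B` (i.e. `D a² ≥ 4 n B`) -/
def bd1 (E : EP) (B : Int) : Int :=
  isq (fun k => leI (Int.mul (Int.mul 4 E.n) B) (Int.mul (DE E) (Int.mul k k))) 100 0

/-- pairs `(a, b)` with `|a| ≤ A`, `|b| ≤ B` -/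
def boxAB (A B : Int) : List (Int × Int) :=
  List.rec [] (fun a _ ih => List.rec ih (fun b _ ih2 => List.cons (a, b) ih2)
    (rng (Int.neg B) (Int.toNat (Int.add (Int.mul 2 B) 1))))
    (rng (Int.neg A) (Int.toNat (Int.add (Int.mul 2 A) 1)))

/-- filter -/
def filtB {α : Type} (f : α → Bool) (l : List α) : List α :=
  List.rec [] (fun a _ ih => Bool.rec ih (List.cons a ih) (f a)) l

/-- concatenation of lists -/
def bindB {α β : Type} (l : List α) (f : α → List β) : List β :=
  List.rec [] (fun a _ ih => List.rec ih (fun b _ ih2 => List.cons b ih2) (f a)) l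

/-- list of the possible entries `c` -/
def cs (E : EP) : List (Int × Int) :=
  (fun B => filtB (fun c => Bool.and (can E c) (Bool.and (leI 1 (nfE E c))
    (leI (Int.add (Int.mul (nfE E c) (Int.mul E.hn E.hn)) 1) (Int.mul 4 (Int.mul E.hd E.hd)))))
    (boxAB (bd1 E B) (bd2 E B)))
  (Int.add (Int.tdiv (Int.mul 4 (Int.mul E.hd E.hd)) (Int.mul E.hn E.hn)) 1)

/-- the horizontal pruning test: `R ≥ 1/h` on the half box -/
def prune (E : EP) (n nd a1 a2 : Int) : Bool :=
  leI (Int.mul 16 E.hd)
    (Int.mul (Int.sub (Int.sub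
      (Int.add (Int.sub (Int.mul n (Int.add (Int.add (alE E) (Int.mul 2 (beE E)))
        (Int.mul 4 (gaE E)))) (Int.mul 4 (Int.add a1 (Int.mul 2 a2)))) (Int.mul 16 nd))
      (absI (Int.sub (Int.mul n (Int.add (Int.mul 2 (alE E)) (Int.mul 2 (beE E)))) (Int.mul 4 a1))))
      (Int.mul 2 (absI (Int.sub (Int.mul n (Int.add (beE E) (Int.mul 4 (gaE E)))) (Int.mul 4 a2)))))
      E.hn)

/-- divisibility of an element by an integer -/
def dvE (n : Int) (a : Int × Int) : Bool :=
  Bool.and (Nat.beq (Nat.mod (Int.natAbs a.1) (Int.natAbs n)) 0)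
    (Nat.beq (Nat.mod (Int.natAbs a.2) (Int.natAbs n)) 0)

/-- the row has a common divisor in the list -/
def nonprim (E : EP) (c d e : Int × Int) : Bool :=
  List.rec false (fun m _ ih => Bool.or (Bool.and (dvE (nfE E m) (mulE E c (conjE E m)))
    (Bool.and (dvE (nfE E m) (mulE E d (conjE E m))) (dvE (nfE E m) (mulE E e (conjE E m))))) ih)
    E.Ms

/-- numbers `k, …, k+len-1` with both `w1 + a1 k` and `w2 + a2 k` divisible by `n` -/
def sols (n w1 a1 w2 a2 : Nat) (len : Nat) : Nat → List Nat :=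
  Nat.rec (fun _ => []) (fun _ ih k => Bool.rec (ih (Nat.succ k)) (List.cons k (ih (Nat.succ k)))
    (Bool.and (Nat.beq (Nat.mod (Nat.add w1 (Nat.mul a1 k)) n) 0)
      (Nat.beq (Nat.mod (Nat.add w2 (Nat.mul a2 k)) n) 0))) len

/-- rows with given `c`, `d` from the list of parameters -/
def rowsK (E : EP) (c d : Int × Int) (n w1 a1 w2 a2 : Int) (l : List Nat) : List Row :=
  List.rec [] (fun k _ ih =>
    (fun e : Int × Int => Bool.rec (List.cons (Row.mk c.1 c.2 d.1 d.2 e.1 e.2) ih) ih (nonprim E c d e))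
    (Int.tdiv (Int.add w1 (Int.mul a1 (Int.ofNat k))) n,
      Int.tdiv (Int.add w2 (Int.mul a2 (Int.ofNat k))) n)) l

/-- rows with given `c, d`, starting value `r0` and upper bound `hi` for the third parameter -/
def rowsR (E : EP) (c d : Int × Int) (n nd r0 hi : Int) : List Row :=
  Bool.rec []
    ((fun w1 w2 a1 a2 => rowsK E c d n w1 a1 w2 a2
        (sols (Int.toNat n) (Int.toNat (Int.emod w1 n)) (Int.toNat (Int.emod a1 n))
          (Int.toNat (Int.emod w2 n)) (Int.toNat (Int.emod a2 n))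
          (Int.toNat (Int.add (Int.tdiv (posI (Int.sub hi r0)) (Int.add 1 E.t)) 1)) 0))
      (Int.sub (Int.mul c.1 (Int.neg (Int.ediv (Int.add nd (Int.mul E.t r0)) 2)))
        (Int.mul E.n (Int.mul c.2 r0)))
      (Int.add (Int.add (Int.mul c.1 r0)
        (Int.mul c.2 (Int.neg (Int.ediv (Int.add nd (Int.mul E.t r0)) 2))))
        (Int.mul E.t (Int.mul c.2 r0)))
      (Int.neg (Int.add (Int.mul E.t c.1) (Int.mul (Int.add 1 E.t) (Int.mul E.n c.2))))
      (Int.add (Int.sub (Int.mul (Int.add 1 E.t) c.1) (Int.mul E.t c.2))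
        (Int.mul E.t (Int.mul (Int.add 1 E.t) c.2))))
    (Nat.beq (Nat.mod (Int.natAbs (Int.add nd (Int.mul E.t r0))) 2) 0)

/-- rows with given `c, d` -/
def rowsCD (E : EP) (c : Int × Int) (n : Int) (d : Int × Int) : List Row :=
  (fun (nd : Int) (z1 z2 : Int × Int) =>
    Bool.rec
      ((fun lo hi => rowsR E c d n nd
          (Int.sub lo (Int.mul E.t (Int.emod (Int.add nd lo) 2))) hi)
        (Int.neg (Int.add (Int.add E.tau (Int.mul n E.Pp))
          (Int.add (Int.tdiv (Int.add (posI z1.2) 1) 2) (posI z2.2))))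
        (Int.add E.tau (Int.add (Int.tdiv (Int.add (posI (Int.neg z1.2)) 1) 2)
          (posI (Int.neg z2.2)))))
      []
      (prune E n nd (trE E z1) (trE E z2)))
    (nfE E d) (mulE E (mulE E (conjE E c) d) (E.x1, E.y1))
    (mulE E (mulE E (conjE E c) d) (E.x2, E.y2))

/-- bound for the norm of `d` -/
def Bd (E : EP) (n : Int) : Int :=
  Int.add (Int.tdiv (Int.add (Int.mul (Int.mul n
    (Int.add (alE E) (Int.add (Int.mul 2 (absI (beE E))) (Int.mul 4 (gaE E))))) E.hn)
    (Int.mul 4 E.hd)) (Int.mul 2 E.hn)) 1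

/-- relevant rows with given `c` -/
def rowsC (E : EP) (c : Int × Int) : List Row :=
  (fun n => bindB (boxAB (bd1 E (Bd E n)) (bd2 E (Bd E n))) (rowsCD E c n)) (nfE E c)

/-- all relevant rows -/
def gen (E : EP) : List Row := bindB (cs E) (rowsC E)

end

end Pool.Agent.Lib.H56.Gen
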