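import Pool.Agent.Lib.H56.Gen.Row
import Mathlib

/-!
# Membership lemmas for the enumeration of cusps
-/

namespace Pool.Agent.Lib.H56.Gen.RC

noncomputable section

theorem leI_iff {a b : ℤ} : leI a b = true ↔ a ≤ b := by
  unfold leI
  rw [Nat.beq_eq]
  change (a - b).toNat = 0 ↔ _
  rw [Int.toNat_eq_zero]
  omega

theorem leI_false {a b : ℤ} : leI a b = false ↔ b < a := by
  rw [← Bool.not_eq_true, leI_iff, not_le]

theorem absI_eq (a : ℤ) : absI a = |a| := by
  unfold absI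
  change ((a.natAbs : ℕ) : ℤ) = _
  exact Int.natCast_natAbs a

theorem posI_eq (a : ℤ) : posI a = max a 0 := by
  unfold posI
  exact Int.ofNat_toNat a

theorem mulE_eq (E : EP) (a b : ℤ × ℤ) : mulE E a b =
    (a.1 * b.1 - E.n * (a.2 * b.2), a.1 * b.2 + a.2 * b.1 + E.t * (a.2 * b.2)) := rfl

theorem conjE_eq (E : EP) (a : ℤ × ℤ) : conjE E a = (a.1 + E.t * a.2, -a.2) := rfl

theorem nfE_eq (E : EP) (a : ℤ × ℤ) : nfE E a =
    a.1 * a.1 + E.t * (a.1 * a.2) + E.n * (a.2 * a.2) := rfl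

theorem trE_eq (E : EP) (a : ℤ × ℤ) : trE E a = 2 * a.1 + E.t * a.2 := rfl

theorem DE_eq (E : EP) : DE E = 4 * E.n - E.t * E.t := rfl

/-- the norm bounds the second coordinate -/
theorem nfE_snd (E : EP) (a : ℤ × ℤ) : DE E * (a.2 * a.2) ≤ 4 * nfE E a := by
  rw [nfE_eq, DE_eq]
  nlinarith [sq_nonneg (2 * a.1 + E.t * a.2)]

/-- the norm bounds the first coordinate -/
theorem nfE_fst (E : EP) (a : ℤ × ℤ) : DE E * (a.1 * a.1) ≤ 4 * E.n * nfE E a := by
  rw [nfE_eq, DE_eq]
  nlinarith [sq_nonneg (2 * E.n * a.2 + E.t * a.1)]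

/-- `c * (conj c * e) = |c|² e` -/
theorem mul_conj_mul (E : EP) (c e : ℤ × ℤ) :
    mulE E c (mulE E (conjE E c) e) = (nfE E c * e.1, nfE E c * e.2) := by
  rw [mulE_eq, mulE_eq, conjE_eq, nfE_eq]
  ext
  · simp only
    ring
  · simp only
    ring

theorem mem_rng (k : ℕ) : ∀ (lo x : ℤ), lo ≤ x → x < lo + k → x ∈ rng lo k := by
  induction k with
  | zero =>
    intro lo x h1 h2
    push_cast at h2
    omega
  | succ k ih =>
    intro lo x h1 h2
    have h : rng lo (k + 1) = lo :: rng (lo + 1) k := rfl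
    rw [h, List.mem_cons]
    rcases eq_or_lt_of_le h1 with h3 | h3
    · exact Or.inl h3.symm
    · right
      apply ih
      · omega
      · push_cast at h2
        omega

theorem mem_inner (a b : ℤ) (ih : List (ℤ × ℤ)) (lb : List ℤ) (hb : b ∈ lb) :
    (a, b) ∈ (List.rec ih (fun b _ ih2 => List.cons (a, b) ih2) lb : List (ℤ × ℤ)) := by
  induction lb with
  | nil => simp at hb
  | cons b' lb ihb =>
    rcases List.mem_cons.1 hb with h | h
    · subst h
      exact List.mem_cons_self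
    · exact List.mem_cons_of_mem _ (ihb h)

theorem mem_inner' (a : ℤ) (x : ℤ × ℤ) (ih : List (ℤ × ℤ)) (lb : List ℤ) (hx : x ∈ ih) :
    x ∈ (List.rec ih (fun b _ ih2 => List.cons (a, b) ih2) lb : List (ℤ × ℤ)) := by
  induction lb with
  | nil => exact hx
  | cons b' lb ihb => exact List.mem_cons_of_mem _ ihb

theorem mem_outer (a b : ℤ) (la lb : List ℤ) (ha : a ∈ la) (hb : b ∈ lb) :
    (a, b) ∈ (List.rec [] (fun a _ ih => List.rec ih (fun b _ ih2 => List.cons (a, b) ih2) lb) la :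
      List (ℤ × ℤ)) := by
  induction la with
  | nil => simp at ha
  | cons a' la iha =>
    rcases List.mem_cons.1 ha with h | h
    · subst h
      exact mem_inner a b _ lb hb
    · exact mem_inner' a' (a, b) _ lb (iha h)

theorem mem_boxAB {A B a b : ℤ} (ha : |a| ≤ A) (hb : |b| ≤ B) : (a, b) ∈ boxAB A B := by
  unfold boxAB
  have h1 := abs_le.1 ha
  have h2 := abs_le.1 hb
  apply mem_outer
  · apply mem_rng
    · exact h1.1
    · change a < -A + (((2 * A + 1).toNat : ℕ) : ℤ)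
      omega
  · apply mem_rng
    · exact h2.1
    · change b < -B + (((2 * B + 1).toNat : ℕ) : ℤ)
      omega

theorem mem_filtB {α : Type} (f : α → Bool) (x : α) (hf : f x = true) (l : List α) (hx : x ∈ l) :
    x ∈ filtB f l := by
  induction l with
  | nil => simp at hx
  | cons a l ih =>
    have h : filtB f (a :: l) = Bool.rec (filtB f l) (a :: filtB f l) (f a) := rfl
    rw [h]
    rcases List.mem_cons.1 hx with h1 | h1
    · subst h1
      rw [hf]
      exact List.mem_cons_self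
    · cases f a with
      | false => exact ih h1
      | true => exact List.mem_cons_of_mem _ (ih h1)

theorem mem_bindB {α β : Type} (l : List α) (f : α → List β) (a : α) (x : β) (ha : a ∈ l)
    (hx : x ∈ f a) : x ∈ bindB l f := by
  have key : ∀ (m : List β) (r : List β),
      (List.rec r (fun b _ ih2 => List.cons b ih2) m : List β) = m ++ r := by
    intro m r
    induction m with
    | nil => rfl
    | cons b m ih => exact congrArg (List.cons b) ih
  induction l with
  | nil => simp at ha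
  | cons a' l ih =>
    have h : bindB (a' :: l) f = List.rec (bindB l f) (fun b _ ih2 => List.cons b ih2) (f a') := rfl
    rw [h, key, List.mem_append]
    rcases List.mem_cons.1 ha with h1 | h1
    · subst h1
      exact Or.inl hx
    · exact Or.inr (ih h1)

theorem isq_spec (f : ℤ → Bool) (b : ℕ) : ∀ k0 : ℤ, f (k0 + b) = true →
    f (isq f b k0) = true ∧ k0 ≤ isq f b k0 := by
  induction b with
  | zero =>
    intro k0 h
    have h1 : isq f 0 k0 = k0 := rfl
    rw [h1]
    simpa using h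
  | succ b ih =>
    intro k0 h
    have h1 : isq f (b + 1) k0 = Bool.rec (isq f b (k0 + 1)) k0 (f k0) := rfl
    rw [h1]
    cases hf : f k0 with
    | true => exact ⟨hf, le_refl _⟩
    | false =>
      have h2 : f (k0 + 1 + b) = true := by
        rw [show k0 + 1 + (b : ℤ) = k0 + ((b + 1 : ℕ) : ℤ) by push_cast; ring]
        exact h
      exact ⟨(ih _ h2).1, by have := (ih _ h2).2; change k0 ≤ isq f b (k0 + 1); omega⟩

theorem bd2_spec {E : EP} {B : ℤ} (h : 4 * B ≤ DE E * 100 ^ 2) :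
    4 * B ≤ DE E * (bd2 E B * bd2 E B) ∧ 0 ≤ bd2 E B := by
  have := isq_spec (fun k => leI (Int.mul 4 B) (Int.mul (DE E) (Int.mul k k))) 100 0 (by
    rw [leI_iff]
    change 4 * B ≤ DE E * ((0 + ((100 : ℕ) : ℤ)) * (0 + ((100 : ℕ) : ℤ)))
    push_cast
    linarith)
  rw [leI_iff] at this
  exact this

theorem bd1_spec {E : EP} {B : ℤ} (h : 4 * E.n * B ≤ DE E * 100 ^ 2) :
    4 * E.n * B ≤ DE E * (bd1 E B * bd1 E B) ∧ 0 ≤ bd1 E B := by
  have := isq_spec (fun k => leI (Int.mul (Int.mul 4 E.n) B) (Int.mul (DE E) (Int.mul k k))) 100 0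
    (by
    rw [leI_iff]
    change 4 * E.n * B ≤ DE E * ((0 + ((100 : ℕ) : ℤ)) * (0 + ((100 : ℕ) : ℤ)))
    push_cast
    linarith)
  rw [leI_iff] at this
  exact this

/-- elements of small norm are in the box -/
theorem mem_box_of_nfE {E : EP} (hD : 0 < DE E) (hn1 : 1 ≤ E.n) {B : ℤ}
    (h1 : 4 * E.n * B ≤ DE E * 100 ^ 2) (h2 : 4 * B ≤ DE E * 100 ^ 2) {a : ℤ × ℤ}
    (ha : nfE E a < B) : a ∈ boxAB (bd1 E B) (bd2 E B) := by
  obtain ⟨k1, k2⟩ := bd1_spec h1
  obtain ⟨k3, k4⟩ := bd2_spec h2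
  have e1 : a.1 * a.1 ≤ bd1 E B * bd1 E B := by
    have h3 := nfE_fst E a
    have h4 : 4 * E.n * nfE E a ≤ 4 * E.n * B := by
      apply mul_le_mul_of_nonneg_left ha.le
      omega
    exact le_of_mul_le_mul_left (h3.trans (h4.trans k1)) hD
  have e2 : a.2 * a.2 ≤ bd2 E B * bd2 E B := by
    have h3 := nfE_snd E a
    have h4 : 4 * nfE E a ≤ 4 * B := by linarith
    exact le_of_mul_le_mul_left (h3.trans (h4.trans k3)) hD
  have : (a.1, a.2) ∈ boxAB (bd1 E B) (bd2 E B) := by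
    apply mem_boxAB
    · exact abs_le_of_sq_le_sq (by nlinarith) k2
    · exact abs_le_of_sq_le_sq (by nlinarith) k4
  exact this

theorem mem_sols (n w1 a1 w2 a2 len : ℕ) : ∀ k k' : ℕ, k ≤ k' → k' < k + len →
    (w1 + a1 * k') % n = 0 → (w2 + a2 * k') % n = 0 → k' ∈ sols n w1 a1 w2 a2 len k := by
  induction len with
  | zero =>
    intro k k' h1 h2
    omega
  | succ len ih =>
    intro k k' h1 h2 h3 h4
    have h : sols n w1 a1 w2 a2 (len + 1) k =
        Bool.rec (sols n w1 a1 w2 a2 len (k + 1)) (k :: sols n w1 a1 w2 a2 len (k + 1))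
          (Bool.and (Nat.beq ((w1 + a1 * k) % n) 0) (Nat.beq ((w2 + a2 * k) % n) 0)) := rfl
    rw [h]
    rcases eq_or_lt_of_le h1 with h5 | h5
    · subst h5
      rw [h3, h4]
      exact List.mem_cons_self
    · have h6 := ih (k + 1) k' h5 (by omega) h3 h4
      cases (Bool.and (Nat.beq ((w1 + a1 * k) % n) 0) (Nat.beq ((w2 + a2 * k) % n) 0)) with
      | false => exact h6
      | true => exact List.mem_cons_of_mem _ h6

theorem mem_rowsK {E : EP} {c d : ℤ × ℤ} {n w1 a1 w2 a2 : ℤ} {l : List ℕ} {k : ℕ} (hk : k ∈ l)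
    {e : ℤ × ℤ} (he1 : (w1 + a1 * k).tdiv n = e.1) (he2 : (w2 + a2 * k).tdiv n = e.2)
    (hp : nonprim E c d e = false) :
    Row.mk c.1 c.2 d.1 d.2 e.1 e.2 ∈ rowsK E c d n w1 a1 w2 a2 l := by
  induction l with
  | nil => simp at hk
  | cons k' l ih =>
    have h : rowsK E c d n w1 a1 w2 a2 (k' :: l) =
        (fun e : ℤ × ℤ => Bool.rec (Row.mk c.1 c.2 d.1 d.2 e.1 e.2 ::
            rowsK E c d n w1 a1 w2 a2 l) (rowsK E c d n w1 a1 w2 a2 l) (nonprim E c d e))
          ((w1 + a1 * k').tdiv n, (w2 + a2 * k').tdiv n) := rfl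
    rw [h]
    rcases List.mem_cons.1 hk with h1 | h1
    · subst h1
      rw [he1, he2]
      simp only
      rw [show ((e.1, e.2) : ℤ × ℤ) = e from rfl, hp]
      exact List.mem_cons_self
    · simp only
      cases nonprim E c d ((w1 + a1 * k').tdiv n, (w2 + a2 * k').tdiv n) with
      | true => exact ih h1
      | false => exact List.mem_cons_of_mem _ (ih h1)

theorem dvE_iff {n : ℤ} {a : ℤ × ℤ} : dvE n a = true ↔ n ∣ a.1 ∧ n ∣ a.2 := by
  unfold dvE
  rw [Bool.and_eq_true, Nat.beq_eq, Nat.beq_eq]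
  change a.1.natAbs % n.natAbs = 0 ∧ a.2.natAbs % n.natAbs = 0 ↔ _
  rw [← Nat.dvd_iff_mod_eq_zero, ← Nat.dvd_iff_mod_eq_zero, Int.natAbs_dvd_natAbs,
    Int.natAbs_dvd_natAbs]

theorem nonprim_false {E : EP} {c d e : ℤ × ℤ} (h : ∀ m ∈ E.Ms,
    ¬ (nfE E m ∣ (mulE E c (conjE E m)).1 ∧ nfE E m ∣ (mulE E c (conjE E m)).2 ∧
      nfE E m ∣ (mulE E d (conjE E m)).1 ∧ nfE E m ∣ (mulE E d (conjE E m)).2 ∧
      nfE E m ∣ (mulE E e (conjE E m)).1 ∧ nfE E m ∣ (mulE E e (conjE E m)).2)) :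
    nonprim E c d e = false := by
  have key : ∀ l : List (ℤ × ℤ), (∀ m ∈ l,
      ¬ (nfE E m ∣ (mulE E c (conjE E m)).1 ∧ nfE E m ∣ (mulE E c (conjE E m)).2 ∧
      nfE E m ∣ (mulE E d (conjE E m)).1 ∧ nfE E m ∣ (mulE E d (conjE E m)).2 ∧
      nfE E m ∣ (mulE E e (conjE E m)).1 ∧ nfE E m ∣ (mulE E e (conjE E m)).2)) →
      (List.rec false (fun m _ ih => Bool.or (Bool.and (dvE (nfE E m) (mulE E c (conjE E m)))
    (Bool.and (dvE (nfE E m) (mulE E d (conjE E m))) (dvE (nfE E m) (mulE E e (conjE E m))))) ih)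
      l : Bool) = false := by
    intro l hl
    induction l with
    | nil => rfl
    | cons m l ih =>
      change Bool.or (Bool.and (dvE (nfE E m) (mulE E c (conjE E m)))
        (Bool.and (dvE (nfE E m) (mulE E d (conjE E m))) (dvE (nfE E m) (mulE E e (conjE E m)))))
        (List.rec false (fun m _ ih => Bool.or (Bool.and (dvE (nfE E m) (mulE E c (conjE E m)))
          (Bool.and (dvE (nfE E m) (mulE E d (conjE E m)))
            (dvE (nfE E m) (mulE E e (conjE E m))))) ih) l : Bool) = false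
      rw [ih fun m' hm' => hl m' (List.mem_cons_of_mem _ hm')]
      have h1 := hl m List.mem_cons_self
      rw [Bool.or_false, ← Bool.not_eq_true, Bool.and_eq_true, Bool.and_eq_true, dvE_iff, dvE_iff,
        dvE_iff]
      intro h2
      exact h1 ⟨h2.1.1, h2.1.2, h2.2.1.1, h2.2.1.2, h2.2.2.1, h2.2.2.2⟩
  exact key E.Ms h

end

end Pool.Agent.Lib.H56.Gen.RC
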