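import Pool.Agent.Lib.H56.Gen.Row
import Pool.Agent.Lib.H56.Gen.RowComplete1
import Mathlib

/-!
# Completeness of the enumeration of cusps (chunk R1)
-/

namespace Pool.Agent.Lib.H56.Gen

open RC

noncomputable section

/-- the three integers `n, |d|², …` of a row: `c`, `d`, `e` as pairs -/
def Row.c (r : Row) : ℤ × ℤ := (r.c1, r.c2)
/-- second entry -/
def Row.d (r : Row) : ℤ × ℤ := (r.d1, r.d2)
/-- third entry -/
def Row.e (r : Row) : ℤ × ℤ := (r.x, r.y)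

/-- `conj c * d * e1` -/
def Z1 (E : EP) (c d : ℤ × ℤ) : ℤ × ℤ := mulE E (mulE E (conjE E c) d) (E.x1, E.y1)
/-- `conj c * d * e2` -/
def Z2 (E : EP) (c d : ℤ × ℤ) : ℤ × ℤ := mulE E (mulE E (conjE E c) d) (E.x2, E.y2)

/-- The function `R` of a row. -/
def RE (E : EP) (c d : ℤ × ℤ) (s t : ℝ) : ℝ :=
  nfE E c * (alE E * s ^ 2 + beE E * s * t + gaE E * t ^ 2) -
    (trE E (Z1 E c d) * s + trE E (Z2 E c d) * t) + nfE E d

/-- The function `T` of a row. -/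
def TE (E : EP) (c d e : ℤ × ℤ) (s t v : ℝ) : ℝ :=
  nfE E c * v + (Z1 E c d).2 * s + (Z2 E c d).2 * t + (mulE E (conjE E c) e).2

/-- Admissible parameters. -/
structure EPok (E : EP) : Prop where
  t01 : E.t = 0 ∨ E.t = 1
  n1 : 1 ≤ E.n
  hn : 0 < E.hn
  hd : 0 < E.hd
  Pp : 0 < E.Pp
  tau0 : 0 < E.tau
  /-- `D tau² ≥ 4/h²` -/
  tau : 4 * E.hd ^ 2 ≤ DE E * E.tau ^ 2 * E.hn ^ 2
  /-- the Gram matrix is positive definite -/
  gram : 0 < alE E ∧ 0 < gaE E ∧ beE E ^ 2 < 4 * alE E * gaE E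
  /-- the bounds used for the norms fit into the search range of `isq` -/
  small : ∀ n : ℤ, n * E.hn ^ 2 < 4 * E.hd ^ 2 → 4 * E.n * Bd E n ≤ DE E * 100 ^ 2 ∧
    4 * Bd E n ≤ DE E * 100 ^ 2
  small' : 4 * E.n * (4 * E.hd ^ 2 / E.hn ^ 2 + 1) ≤ DE E * 100 ^ 2 ∧
    4 * (4 * E.hd ^ 2 / E.hn ^ 2 + 1) ≤ DE E * 100 ^ 2

theorem DE_pos {E : EP} (hE : EPok E) : 0 < DE E := by
  rw [DE_eq]
  have := hE.n1
  rcases hE.t01 with h | h <;> rw [h] <;> omega

/-- The real inequalities behind the enumeration. -/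
theorem real_bounds {n R T u D hn hd tau : ℝ} (hn0 : 0 < n) (hR : 0 ≤ R) (hu : 0 < u)
    (hD : 0 < D) (h1 : 0 < hn) (h2 : 0 < hd) (htau0 : 0 < tau)
    (htau : 4 * hd ^ 2 ≤ D * tau ^ 2 * hn ^ 2) (htop : 4 * n ≤ (n * u + R) ^ 2 + D * T ^ 2)
    (hh : ((n * u + R) ^ 2 + D * T ^ 2) * hn < 4 * n * u * hd) :
    n * hn ^ 2 < 4 * hd ^ 2 ∧ R * hn < hd ∧ |T| < tau := by
  have hX : 0 < n * u := mul_pos hn0 hu
  have hDT : 0 ≤ D * T ^ 2 := by positivity
  have h3 : (n * u) ^ 2 ≤ (n * u + R) ^ 2 := by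
    apply pow_le_pow_left₀ hX.le
    linarith
  -- `X < 4/h`
  have h4 : (n * u) * hn < 4 * hd := by
    have h5 : (n * u) * ((n * u) * hn) < (n * u) * (4 * hd) := by
      have h6 : (n * u) ^ 2 * hn ≤ ((n * u + R) ^ 2 + D * T ^ 2) * hn := by
        apply mul_le_mul_of_nonneg_right _ h1.le
        linarith
      nlinarith
    exact lt_of_mul_lt_mul_left h5 hX.le
  refine ⟨?_, ?_, ?_⟩
  · -- `n h² < 4`
    have h5 : n * hn < n * u * hd := by
      have h6 : 4 * n * hn ≤ ((n * u + R) ^ 2 + D * T ^ 2) * hn :=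
        mul_le_mul_of_nonneg_right htop h1.le
      nlinarith
    have h6 : n * hn * hn < n * u * hd * hn := mul_lt_mul_of_pos_right h5 h1
    have h7 : (n * u) * hn * hd < 4 * hd * hd := mul_lt_mul_of_pos_right h4 h2
    nlinarith
  · by_contra hcon
    push Not at hcon
    have h5 : (n * u + R) ^ 2 * hn < 4 * (n * u) * hd := by nlinarith
    have h6 : (n * u * hn + R * hn) ^ 2 < 4 * (n * u * hn) * hd := by
      have := mul_lt_mul_of_pos_right h5 h1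
      nlinarith
    have h7 : (n * u * hn + hd) ^ 2 ≤ (n * u * hn + R * hn) ^ 2 := by
      apply pow_le_pow_left₀ (by positivity)
      linarith
    nlinarith [sq_nonneg (n * u * hn - hd)]
  · apply abs_lt_of_sq_lt_sq _ htau0.le
    have h5 : D * T ^ 2 * hn < 4 * (n * u) * hd - (n * u) ^ 2 * hn := by nlinarith
    have h6 : D * T ^ 2 * hn * hn < (4 * (n * u) * hd - (n * u) ^ 2 * hn) * hn :=
      mul_lt_mul_of_pos_right h5 h1
    have h7 : (4 * (n * u) * hd - (n * u) ^ 2 * hn) * hn ≤ 4 * hd ^ 2 := by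
      nlinarith [sq_nonneg (n * u * hn - 2 * hd)]
    have h8 : T ^ 2 * (D * hn ^ 2) < tau ^ 2 * (D * hn ^ 2) := by nlinarith
    exact lt_of_mul_lt_mul_right h8 (by positivity)

/-- The convexity estimate on the half box. -/
theorem conv_bound {n al be ga a1 a2 nd s t : ℝ} (hn : 0 ≤ n) (hal : 0 < al) (_hga : 0 < ga)
    (hbe : be ^ 2 < 4 * al * ga) (hs : 0 ≤ s) (hs' : s ≤ 1 / 2) (ht : 0 ≤ t) (ht' : t ≤ 1) :
    (n * (al + 2 * be + 4 * ga) - 4 * (a1 + 2 * a2) + 16 * nd) -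
      |n * (2 * al + 2 * be) - 4 * a1| - 2 * |n * (be + 4 * ga) - 4 * a2| ≤
      16 * (n * (al * s ^ 2 + be * s * t + ga * t ^ 2) - (a1 * s + a2 * t) + nd) := by
  set G1 := n * (2 * al + 2 * be) - 4 * a1 with hG1
  set G2 := n * (be + 4 * ga) - 4 * a2 with hG2
  set σ := 4 * s - 1 with hσ
  set τ := 2 * t - 1 with hτ
  have e1 : 16 * (n * (al * s ^ 2 + be * s * t + ga * t ^ 2) - (a1 * s + a2 * t) + nd) =
      (n * (al + 2 * be + 4 * ga) - 4 * (a1 + 2 * a2) + 16 * nd) + G1 * σ + 2 * (G2 * τ) +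
        n * (al * σ ^ 2 + 2 * be * σ * τ + 4 * ga * τ ^ 2) := by
    rw [hG1, hG2, hσ, hτ]
    ring
  have e2 : 0 ≤ al * σ ^ 2 + 2 * be * σ * τ + 4 * ga * τ ^ 2 := by
    have h1 : 0 ≤ al * (al * σ ^ 2 + 2 * be * σ * τ + 4 * ga * τ ^ 2) := by
      have : al * (al * σ ^ 2 + 2 * be * σ * τ + 4 * ga * τ ^ 2) =
          (al * σ + be * τ) ^ 2 + (4 * al * ga - be ^ 2) * τ ^ 2 := by ring
      rw [this]
      have h2 : 0 ≤ 4 * al * ga - be ^ 2 := by linarith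
      positivity
    exact nonneg_of_mul_nonneg_right h1 hal
  have hσ1 : |σ| ≤ 1 := by
    rw [abs_le]
    constructor <;> rw [hσ] <;> linarith
  have hτ1 : |τ| ≤ 1 := by
    rw [abs_le]
    constructor <;> rw [hτ] <;> linarith
  have e3 : -|G1| ≤ G1 * σ := by
    have h1 : |G1 * σ| ≤ |G1| := by
      rw [abs_mul]
      exact mul_le_of_le_one_right (abs_nonneg _) hσ1
    have := neg_abs_le (G1 * σ)
    linarith
  have e4 : -|G2| ≤ G2 * τ := by
    have h1 : |G2 * τ| ≤ |G2| := by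
      rw [abs_mul]
      exact mul_le_of_le_one_right (abs_nonneg _) hτ1
    have := neg_abs_le (G2 * τ)
    linarith
  have e5 : 0 ≤ n * (al * σ ^ 2 + 2 * be * σ * τ + 4 * ga * τ ^ 2) := mul_nonneg hn e2
  rw [e1]
  linarith

theorem prune_false {E : EP} (hE : EPok E) {c d : ℤ × ℤ} (hn : 0 < nfE E c)
    {s t : ℝ} (hs : 0 ≤ s) (hs' : s ≤ 1 / 2) (ht : 0 ≤ t) (ht' : t ≤ 1)
    (hR : RE E c d s t * E.hn < E.hd) :
    prune E (nfE E c) (nfE E d) (trE E (Z1 E c d)) (trE E (Z2 E c d)) = false := by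
  unfold prune
  rw [leI_false, absI_eq, absI_eq]
  change (nfE E c * (alE E + 2 * beE E + 4 * gaE E) -
    4 * (trE E (Z1 E c d) + 2 * trE E (Z2 E c d)) + 16 * nfE E d -
    |nfE E c * (2 * alE E + 2 * beE E) - 4 * trE E (Z1 E c d)| -
    2 * |nfE E c * (beE E + 4 * gaE E) - 4 * trE E (Z2 E c d)|) * E.hn < 16 * E.hd
  have hg := hE.gram
  have h1 := conv_bound (n := (nfE E c : ℝ)) (al := (alE E : ℝ)) (be := (beE E : ℝ))
    (ga := (gaE E : ℝ)) (a1 := (trE E (Z1 E c d) : ℝ)) (a2 := (trE E (Z2 E c d) : ℝ))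
    (nd := (nfE E d : ℝ)) (by exact_mod_cast hn.le) (by exact_mod_cast hg.1)
    (by exact_mod_cast hg.2.1) (by exact_mod_cast hg.2.2) hs hs' ht ht'
  have h2 : (0 : ℝ) < E.hn := by exact_mod_cast hE.hn
  have h3 := mul_le_mul_of_nonneg_right h1 h2.le
  unfold RE at hR
  have h4 : ((nfE E c : ℝ) * (alE E + 2 * beE E + 4 * gaE E) -
    4 * (trE E (Z1 E c d) + 2 * trE E (Z2 E c d)) + 16 * nfE E d -
    |(nfE E c : ℝ) * (2 * alE E + 2 * beE E) - 4 * trE E (Z1 E c d)| -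
    2 * |(nfE E c : ℝ) * (beE E + 4 * gaE E) - 4 * trE E (Z2 E c d)|) * E.hn < 16 * E.hd := by
    nlinarith
  exact_mod_cast h4

theorem nd_lt_Bd {E : EP} (hE : EPok E) {c d : ℤ × ℤ} (hn : 0 < nfE E c)
    {s t : ℝ} (hs : 0 ≤ s) (hs' : s ≤ 1 / 2) (ht : 0 ≤ t) (ht' : t ≤ 1)
    (hR0 : 0 ≤ RE E c d (2 * s) (2 * t)) (hR : RE E c d s t * E.hn < E.hd) :
    nfE E d < Bd E (nfE E c) := by
  unfold Bd
  rw [absI_eq]
  change nfE E d < ((nfE E c * (alE E + (2 * |beE E| + 4 * gaE E))) * E.hn + 4 * E.hd).tdiv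
    (2 * E.hn) + 1
  have hhn := hE.hn
  have hhd := hE.hd
  have hg := hE.gram
  have h0 : (0 : ℝ) < E.hn := by exact_mod_cast hhn
  have hq : (nfE E d) * (2 * E.hn) ≤
      (nfE E c * (alE E + (2 * |beE E| + 4 * gaE E))) * E.hn + 4 * E.hd := by
    have h1 : (nfE E d : ℝ) ≤ 2 * (nfE E c *
        (alE E * s ^ 2 + beE E * s * t + gaE E * t ^ 2)) + 2 * RE E c d s t := by
      unfold RE at hR0 ⊢
      nlinarith
    have h2 : 4 * ((alE E : ℝ) * s ^ 2 + beE E * s * t + gaE E * t ^ 2) ≤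
        alE E + (2 * |(beE E : ℝ)| + 4 * gaE E) := by
      have h3 : (alE E : ℝ) * s ^ 2 ≤ alE E * (1 / 4) := by
        apply mul_le_mul_of_nonneg_left _ (by exact_mod_cast hg.1.le)
        nlinarith
      have h4 : (gaE E : ℝ) * t ^ 2 ≤ gaE E * 1 := by
        apply mul_le_mul_of_nonneg_left _ (by exact_mod_cast hg.2.1.le)
        nlinarith
      have h5 : (beE E : ℝ) * s * t ≤ |(beE E : ℝ)| * (1 / 2) := by
        have h6 : 0 ≤ s * t := mul_nonneg hs ht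
        have h7 : s * t ≤ 1 / 2 := by nlinarith
        calc (beE E : ℝ) * s * t = beE E * (s * t) := by ring
          _ ≤ |(beE E : ℝ)| * (s * t) := mul_le_mul_of_nonneg_right (le_abs_self _) h6
          _ ≤ |(beE E : ℝ)| * (1 / 2) := mul_le_mul_of_nonneg_left h7 (abs_nonneg _)
      linarith
    have hnc : (0 : ℝ) < nfE E c := by exact_mod_cast hn
    have h3 : (nfE E c : ℝ) * (4 * ((alE E : ℝ) * s ^ 2 + beE E * s * t + gaE E * t ^ 2)) ≤
        nfE E c * (alE E + (2 * |(beE E : ℝ)| + 4 * gaE E)) :=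
      mul_le_mul_of_nonneg_left h2 hnc.le
    have h4 : (nfE E d : ℝ) * (2 * E.hn) ≤
      (nfE E c * (alE E + (2 * |(beE E : ℝ)| + 4 * gaE E))) * E.hn + 4 * E.hd := by
      have h5 := mul_le_mul_of_nonneg_right h1 h0.le
      have h6 := mul_le_mul_of_nonneg_right h3 h0.le
      nlinarith
    exact_mod_cast h4
  have hpos : 0 ≤ (nfE E c * (alE E + (2 * |beE E| + 4 * gaE E))) * E.hn + 4 * E.hd := by
    have := abs_nonneg (beE E)
    have h1 := hg.1
    have h2 := hg.2.1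
    positivity
  rw [Int.tdiv_eq_ediv_of_nonneg hpos]
  have := (Int.le_ediv_iff_mul_le (by positivity : (0 : ℤ) < 2 * E.hn)).2 hq
  omega

theorem c_mem {E : EP} (hE : EPok E) {c : ℤ × ℤ} (hc : can E c = true) (hn : 0 < nfE E c)
    (h : nfE E c * E.hn ^ 2 < 4 * E.hd ^ 2) : c ∈ cs E := by
  unfold cs
  have hhn := hE.hn
  have hhd := hE.hd
  have e1 : Int.add (Int.tdiv (Int.mul 4 (Int.mul E.hd E.hd)) (Int.mul E.hn E.hn)) 1 =
      4 * E.hd ^ 2 / E.hn ^ 2 + 1 := by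
    change (4 * (E.hd * E.hd)).tdiv (E.hn * E.hn) + 1 = _
    rw [Int.tdiv_eq_ediv_of_nonneg (by positivity)]
    ring_nf
  rw [e1]
  apply mem_filtB
  · simp only [Bool.and_eq_true, leI_iff]
    refine ⟨hc, by omega, ?_⟩
    change nfE E c * (E.hn * E.hn) + 1 ≤ 4 * (E.hd * E.hd)
    nlinarith
  · apply mem_box_of_nfE (DE_pos hE) hE.n1 hE.small'.1 hE.small'.2
    have : nfE E c ≤ 4 * E.hd ^ 2 / E.hn ^ 2 :=
      (Int.le_ediv_iff_mul_le (by positivity)).2 h.le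
    omega

/-- **Completeness.** An isotropic row which is canonical, has no common divisor in the list `Ms`
and has height `> h` at a point of the half box where it is at most the height of the point, is
in the list `gen`. -/
theorem mem_gen {E : EP} (hE : EPok E) {c d e : ℤ × ℤ} (hc : can E c = true)
    (hn : 0 < nfE E c) (hiso : trE E (mulE E (conjE E c) e) = -nfE E d)
    (hprim : ∀ m ∈ E.Ms, ¬ (nfE E m ∣ (mulE E c (conjE E m)).1 ∧ nfE E m ∣ (mulE E c (conjE E m)).2 ∧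
      nfE E m ∣ (mulE E d (conjE E m)).1 ∧ nfE E m ∣ (mulE E d (conjE E m)).2 ∧
      nfE E m ∣ (mulE E e (conjE E m)).1 ∧ nfE E m ∣ (mulE E e (conjE E m)).2))
    {s t v u : ℝ} (hs : 0 ≤ s) (hs' : s ≤ 1 / 2) (ht : 0 ≤ t) (ht' : t ≤ 1) (hv : 0 ≤ v)
    (hv' : v ≤ E.Pp) (hu : 0 < u) (hR : ∀ s t : ℝ, 0 ≤ RE E c d s t)
    (htop : 4 * (nfE E c : ℝ) ≤ (nfE E c * u + RE E c d s t) ^ 2 + DE E * TE E c d e s t v ^ 2)
    (hh : ((nfE E c * u + RE E c d s t) ^ 2 + DE E * TE E c d e s t v ^ 2) * E.hn <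
      4 * nfE E c * u * E.hd) :
    Row.mk c.1 c.2 d.1 d.2 e.1 e.2 ∈ gen E := by
  have hhn := hE.hn
  have hhd := hE.hd
  have hD := DE_pos hE
  have htau : 4 * (E.hd : ℝ) ^ 2 ≤ DE E * E.tau ^ 2 * E.hn ^ 2 := by exact_mod_cast hE.tau
  obtain ⟨b1, b2, b3⟩ := real_bounds (n := nfE E c) (R := RE E c d s t) (T := TE E c d e s t v)
    (u := u) (D := DE E) (hn := E.hn) (hd := E.hd) (tau := E.tau) (by exact_mod_cast hn)
    (hR s t) hu (by exact_mod_cast hD) (by exact_mod_cast hhn) (by exact_mod_cast hhd)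
    (by exact_mod_cast hE.tau0) htau htop hh
  have b1' : nfE E c * E.hn ^ 2 < 4 * E.hd ^ 2 := by exact_mod_cast b1
  unfold gen
  refine mem_bindB _ _ c _ (c_mem hE hc hn b1') ?_
  unfold rowsC
  refine mem_bindB _ _ d _ (mem_box_of_nfE hD hE.n1 (hE.small _ b1').1 (hE.small _ b1').2
    (nd_lt_Bd hE hn hs hs' ht ht' (hR _ _) b2)) ?_
  -- rows with given `c`, `d`
  have hpr := prune_false hE (d := d) hn hs hs' ht ht' b2
  unfold rowsCD
  change Row.mk c.1 c.2 d.1 d.2 e.1 e.2 ∈ (Bool.rec _ _ (prune E (nfE E c) (nfE E d)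
    (trE E (Z1 E c d)) (trE E (Z2 E c d))) : List Row)
  rw [hpr]
  set lo : ℤ := -((E.tau + nfE E c * E.Pp) + (((posI (Z1 E c d).2) + 1).tdiv 2 +
    posI (Z2 E c d).2)) with hlo
  set hi : ℤ := E.tau + (((posI (-(Z1 E c d).2)) + 1).tdiv 2 + posI (-(Z2 E c d).2)) with hhi
  set r0 : ℤ := lo - E.t * ((nfE E d + lo) % 2) with hr0
  change Row.mk c.1 c.2 d.1 d.2 e.1 e.2 ∈ rowsR E c d (nfE E c) (nfE E d) r0 hi
  -- the number `r`
  set p : ℤ := (mulE E (conjE E c) e).1 with hp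
  set r : ℤ := (mulE E (conjE E c) e).2 with hr
  have hiso' : 2 * p + E.t * r = -nfE E d := hiso
  rw [abs_lt] at b3
  unfold TE at b3
  have hx1 : (0 : ℝ) ≤ max (Z1 E c d).2 (0 : ℤ) := by exact_mod_cast le_max_right _ _
  have hx2 : (0 : ℝ) ≤ max (Z2 E c d).2 (0 : ℤ) := by exact_mod_cast le_max_right _ _
  have hlor : lo ≤ r := by
    have h1 : (0 : ℤ) ≤ max (Z1 E c d).2 0 := le_max_right _ _
    have h2 : (0 : ℤ) ≤ max (Z2 E c d).2 0 := le_max_right _ _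
    have h3 : ((Z1 E c d).2 : ℝ) * s ≤ ((max (Z1 E c d).2 0 : ℤ) : ℝ) * (1 / 2) := by
      calc ((Z1 E c d).2 : ℝ) * s ≤ ((max (Z1 E c d).2 0 : ℤ) : ℝ) * s :=
            mul_le_mul_of_nonneg_right (by exact_mod_cast le_max_left _ _) hs
        _ ≤ _ := mul_le_mul_of_nonneg_left hs' (by exact_mod_cast h1)
    have h4 : ((Z2 E c d).2 : ℝ) * t ≤ ((max (Z2 E c d).2 0 : ℤ) : ℝ) := by
      calc ((Z2 E c d).2 : ℝ) * t ≤ ((max (Z2 E c d).2 0 : ℤ) : ℝ) * t :=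
            mul_le_mul_of_nonneg_right (by exact_mod_cast le_max_left _ _) ht
        _ ≤ ((max (Z2 E c d).2 0 : ℤ) : ℝ) * 1 :=
            mul_le_mul_of_nonneg_left ht' (by exact_mod_cast h2)
        _ = _ := mul_one _
    have h5 : (nfE E c : ℝ) * v ≤ nfE E c * E.Pp :=
      mul_le_mul_of_nonneg_left hv' (by exact_mod_cast hn.le)
    have h6 : -(E.tau : ℝ) < nfE E c * E.Pp + ((max (Z1 E c d).2 0 : ℤ) : ℝ) * (1 / 2) +
        ((max (Z2 E c d).2 0 : ℤ) : ℝ) + r := by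
      have := b3.1
      linarith
    have h7 : -(2 * E.tau) < 2 * (nfE E c * E.Pp) + max (Z1 E c d).2 0 +
        2 * max (Z2 E c d).2 0 + 2 * r := by
      have h8 : -(2 * (E.tau : ℝ)) < 2 * (nfE E c * E.Pp) + ((max (Z1 E c d).2 0 : ℤ) : ℝ) +
        2 * ((max (Z2 E c d).2 0 : ℤ) : ℝ) + 2 * r := by linarith
      exact_mod_cast h8
    rw [hlo, posI_eq, posI_eq, Int.tdiv_eq_ediv_of_nonneg (by omega)]
    omega
  have hrhi : r ≤ hi := by
    have h1 : (0 : ℤ) ≤ max (-(Z1 E c d).2) 0 := le_max_right _ _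
    have h2 : (0 : ℤ) ≤ max (-(Z2 E c d).2) 0 := le_max_right _ _
    have h3 : (-(Z1 E c d).2 : ℝ) * s ≤ ((max (-(Z1 E c d).2) 0 : ℤ) : ℝ) * (1 / 2) := by
      calc (-(Z1 E c d).2 : ℝ) * s ≤ ((max (-(Z1 E c d).2) 0 : ℤ) : ℝ) * s :=
            mul_le_mul_of_nonneg_right (by exact_mod_cast le_max_left _ _) hs
        _ ≤ _ := mul_le_mul_of_nonneg_left hs' (by exact_mod_cast h1)
    have h4 : (-(Z2 E c d).2 : ℝ) * t ≤ ((max (-(Z2 E c d).2) 0 : ℤ) : ℝ) := by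
      calc (-(Z2 E c d).2 : ℝ) * t ≤ ((max (-(Z2 E c d).2) 0 : ℤ) : ℝ) * t :=
            mul_le_mul_of_nonneg_right (by exact_mod_cast le_max_left _ _) ht
        _ ≤ ((max (-(Z2 E c d).2) 0 : ℤ) : ℝ) * 1 :=
            mul_le_mul_of_nonneg_left ht' (by exact_mod_cast h2)
        _ = _ := mul_one _
    have h5 : (0 : ℝ) ≤ nfE E c * v := mul_nonneg (by exact_mod_cast hn.le) hv
    have h7 : 2 * r < 2 * E.tau + max (-(Z1 E c d).2) 0 + 2 * max (-(Z2 E c d).2) 0 := by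
      have h8 : 2 * (r : ℝ) < 2 * E.tau + ((max (-(Z1 E c d).2) 0 : ℤ) : ℝ) +
        2 * ((max (-(Z2 E c d).2) 0 : ℤ) : ℝ) := by
        have := b3.2
        linarith
      exact_mod_cast h8
    rw [hhi, posI_eq, posI_eq, Int.tdiv_eq_ediv_of_nonneg (by omega)]
    omega
  -- the parity
  obtain ⟨k, hk1, hk2, hpar⟩ : ∃ k : ℕ, r = r0 + (1 + E.t) * k ∧
      (k : ℤ) ≤ (hi - r0) / (1 + E.t) ∧ (nfE E d + E.t * r0) % 2 = 0 := by
    rcases hE.t01 with h | h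
    · have h0 : r0 = lo := by rw [hr0, h]; ring
      refine ⟨(r - r0).toNat, ?_, ?_, ?_⟩
      · rw [h]
        omega
      · rw [h]
        omega
      · rw [h] at hiso' ⊢
        omega
    · have h0 : r0 = lo - (nfE E d + lo) % 2 := by rw [hr0, h]; ring
      have h1 : (nfE E d + r) % 2 = 0 := by
        rw [h] at hiso'
        omega
      refine ⟨((r - r0) / 2).toNat, ?_, ?_, ?_⟩
      · rw [h]
        omega
      · rw [h]
        omega
      · rw [h]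
        omega
  unfold rowsR
  have hpar' : Nat.beq (Nat.mod (Int.natAbs (Int.add (nfE E d) (Int.mul E.t r0))) 2) 0 = true := by
    rw [Nat.beq_eq]
    change (nfE E d + E.t * r0).natAbs % 2 = 0
    omega
  rw [hpar']
  set P : ℤ := -((nfE E d + E.t * r0) / 2) with hP
  have hPp : p = P - E.t * k := by
    rcases hE.t01 with h | h
    · rw [hP]
      rw [h] at hiso' hpar ⊢
      omega
    · rw [hP]
      rw [h] at hiso' hpar hk1 ⊢
      omega
  set w1 : ℤ := c.1 * P - E.n * (c.2 * r0) with hw1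
  set w2 : ℤ := (c.1 * r0 + c.2 * P) + E.t * (c.2 * r0) with hw2
  set a1 : ℤ := -(E.t * c.1 + (1 + E.t) * (E.n * c.2)) with ha1
  set a2 : ℤ := ((1 + E.t) * c.1 - E.t * c.2) + E.t * ((1 + E.t) * c.2) with ha2
  have hce := mul_conj_mul E c e
  rw [mulE_eq, ← hp, ← hr] at hce
  have f1 : w1 + a1 * k = nfE E c * e.1 := by
    have h1 : c.1 * p - E.n * (c.2 * r) = nfE E c * e.1 := congrArg Prod.fst hce
    rw [← h1, hPp, hk1, hw1, ha1]
    ring
  have f2 : w2 + a2 * k = nfE E c * e.2 := by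
    have h1 : c.1 * r + c.2 * p + E.t * (c.2 * r) = nfE E c * e.2 := congrArg Prod.snd hce
    rw [← h1, hPp, hk1, hw2, ha2]
    ring
  change Row.mk c.1 c.2 d.1 d.2 e.1 e.2 ∈ rowsK E c d (nfE E c) w1 a1 w2 a2
    (sols (nfE E c).toNat (w1 % nfE E c).toNat (a1 % nfE E c).toNat (w2 % nfE E c).toNat
      (a2 % nfE E c).toNat ((posI (hi - r0)).tdiv (1 + E.t) + 1).toNat 0)
  have hmod : ∀ w a x : ℤ, w + a * k = nfE E c * x →
      ((w % nfE E c).toNat + (a % nfE E c).toNat * k) % (nfE E c).toNat = 0 := by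
    intro w a x h
    have h1 : 0 ≤ w % nfE E c := Int.emod_nonneg _ hn.ne'
    have h2 : 0 ≤ a % nfE E c := Int.emod_nonneg _ hn.ne'
    zify
    rw [Int.toNat_of_nonneg h1, Int.toNat_of_nonneg h2, Int.toNat_of_nonneg hn.le]
    have h3 : w % nfE E c + a % nfE E c * k ≡ w + a * k [ZMOD nfE E c] :=
      (Int.mod_modEq _ _).add ((Int.mod_modEq _ _).mul_right _)
    have h4 : (w + a * k) % nfE E c = 0 := by
      rw [h]
      exact Int.mul_emod_right _ _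
    exact Eq.trans h3 h4
  refine mem_rowsK (k := k) (mem_sols _ _ _ _ _ _ 0 k (Nat.zero_le _) ?_ (hmod _ _ _ f1)
    (hmod _ _ _ f2)) ?_ ?_ (nonprim_false hprim)
  · rw [posI_eq]
    have h1 : (0 : ℤ) < 1 + E.t := by rcases hE.t01 with h | h <;> omega
    rw [Int.tdiv_eq_ediv_of_nonneg (le_max_right _ _)]
    have h2 : (hi - r0) / (1 + E.t) ≤ (max (hi - r0) 0) / (1 + E.t) :=
      Int.ediv_le_ediv h1 (le_max_left _ _)
    omega
  · rw [f1]
    exact Int.mul_tdiv_cancel_left _ hn.ne'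
  · rw [f2]
    exact Int.mul_tdiv_cancel_left _ hn.ne'

end

end Pool.Agent.Lib.H56.Gen
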