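import Pool.Agent.Lib.H56.Gen.Check

/-!
# Splitting a certificate tree into parts that are checked separately
-/

namespace Pool.Agent.Lib.H56.Gen

variable {p : Par} {lf : Nd → Nat → Nat → List Cos → Bool} {df : Nd → Cos → Bool} {a b : Tr}
  {S hx T hy V hv U0 U1 c1 c2 h : Nat} {l : List Cos}

theorem and_tt {x y : Bool} (hx : x = true) (hy : y = true) : Bool.and x y = true := by
  subst hx hy; rfl

theorem chk_S (e1 : Nat.sub S (hf2 hx) = c1) (e2 : Nat.add S (hf2 hx) = c2) (e3 : hf2 hx = h)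
    (h1 : chk p lf df a c1 h T hy V hv U0 U1 l = true)
    (h2 : chk p lf df b c2 h T hy V hv U0 U1 l = true) :
    chk p lf df (Tr.S a b) S hx T hy V hv U0 U1 l = true := by
  subst e1 e2 e3; exact and_tt h1 h2

theorem chk_T (e1 : Nat.sub T (hf2 hy) = c1) (e2 : Nat.add T (hf2 hy) = c2) (e3 : hf2 hy = h)
    (h1 : chk p lf df a S hx c1 h V hv U0 U1 l = true)
    (h2 : chk p lf df b S hx c2 h V hv U0 U1 l = true) :
    chk p lf df (Tr.T a b) S hx T hy V hv U0 U1 l = true := by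
  subst e1 e2 e3; exact and_tt h1 h2

theorem chk_V (e1 : Nat.sub V (hf2 hv) = c1) (e2 : Nat.add V (hf2 hv) = c2) (e3 : hf2 hv = h)
    (h1 : chk p lf df a S hx T hy c1 h U0 U1 l = true)
    (h2 : chk p lf df b S hx T hy c2 h U0 U1 l = true) :
    chk p lf df (Tr.V a b) S hx T hy V hv U0 U1 l = true := by
  subst e1 e2 e3; exact and_tt h1 h2

theorem chk_U (e1 : Nat.div (Nat.add U0 U1) 2 = c1)
    (h1 : chk p lf df a S hx T hy V hv U0 c1 l = true)
    (h2 : chk p lf df b S hx T hy V hv c1 U1 l = true) :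
    chk p lf df (Tr.U a b) S hx T hy V hv U0 U1 l = true := by
  subst e1; exact and_tt h1 h2

theorem chkW_S (e1 : Nat.sub S (hf2 hx) = c1) (e2 : Nat.add S (hf2 hx) = c2) (e3 : hf2 hx = h)
    (h1 : chkW p a c1 h T hy V hv U0 U1 l = true) (h2 : chkW p b c2 h T hy V hv U0 U1 l = true) :
    chkW p (Tr.S a b) S hx T hy V hv U0 U1 l = true := chk_S e1 e2 e3 h1 h2

theorem chkW_T (e1 : Nat.sub T (hf2 hy) = c1) (e2 : Nat.add T (hf2 hy) = c2) (e3 : hf2 hy = h)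
    (h1 : chkW p a S hx c1 h V hv U0 U1 l = true) (h2 : chkW p b S hx c2 h V hv U0 U1 l = true) :
    chkW p (Tr.T a b) S hx T hy V hv U0 U1 l = true := chk_T e1 e2 e3 h1 h2

theorem chkW_V (e1 : Nat.sub V (hf2 hv) = c1) (e2 : Nat.add V (hf2 hv) = c2) (e3 : hf2 hv = h)
    (h1 : chkW p a S hx T hy c1 h U0 U1 l = true) (h2 : chkW p b S hx T hy c2 h U0 U1 l = true) :
    chkW p (Tr.V a b) S hx T hy V hv U0 U1 l = true := chk_V e1 e2 e3 h1 h2

theorem chkW_U (e1 : Nat.div (Nat.add U0 U1) 2 = c1)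
    (h1 : chkW p a S hx T hy V hv U0 c1 l = true) (h2 : chkW p b S hx T hy V hv c1 U1 l = true) :
    chkW p (Tr.U a b) S hx T hy V hv U0 U1 l = true := chk_U e1 h1 h2

theorem chkV_S (e1 : Nat.sub S (hf2 hx) = c1) (e2 : Nat.add S (hf2 hx) = c2) (e3 : hf2 hx = h)
    (h1 : chkV p a c1 h T hy V hv U0 U1 l = true) (h2 : chkV p b c2 h T hy V hv U0 U1 l = true) :
    chkV p (Tr.S a b) S hx T hy V hv U0 U1 l = true := chk_S e1 e2 e3 h1 h2

theorem chkV_T (e1 : Nat.sub T (hf2 hy) = c1) (e2 : Nat.add T (hf2 hy) = c2) (e3 : hf2 hy = h)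
    (h1 : chkV p a S hx c1 h V hv U0 U1 l = true) (h2 : chkV p b S hx c2 h V hv U0 U1 l = true) :
    chkV p (Tr.T a b) S hx T hy V hv U0 U1 l = true := chk_T e1 e2 e3 h1 h2

theorem chkV_V (e1 : Nat.sub V (hf2 hv) = c1) (e2 : Nat.add V (hf2 hv) = c2) (e3 : hf2 hv = h)
    (h1 : chkV p a S hx T hy c1 h U0 U1 l = true) (h2 : chkV p b S hx T hy c2 h U0 U1 l = true) :
    chkV p (Tr.V a b) S hx T hy V hv U0 U1 l = true := chk_V e1 e2 e3 h1 h2

theorem chkV_U (e1 : Nat.div (Nat.add U0 U1) 2 = c1)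
    (h1 : chkV p a S hx T hy V hv U0 c1 l = true) (h2 : chkV p b S hx T hy V hv c1 U1 l = true) :
    chkV p (Tr.U a b) S hx T hy V hv U0 U1 l = true := chk_U e1 h1 h2

end Pool.Agent.Lib.H56.Gen
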