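import Pool.Agent.Lib.H56.Gen.CuspSumEq

/-!
# Every point has a highest translate in the half box
-/

namespace Pool.Agent.Lib.H56.Gen

open Matrix hiding J
open MeasureTheory Topology
open Pool.Agent.Lib.H56.Picard hiding O Gam mem_Gam star_mem_O T_mem sg_mem
open scoped ENNReal

noncomputable section

variable {E : EP} {q : QD}

/-- vertical parts of the basis translations -/
structure EPw (E : EP) (w1 w2 : ℤ × ℤ) : Prop where
  h1 : trE E w1 = -alE E
  h2 : trE E w2 = -gaE E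
  par : ∃ k, E.Pp * E.t = 2 * k
  cov : 0 < E.x1 * E.y2 - E.y1 * E.x2

lemma cov_ee (h : Comp E q) : (ee1 E q).re * (ee2 E q).im - (ee1 E q).im * (ee2 E q).re =
    (E.x1 * E.y2 - E.y1 * E.x2 : ℤ) * (sd q / 2) := by
  unfold ee1 ee2 elp
  rw [el_re, el_im, el_re, el_im]
  push_cast
  ring

lemma sg_mem : sg ∈ Gam q := by
  intro i j
  fin_cases i <;> fin_cases j <;>
    simp [sg, mat_mkSU, (OO q).one_mem, (OO q).zero_mem, (OO q).neg_mem (OO q).one_mem]

/-- real coordinates of a point -/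
lemma exists_coords (h : Comp E q) {w1 w2 : ℤ × ℤ} (hw : EPw E w1 w2) (z : ℂ) :
    ∃ s t : ℝ, z = s * ee1 E q + t * ee2 E q := by
  set C := (ee1 E q).re * (ee2 E q).im - (ee1 E q).im * (ee2 E q).re with hC
  have hC0 : C ≠ 0 := by
    rw [hC, cov_ee h]
    have h1 : (0 : ℝ) < (E.x1 * E.y2 - E.y1 * E.x2 : ℤ) := by exact_mod_cast hw.cov
    have h2 := sd_pos q
    positivity
  refine ⟨(z.re * (ee2 E q).im - z.im * (ee2 E q).re) / C,
    (-(z.re * (ee1 E q).im) + z.im * (ee1 E q).re) / C, ?_⟩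
  apply Complex.ext
  · simp only [Complex.add_re, Complex.mul_re, Complex.ofReal_re, Complex.ofReal_im, zero_mul,
      sub_zero]
    field_simp
    rw [hC]; ring
  · simp only [Complex.add_im, Complex.mul_im, Complex.ofReal_re, Complex.ofReal_im, zero_mul,
      add_zero]
    field_simp
    rw [hC]; ring

/-- translation into the box -/
lemma exists_translate (h : Comp E q) (hP : 0 < E.Pp) {w1 w2 : ℤ × ℤ} (hw : EPw E w1 w2) (z : X)
    (s0 t0 : ℝ) (hz : z.1.2 = s0 * ee1 E q + t0 * ee2 E q) :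
    ∃ γ : Gam q, γ ∈ stab (OO q) star_mem ∧ ∃ v : ℝ, 0 ≤ v ∧ v ≤ E.Pp ∧
      (γ • z : X).1 = PsiE (ee1 E q) (ee2 E q) (Int.fract s0) (Int.fract t0) (sd q * v)
        (height z.1) := by
  set a : ℤ := -⌊s0⌋ with ha
  set b : ℤ := -⌊t0⌋ with hb
  set l : ℂ := a * ee1 E q + b * ee2 E q with hl
  set wc : ℂ := (a : ℂ) ^ 2 * elp q w1 + (b : ℂ) ^ 2 * elp q w2 -
    (a : ℂ) * b * (ee1 E q * star (ee2 E q)) with hwc
  obtain ⟨k0, hk0⟩ := hw.par
  set w0 : ℂ := elp q (-k0, E.Pp) with hw0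
  have hw0re : w0.re = 0 := by
    rw [hw0]; unfold elp; rw [el_re]
    have : (E.Pp : ℝ) * E.t = 2 * k0 := by exact_mod_cast hk0
    rw [h.t] at this
    push_cast
    linarith
  have hw0im : w0.im = E.Pp * sd q / 2 := by rw [hw0]; unfold elp; rw [el_im]
  -- vertical coordinate after the first translation
  set z1' : ℂ := z.1.1 - star l * z.1.2 + wc with hz1'
  set v0 : ℝ := 2 * z1'.im / (sd q * E.Pp) with hv0
  set k : ℤ := -⌊v0⌋ with hk
  have hs := sd_pos q
  have hPp : (0 : ℝ) < E.Pp := by exact_mod_cast hP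
  have hlr : 2 * (wc + k * w0).re = -Complex.normSq l := by
    have h1 : 2 * (elp q w1).re = -Complex.normSq (ee1 E q) := by
      rw [re_elp h, hw.h1]
      have : Complex.normSq (ee1 E q) = alE E := normSq_elp h _
      rw [this]; push_cast; ring
    have h2 : 2 * (elp q w2).re = -Complex.normSq (ee2 E q) := by
      rw [re_elp h, hw.h2]
      have : Complex.normSq (ee2 E q) = gaE E := normSq_elp h _
      rw [this]; push_cast; ring
    rw [Complex.normSq_apply] at h1 h2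
    rw [hwc, hl, Complex.normSq_apply]
    simp only [Complex.add_re, Complex.sub_re, Complex.mul_re, Complex.add_im, Complex.mul_im,
      Complex.intCast_re, Complex.intCast_im, Complex.star_def, Complex.conj_re, Complex.conj_im,
      hw0re, pow_two, zero_mul, mul_zero, sub_zero, add_zero]
    linear_combination (a : ℝ) ^ 2 * h1 + (b : ℝ) ^ 2 * h2
  have hi : ∀ n : ℤ, (n : ℂ) ∈ OO q := fun n => by rw [← el_int (q := q)]; exact el_mem _ _
  have hlm : l ∈ OO q := by
    rw [hl]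
    exact (OO q).add_mem ((OO q).mul_mem (hi _) (elp_mem _)) ((OO q).mul_mem (hi _) (elp_mem _))
  have hwm : wc + k * w0 ∈ OO q := by
    rw [hwc]
    refine (OO q).add_mem ((OO q).sub_mem ((OO q).add_mem ?_ ?_) ?_) ?_
    · exact (OO q).mul_mem ((OO q).pow_mem (hi _) 2) (elp_mem _)
    · exact (OO q).mul_mem ((OO q).pow_mem (hi _) 2) (elp_mem _)
    · exact (OO q).mul_mem ((OO q).mul_mem (hi _) (hi _))
        ((OO q).mul_mem (elp_mem _) (star_mem _ (elp_mem _)))
    · exact (OO q).mul_mem (hi _) (elp_mem _)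
  refine ⟨⟨T l (wc + k * w0) hlr, T_mem hlr hlm hwm⟩, ?_, Int.fract v0 * E.Pp, ?_, ?_, ?_⟩
  · show mat (T l (wc + k * w0) hlr) 2 0 = 0
    rw [mat_T]; simp [TM]
  · exact mul_nonneg (Int.fract_nonneg _) hPp.le
  · have := (Int.fract_lt_one v0).le
    nlinarith
  · show act (mat (T l (wc + k * w0) hlr)) z.1 = _
    rw [mat_T, act_TM]
    have e2 : z.1.2 + l = (Int.fract s0 : ℝ) * ee1 E q + (Int.fract t0 : ℝ) * ee2 E q := by
      rw [hz, hl, ha, hb, Int.fract, Int.fract]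
      push_cast
      ring
    have hheight : height (z.1.1 - star l * z.1.2 + (wc + k * w0), z.1.2 + l) = height z.1 := by
      have := height_stab (O := OO q) (hO := star_mem) one_le_norm
        ⟨⟨T l (wc + k * w0) hlr, T_mem hlr hlm hwm⟩, by
          show mat (T l (wc + k * w0) hlr) 2 0 = 0
          rw [mat_T]; simp [TM]⟩ z
      have e : ((⟨⟨T l (wc + k * w0) hlr, T_mem hlr hlm hwm⟩, by
          show mat (T l (wc + k * w0) hlr) 2 0 = 0
          rw [mat_T]; simp [TM]⟩ : stab (OO q) star_mem) • z : X).1 =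
          act (mat (T l (wc + k * w0) hlr)) z.1 := rfl
      rw [e, mat_T, act_TM] at this
      exact this
    have him : (z.1.1 - star l * z.1.2 + (wc + k * w0)).im = sd q * (Int.fract v0 * E.Pp) / 2 := by
      have e0 : z.1.1 - star l * z.1.2 + (wc + k * w0) = z1' + k * w0 := by rw [hz1']; ring
      rw [e0, Complex.add_im, Complex.mul_im, hw0im, hw0re, Complex.intCast_re, hk, Int.fract]
      have hne : sd q * E.Pp ≠ 0 := by positivity
      have e1 : z1'.im = v0 * (sd q * E.Pp) / 2 := by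
        rw [hv0]; field_simp
      rw [e1]
      push_cast
      ring
    refine Prod.ext ?_ e2
    unfold PsiE
    rw [← e2]
    apply Complex.ext
    · show (z.1.1 - star l * z.1.2 + (wc + k * w0)).re = (-Complex.normSq (z.1.2 + l) - height z.1) / 2
      have : height (z.1.1 - star l * z.1.2 + (wc + k * w0), z.1.2 + l) =
        -(2 * (z.1.1 - star l * z.1.2 + (wc + k * w0)).re) - Complex.normSq (z.1.2 + l) := rfl
      rw [hheight] at this
      linarith
    · exact him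

/-- **Highest translates in the half box.** -/
theorem exists_top (h : Comp E q) (hP : 0 < E.Pp) {w1 w2 : ℤ × ℤ} (hw : EPw E w1 w2) (z : X) :
    ∃ y : X, (∀ φ : ℝ → ℝ≥0∞, cuspSum (OO q) star_mem φ z = cuspSum (OO q) star_mem φ y) ∧
      ∃ s t v u : ℝ, 0 ≤ s ∧ s ≤ 1 / 2 ∧ 0 ≤ t ∧ t ≤ 1 ∧ 0 ≤ v ∧ v ≤ E.Pp ∧ 0 < u ∧
        y.1 = PsiE (ee1 E q) (ee2 E q) s t (sd q * v) u ∧
        ∀ γ : Gam q, height (γ • y : X).1 ≤ u := by
  obtain ⟨γ0, hγ0⟩ := exists_highest (O := OO q) (hO := star_mem) finite_ball z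
  have main : ∀ y0 : X, (∃ a : Gam q, a ∈ stab (OO q) star_mem ∧ y0 = a • (γ0 • z)) →
      ∀ s0 t0 : ℝ, y0.1.2 = s0 * ee1 E q + t0 * ee2 E q → Int.fract s0 ≤ 1 / 2 →
      ∃ y : X, (∀ φ : ℝ → ℝ≥0∞, cuspSum (OO q) star_mem φ z = cuspSum (OO q) star_mem φ y) ∧
      ∃ s t v u : ℝ, 0 ≤ s ∧ s ≤ 1 / 2 ∧ 0 ≤ t ∧ t ≤ 1 ∧ 0 ≤ v ∧ v ≤ E.Pp ∧ 0 < u ∧
        y.1 = PsiE (ee1 E q) (ee2 E q) s t (sd q * v) u ∧
        ∀ γ : Gam q, height (γ • y : X).1 ≤ u := by
    rintro y0 ⟨a, ha, rfl⟩ s0 t0 hz hs0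
    obtain ⟨γ, hγ, v, hv0, hv1, hy⟩ := exists_translate h hP hw (a • (γ0 • z)) s0 t0 hz
    have hh1 : height (a • (γ0 • z) : X).1 = height (γ0 • z : X).1 :=
      height_stab (O := OO q) (hO := star_mem) one_le_norm ⟨a, ha⟩ (γ0 • z)
    refine ⟨γ • (a • (γ0 • z)), ?_, Int.fract s0, Int.fract t0, v, height (γ0 • z : X).1,
      Int.fract_nonneg _, hs0, Int.fract_nonneg _, (Int.fract_lt_one _).le, hv0, hv1,
      (γ0 • z : X).2, by rw [hy, hh1], ?_⟩
    · intro φ
      rw [cuspSum_smul one_le_norm, cuspSum_smul one_le_norm, cuspSum_smul one_le_norm]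
    · intro δ
      have := hγ0 (δ * γ * a * γ0)
      rwa [mul_smul, mul_smul, mul_smul] at this
  obtain ⟨s0, t0, hst⟩ := exists_coords h hw (γ0 • z : X).1.2
  by_cases hs : Int.fract s0 ≤ 1 / 2
  · exact main (γ0 • z) ⟨1, (stab (OO q) star_mem).one_mem, by rw [one_smul]⟩ s0 t0 hst hs
  · push Not at hs
    set g : Gam q := ⟨sg, sg_mem⟩ with hg
    have hgs : g ∈ stab (OO q) star_mem := by
      show mat sg 2 0 = 0
      simp [sg, mat_mkSU]
    refine main (g • (γ0 • z)) ⟨g, hgs, rfl⟩ (-s0) (-t0) ?_ ?_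
    · have e : (g • (γ0 • z) : X).1 = act (mat sg) (γ0 • z : X).1 := rfl
      rw [e, act_sg]
      show -(γ0 • z : X).1.2 = _
      rw [hst]
      push_cast
      ring
    · have hf : Int.fract s0 ≠ 0 := by linarith
      rw [Int.fract_neg hf]
      linarith

end

end Pool.Agent.Lib.H56.Gen
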